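import Mathlib

set_option autoImplicit false

namespace Pool.Agent.Helper238

/-- Operations used by the certified evaluations. -/
class Alg (α : Type) where
  add : α → α → α
  sub : α → α → α
  mul : α → α → α
  /-- multiplication by the rational number `n/d` -/
  sc : Int → Nat → α → α
  /-- the rational constant `n/d` -/
  cst : Int → Nat → α

/-- Affine enclosures with integer data. -/
structure TM where
  a : Int
  b : Int
  c : Int
  e : Nat

def TM.add (x y : TM) : TM :=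
  ⟨Int.add x.a y.a, Int.add x.b y.b, Int.add x.c y.c, Nat.add x.e y.e⟩

def TM.sub (x y : TM) : TM :=
  ⟨Int.add x.a (Int.neg y.a), Int.add x.b (Int.neg y.b), Int.add x.c (Int.neg y.c), Nat.add x.e y.e⟩

def TM.mul (x y : TM) : TM :=
  ⟨Int.shiftRight (Int.add (Int.mul 2 (Int.mul x.a y.a)) (Int.add (Int.mul x.b y.b) (Int.mul x.c y.c))) 65,
   Int.shiftRight (Int.add (Int.mul x.a y.b) (Int.mul x.b y.a)) 64,
   Int.shiftRight (Int.add (Int.mul x.a y.c) (Int.mul x.c y.a)) 64,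
   Nat.add (Nat.shiftRight
    (Nat.add
      (Nat.add (Nat.mul (Int.natAbs x.b) (Int.natAbs y.b)) (Nat.mul (Int.natAbs x.c) (Int.natAbs y.c)))
      (Nat.mul 2 (Nat.add (Int.natAbs (Int.add (Int.mul x.b y.c) (Int.mul x.c y.b)))
        (Nat.add (Nat.mul x.e (Nat.add (Nat.add (Int.natAbs y.a) (Int.natAbs y.b)) (Nat.add (Int.natAbs y.c) y.e)))
         (Nat.mul y.e (Nat.add (Nat.add (Int.natAbs x.a) (Int.natAbs x.b)) (Int.natAbs x.c)))))))
    65) 4⟩

def TM.sc (n : Int) (d : Nat) (x : TM) : TM :=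
  ⟨Int.ediv (Int.mul x.a n) (Int.ofNat d), Int.ediv (Int.mul x.b n) (Int.ofNat d),
   Int.ediv (Int.mul x.c n) (Int.ofNat d), Nat.add (Nat.div (Nat.mul x.e (Int.natAbs n)) d) 4⟩

def TM.cst (n : Int) (d : Nat) : TM :=
  ⟨Int.ediv (Int.mul n 18446744073709551616) (Int.ofNat d), 0, 0, 1⟩

instance : Alg TM := ⟨TM.add, TM.sub, TM.mul, TM.sc, TM.cst⟩

noncomputable instance : Alg ℝ := ⟨fun x y => x + y, fun x y => x - y, fun x y => x * y,
  fun n d x => (n : ℝ) / (d : ℝ) * x, fun n d => (n : ℝ) / (d : ℝ)⟩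

/-- `v` lies in the enclosure `t` at local coordinates `x, y`. -/
def Mem (x y : ℝ) (t : TM) (v : ℝ) : Prop :=
  |v * 18446744073709551616 - (t.a + t.b * x + t.c * y)| ≤ t.e

section sound
variable {x y : ℝ}

theorem Mem.add {s t : TM} {v w : ℝ} (h : Mem x y s v) (k : Mem x y t w) :
    Mem x y (Alg.add s t) (Alg.add v w) := by
  show |(v + w) * 18446744073709551616 - (((s.a + t.a : ℤ) : ℝ) + ((s.b + t.b : ℤ) : ℝ) * x
    + ((s.c + t.c : ℤ) : ℝ) * y)| ≤ ((s.e + t.e : ℕ) : ℝ)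
  unfold Mem at h k
  rw [abs_le] at *
  push_cast
  constructor <;> linarith [h.1, h.2, k.1, k.2]

theorem Mem.sub {s t : TM} {v w : ℝ} (h : Mem x y s v) (k : Mem x y t w) :
    Mem x y (Alg.sub s t) (Alg.sub v w) := by
  show |(v - w) * 18446744073709551616 - (((s.a + -t.a : ℤ) : ℝ) + ((s.b + -t.b : ℤ) : ℝ) * x
    + ((s.c + -t.c : ℤ) : ℝ) * y)| ≤ ((s.e + t.e : ℕ) : ℝ)
  unfold Mem at h k
  rw [abs_le] at *
  push_cast
  constructor <;> linarith [h.1, h.2, k.1, k.2]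

theorem floor_err (N : ℤ) (D : ℤ) (hD : 0 < D) (R : ℝ) (hR : (N : ℝ) / D = R) :
    R - 1 ≤ ((N / D : ℤ) : ℝ) ∧ ((N / D : ℤ) : ℝ) ≤ R := by
  subst hR
  have hD' : (0:ℝ) < (D:ℝ) := by exact_mod_cast hD
  have h1 : (N / D) * D ≤ N := Int.ediv_mul_le N hD.ne'
  have h2 : N < (N / D + 1) * D := Int.lt_ediv_add_one_mul_self N hD
  have h1' : ((N / D : ℤ) : ℝ) * D ≤ N := by exact_mod_cast h1
  have h2' : (N : ℝ) < (((N / D : ℤ) : ℝ) + 1) * D := by exact_mod_cast h2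
  constructor
  · rw [sub_le_iff_le_add, div_le_iff₀ hD']; exact h2'.le
  · rw [le_div_iff₀ hD']; exact h1'

theorem nfloor_err (N : ℕ) (D : ℕ) (hD : 0 < D) : (N : ℝ) / D ≤ ((N / D : ℕ) : ℝ) + 1 := by
  have hD' : (0:ℝ) < (D:ℝ) := by exact_mod_cast hD
  have h2 : N < (N / D + 1) * D := by
    have := Nat.lt_div_mul_add (a := N) hD
    nlinarith
  have h2' : (N : ℝ) < (((N / D : ℕ) : ℝ) + 1) * D := by exact_mod_cast h2
  rw [div_le_iff₀ hD']; exact h2'.le

theorem Mem.sc {s : TM} {v : ℝ} (n : Int) (d : Nat) (hd : 0 < d) (hx : |x| ≤ 1) (hy : |y| ≤ 1)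
    (h : Mem x y s v) : Mem x y (Alg.sc n d s) (Alg.sc n d v) := by
  show |((n : ℝ) / (d : ℝ) * v) * 18446744073709551616 - (((s.a * n / (d : ℤ) : ℤ) : ℝ)
    + ((s.b * n / (d : ℤ) : ℤ) : ℝ) * x
    + ((s.c * n / (d : ℤ) : ℤ) : ℝ) * y)| ≤ ((s.e * n.natAbs / d + 4 : ℕ) : ℝ)
  unfold Mem at h
  have hd' : (0:ℝ) < d := by exact_mod_cast hd
  have hdz : (0:ℤ) < (d:ℤ) := by exact_mod_cast hd
  have ea := floor_err (s.a * n) d hdz _ rfl
  have eb := floor_err (s.b * n) d hdz _ rfl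
  have ec := floor_err (s.c * n) d hdz _ rfl
  have ee := nfloor_err (s.e * n.natAbs) d hd
  push_cast at ea eb ec ee ⊢
  set q : ℝ := (n:ℝ) / d with hq
  have hqa : (s.a : ℝ) * n / d = q * s.a := by rw [hq]; ring
  have hqb : (s.b : ℝ) * n / d = q * s.b := by rw [hq]; ring
  have hqc : (s.c : ℝ) * n / d = q * s.c := by rw [hq]; ring
  have hnabs : ((n.natAbs : ℕ) : ℝ) = |(n:ℝ)| := by
    rw [← Int.cast_natCast, Int.natCast_natAbs, Int.cast_abs]
  have hqe : (s.e : ℝ) * (n.natAbs : ℝ) / d = |q| * s.e := by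
    rw [hq, abs_div, abs_of_pos hd', hnabs]; ring
  rw [hqa] at ea
  rw [hqb] at eb
  rw [hqc] at ec
  rw [hqe] at ee
  set A : ℝ := ((s.a * n / (d:ℤ) : ℤ) : ℝ)
  set B : ℝ := ((s.b * n / (d:ℤ) : ℤ) : ℝ)
  set C : ℝ := ((s.c * n / (d:ℤ) : ℤ) : ℝ)
  have e1 : q * v * 18446744073709551616 - (A + B * x + C * y)
      = q * (v * 18446744073709551616 - (s.a + s.b * x + s.c * y)) + (q * s.a - A)
        + (q * s.b - B) * x + (q * s.c - C) * y := by ring
  rw [e1]
  have t1 : |q * (v * 18446744073709551616 - (s.a + s.b * x + s.c * y))| ≤ |q| * s.e := by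
    rw [abs_mul]; exact mul_le_mul_of_nonneg_left h (abs_nonneg _)
  have t2 : |q * s.a - A| ≤ 1 := by rw [abs_le]; constructor <;> linarith [ea.1, ea.2]
  have t3 : |(q * s.b - B) * x| ≤ 1 := by
    rw [abs_mul]
    have : |q * s.b - B| ≤ 1 := by rw [abs_le]; constructor <;> linarith [eb.1, eb.2]
    exact mul_le_one₀ this (abs_nonneg _) hx
  have t4 : |(q * s.c - C) * y| ≤ 1 := by
    rw [abs_mul]
    have : |q * s.c - C| ≤ 1 := by rw [abs_le]; constructor <;> linarith [ec.1, ec.2]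
    exact mul_le_one₀ this (abs_nonneg _) hy
  calc _ ≤ |q * (v * 18446744073709551616 - (s.a + s.b * x + s.c * y)) + (q * s.a - A)
        + (q * s.b - B) * x| + |(q * s.c - C) * y| := abs_add_le _ _
    _ ≤ |q * (v * 18446744073709551616 - (s.a + s.b * x + s.c * y)) + (q * s.a - A)|
        + |(q * s.b - B) * x| + |(q * s.c - C) * y| := by gcongr; exact abs_add_le _ _
    _ ≤ |q * (v * 18446744073709551616 - (s.a + s.b * x + s.c * y))| + |q * s.a - A|
        + |(q * s.b - B) * x| + |(q * s.c - C) * y| := by gcongr; exact abs_add_le _ _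
    _ ≤ _ := by linarith

theorem Mem.cst (n : Int) (d : Nat) (hd : 0 < d) :
    Mem x y (Alg.cst n d) (Alg.cst n d) := by
  show |((n : ℝ) / (d : ℝ)) * 18446744073709551616
    - (((n * 18446744073709551616 / (d : ℤ) : ℤ) : ℝ) + ((0 : ℤ) : ℝ) * x + ((0 : ℤ) : ℝ) * y)|
    ≤ ((1 : ℕ) : ℝ)
  have hdz : (0:ℤ) < (d:ℤ) := by exact_mod_cast hd
  have ea := floor_err (n * 18446744073709551616) d hdz _ rfl
  push_cast at ea ⊢
  rw [abs_le]
  have : (n : ℝ) * 18446744073709551616 / d = (n : ℝ) / (d : ℝ) * 18446744073709551616 := by ring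
  rw [this] at ea
  constructor <;> linarith [ea.1, ea.2]

theorem mul_core (a b c a' b' c' δ ε e e' A B C : ℝ) (hx : |x| ≤ 1) (hy : |y| ≤ 1)
    (h : |δ| ≤ e) (k : |ε| ≤ e')
    (v2 : |(2 * (a * a') + (b * b' + c * c')) / 2 ^ (65:ℕ) - A| ≤ 1)
    (w3 : |(a * b' + b * a') / 2 ^ (64:ℕ) - B| ≤ 1)
    (w4 : |(a * c' + c * a') / 2 ^ (64:ℕ) - C| ≤ 1) :
    |((δ + (a + b * x + c * y)) / 18446744073709551616) *
        ((ε + (a' + b' * x + c' * y)) / 18446744073709551616)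
        * 18446744073709551616 - (A + B * x + C * y)| ≤
    ((|b| * |b'| + |c| * |c'|) + 2 * (|b * c' + c * b'| + (e * ((|a'| + |b'|) + (|c'| + e'))
      + e' * ((|a| + |b|) + |c|)))) / 2 ^ (65:ℕ) + 3 := by
  have e1 : ((δ + (a + b * x + c * y)) / 18446744073709551616) *
        ((ε + (a' + b' * x + c' * y)) / 18446744073709551616)
        * 18446744073709551616 - (A + B * x + C * y)
      = (b * b' * (2 * x ^ (2:ℕ) - 1) + c * c' * (2 * y ^ (2:ℕ) - 1)
        + 2 * ((b * c' + c * b') * (x * y))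
        + 2 * (δ * (a' + b' * x + c' * y + ε)) + 2 * (ε * (a + b * x + c * y))) / 2 ^ (65:ℕ)
        + ((2 * (a * a') + (b * b' + c * c')) / 2 ^ (65:ℕ) - A)
        + ((a * b' + b * a') / 2 ^ (64:ℕ) - B) * x
        + ((a * c' + c * a') / 2 ^ (64:ℕ) - C) * y := by
    ring
  rw [e1]
  have hx2 : |2 * x ^ (2:ℕ) - 1| ≤ 1 := by
    have : x ^ (2:ℕ) ≤ 1 := by rw [← sq_abs]; nlinarith [abs_nonneg x]
    rw [abs_le]; constructor <;> nlinarith [sq_nonneg x]
  have hy2 : |2 * y ^ (2:ℕ) - 1| ≤ 1 := by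
    have : y ^ (2:ℕ) ≤ 1 := by rw [← sq_abs]; nlinarith [abs_nonneg y]
    rw [abs_le]; constructor <;> nlinarith [sq_nonneg y]
  have hxy : |x * y| ≤ 1 := by rw [abs_mul]; exact mul_le_one₀ hx (abs_nonneg _) hy
  have u1 : |b * b' * (2 * x ^ (2:ℕ) - 1)| ≤ |b| * |b'| := by
    rw [abs_mul, abs_mul]; exact mul_le_of_le_one_right (by positivity) hx2
  have u2 : |c * c' * (2 * y ^ (2:ℕ) - 1)| ≤ |c| * |c'| := by
    rw [abs_mul, abs_mul]; exact mul_le_of_le_one_right (by positivity) hy2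
  have u3 : |2 * ((b * c' + c * b') * (x * y))| ≤ 2 * |b * c' + c * b'| := by
    rw [abs_mul, abs_mul, abs_two]
    have := mul_le_of_le_one_right (abs_nonneg (b * c' + c * b')) hxy
    linarith
  have lin : ∀ a b c : ℝ, |a + b * x + c * y| ≤ |a| + |b| + |c| := by
    intro a b c
    calc _ ≤ |a + b * x| + |c * y| := abs_add_le _ _
      _ ≤ |a| + |b * x| + |c * y| := by gcongr; exact abs_add_le _ _
      _ ≤ _ := by
        rw [abs_mul, abs_mul]
        have := mul_le_of_le_one_right (abs_nonneg b) hx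
        have := mul_le_of_le_one_right (abs_nonneg c) hy
        linarith
  have he : 0 ≤ e := (abs_nonneg _).trans h
  have he' : 0 ≤ e' := (abs_nonneg _).trans k
  have u4 : |2 * (δ * (a' + b' * x + c' * y + ε))|
      ≤ 2 * (e * (|a'| + |b'| + (|c'| + e'))) := by
    rw [abs_mul, abs_mul, abs_two]
    have h1 : |a' + b' * x + c' * y + ε| ≤ |a'| + |b'| + (|c'| + e') := by
      calc _ ≤ |a' + b' * x + c' * y| + |ε| := abs_add_le _ _
        _ ≤ _ := by linarith [lin a' b' c']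
    have := mul_le_mul h h1 (abs_nonneg _) he
    linarith
  have u5 : |2 * (ε * (a + b * x + c * y))|
      ≤ 2 * (e' * (|a| + |b| + |c|)) := by
    rw [abs_mul, abs_mul, abs_two]
    have := mul_le_mul k (lin a b c) (abs_nonneg _) he'
    linarith
  have v3 : |((a * b' + b * a') / 2 ^ (64:ℕ) - B) * x| ≤ 1 := by
    rw [abs_mul]; exact mul_le_one₀ w3 (abs_nonneg _) hx
  have v4 : |((a * c' + c * a') / 2 ^ (64:ℕ) - C) * y| ≤ 1 := by
    rw [abs_mul]; exact mul_le_one₀ w4 (abs_nonneg _) hy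
  clear hx2 hy2 hxy w3 w4 lin e1
  rw [abs_le] at u1 u2 u3 u4 u5 v2 v3 v4
  rw [abs_le]
  constructor
  · linarith [u1.1, u2.1, u3.1, u4.1, u5.1, v2.1, v3.1, v4.1]
  · linarith [u1.2, u2.2, u3.2, u4.2, u5.2, v2.2, v3.2, v4.2]

theorem Mem.mul {s t : TM} {v w : ℝ} (hx : |x| ≤ 1) (hy : |y| ≤ 1)
    (h : Mem x y s v) (k : Mem x y t w) :
    Mem x y (Alg.mul s t) (Alg.mul v w) := by
  show |(v * w) * 18446744073709551616 -
    ((((2 * (s.a * t.a) + (s.b * t.b + s.c * t.c)) >>> (65:ℕ) : ℤ) : ℝ)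
    + (((s.a * t.b + s.b * t.a) >>> (64:ℕ) : ℤ) : ℝ) * x
    + (((s.a * t.c + s.c * t.a) >>> (64:ℕ) : ℤ) : ℝ) * y)| ≤
      ((((s.b.natAbs * t.b.natAbs + s.c.natAbs * t.c.natAbs)
        + 2 * ((s.b * t.c + s.c * t.b).natAbs
          + (s.e * ((t.a.natAbs + t.b.natAbs) + (t.c.natAbs + t.e))
            + t.e * ((s.a.natAbs + s.b.natAbs) + s.c.natAbs)))) >>> (65:ℕ) + 4 : ℕ) : ℝ)
  rw [Int.shiftRight_eq_div_pow, Int.shiftRight_eq_div_pow, Int.shiftRight_eq_div_pow,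
    Nat.shiftRight_eq_div_pow]
  unfold Mem at h k
  have hnabs : ∀ n : ℤ, ((n.natAbs : ℕ) : ℝ) = |(n:ℝ)| := by
    intro n
    rw [← Int.cast_natCast, Int.natCast_natAbs, Int.cast_abs]
  have ea := floor_err (2 * (s.a * t.a) + (s.b * t.b + s.c * t.c)) (2^ (65:ℕ)) (by norm_num) _ rfl
  have eb := floor_err (s.a * t.b + s.b * t.a) (2^ (64:ℕ)) (by norm_num) _ rfl
  have ec := floor_err (s.a * t.c + s.c * t.a) (2^ (64:ℕ)) (by norm_num) _ rfl
  have ee := nfloor_err ((s.b.natAbs * t.b.natAbs + s.c.natAbs * t.c.natAbs)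
        + 2 * ((s.b * t.c + s.c * t.b).natAbs
          + (s.e * ((t.a.natAbs + t.b.natAbs) + (t.c.natAbs + t.e))
            + t.e * ((s.a.natAbs + s.b.natAbs) + s.c.natAbs)))) (2^ (65:ℕ)) (by norm_num)
  rw [Nat.cast_add]
  have hp65 : ((2 ^ (65:ℕ) : ℕ) : ℤ) = 2 ^ (65:ℕ) := by norm_num
  have hp64 : ((2 ^ (64:ℕ) : ℕ) : ℤ) = 2 ^ (64:ℕ) := by norm_num
  rw [hp65, hp64]
  generalize (((2 * (s.a * t.a) + (s.b * t.b + s.c * t.c)) / 2^ (65:ℕ) : ℤ) : ℝ) = A at *
  generalize (((s.a * t.b + s.b * t.a) / 2^ (64:ℕ) : ℤ) : ℝ) = B at *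
  generalize (((s.a * t.c + s.c * t.a) / 2^ (64:ℕ) : ℤ) : ℝ) = C at *
  generalize ((((s.b.natAbs * t.b.natAbs + s.c.natAbs * t.c.natAbs)
        + 2 * ((s.b * t.c + s.c * t.b).natAbs
          + (s.e * ((t.a.natAbs + t.b.natAbs) + (t.c.natAbs + t.e))
            + t.e * ((s.a.natAbs + s.b.natAbs) + s.c.natAbs)))) / 2^ (65:ℕ) : ℕ) : ℝ) = E at *
  push_cast [hnabs] at ea eb ec ee ⊢
  have hv : v = ((v * 18446744073709551616 - (s.a + s.b * x + s.c * y))
      + (s.a + s.b * x + s.c * y)) / 18446744073709551616 := by ring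
  have hw : w = ((w * 18446744073709551616 - (t.a + t.b * x + t.c * y))
      + (t.a + t.b * x + t.c * y)) / 18446744073709551616 := by ring
  have key := mul_core (x := x) (y := y) s.a s.b s.c t.a t.b t.c
    (v * 18446744073709551616 - (s.a + s.b * x + s.c * y))
    (w * 18446744073709551616 - (t.a + t.b * x + t.c * y)) s.e t.e A B C hx hy h k
    (by rw [abs_le]; constructor <;> linarith [ea.1, ea.2])
    (by rw [abs_le]; constructor <;> linarith [eb.1, eb.2])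
    (by rw [abs_le]; constructor <;> linarith [ec.1, ec.2])
  rw [← hv, ← hw] at key
  linarith [key]

/-- Sequencing of intermediate results. -/
def lt {α β : Type} (v : α) (k : α → β) : β := k v

theorem lt_rel {α β γ δ : Type} {R : α → β → Prop} {Q : γ → δ → Prop} {v : α} {w : β}
    {k : α → γ} {l : β → δ} (h : R v w) (hk : ∀ a b, R a b → Q (k a) (l b)) :
    Q (lt v k) (lt w l) := hk _ _ h

/-- certified positivity -/
def TM.pos (t : TM) : Bool :=
  match t.a with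
  | .ofNat n => Nat.blt (Nat.add (Nat.add (Int.natAbs t.b) (Int.natAbs t.c)) t.e) n
  | .negSucc _ => false

theorem Mem.pos {t : TM} {v : ℝ} (hx : |x| ≤ 1) (hy : |y| ≤ 1) (h : Mem x y t v)
    (ht : t.pos = true) : 0 < v := by
  obtain ⟨a, b, c, e⟩ := t
  unfold TM.pos at ht
  match a, ht with
  | .negSucc _, ht => exact absurd ht (by simp)
  | .ofNat n, ht =>
  have ht' : b.natAbs + c.natAbs + e < n := by
    simpa [Nat.blt] using ht
  unfold Mem at h
  have hnabs : ∀ n : ℤ, ((n.natAbs : ℕ) : ℝ) = |(n:ℝ)| := by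
    intro n
    rw [← Int.cast_natCast, Int.natCast_natAbs, Int.cast_abs]
  have h2 : |(b:ℝ)| + |(c:ℝ)| + e < n := by
    rw [← hnabs, ← hnabs]; exact_mod_cast ht'
  have hbx : |(b:ℝ) * x| ≤ |(b:ℝ)| := by
    rw [abs_mul]; exact mul_le_of_le_one_right (abs_nonneg _) hx
  have hcy : |(c:ℝ) * y| ≤ |(c:ℝ)| := by
    rw [abs_mul]; exact mul_le_of_le_one_right (abs_nonneg _) hy
  simp only [Int.ofNat_eq_natCast, Int.cast_natCast] at h
  rw [abs_le] at h hbx hcy
  have : 0 < v * 18446744073709551616 := by linarith [h.1, hbx.1, hcy.1]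
  linarith

/-- all entries certified positive -/
def posAll : List TM → Bool
  | [] => true
  | t :: l => (t.pos) && posAll l

theorem posAll_sound (hx : |x| ≤ 1) (hy : |y| ≤ 1) {l : List TM} {m : List ℝ}
    (h : List.Forall₂ (Mem x y) l m) (hl : posAll l = true) : ∀ v ∈ m, 0 < v := by
  induction h with
  | nil => simp
  | cons h1 h2 ih =>
    rw [posAll, Bool.and_eq_true] at hl
    intro v hv
    rcases List.mem_cons.1 hv with rfl | hv
    · exact h1.pos hx hy hl.1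
    · exact ih hl.2 v hv

end sound

/-- Subdivision certificates. -/
inductive Tree where
  | leaf (k : Nat) (l s : Int)
  | skip
  | sx (a b : Tree)
  | sy (a b : Tree)

/-- Checks a subdivision certificate on the box with centre `(c1,c2)` and half-widths
`(h1,h2)` (all in units `2^-64`). -/
def chk (test : Nat → Int → Int → TM → TM → Bool) (skip : Int → Nat → Int → Nat → Bool) :
    Tree → Int → Nat → Int → Nat → Bool
  | .leaf k l s, c1, h1, c2, h2 => test k l s ⟨c1, h1, 0, 0⟩ ⟨c2, 0, h2, 0⟩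
  | .skip, c1, h1, c2, h2 => skip c1 h1 c2 h2
  | .sx a b, c1, h1, c2, h2 =>
    chk test skip a (c1 - h1 + ((h1 + 1) / 2 : Nat)) ((h1 + 1) / 2) c2 h2 &&
    chk test skip b (c1 + h1 - ((h1 + 1) / 2 : Nat)) ((h1 + 1) / 2) c2 h2
  | .sy a b, c1, h1, c2, h2 =>
    chk test skip a c1 h1 (c2 - h2 + ((h2 + 1) / 2 : Nat)) ((h2 + 1) / 2) &&
    chk test skip b c1 h1 (c2 + h2 - ((h2 + 1) / 2 : Nat)) ((h2 + 1) / 2)

theorem split_interval (u : ℝ) (c : ℤ) (h : ℕ) (hu : |u - c| ≤ h) :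
    |u - ((c - h + ((h + 1) / 2 : ℕ) : ℤ) : ℝ)| ≤ (((h + 1) / 2 : ℕ) : ℝ) ∨
    |u - ((c + h - ((h + 1) / 2 : ℕ) : ℤ) : ℝ)| ≤ (((h + 1) / 2 : ℕ) : ℝ) := by
  have h2 : h ≤ 2 * ((h + 1) / 2) := by omega
  generalize (h + 1) / 2 = m at *
  have h2' : (h : ℝ) ≤ 2 * (m : ℝ) := by exact_mod_cast h2
  rw [abs_le] at hu
  rcases le_total u c with hc | hc
  · left
    rw [abs_le]; push_cast
    push_cast at h2'
    constructor <;> linarith [hu.1, hu.2]
  · right
    rw [abs_le]; push_cast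
    push_cast at h2'
    constructor <;> linarith [hu.1, hu.2]

theorem local_coord (u : ℝ) (c : ℤ) (h : ℕ) (hu : |u - c| ≤ h) :
    ∃ x : ℝ, |x| ≤ 1 ∧ u = c + h * x := by
  rcases Nat.eq_zero_or_pos h with h0 | h0
  · subst h0
    refine ⟨0, by simp, ?_⟩
    have : u - c = 0 := by
      rw [← abs_nonpos_iff]; simpa using hu
    simp; linarith
  · have h0' : (0:ℝ) < h := by exact_mod_cast h0
    refine ⟨(u - c) / h, ?_, by field_simp; ring⟩
    rw [abs_div, abs_of_pos h0', div_le_one h0']; exact hu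

/-- Soundness of `chk`. -/
theorem chk_sound (P : ℝ → ℝ → Prop) (test : Nat → Int → Int → TM → TM → Bool)
    (skip : Int → Nat → Int → Nat → Bool)
    (htest : ∀ k l s X Y x y u v, |x| ≤ 1 → |y| ≤ 1 → Mem x y X u → Mem x y Y v →
      test k l s X Y = true → P u v)
    (hskip : ∀ (c1 : ℤ) (h1 : ℕ) (c2 : ℤ) (h2 : ℕ) (u v : ℝ), skip c1 h1 c2 h2 = true →
      |u * 18446744073709551616 - c1| ≤ h1 → |v * 18446744073709551616 - c2| ≤ h2 → P u v) :
    ∀ (t : Tree) (c1 : ℤ) (h1 : ℕ) (c2 : ℤ) (h2 : ℕ), chk test skip t c1 h1 c2 h2 = true →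
      ∀ u v : ℝ, |u * 18446744073709551616 - c1| ≤ h1 →
        |v * 18446744073709551616 - c2| ≤ h2 → P u v := by
  intro t
  induction t with
  | leaf k l s =>
    intro c1 h1 c2 h2 hc u v hu hv
    obtain ⟨x, hx, hxu⟩ := local_coord _ _ _ hu
    obtain ⟨y, hy, hyv⟩ := local_coord _ _ _ hv
    refine htest k l s ⟨c1, h1, 0, 0⟩ ⟨c2, 0, h2, 0⟩ x y u v hx hy ?_ ?_ hc
    · unfold Mem
      rw [hxu]; simp
    · unfold Mem
      rw [hyv]; simp
  | skip =>
    intro c1 h1 c2 h2 hc u v hu hv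
    exact hskip c1 h1 c2 h2 u v hc hu hv
  | sx a b iha ihb =>
    intro c1 h1 c2 h2 hc u v hu hv
    rw [chk, Bool.and_eq_true] at hc
    rcases split_interval _ _ _ hu with h | h
    · exact iha _ _ _ _ hc.1 u v h hv
    · exact ihb _ _ _ _ hc.2 u v h hv
  | sy a b iha ihb =>
    intro c1 h1 c2 h2 hc u v hu hv
    rw [chk, Bool.and_eq_true] at hc
    rcases split_interval _ _ _ hv with h | h
    · exact iha _ _ _ _ hc.1 u v hu h
    · exact ihb _ _ _ _ hc.2 u v hu h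

end Pool.Agent.Helper238
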