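import Pool.Agent.Helper238.FinR23

set_option autoImplicit false

open MeasureTheory Set

namespace Pool.Agent.Helper238

theorem good_flip (cn kn : ℤ) (w1 w2 p r t : ℝ) (h : Good (quadR1 cn kn w1 (-w2)) p r (-t)) :
    Good (quadR1 cn kn w1 w2) p r t := by
  have e : quadR1 cn kn w1 (-w2) =
      { quadR1 cn kn w1 w2 with
        fxy := -(quadR1 cn kn w1 w2).fxy
        gxy := -(quadR1 cn kn w1 w2).gxy
        cxx := -(quadR1 cn kn w1 w2).cxx
        cyy := -(quadR1 cn kn w1 w2).cyy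
        B12 := -(quadR1 cn kn w1 w2).B12
        C12 := -(quadR1 cn kn w1 w2).C12 } := by
    simp only [quadR1, lt, alg_add, alg_sub, alg_mul, alg_sc, alg_cst, QD.mk.injEq]
    push_cast
    refine ⟨?_, ?_, ?_, ?_, ?_, ?_, ?_, ?_, ?_, ?_, ?_, ?_, ?_, ?_, ?_, ?_⟩ <;> first | trivial | ring
  rw [e] at h
  rcases h with h | h
  · left
    simp only at h
    linarith
  · right
    simp only at h
    refine le_of_eq_of_le ?_ (h.trans_eq ?_) <;> ring

theorem hasPair_R1' {m f1 f2 : E2} {β η : ℝ} (hcr : cr f1 f2 ≠ 0) (hβ0 : 0 ≤ β) (hη0 : 0 ≤ η)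
    (hβ : β ≤ 13 / 16) (hη : η ≤ 13 / 16) (hs : 1 / 200 ≤ β ^ 2 + η ^ 2) :
    HasPair (quado (va m f1) (vb m f1 f2 β η) (vc m f1) (vd m f1 f2 β η)) := by
  have h1 : |β| < 1 := by rw [abs_lt]; constructor <;> linarith
  have h2 : |η| < 1 := by rw [abs_lt]; constructor <;> linarith
  rcases le_total η β with hle | hle
  · have hpos : 0 < β := by
      rcases hβ0.eq_or_lt with h0 | h0
      · subst h0
        have : η = 0 := le_antisymm hle hη0
        subst this
        norm_num at hs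
      · exact h0
    obtain ⟨k, hk⟩ := R1_good β η hpos hη0 hle hβ hs
    exact hasPair_convex_of_good hcr h1 h2 k hk
  · have hpos : 0 < η := by
      rcases hη0.eq_or_lt with h0 | h0
      · subst h0
        have : β = 0 := le_antisymm hle hβ0
        subst this
        norm_num at hs
      · exact h0
    obtain ⟨k, hk⟩ := R1_good η β hpos hβ0 hle hη (by linarith)
    refine hasPair_convex_of_good hcr h1 h2 k ?_
    intro p r t hp hdet
    refine good_flip _ _ _ _ _ _ _ ?_
    have := hk p r (-t) hp (by linarith)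
    convert this using 2
    · ring
    · ring

theorem hasPair_fam1 {m f1 f2 : E2} {β η : ℝ} (hcr : cr f1 f2 ≠ 0) (hβ : 13 / 16 ≤ β)
    (hη0 : 0 ≤ η) (hη : η ≤ 13 / 16) :
    HasPair (quado (va m f1) (vb m f1 f2 β η) (vc m f1) (vd m f1 f2 β η)) := by
  set g1 : E2 := (1/3 : ℝ) • ((1 + β) • f1 + η • f2) with hg1
  set g2 : E2 := (-(4/7) : ℝ) • f2 with hg2
  set o : E2 := va m f1 + (2:ℝ) • g1 with ho
  have hb : 0 < 1 + β := by linarith
  have hD : cr g1 g2 ≠ 0 := by
    have : cr g1 g2 = -(4/21) * (1 + β) * cr f1 f2 := by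
      simp [cr, hg1, hg2]; ring
    rw [this]
    exact mul_ne_zero (by nlinarith) hcr
  have key := hasPair_I o g1 g2 hD ((1 - β) / (1 + β)) η
    (by rw [lt_div_iff₀ hb]; linarith) (by rw [div_le_iff₀ hb]; linarith) hη0 hη
    (by
      rcases le_or_gt (-(7/32)) ((1 - β) / (1 + β)) with h | h
      · exact Or.inl h
      · right
        rw [div_lt_iff₀ hb] at h
        have h1 : 1 + (1 - β) / (1 + β) = 2 / (1 + β) := by field_simp; ring
        rw [h1]
        have h2 : (1 - β) / (1 + β) * (η ^ 2 - 1) = (β ^ 2 - 1) * (1 - η ^ 2) / (1 + β) ^ 2 := by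
          field_simp; ring
        rw [h2, div_pow, ← mul_div_assoc, div_le_div_iff_of_pos_right (by positivity)]
        have h3 : 14 / 10 ≤ β ^ 2 - 1 := by nlinarith
        have h4 : 33 / 100 ≤ 1 - η ^ 2 := by nlinarith
        nlinarith)
  convert key using 2
  · ext i
    simp only [fp, ho, PiLp.add_apply, PiLp.smul_apply, smul_eq_mul]
    ring
  · ext i
    simp only [fp, ho, hg1, hg2, va, vb, PiLp.add_apply, PiLp.sub_apply, PiLp.smul_apply, smul_eq_mul]
    ring
  · ext i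
    simp only [fp, ho, hg1, hg2, va, vc, PiLp.add_apply, PiLp.sub_apply, PiLp.smul_apply, smul_eq_mul]
    field_simp
    ring
  · ext i
    simp only [fp, ho, hg1, hg2, va, vd, PiLp.add_apply, PiLp.sub_apply, PiLp.smul_apply, smul_eq_mul]
    ring

theorem hasPair_fam2 {m f1 f2 : E2} {β η : ℝ} (hcr : cr f1 f2 ≠ 0) (hβ : 0 ≤ β)
    (hη0 : 13 / 16 ≤ η) (hη : η < 1) :
    HasPair (quado (va m f1) (vb m f1 f2 β η) (vc m f1) (vd m f1 f2 β η)) := by
  set g1 : E2 := (-(1/3) : ℝ) • (β • f1 + (1 + η) • f2) with hg1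
  set g2 : E2 := (4/7 : ℝ) • f1 with hg2
  set o : E2 := vb m f1 f2 β η + (2:ℝ) • g1 with ho
  have hb : 0 < 1 + η := by linarith
  have hD : cr g1 g2 ≠ 0 := by
    have : cr g1 g2 = (4/21) * (1 + η) * cr f1 f2 := by
      simp [cr, hg1, hg2]; ring
    rw [this]
    exact mul_ne_zero (by nlinarith) hcr
  have hh0 : 0 < (1 - η) / (1 + η) := div_pos (by linarith) hb
  have hh1 : (1 - η) / (1 + η) ≤ 7 / 64 := by rw [div_le_iff₀ hb]; linarith
  have key : HasPair (quado (fp o g1 g2 1 (-(7/4))) (fp o g1 g2 (-2) 0) (fp o g1 g2 1 (7 / 4))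
      (fp o g1 g2 (1 + 3 * ((1 - η) / (1 + η))) (7 / 4 * (β * (1 + (1 - η) / (1 + η)))))) := by
    rcases le_total β (5/2) with h | h
    · exact hasPair_II o g1 g2 hD _ _ hh0 hβ (Or.inl ⟨hh1, h⟩)
    · exact hasPair_S o g1 g2 hD _ _ hh0 hh1 h
  convert key using 2
  · ext i
    simp only [fp, ho, hg1, hg2, va, vb, PiLp.add_apply, PiLp.sub_apply, PiLp.smul_apply, smul_eq_mul]
    ring
  · ext i
    simp only [fp, ho, PiLp.add_apply, PiLp.smul_apply, smul_eq_mul]
    ring
  · ext i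
    simp only [fp, ho, hg1, hg2, vb, vc, PiLp.add_apply, PiLp.sub_apply, PiLp.smul_apply, smul_eq_mul]
    ring
  · ext i
    simp only [fp, ho, hg1, hg2, vb, vd, PiLp.add_apply, PiLp.sub_apply, PiLp.smul_apply, smul_eq_mul]
    field_simp
    ring

end Pool.Agent.Helper238
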