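import Pool.Agent.Helper238.Alg

set_option autoImplicit false

namespace Pool.Agent.Helper238

/-- The sixteen numbers describing a pair of trial functions on a domain. -/
structure QD (α : Type) where
  k : α
  fxx : α
  fyy : α
  fxy : α
  gxx : α
  gyy : α
  gxy : α
  cxx : α
  cyy : α
  cxy : α
  B11 : α
  B22 : α
  B12 : α
  C11 : α
  C22 : α
  C12 : α

structure QDRel (x y : ℝ) (Q : QD TM) (R : QD ℝ) : Prop where
  k : Mem x y Q.k R.k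
  fxx : Mem x y Q.fxx R.fxx
  fyy : Mem x y Q.fyy R.fyy
  fxy : Mem x y Q.fxy R.fxy
  gxx : Mem x y Q.gxx R.gxx
  gyy : Mem x y Q.gyy R.gyy
  gxy : Mem x y Q.gxy R.gxy
  cxx : Mem x y Q.cxx R.cxx
  cyy : Mem x y Q.cyy R.cyy
  cxy : Mem x y Q.cxy R.cxy
  B11 : Mem x y Q.B11 R.B11
  B22 : Mem x y Q.B22 R.B22
  B12 : Mem x y Q.B12 R.B12
  C11 : Mem x y Q.C11 R.C11
  C22 : Mem x y Q.C22 R.C22
  C12 : Mem x y Q.C12 R.C12


open Alg in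
/-- The quantities whose positivity certifies the inequality. -/
def certList {α : Type} [Alg α] (l s : Int) (Q : QD α) : List α :=
  lt (sc 202643 1000000 (Alg.mul Q.k Q.k)) fun tk =>
  lt (Alg.mul tk Q.k) fun th =>
  lt (Alg.add Q.fxx Q.fyy) fun U0f => lt (Alg.sub Q.fxx Q.fyy) fun U1f => lt (sc 2 1 Q.fxy) fun U2f =>
  lt (Alg.add Q.gxx Q.gyy) fun U0g => lt (Alg.sub Q.gxx Q.gyy) fun U1g => lt (sc 2 1 Q.gxy) fun U2g =>
  lt (Alg.add Q.cxx Q.cyy) fun U0c => lt (Alg.sub Q.cxx Q.cyy) fun U1c => lt Q.cxy fun U2c =>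
  lt (Alg.sub (Alg.add (Alg.mul U0g Q.B11) (Alg.mul U0f Q.B22)) (sc 2 1 (Alg.mul U0c Q.B12))) fun l0 =>
  lt (Alg.sub (Alg.add (Alg.mul U1g Q.B11) (Alg.mul U1f Q.B22)) (sc 2 1 (Alg.mul U1c Q.B12))) fun l1 =>
  lt (Alg.sub (Alg.add (Alg.mul U2g Q.B11) (Alg.mul U2f Q.B22)) (sc 2 1 (Alg.mul U2c Q.B12))) fun l2 =>
  lt (Alg.mul tk (Alg.sub (Alg.mul U0f U0g) (Alg.mul U0c U0c))) fun q00 =>
  lt (Alg.mul tk (Alg.sub (Alg.mul U1f U1g) (Alg.mul U1c U1c))) fun q11 =>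
  lt (Alg.mul tk (Alg.sub (Alg.mul U2f U2g) (Alg.mul U2c U2c))) fun q22 =>
  lt (Alg.mul tk (Alg.sub (Alg.add (Alg.mul U0f U1g) (Alg.mul U1f U0g)) (sc 2 1 (Alg.mul U0c U1c)))) fun q01 =>
  lt (Alg.mul tk (Alg.sub (Alg.add (Alg.mul U0f U2g) (Alg.mul U2f U0g)) (sc 2 1 (Alg.mul U0c U2c)))) fun q02 =>
  lt (Alg.mul tk (Alg.sub (Alg.add (Alg.mul U1f U2g) (Alg.mul U2f U1g)) (sc 2 1 (Alg.mul U1c U2c)))) fun q12 =>
  lt (Alg.add Q.C11 Q.C22) fun T =>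
  lt (sc l 100 l0) fun lam => lt (sc s 1 l0) fun sig =>
  lt (Alg.sub l0 q00) fun F0 =>
  lt (Alg.sub (Alg.sub (sc (100 - 2 * l) 100 l0) (sc 2 1 q00)) (Alg.mul sig (Alg.sub th T))) fun G0 =>
  lt (Alg.sub (Alg.sub (Alg.mul sig T) lam) q00) fun K =>
  lt (Alg.sub l1 q01) fun L1 => lt (Alg.sub l2 q02) fun L2 =>
  lt (sc 1 2 (Alg.sub (Alg.mul sig (Alg.sub Q.C22 Q.C11)) q01)) fun y1 =>
  lt (sc 1 2 (Alg.sub (sc (-2) 1 (Alg.mul sig Q.C12)) q02)) fun y2 =>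
  lt (Alg.sub lam q11) fun D11 => lt (Alg.sub lam q22) fun D22 => lt (sc (-1) 2 q12) fun D12 =>
  lt (sc 4 1 F0) fun F4 =>
  lt (Alg.mul K F4) fun KF =>
  lt (Alg.sub (Alg.sub (Alg.mul KF D11) (Alg.mul F4 (Alg.mul y1 y1))) (Alg.mul K (Alg.mul L1 L1))) fun E11 =>
  lt (Alg.sub (Alg.sub (Alg.mul KF D22) (Alg.mul F4 (Alg.mul y2 y2))) (Alg.mul K (Alg.mul L2 L2))) fun E22 =>
  lt (Alg.sub (Alg.sub (Alg.mul KF D12) (Alg.mul F4 (Alg.mul y1 y2))) (Alg.mul K (Alg.mul L1 L2))) fun E12 =>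
  lt (Alg.sub (Alg.mul E11 E22) (Alg.mul E12 E12)) fun det =>
  [l0, F0, G0, K, E11, E22, det]

section
variable {x y : ℝ}


theorem certList_rel (hx : |x| ≤ 1) (hy : |y| ≤ 1) (l s : Int) {Q : QD TM} {R : QD ℝ}
    (h : QDRel x y Q R) : List.Forall₂ (Mem x y) (certList l s Q) (certList l s R) := by
  obtain ⟨h1, h2, h3, h4, h5, h6, h7, h8, h9, h10, h11, h12, h13, h14, h15, h16⟩ := h
  unfold certList
  repeat' (with_reducible refine lt_rel (R := Mem x y) (Q := List.Forall₂ (Mem x y)) (by with_reducible repeat' (first | assumption | apply Mem.add | apply Mem.sub | apply Mem.mul | apply Mem.sc | apply Mem.cst | exact Nat.one_pos | decide)) (fun _ _ _ => ?_))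
  simp only [List.forall₂_cons, List.Forall₂.nil, and_true]
  refine ⟨?_, ?_, ?_, ?_, ?_, ?_, ?_⟩ <;> assumption

end

/-- the inequality for the metric `(p, r, t)`: either the linear pair or the given pair works -/
def Good (Q : QD ℝ) (p r t : ℝ) : Prop :=
  (202643 / 1000000 * Q.k ^ 3 ≤ r * Q.C11 + p * Q.C22 - 2 * t * Q.C12) ∨
  (202643 / 1000000 * Q.k ^ 2 *
      ((p * Q.fxx + r * Q.fyy + 2 * t * Q.fxy) * (p * Q.gxx + r * Q.gyy + 2 * t * Q.gxy)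
        - (p * Q.cxx + r * Q.cyy + t * Q.cxy) ^ 2) ≤
    (p * Q.gxx + r * Q.gyy + 2 * t * Q.gxy) * Q.B11
      + (p * Q.fxx + r * Q.fyy + 2 * t * Q.fxy) * Q.B22
      - 2 * (p * Q.cxx + r * Q.cyy + t * Q.cxy) * Q.B12)

@[simp] theorem alg_add (a b : ℝ) : Alg.add a b = a + b := rfl
@[simp] theorem alg_sub (a b : ℝ) : Alg.sub a b = a - b := rfl
@[simp] theorem alg_mul (a b : ℝ) : Alg.mul a b = a * b := rfl
@[simp] theorem alg_sc (n : ℤ) (d : ℕ) (a : ℝ) : Alg.sc n d a = (n : ℝ) / (d : ℝ) * a := rfl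
@[simp] theorem alg_cst (n : ℤ) (d : ℕ) : (Alg.cst n d : ℝ) = (n : ℝ) / (d : ℝ) := rfl

theorem psd4 (F0 K L1 L2 y1 y2 D11 D12 D22 z u1 u2 : ℝ) (hF : 0 < F0) (hK : 0 < K)
    (h11 : 0 < K * (4 * F0) * D11 - 4 * F0 * (y1 * y1) - K * (L1 * L1))
    (hdet : 0 < (K * (4 * F0) * D11 - 4 * F0 * (y1 * y1) - K * (L1 * L1))
      * (K * (4 * F0) * D22 - 4 * F0 * (y2 * y2) - K * (L2 * L2))
      - (K * (4 * F0) * D12 - 4 * F0 * (y1 * y2) - K * (L1 * L2))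
      * (K * (4 * F0) * D12 - 4 * F0 * (y1 * y2) - K * (L1 * L2))) :
    0 ≤ F0 + L1 * u1 + L2 * u2 + K * z ^ 2 + 2 * z * (y1 * u1 + y2 * u2) + D11 * u1 ^ 2
      + 2 * D12 * u1 * u2 + D22 * u2 ^ 2 := by
  set E11 := K * (4 * F0) * D11 - 4 * F0 * (y1 * y1) - K * (L1 * L1) with e11
  set E22 := K * (4 * F0) * D22 - 4 * F0 * (y2 * y2) - K * (L2 * L2) with e22
  set E12 := K * (4 * F0) * D12 - 4 * F0 * (y1 * y2) - K * (L1 * L2) with e12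
  have hE : 0 ≤ E11 * u1 ^ 2 + 2 * E12 * u1 * u2 + E22 * u2 ^ 2 := by
    have h1 : 0 ≤ E11 * (E11 * u1 ^ 2 + 2 * E12 * u1 * u2 + E22 * u2 ^ 2) := by
      have : E11 * (E11 * u1 ^ 2 + 2 * E12 * u1 * u2 + E22 * u2 ^ 2)
        = (E11 * u1 + E12 * u2) ^ 2 + (E11 * E22 - E12 * E12) * u2 ^ 2 := by ring
      rw [this]; positivity
    exact nonneg_of_mul_nonneg_right h1 h11
  have key : 4 * F0 * K * (F0 + L1 * u1 + L2 * u2 + K * z ^ 2 + 2 * z * (y1 * u1 + y2 * u2)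
      + D11 * u1 ^ 2 + 2 * D12 * u1 * u2 + D22 * u2 ^ 2)
      = K * (2 * F0 + L1 * u1 + L2 * u2) ^ 2 + 4 * F0 * (K * z + y1 * u1 + y2 * u2) ^ 2
        + (E11 * u1 ^ 2 + 2 * E12 * u1 * u2 + E22 * u2 ^ 2) := by
    rw [e11, e22, e12]; ring
  have : 0 ≤ 4 * F0 * K * (F0 + L1 * u1 + L2 * u2 + K * z ^ 2 + 2 * z * (y1 * u1 + y2 * u2)
      + D11 * u1 ^ 2 + 2 * D12 * u1 * u2 + D22 * u2 ^ 2) := by
    rw [key]; positivity
  exact nonneg_of_mul_nonneg_right this (by positivity)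

/-- The core of the certificate, in abstract form (`q`s already multiplied by `tk`). -/
theorem sproc_core (th l0 l1 l2 q00 q11 q22 q01 q02 q12 T C1 C2 lam sig z u1 u2
    F0 K L1 L2 y1 y2 D11 D12 D22 E11 E22 E12 : ℝ)
    (hs : 0 ≤ sig) (hF0 : 0 < F0)
    (hG0 : 0 < l0 - 2 * lam - 2 * q00 - sig * (th - T))
    (hK : 0 < K) (h11 : 0 < E11) (hdet : 0 < E11 * E22 - E12 * E12)
    (eF0 : F0 = l0 - q00) (eK : K = sig * T - lam - q00)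
    (eL1 : L1 = l1 - q01) (eL2 : L2 = l2 - q02) (ey1 : y1 = (sig * C1 - q01) / 2)
    (ey2 : y2 = (sig * C2 - q02) / 2) (eD11 : D11 = lam - q11) (eD22 : D22 = lam - q22)
    (eD12 : D12 = - q12 / 2)
    (eE11 : E11 = K * (4 * F0) * D11 - 4 * F0 * (y1 * y1) - K * (L1 * L1))
    (eE22 : E22 = K * (4 * F0) * D22 - 4 * F0 * (y2 * y2) - K * (L2 * L2))
    (eE12 : E12 = K * (4 * F0) * D12 - 4 * F0 * (y1 * y2) - K * (L1 * L2))
    (hz : 0 ≤ z) (hc : 2 * z + z ^ 2 = u1 ^ 2 + u2 ^ 2) :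
    th ≤ T * (1 + z) + C1 * u1 + C2 * u2 ∨
    ((1 + z) ^ 2 * q00 + (1 + z) * u1 * q01 + (1 + z) * u2 * q02 + u1 ^ 2 * q11
      + u1 * u2 * q12 + u2 ^ 2 * q22) ≤ (1 + z) * l0 + u1 * l1 + u2 * l2 := by
  by_cases hlin : th ≤ T * (1 + z) + C1 * u1 + C2 * u2
  · exact Or.inl hlin
  right
  have h1 := psd4 F0 K L1 L2 y1 y2 D11 D12 D22 z u1 u2 hF0 hK
    (by rw [← eE11]; exact h11) (by rw [← eE11, ← eE22, ← eE12]; exact hdet)
  have h2 : 0 ≤ (l0 - 2 * lam - 2 * q00 - sig * (th - T)) * z :=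
    mul_nonneg hG0.le hz
  have h3 : 0 ≤ sig * z * (th - (T * (1 + z) + C1 * u1 + C2 * u2)) := by
    push Not at hlin
    have : 0 ≤ th - (T * (1 + z) + C1 * u1 + C2 * u2) := by linarith
    positivity
  have h4 : lam * (2 * z + z ^ 2) = lam * (u1 ^ 2 + u2 ^ 2) := by rw [hc]
  clear eE11 eE22 eE12 hdet h11
  subst eF0 eK eL1 eL2 ey1 ey2 eD11 eD22 eD12
  linear_combination h1 + h2 + h3 - h4

theorem lt_elim {α β : Type} (P : β → Prop) (a : α) (k : α → β) (h : P (lt a k)) :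
    ∃ b, b = a ∧ P (k b) := ⟨a, rfl, h⟩

theorem good_of_cert (Q : QD ℝ) (l s : ℤ) (hs : 0 ≤ s) (h : ∀ v ∈ certList l s Q, 0 < v)
    (p r t : ℝ) (hp : 0 < p) (hdet : p * r - t ^ 2 = 1) : Good Q p r t := by
  have hr : 0 < r := by
    by_contra hr
    push Not at hr
    nlinarith [mul_nonneg hp.le (neg_nonneg.2 hr), sq_nonneg t]
  have hz : 0 ≤ (p + r) / 2 - 1 := by
    nlinarith [sq_nonneg (p - r), sq_nonneg (p + r - 2), sq_nonneg t]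
  have hc : 2 * ((p + r) / 2 - 1) + ((p + r) / 2 - 1) ^ 2 = ((p - r) / 2) ^ 2 + t ^ 2 := by
    linear_combination hdet
  have hsr : (0:ℝ) ≤ s := by exact_mod_cast hs
  unfold certList at h
  replace h := lt_elim (fun m : List ℝ => ∀ v ∈ m, 0 < v) _ _ h
  obtain ⟨tk, etk, h⟩ := h
  replace h := lt_elim (fun m : List ℝ => ∀ v ∈ m, 0 < v) _ _ h
  obtain ⟨th, eth, h⟩ := h
  replace h := lt_elim (fun m : List ℝ => ∀ v ∈ m, 0 < v) _ _ h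
  obtain ⟨U0f, eU0f, h⟩ := h
  replace h := lt_elim (fun m : List ℝ => ∀ v ∈ m, 0 < v) _ _ h
  obtain ⟨U1f, eU1f, h⟩ := h
  replace h := lt_elim (fun m : List ℝ => ∀ v ∈ m, 0 < v) _ _ h
  obtain ⟨U2f, eU2f, h⟩ := h
  replace h := lt_elim (fun m : List ℝ => ∀ v ∈ m, 0 < v) _ _ h
  obtain ⟨U0g, eU0g, h⟩ := h
  replace h := lt_elim (fun m : List ℝ => ∀ v ∈ m, 0 < v) _ _ h
  obtain ⟨U1g, eU1g, h⟩ := h
  replace h := lt_elim (fun m : List ℝ => ∀ v ∈ m, 0 < v) _ _ h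
  obtain ⟨U2g, eU2g, h⟩ := h
  replace h := lt_elim (fun m : List ℝ => ∀ v ∈ m, 0 < v) _ _ h
  obtain ⟨U0c, eU0c, h⟩ := h
  replace h := lt_elim (fun m : List ℝ => ∀ v ∈ m, 0 < v) _ _ h
  obtain ⟨U1c, eU1c, h⟩ := h
  replace h := lt_elim (fun m : List ℝ => ∀ v ∈ m, 0 < v) _ _ h
  obtain ⟨U2c, eU2c, h⟩ := h
  replace h := lt_elim (fun m : List ℝ => ∀ v ∈ m, 0 < v) _ _ h
  obtain ⟨l0, el0, h⟩ := h
  replace h := lt_elim (fun m : List ℝ => ∀ v ∈ m, 0 < v) _ _ h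
  obtain ⟨l1, el1, h⟩ := h
  replace h := lt_elim (fun m : List ℝ => ∀ v ∈ m, 0 < v) _ _ h
  obtain ⟨l2, el2, h⟩ := h
  replace h := lt_elim (fun m : List ℝ => ∀ v ∈ m, 0 < v) _ _ h
  obtain ⟨q00, eq00, h⟩ := h
  replace h := lt_elim (fun m : List ℝ => ∀ v ∈ m, 0 < v) _ _ h
  obtain ⟨q11, eq11, h⟩ := h
  replace h := lt_elim (fun m : List ℝ => ∀ v ∈ m, 0 < v) _ _ h
  obtain ⟨q22, eq22, h⟩ := h
  replace h := lt_elim (fun m : List ℝ => ∀ v ∈ m, 0 < v) _ _ h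
  obtain ⟨q01, eq01, h⟩ := h
  replace h := lt_elim (fun m : List ℝ => ∀ v ∈ m, 0 < v) _ _ h
  obtain ⟨q02, eq02, h⟩ := h
  replace h := lt_elim (fun m : List ℝ => ∀ v ∈ m, 0 < v) _ _ h
  obtain ⟨q12, eq12, h⟩ := h
  replace h := lt_elim (fun m : List ℝ => ∀ v ∈ m, 0 < v) _ _ h
  obtain ⟨T, eT, h⟩ := h
  replace h := lt_elim (fun m : List ℝ => ∀ v ∈ m, 0 < v) _ _ h
  obtain ⟨lam, elam, h⟩ := h
  replace h := lt_elim (fun m : List ℝ => ∀ v ∈ m, 0 < v) _ _ h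
  obtain ⟨sig, esig, h⟩ := h
  replace h := lt_elim (fun m : List ℝ => ∀ v ∈ m, 0 < v) _ _ h
  obtain ⟨F0, eF0, h⟩ := h
  replace h := lt_elim (fun m : List ℝ => ∀ v ∈ m, 0 < v) _ _ h
  obtain ⟨G0, eG0, h⟩ := h
  replace h := lt_elim (fun m : List ℝ => ∀ v ∈ m, 0 < v) _ _ h
  obtain ⟨K, eK, h⟩ := h
  replace h := lt_elim (fun m : List ℝ => ∀ v ∈ m, 0 < v) _ _ h
  obtain ⟨L1, eL1, h⟩ := h
  replace h := lt_elim (fun m : List ℝ => ∀ v ∈ m, 0 < v) _ _ h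
  obtain ⟨L2, eL2, h⟩ := h
  replace h := lt_elim (fun m : List ℝ => ∀ v ∈ m, 0 < v) _ _ h
  obtain ⟨y1, ey1, h⟩ := h
  replace h := lt_elim (fun m : List ℝ => ∀ v ∈ m, 0 < v) _ _ h
  obtain ⟨y2, ey2, h⟩ := h
  replace h := lt_elim (fun m : List ℝ => ∀ v ∈ m, 0 < v) _ _ h
  obtain ⟨D11, eD11, h⟩ := h
  replace h := lt_elim (fun m : List ℝ => ∀ v ∈ m, 0 < v) _ _ h
  obtain ⟨D22, eD22, h⟩ := h
  replace h := lt_elim (fun m : List ℝ => ∀ v ∈ m, 0 < v) _ _ h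
  obtain ⟨D12, eD12, h⟩ := h
  replace h := lt_elim (fun m : List ℝ => ∀ v ∈ m, 0 < v) _ _ h
  obtain ⟨F4, eF4, h⟩ := h
  replace h := lt_elim (fun m : List ℝ => ∀ v ∈ m, 0 < v) _ _ h
  obtain ⟨KF, eKF, h⟩ := h
  replace h := lt_elim (fun m : List ℝ => ∀ v ∈ m, 0 < v) _ _ h
  obtain ⟨E11, eE11, h⟩ := h
  replace h := lt_elim (fun m : List ℝ => ∀ v ∈ m, 0 < v) _ _ h
  obtain ⟨E22, eE22, h⟩ := h
  replace h := lt_elim (fun m : List ℝ => ∀ v ∈ m, 0 < v) _ _ h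
  obtain ⟨E12, eE12, h⟩ := h
  replace h := lt_elim (fun m : List ℝ => ∀ v ∈ m, 0 < v) _ _ h
  obtain ⟨det, edet, h⟩ := h
  simp only [List.mem_cons, List.not_mem_nil, or_false, forall_eq_or_imp, forall_eq] at h
  obtain ⟨h0, h1, h2, h3, h4, h5, h6⟩ := h
  simp only [alg_add, alg_sub, alg_mul, alg_sc] at etk eth eU0f eU1f eU2f eU0g eU1g eU2g eU0c eU1c eU2c el0 el1 el2 eq00 eq11 eq22 eq01 eq02 eq12 eT elam esig eF0 eG0 eK eL1 eL2 ey1 ey2 eD11 eD22 eD12 eF4 eKF eE11 eE22 eE12 edet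
  push_cast at etk eth eU0f eU1f eU2f eU0g eU1g eU2g eU0c eU1c eU2c el0 el1 el2 eq00 eq11 eq22 eq01 eq02 eq12 eT elam esig eF0 eG0 eK eL1 eL2 ey1 ey2 eD11 eD22 eD12 eF4 eKF eE11 eE22 eE12 edet
  have key := sproc_core th l0 l1 l2 q00 q11 q22 q01 q02 q12 T (Q.C22 - Q.C11) (-2 * Q.C12) lam sig
    ((p + r) / 2 - 1) ((p - r) / 2) t F0 K L1 L2 y1 y2 D11 D12 D22 E11 E22 E12
    (by rw [esig]; positivity) h1
    (by
      have : l0 - 2 * lam - 2 * q00 - sig * (th - T) = G0 := by rw [eG0, elam]; ring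
      rw [this]; exact h2) h3 h4 (by rw [← edet]; exact h6) eF0 eK eL1 eL2
    (by rw [ey1]; ring) (by rw [ey2]; ring) eD11 eD22 (by rw [eD12]; ring)
    (by rw [eE11, eKF, eF4]; ring) (by rw [eE22, eKF, eF4]; ring) (by rw [eE12, eKF, eF4]; ring)
    hz hc
  clear eF0 eG0 eK eL1 eL2 ey1 ey2 eD11 eD22 eD12 eF4 eKF eE11 eE22 eE12 edet h0 h1 h2 h3 h4 h5 h6 esig elam
  rcases key with key | key
  · left
    have e1 : th = 202643 / 1000000 * Q.k ^ 3 := by rw [eth, etk]; ring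
    rw [← e1]
    rw [eT] at key
    linear_combination key
  · right
    have e1 : 202643 / 1000000 * Q.k ^ 2 = tk := by rw [etk]; ring
    rw [e1]
    clear eth etk e1 hz hc hdet
    subst eq00 eq11 eq22 eq01 eq02 eq12 el0 el1 el2 eU0f eU1f eU2f eU0g eU1g eU2g eU0c eU1c eU2c
    linear_combination key

end Pool.Agent.Helper238
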