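import Pool.Agent.Helper238.QuadR1

set_option autoImplicit false

namespace Pool.Agent.Helper238

/-- subdivision certificate -/
def treeR1B1 : Tree :=
  .skip

theorem chkR1B1 : chk testR1 skipR1 treeR1B1 1873497444986126336 1873497444986126336 5620492334958379008 1873497444986126336 = true := by
  decide +kernel

/-- subdivision certificate -/
def treeR1B2 : Tree :=
  .sx (.sy (.sx (.sy (.sx (.sy (.sx (.leaf 0 (-55) 3) (.leaf 0 (-55) 3)) (.sx (.leaf 0 (-55) 3)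
  (.leaf 0 (-55) 3))) (.sy (.sx (.leaf 0 (-55) 3) (.leaf 0 (-55) 3)) (.sx (.leaf 0 (-55) 3)
  (.leaf 0 (-55) 3)))) (.sx (.sy (.sx (.leaf 0 (-55) 3) (.leaf 0 (-55) 3)) (.sx (.leaf 0 (-55)
  3) (.leaf 0 (-55) 3))) (.sy (.sx (.leaf 0 (-55) 3) (.leaf 0 (-55) 3)) (.sx (.leaf 0 (-55) 3)
  (.leaf 0 (-55) 3))))) (.sy (.sx (.sy (.leaf 0 (-55) 3) (.leaf 0 (-55) 3)) (.sy (.leaf 0 (-55)
  3) (.leaf 0 (-55) 3))) (.sx (.sy (.leaf 0 (-55) 3) (.leaf 0 (-55) 3)) (.sy (.leaf 0 (-55) 3)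
  (.leaf 0 (-55) 3))))) (.sx (.sy (.sx (.sy (.sx (.leaf 0 (-55) 3) (.leaf 0 (-55) 3)) (.sx
  (.leaf 0 (-55) 3) (.leaf 0 (-55) 3))) (.sy (.leaf 0 (-55) 3) (.leaf 0 (-55) 3))) (.sx (.sy
  (.leaf 0 (-55) 3) (.leaf 0 (-55) 3)) (.sy (.leaf 0 (-55) 3) (.leaf 0 (-55) 3)))) (.sy (.sx
  (.sy (.leaf 0 (-55) 3) (.leaf 0 (-55) 3)) (.sy (.leaf 0 (-54) 3) (.leaf 0 (-54) 3))) (.sx (.sy
  (.leaf 0 (-54) 3) (.leaf 0 (-54) 3)) (.sy (.leaf 0 (-54) 3) (.leaf 0 (-54) 3)))))) (.sy (.sx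
  (.sy (.sx (.sy (.leaf 0 (-54) 3) (.leaf 0 (-54) 3)) (.sy (.leaf 0 (-54) 3) (.leaf 0 (-54) 3)))
  (.sx (.sy (.leaf 0 (-54) 3) (.leaf 0 (-54) 3)) (.sy (.leaf 0 (-54) 3) (.leaf 0 (-54) 3))))
  (.sy (.sx (.sy (.leaf 1 (-54) 3) (.leaf 1 (-54) 3)) (.leaf 1 (-54) 3)) (.sx (.sy (.leaf 1
  (-54) 3) (.leaf 1 (-54) 3)) (.leaf 1 (-54) 3)))) (.sx (.sy (.sx (.sy (.leaf 0 (-54) 3) (.leaf
  0 (-54) 3)) (.sy (.leaf 0 (-54) 3) (.leaf 1 (-54) 3))) (.sx (.sy (.leaf 0 (-54) 3) (.leaf 1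
  (-54) 3)) (.sy (.leaf 1 (-54) 3) (.leaf 1 (-54) 3)))) (.sy (.sx (.sy (.leaf 1 (-54) 3) (.leaf
  1 (-54) 3)) (.sy (.leaf 1 (-53) 3) (.leaf 1 (-53) 3))) (.sx (.sy (.leaf 1 (-54) 3) (.leaf 1
  (-53) 3)) (.sy (.leaf 1 (-53) 3) (.leaf 1 (-53) 3))))))

theorem chkR1B2 : chk testR1 skipR1 treeR1B2 5620492334958379008 1873497444986126336 1873497444986126336 1873497444986126336 = true := by
  decide +kernel

/-- subdivision certificate -/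
def treeR1B3 : Tree :=
  .sx (.sy (.sx (.sy (.sx (.sy (.leaf 0 (-55) 3) (.skip)) (.sy (.leaf 0 (-54) 3) (.leaf 0 (-54)
  3))) (.skip)) (.sy (.sx (.sy (.leaf 0 (-54) 3) (.leaf 0 (-54) 3)) (.sy (.leaf 0 (-54) 3)
  (.leaf 1 (-54) 3))) (.sx (.sy (.leaf 1 (-54) 3) (.skip)) (.sy (.leaf 1 (-54) 3) (.leaf 1 (-54)
  3))))) (.skip)) (.sy (.sx (.sy (.sx (.sy (.leaf 1 (-54) 3) (.leaf 1 (-54) 3)) (.sy (.leaf 1
  (-54) 3) (.leaf 1 (-53) 3))) (.sx (.sy (.leaf 1 (-54) 3) (.leaf 1 (-53) 3)) (.sy (.leaf 1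
  (-53) 3) (.leaf 1 (-53) 3)))) (.sy (.sx (.sy (.leaf 1 (-53) 3) (.leaf 1 (-53) 3)) (.leaf 1
  (-53) 3)) (.sx (.sy (.leaf 1 (-53) 3) (.leaf 1 (-53) 3)) (.leaf 1 (-53) 3)))) (.sx (.sy (.sx
  (.sy (.leaf 1 (-53) 3) (.skip)) (.leaf 1 (-53) 3)) (.skip)) (.sy (.sx (.leaf 1 (-53) 3) (.leaf
  1 (-52) 3)) (.sx (.leaf 1 (-52) 3) (.leaf 1 (-52) 3)))))

theorem chkR1B3 : chk testR1 skipR1 treeR1B3 5620492334958379008 1873497444986126336 5620492334958379008 1873497444986126336 = true := by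
  decide +kernel

/-- subdivision certificate -/
def treeR1E : Tree :=
  .skip

theorem chkR1E : chk testR1 skipR1 treeR1E 3746994889972252672 3746994889972252672 11240984669916758016 3746994889972252672 = true := by
  decide +kernel

end Pool.Agent.Helper238
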