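import Pool.Agent.Helper238.QuadR1

set_option autoImplicit false

namespace Pool.Agent.Helper238

/-- subdivision certificate -/
def treeR1C : Tree :=
  .sx (.sy (.sx (.sy (.sx (.sy (.sx (.leaf 1 (-53) 3) (.leaf 1 (-53) 3)) (.sx (.leaf 1 (-53) 3)
  (.leaf 1 (-53) 3))) (.sy (.sx (.leaf 1 (-53) 3) (.leaf 1 (-52) 3)) (.sx (.leaf 1 (-53) 3)
  (.leaf 1 (-52) 3)))) (.sx (.sy (.sx (.leaf 1 (-53) 3) (.leaf 1 (-53) 3)) (.sx (.leaf 1 (-53)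
  3) (.leaf 1 (-53) 3))) (.sy (.sx (.leaf 1 (-53) 3) (.leaf 1 (-52) 3)) (.sx (.leaf 1 (-52) 3)
  (.leaf 1 (-52) 3))))) (.sy (.sx (.sy (.sx (.leaf 1 (-52) 3) (.leaf 1 (-51) 3)) (.sx (.leaf 1
  (-52) 3) (.leaf 1 (-51) 3))) (.sy (.sx (.leaf 1 (-51) 3) (.leaf 2 (-52) 3)) (.sx (.leaf 1
  (-50) 3) (.leaf 2 (-52) 3)))) (.sx (.sy (.sx (.leaf 1 (-52) 3) (.leaf 1 (-51) 3)) (.sx (.leaf
  1 (-51) 3) (.leaf 1 (-51) 3))) (.sy (.sx (.leaf 1 (-50) 3) (.leaf 2 (-52) 3)) (.sx (.leaf 2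
  (-52) 3) (.leaf 2 (-51) 3)))))) (.sx (.sy (.sx (.sy (.sx (.leaf 1 (-53) 3) (.leaf 1 (-52) 3))
  (.sx (.leaf 1 (-52) 3) (.leaf 1 (-52) 3))) (.sy (.sx (.leaf 1 (-52) 3) (.leaf 1 (-52) 3)) (.sx
  (.leaf 1 (-52) 3) (.leaf 1 (-51) 3)))) (.sx (.sy (.sx (.leaf 1 (-52) 3) (.leaf 1 (-52) 3))
  (.sx (.leaf 1 (-51) 3) (.leaf 2 (-52) 3))) (.sy (.sx (.leaf 1 (-51) 3) (.leaf 2 (-52) 3)) (.sx
  (.leaf 2 (-52) 3) (.leaf 2 (-52) 3))))) (.sy (.sx (.sy (.sx (.leaf 1 (-51) 3) (.leaf 2 (-52)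
  3)) (.sx (.leaf 2 (-52) 3) (.leaf 2 (-52) 3))) (.sy (.sx (.leaf 2 (-52) 3) (.leaf 2 (-51) 3))
  (.sx (.leaf 2 (-51) 3) (.leaf 2 (-51) 3)))) (.sx (.sy (.sx (.leaf 2 (-52) 3) (.leaf 2 (-51)
  3)) (.sx (.leaf 2 (-51) 3) (.leaf 2 (-51) 3))) (.sy (.sx (.leaf 2 (-51) 3) (.leaf 2 (-51) 3))
  (.sx (.leaf 2 (-50) 3) (.leaf 2 (-50) 3))))))) (.sy (.sx (.sy (.sx (.sy (.sx (.leaf 2 (-51) 3)
  (.leaf 2 (-51) 3)) (.sx (.leaf 2 (-51) 3) (.leaf 2 (-51) 3))) (.sy (.leaf 2 (-50) 3) (.leaf 2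
  (-50) 3))) (.sx (.sy (.sx (.leaf 2 (-51) 3) (.leaf 2 (-51) 3)) (.sx (.leaf 2 (-51) 3) (.leaf 2
  (-50) 3))) (.sy (.leaf 2 (-50) 3) (.leaf 2 (-50) 3)))) (.sy (.sx (.sy (.leaf 2 (-49) 3) (.leaf
  2 (-49) 3)) (.sy (.leaf 2 (-48) 3) (.leaf 2 (-48) 3))) (.sx (.sy (.leaf 2 (-49) 3) (.leaf 2
  (-49) 3)) (.sy (.leaf 2 (-48) 3) (.leaf 2 (-48) 4))))) (.sx (.sy (.sx (.sy (.sx (.leaf 2 (-51)
  3) (.leaf 2 (-50) 3)) (.sx (.leaf 2 (-50) 3) (.leaf 2 (-50) 3))) (.sy (.leaf 2 (-50) 3) (.leaf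
  2 (-49) 3))) (.sx (.sy (.sx (.leaf 2 (-50) 3) (.leaf 2 (-50) 3)) (.leaf 2 (-50) 3)) (.sy
  (.leaf 2 (-49) 3) (.leaf 2 (-49) 3)))) (.sy (.sx (.sy (.leaf 2 (-49) 3) (.leaf 2 (-48) 3))
  (.sy (.leaf 2 (-47) 3) (.leaf 2 (-47) 3))) (.sx (.sy (.leaf 2 (-48) 3) (.leaf 2 (-47) 3)) (.sy
  (.leaf 2 (-46) 3) (.leaf 2 (-46) 3))))))

theorem chkR1C : chk testR1 skipR1 treeR1C 11240984669916758016 3746994889972252672 3746994889972252672 3746994889972252672 = true := by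
  decide +kernel

end Pool.Agent.Helper238
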