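import Pool.Agent.Helper238.QuadR1

set_option autoImplicit false

namespace Pool.Agent.Helper238

/-- subdivision certificate -/
def treeR1D : Tree :=
  .sx (.sy (.sx (.sy (.sx (.sy (.sx (.leaf 2 (-52) 3) (.leaf 2 (-52) 3)) (.skip)) (.sy (.sx (.leaf
  2 (-51) 3) (.leaf 2 (-51) 3)) (.sx (.leaf 2 (-51) 3) (.leaf 2 (-50) 3)))) (.skip)) (.sy (.sx
  (.sy (.sx (.leaf 2 (-51) 3) (.leaf 2 (-50) 3)) (.sx (.leaf 2 (-50) 3) (.leaf 2 (-50) 3))) (.sy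
  (.sx (.leaf 2 (-50) 3) (.leaf 2 (-50) 3)) (.sx (.leaf 2 (-50) 3) (.leaf 2 (-49) 3)))) (.sx
  (.sy (.leaf 2 (-50) 3) (.skip)) (.sy (.leaf 2 (-49) 3) (.leaf 2 (-48) 3))))) (.skip)) (.sy
  (.sx (.sy (.sx (.sy (.leaf 2 (-49) 3) (.leaf 2 (-49) 4)) (.sy (.leaf 2 (-48) 3) (.leaf 2 (-47)
  3))) (.sx (.sy (.leaf 2 (-48) 4) (.leaf 2 (-47) 4)) (.sy (.leaf 2 (-47) 4) (.leaf 2 (-46)
  4)))) (.sy (.sx (.sy (.leaf 2 (-47) 4) (.leaf 2 (-46) 3)) (.sy (.leaf 2 (-45) 3) (.leaf 2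
  (-45) 4))) (.sx (.sy (.leaf 2 (-46) 4) (.leaf 2 (-45) 4)) (.sy (.leaf 2 (-45) 5) (.leaf 2
  (-44) 5))))) (.sx (.sy (.sx (.sy (.leaf 2 (-46) 4) (.skip)) (.sy (.leaf 2 (-45) 4) (.leaf 2
  (-44) 4))) (.skip)) (.sy (.sx (.sy (.leaf 2 (-44) 4) (.leaf 2 (-43) 4)) (.sy (.leaf 2 (-43) 4)
  (.leaf 2 (-42) 4))) (.sx (.sy (.leaf 2 (-42) 4) (.skip)) (.sy (.leaf 2 (-41) 4) (.leaf 2 (-41)
  5))))))

theorem chkR1D : chk testR1 skipR1 treeR1D 11240984669916758016 3746994889972252672 11240984669916758016 3746994889972252672 = true := by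
  decide +kernel

end Pool.Agent.Helper238
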