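import Pool.Agent.Helper238.QuadR23

set_option autoImplicit false

namespace Pool.Agent.Helper238

/-- subdivision certificate -/
def treeI : Tree :=
  .sx (.sx (.sx (.sy (.leaf 1 0 0) (.sx (.sy (.leaf 1 0 0) (.sx (.leaf 1 0 0) (.leaf 0 (-32) 40)))
  (.sy (.leaf 1 0 0) (.sx (.leaf 0 (-33) 40) (.leaf 0 (-35) 40))))) (.sy (.leaf 1 0 0) (.sx (.sy
  (.leaf 1 0 0) (.sx (.leaf 0 (-37) 40) (.leaf 0 (-38) 40))) (.sy (.leaf 1 0 0) (.leaf 0 (-41)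
  15))))) (.sx (.sy (.sx (.leaf 1 0 0) (.leaf 0 (-38) 40)) (.sx (.sy (.leaf 0 (-38) 40) (.sx
  (.leaf 0 (-43) 6) (.leaf 0 (-43) 6))) (.sy (.leaf 0 (-42) 6) (.leaf 0 (-44) 8)))) (.sy (.sx
  (.leaf 0 (-42) 6) (.leaf 0 (-44) 4)) (.sx (.sy (.leaf 0 (-43) 4) (.leaf 0 (-45) 8)) (.leaf 0
  (-45) 6))))) (.sx (.sx (.sy (.leaf 0 (-46) 6) (.sx (.leaf 0 (-46) 6) (.leaf 0 (-47) 6))) (.sy
  (.leaf 0 (-48) 4) (.sx (.leaf 0 (-47) 4) (.leaf 0 (-48) 4)))) (.sx (.sy (.sx (.leaf 0 (-50) 4)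
  (.leaf 0 (-51) 4)) (.sx (.leaf 0 (-49) 4) (.sy (.leaf 0 (-50) 4) (.leaf 0 (-49) 4)))) (.sy
  (.sx (.leaf 0 (-52) 4) (.sy (.leaf 0 (-51) 2) (.sx (.leaf 0 (-52) 4) (.leaf 0 (-51) 2)))) (.sx
  (.sy (.leaf 0 (-51) 4) (.leaf 0 (-50) 4)) (.sy (.sx (.leaf 0 (-51) 4) (.sy (.leaf 0 (-50) 2)
  (.leaf 0 (-50) 2))) (.leaf 0 (-50) 4))))))

theorem chkI : chk testR23 (fun _ _ _ _ => false) treeI (-1008806316530991104) 3026418949592973312 7493989779944505344 7493989779944505344 = true := by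
  decide +kernel

end Pool.Agent.Helper238
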