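import Pool.Agent.Helper238.QuadR23

set_option autoImplicit false

namespace Pool.Agent.Helper238

/-- subdivision certificate -/
def treeJ : Tree :=
  .sx (.sy (.sx (.sy (.sx (.leaf 0 (-48) 4) (.leaf 0 (-48) 4)) (.sx (.leaf 0 (-47) 4) (.sy (.leaf
  0 (-47) 4) (.leaf 0 (-46) 4)))) (.sy (.sx (.leaf 0 (-47) 4) (.sy (.leaf 0 (-48) 4) (.leaf 0
  (-47) 4))) (.sx (.sy (.leaf 0 (-46) 4) (.leaf 0 (-45) 4)) (.sy (.leaf 0 (-46) 6) (.leaf 0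
  (-43) 4))))) (.sx (.sy (.sx (.leaf 0 (-47) 6) (.sy (.leaf 0 (-45) 4) (.leaf 0 (-44) 4))) (.sx
  (.sy (.sx (.leaf 0 (-47) 4) (.leaf 0 (-45) 4)) (.sx (.leaf 0 (-47) 6) (.leaf 0 (-45) 4))) (.sy
  (.sx (.leaf 0 (-44) 4) (.leaf 0 (-41) 4)) (.sx (.leaf 0 (-42) 4) (.sy (.leaf 0 (-40) 4) (.leaf
  0 (-37) 40)))))) (.sy (.sx (.sy (.leaf 0 (-43) 4) (.leaf 0 (-41) 4)) (.sy (.leaf 0 (-41) 4)
  (.sx (.sy (.leaf 0 (-37) 32) (.leaf 0 (-32) 40)) (.sy (.leaf 0 (-32) 40) (.leaf 1 0 0)))))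
  (.sx (.sy (.sx (.leaf 0 (-38) 32) (.sy (.leaf 0 (-34) 40) (.leaf 1 0 0))) (.sx (.sy (.leaf 0
  (-33) 40) (.leaf 1 0 0)) (.leaf 1 0 0))) (.leaf 1 0 0))))) (.sy (.sx (.sy (.sx (.sy (.leaf 0
  (-48) 4) (.leaf 0 (-47) 4)) (.sy (.leaf 0 (-48) 4) (.leaf 0 (-46) 4))) (.sx (.sy (.leaf 0
  (-45) 4) (.leaf 0 (-42) 4)) (.sy (.leaf 0 (-44) 4) (.leaf 0 (-40) 4)))) (.sy (.sx (.sy (.leaf
  0 (-48) 4) (.leaf 0 (-46) 4)) (.sy (.leaf 0 (-48) 4) (.leaf 0 (-46) 4))) (.sx (.sy (.leaf 0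
  (-43) 4) (.sx (.sy (.leaf 0 (-39) 18) (.leaf 0 (-32) 40)) (.sy (.leaf 0 (-37) 26) (.leaf 0
  (-28) 40)))) (.sy (.leaf 0 (-41) 4) (.sx (.sy (.leaf 0 (-33) 40) (.leaf 1 0 0)) (.sy (.leaf 0
  (-32) 32) (.leaf 1 0 0))))))) (.sx (.sy (.sx (.sy (.sx (.sy (.leaf 0 (-39) 15) (.leaf 0 (-33)
  40)) (.sy (.leaf 0 (-35) 40) (.leaf 1 0 0))) (.leaf 1 0 0)) (.sy (.sx (.sy (.leaf 0 (-31) 40)
  (.leaf 1 0 0)) (.leaf 1 0 0)) (.leaf 1 0 0))) (.leaf 1 0 0)) (.sy (.sx (.leaf 1 0 0) (.leaf 1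
  0 0)) (.leaf 1 0 0))))

theorem chkJ : chk testR23 (fun _ _ _ _ => false) treeJ (1008806316530991104) 1008806316530991104 30552419872081444864 15564440312192434176 = true := by
  decide +kernel

end Pool.Agent.Helper238
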