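import Pool.Agent.Helper238.QuadR23

set_option autoImplicit false

namespace Pool.Agent.Helper238

/-- subdivision certificate -/
def treeS : Tree :=
  .sy (.leaf 0 (-46) 4) (.sy (.leaf 0 (-47) 6) (.sx (.leaf 0 (-47) 4) (.leaf 0 (-47) 10)))

theorem chkS : chk testS (fun _ _ _ _ => false) treeS (1297036692682702848) 1297036692682702848 3689348814741910324 3689348814741910324 = true := by
  decide +kernel

end Pool.Agent.Helper238
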