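import Pool.Agent.Helper238.R1A
import Pool.Agent.Helper238.R1F
import Pool.Agent.Helper238.R1B
import Pool.Agent.Helper238.R1C
import Pool.Agent.Helper238.R1D
import Pool.Agent.Helper238.TreeI
import Pool.Agent.Helper238.TreeJ
import Pool.Agent.Helper238.TreeS

set_option autoImplicit false

namespace Pool.Agent.Helper238

theorem abs_box (u : ℝ) (c h lo hi : ℝ) (h1 : lo ≤ u) (h2 : u ≤ hi)
    (h3 : c - h ≤ lo * 18446744073709551616) (h4 : hi * 18446744073709551616 ≤ c + h) :
    |u * 18446744073709551616 - c| ≤ h := by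
  rw [abs_le]; constructor <;> nlinarith

theorem R1_cover (u v : ℝ) (hu0 : 0 ≤ u) (hu1 : u ≤ 13 / 16) (hv0 : 0 ≤ v) (hv1 : v ≤ 13 / 16) :
    PR1 u v := by
  rcases le_total u (13 / 32) with hu | hu
  · rcases le_total v (13 / 32) with hv | hv
    · rcases le_total u (13 / 64) with hu' | hu'
      · rcases le_total v (13 / 64) with hv' | hv'
        · rcases le_total v (13 / 128) with hv'' | hv''
          · exact chk_sound PR1 testR1 skipR1 testR1_sound skipR1_sound _ _ _ _ _ chkR1A1 u v
              (abs_box u _ _ 0 (13/64) hu0 hu' (by norm_num) (by norm_num))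
              (abs_box v _ _ 0 (13/128) hv0 hv'' (by norm_num) (by norm_num))
          · exact chk_sound PR1 testR1 skipR1 testR1_sound skipR1_sound _ _ _ _ _ chkR1A2 u v
              (abs_box u _ _ 0 (13/64) hu0 hu' (by norm_num) (by norm_num))
              (abs_box v _ _ (13/128) (13/64) hv'' hv' (by norm_num) (by norm_num))
        · exact chk_sound PR1 testR1 skipR1 testR1_sound skipR1_sound _ _ _ _ _ chkR1B1 u v
            (abs_box u _ _ 0 (13/64) hu0 hu' (by norm_num) (by norm_num))
            (abs_box v _ _ (13/64) (13/32) hv' hv (by norm_num) (by norm_num))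
      · rcases le_total v (13 / 64) with hv' | hv'
        · exact chk_sound PR1 testR1 skipR1 testR1_sound skipR1_sound _ _ _ _ _ chkR1B2 u v
            (abs_box u _ _ (13/64) (13/32) hu' hu (by norm_num) (by norm_num))
            (abs_box v _ _ 0 (13/64) hv0 hv' (by norm_num) (by norm_num))
        · exact chk_sound PR1 testR1 skipR1 testR1_sound skipR1_sound _ _ _ _ _ chkR1B3 u v
            (abs_box u _ _ (13/64) (13/32) hu' hu (by norm_num) (by norm_num))
            (abs_box v _ _ (13/64) (13/32) hv' hv (by norm_num) (by norm_num))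
    · exact chk_sound PR1 testR1 skipR1 testR1_sound skipR1_sound _ _ _ _ _ chkR1E u v
        (abs_box u _ _ 0 (13/32) hu0 hu (by norm_num) (by norm_num))
        (abs_box v _ _ (13/32) (13/16) hv hv1 (by norm_num) (by norm_num))
  · rcases le_total v (13 / 32) with hv | hv
    · exact chk_sound PR1 testR1 skipR1 testR1_sound skipR1_sound _ _ _ _ _ chkR1C u v
        (abs_box u _ _ (13/32) (13/16) hu hu1 (by norm_num) (by norm_num))
        (abs_box v _ _ 0 (13/32) hv0 hv (by norm_num) (by norm_num))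
    · exact chk_sound PR1 testR1 skipR1 testR1_sound skipR1_sound _ _ _ _ _ chkR1D u v
        (abs_box u _ _ (13/32) (13/16) hu hu1 (by norm_num) (by norm_num))
        (abs_box v _ _ (13/32) (13/16) hv hv1 (by norm_num) (by norm_num))

/-- First regime. -/
theorem R1_good (β η : ℝ) (hβ : 0 < β) (hη : 0 ≤ η) (hle : η ≤ β) (hβ1 : β ≤ 13 / 16)
    (hs : 1 / 200 ≤ β ^ 2 + η ^ 2) :
    ∃ k : Nat, ∀ p r t : ℝ, 0 < p → p * r - t ^ 2 = 1 →
      Good (quadR1 (zoneC k) (zoneK k) (β + η) (β - η)) p r t := by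
  have e : η * (1048576 / 1048577) * (1048577 / 1048576) = η := by ring
  have h0 : 0 ≤ η * (1048576 / 1048577) := by positivity
  have h1 : η * (1048576 / 1048577) ≤ 13 / 16 := by nlinarith
  have := R1_cover β (η * (1048576 / 1048577)) hβ.le hβ1 h0 h1
  unfold PR1 at this
  rw [e] at this
  exact this hβ h0 hle hs

/-- Second regime. -/
theorem R23_good (h ν : ℝ) (hh0 : -(7 / 32) ≤ h) (hh1 : h ≤ 7 / 64) (hν0 : 0 ≤ ν)
    (hν : ν ≤ 13 / 16 ∨ (0 ≤ h ∧ ν ≤ 5 / 2)) : PR23 h ν := by
  rcases le_total ν (13 / 16) with hv | hv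
  · exact chk_sound PR23 testR23 _ testR23_sound (fun _ _ _ _ _ _ h => absurd h (by simp))
      _ _ _ _ _ chkI h ν
      (abs_box h _ _ (-(7/32)) (7/64) hh0 hh1 (by norm_num) (by norm_num))
      (abs_box ν _ _ 0 (13/16) hν0 hv (by norm_num) (by norm_num))
  · by_cases hh : 0 ≤ h
    · have hv2 : ν ≤ 5 / 2 := by
        rcases hν with hν | hν
        · linarith
        · exact hν.2
      exact chk_sound PR23 testR23 _ testR23_sound (fun _ _ _ _ _ _ h => absurd h (by simp))
        _ _ _ _ _ chkJ h ν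
        (abs_box h _ _ 0 (7/64) hh hh1 (by norm_num) (by norm_num))
        (abs_box ν _ _ (13/16) (5/2) hv hv2 (by norm_num) (by norm_num))
    · have hv2 : ν ≤ 13 / 16 := by
        rcases hν with hν | hν
        · exact hν
        · exact absurd hν.1 hh
      exact chk_sound PR23 testR23 _ testR23_sound (fun _ _ _ _ _ _ h => absurd h (by simp))
        _ _ _ _ _ chkI h ν
        (abs_box h _ _ (-(7/32)) (7/64) hh0 hh1 (by norm_num) (by norm_num))
        (abs_box ν _ _ 0 (13/16) hν0 hv2 (by norm_num) (by norm_num))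

/-- Third regime: long spikes. -/
theorem S_good (n y : ℝ) (hn0 : 0 ≤ n) (hn1 : n ≤ 9 / 64) (hy0 : 0 ≤ y) (hy1 : y ≤ 2 / 5) :
    PS n y :=
  chk_sound PS testS _ testS_sound (fun _ _ _ _ _ _ h => absurd h (by simp))
    _ _ _ _ _ chkS n y
    (abs_box n _ _ 0 (9/64) hn0 hn1 (by norm_num) (by norm_num))
    (abs_box y _ _ 0 (2/5) hy0 hy1 (by norm_num) (by norm_num))

end Pool.Agent.Helper238
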