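import Pool.Agent.Helper238.Lin
import Pool.Agent.Helper238.Cert

set_option autoImplicit false

open MeasureTheory Set

namespace Pool.Agent.Helper238

/-- A smooth function of two real variables with its partial derivatives. -/
structure TF where
  φ : ℝ → ℝ → ℝ
  φ1 : ℝ → ℝ → ℝ
  φ2 : ℝ → ℝ → ℝ
  smooth : ContDiff ℝ (⊤ : ℕ∞) (fun z : ℝ × ℝ => φ z.1 z.2)
  deriv : ∀ z : ℝ × ℝ, HasFDerivAt (fun z : ℝ × ℝ => φ z.1 z.2)
    (φ1 z.1 z.2 • ContinuousLinearMap.fst ℝ ℝ ℝ + φ2 z.1 z.2 • ContinuousLinearMap.snd ℝ ℝ ℝ) z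
  cont1 : Continuous (fun z : ℝ × ℝ => φ1 z.1 z.2)
  cont2 : Continuous (fun z : ℝ × ℝ => φ2 z.1 z.2)

/-- affine coordinates with respect to a frame -/
noncomputable def xi (o g1 g2 x : E2) : ℝ × ℝ := (cr (x - o) g2 / cr g1 g2, cr g1 (x - o) / cr g1 g2)

/-- the covectors -/
noncomputable def dx1 (g1 g2 : E2) : E2 →L[ℝ] ℝ :=
  (g2 1 / cr g1 g2) • (EuclideanSpace.proj 0 : E2 →L[ℝ] ℝ)
    - (g2 0 / cr g1 g2) • (EuclideanSpace.proj 1 : E2 →L[ℝ] ℝ)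
noncomputable def dx2 (g1 g2 : E2) : E2 →L[ℝ] ℝ :=
  (g1 0 / cr g1 g2) • (EuclideanSpace.proj 1 : E2 →L[ℝ] ℝ)
    - (g1 1 / cr g1 g2) • (EuclideanSpace.proj 0 : E2 →L[ℝ] ℝ)

theorem xi_eq (o g1 g2 x : E2) : xi o g1 g2 x = ((dx1 g1 g2) (x - o), (dx2 g1 g2) (x - o)) := by
  unfold xi dx1 dx2 cr
  simp
  constructor <;> ring

/-- transplanted function -/
noncomputable def TF.on (T : TF) (o g1 g2 : E2) : E2 → ℝ :=
  fun x => T.φ (xi o g1 g2 x).1 (xi o g1 g2 x).2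

theorem contDiff_xi (o g1 g2 : E2) : ContDiff ℝ (⊤ : ℕ∞) (xi o g1 g2) := by
  have : xi o g1 g2 = fun x => ((dx1 g1 g2) (x - o), (dx2 g1 g2) (x - o)) := funext (xi_eq o g1 g2)
  rw [this]
  fun_prop

theorem TF.contDiff_on (T : TF) (o g1 g2 : E2) : ContDiff ℝ (⊤ : ℕ∞) (T.on o g1 g2) :=
  T.smooth.comp (contDiff_xi o g1 g2)

theorem hasFDerivAt_xi (o g1 g2 x : E2) :
    HasFDerivAt (xi o g1 g2) ((dx1 g1 g2).prod (dx2 g1 g2)) x := by
  have : xi o g1 g2 = fun x => ((dx1 g1 g2) (x - o), (dx2 g1 g2) (x - o)) := funext (xi_eq o g1 g2)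
  rw [this]
  have h : HasFDerivAt (fun x : E2 => x - o) (ContinuousLinearMap.id ℝ E2) x :=
    (hasFDerivAt_id x).sub_const o
  have h1 := (dx1 g1 g2).hasFDerivAt.comp x h
  have h2 := (dx2 g1 g2).hasFDerivAt.comp x h
  exact HasFDerivAt.prodMk h1 h2

theorem TF.fderiv_on (T : TF) (o g1 g2 x : E2) :
    fderiv ℝ (T.on o g1 g2) x = T.φ1 (xi o g1 g2 x).1 (xi o g1 g2 x).2 • dx1 g1 g2
      + T.φ2 (xi o g1 g2 x).1 (xi o g1 g2 x).2 • dx2 g1 g2 := by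
  have h := (T.deriv (xi o g1 g2 x)).comp x (hasFDerivAt_xi o g1 g2 x)
  have h' : HasFDerivAt (T.on o g1 g2) _ x := h
  rw [h'.fderiv]
  ext v
  simp

/-- metric coefficients -/
noncomputable def mp (g1 g2 : E2) : ℝ := (g2 0 ^ 2 + g2 1 ^ 2) / |cr g1 g2|
noncomputable def mr (g1 g2 : E2) : ℝ := (g1 0 ^ 2 + g1 1 ^ 2) / |cr g1 g2|
noncomputable def mt (g1 g2 : E2) : ℝ := -(g1 0 * g2 0 + g1 1 * g2 1) / |cr g1 g2|

theorem mp_pos (g1 g2 : E2) (h : cr g1 g2 ≠ 0) : 0 < mp g1 g2 := by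
  unfold mp
  refine div_pos ?_ (abs_pos.2 h)
  by_contra hn
  have h0 : g2 0 ^ 2 + g2 1 ^ 2 = 0 := le_antisymm (not_lt.1 hn) (by positivity)
  have a : g2 0 = 0 := by nlinarith [sq_nonneg (g2 0), sq_nonneg (g2 1)]
  have b : g2 1 = 0 := by nlinarith [sq_nonneg (g2 0), sq_nonneg (g2 1)]
  apply h
  simp [cr, a, b]

theorem metric_det (g1 g2 : E2) (h : cr g1 g2 ≠ 0) : mp g1 g2 * mr g1 g2 - mt g1 g2 ^ 2 = 1 := by
  unfold mp mr mt
  have h1 : |cr g1 g2| ≠ 0 := abs_ne_zero.2 h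
  have h2 : |cr g1 g2| ^ 2 = cr g1 g2 ^ 2 := sq_abs _
  field_simp
  rw [h2]
  unfold cr; ring

theorem gdot_dx (g1 g2 : E2) (h : cr g1 g2 ≠ 0) (a b c d : ℝ) :
    gdot (a • dx1 g1 g2 + b • dx2 g1 g2) (c • dx1 g1 g2 + d • dx2 g1 g2)
      = (mp g1 g2 * (a * c) + mr g1 g2 * (b * d) + mt g1 g2 * (a * d + b * c)) / |cr g1 g2| := by
  unfold mp mr mt
  have h1 : |cr g1 g2| ≠ 0 := abs_ne_zero.2 h
  have h2 : |cr g1 g2| ^ 2 = cr g1 g2 ^ 2 := sq_abs _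
  field_simp
  rw [h2]
  simp [gdot, dx1, dx2]
  field_simp
  ring

theorem TF.cont (T : TF) : Continuous (fun z : ℝ × ℝ => T.φ z.1 z.2) := T.smooth.continuous

theorem continuous_xi (o g1 g2 : E2) : Continuous (xi o g1 g2) := (contDiff_xi o g1 g2).continuous

/-- the integration functional on `Ω` in frame coordinates is `N * J` -/
def Dat (Ω : Set E2) (o g1 g2 : E2) (J : (ℝ → ℝ → ℝ) → ℝ) (N : ℝ) : Prop :=
  ∀ φ : ℝ → ℝ → ℝ, Continuous (fun z : ℝ × ℝ => φ z.1 z.2) →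
    ∫ x in Ω, φ (xi o g1 g2 x).1 (xi o g1 g2 x).2 = N * J φ

section
variable {Ω K : Set E2} (hK : IsCompact K) (hΩK : Ω ⊆ K) {o g1 g2 : E2}
  {J : (ℝ → ℝ → ℝ) → ℝ} {N : ℝ} (hJ : Dat Ω o g1 g2 J N)
include hJ

theorem Dat.volume : volume.real Ω = N * J (fun _ _ => 1) := by
  have := hJ (fun _ _ => 1) continuous_const
  simpa using this

theorem Dat.cmass (T S : TF) : cmass Ω (T.on o g1 g2) (S.on o g1 g2)
    = N * J (fun x y => T.φ x y * S.φ x y)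
      - (N * J T.φ) * (N * J S.φ) / (N * J (fun _ _ => 1)) := by
  unfold Helper238.cmass
  rw [hJ.volume]
  have h1 := hJ (fun x y => T.φ x y * S.φ x y) (T.cont.mul S.cont)
  have h2 := hJ T.φ T.cont
  have h3 := hJ S.φ S.cont
  rw [← h1, ← h2, ← h3]
  rfl

include hK hΩK in
theorem Dat.stiff (hD : cr g1 g2 ≠ 0) (T S : TF) : stiff Ω (T.on o g1 g2) (S.on o g1 g2)
    = N / |cr g1 g2| * (mp g1 g2 * J (fun x y => T.φ1 x y * S.φ1 x y)
      + mr g1 g2 * J (fun x y => T.φ2 x y * S.φ2 x y)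
      + mt g1 g2 * J (fun x y => T.φ1 x y * S.φ2 x y + T.φ2 x y * S.φ1 x y)) := by
  unfold Helper238.stiff
  simp_rw [TF.fderiv_on, gdot_dx g1 g2 hD]
  have hx := continuous_xi o g1 g2
  have t1 := T.cont1
  have t2 := T.cont2
  have s1 := S.cont1
  have s2 := S.cont2
  have c1 : Continuous fun x => T.φ1 (xi o g1 g2 x).1 (xi o g1 g2 x).2 := t1.comp hx
  have c2 : Continuous fun x => T.φ2 (xi o g1 g2 x).1 (xi o g1 g2 x).2 := t2.comp hx
  have d1 : Continuous fun x => S.φ1 (xi o g1 g2 x).1 (xi o g1 g2 x).2 := s1.comp hx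
  have d2 : Continuous fun x => S.φ2 (xi o g1 g2 x).1 (xi o g1 g2 x).2 := s2.comp hx
  rw [integral_div, iadd hK hΩK (by fun_prop) (by fun_prop),
    iadd hK hΩK (by fun_prop) (by fun_prop), integral_const_mul, integral_const_mul,
    integral_const_mul]
  have h1 := hJ (fun x y => T.φ1 x y * S.φ1 x y) (t1.mul s1)
  have h2 := hJ (fun x y => T.φ2 x y * S.φ2 x y) (t2.mul s2)
  have h3 := hJ (fun x y => T.φ1 x y * S.φ2 x y + T.φ2 x y * S.φ1 x y) ((t1.mul s2).add (t2.mul s1))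
  rw [h1, h2, h3]
  ring

end

/-- the coordinate functions -/
noncomputable def TX : TF where
  φ := fun x _ => x
  φ1 := fun _ _ => 1
  φ2 := fun _ _ => 0
  smooth := by fun_prop
  deriv := by
    intro z
    simpa using hasFDerivAt_fst (𝕜 := ℝ) (E := ℝ) (F := ℝ) (p := z)
  cont1 := by fun_prop
  cont2 := by fun_prop

noncomputable def TY : TF where
  φ := fun _ y => y
  φ1 := fun _ _ => 0
  φ2 := fun _ _ => 1
  smooth := by fun_prop
  deriv := by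
    intro z
    simpa using hasFDerivAt_snd (𝕜 := ℝ) (E := ℝ) (F := ℝ) (p := z)
  cont1 := by fun_prop
  cont2 := by fun_prop

/-- the numerical data of a pair -/
noncomputable def QDof (J : (ℝ → ℝ → ℝ) → ℝ) (κ : ℝ) (T S : TF) : QD ℝ where
  k := J (fun _ _ => 1)
  fxx := J (fun x y => T.φ1 x y * T.φ1 x y)
  fyy := J (fun x y => T.φ2 x y * T.φ2 x y)
  fxy := J (fun x y => T.φ1 x y * T.φ2 x y)
  gxx := J (fun x y => S.φ1 x y * S.φ1 x y)
  gyy := J (fun x y => S.φ2 x y * S.φ2 x y)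
  gxy := J (fun x y => S.φ1 x y * S.φ2 x y)
  cxx := J (fun x y => T.φ1 x y * S.φ1 x y)
  cyy := J (fun x y => T.φ2 x y * S.φ2 x y)
  cxy := J (fun x y => T.φ1 x y * S.φ2 x y + T.φ2 x y * S.φ1 x y)
  B11 := (J (fun _ _ => 1) * J (fun x y => T.φ x y * T.φ x y) - J T.φ * J T.φ) / κ
  B22 := (J (fun _ _ => 1) * J (fun x y => S.φ x y * S.φ x y) - J S.φ * J S.φ) / κ
  B12 := (J (fun _ _ => 1) * J (fun x y => T.φ x y * S.φ x y) - J T.φ * J S.φ) / κ
  C11 := (J (fun _ _ => 1) * J (fun x _ => x * x) - J (fun x _ => x) * J (fun x _ => x)) / κ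
  C22 := (J (fun _ _ => 1) * J (fun _ y => y * y) - J (fun _ y => y) * J (fun _ y => y)) / κ
  C12 := (J (fun _ _ => 1) * J (fun x y => x * y) - J (fun x _ => x) * J (fun _ y => y)) / κ

section
variable {Ω K : Set E2} (hK : IsCompact K) (hΩK : Ω ⊆ K) {o g1 g2 : E2}
  {J : (ℝ → ℝ → ℝ) → ℝ} {N : ℝ} (hJ : Dat Ω o g1 g2 J N)
include hJ hK hΩK

theorem Dat.J_add (hN : N ≠ 0) (φ ψ : ℝ → ℝ → ℝ) (hφ : Continuous (fun z : ℝ × ℝ => φ z.1 z.2))
    (hψ : Continuous (fun z : ℝ × ℝ => ψ z.1 z.2)) :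
    J (fun x y => φ x y + ψ x y) = J φ + J ψ := by
  have hx := continuous_xi o g1 g2
  have h1 := hJ _ hφ
  have h2 := hJ _ hψ
  have h3 := hJ (fun x y => φ x y + ψ x y) (hφ.add hψ)
  rw [iadd hK hΩK (f := fun x => φ (xi o g1 g2 x).1 (xi o g1 g2 x).2)
    (g := fun x => ψ (xi o g1 g2 x).1 (xi o g1 g2 x).2) (hφ.comp hx) (hψ.comp hx), h1, h2] at h3
  have : N * J (fun x y => φ x y + ψ x y) = N * (J φ + J ψ) := by rw [← h3]; ring
  exact mul_left_cancel₀ hN this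

theorem Dat.J_two (hN : N ≠ 0) (T : TF) :
    J (fun x y => T.φ1 x y * T.φ2 x y + T.φ2 x y * T.φ1 x y)
      = 2 * J (fun x y => T.φ1 x y * T.φ2 x y) := by
  have e : (fun x y => T.φ1 x y * T.φ2 x y + T.φ2 x y * T.φ1 x y)
      = (fun x y => T.φ1 x y * T.φ2 x y + T.φ1 x y * T.φ2 x y) := by
    ext x y; ring
  rw [e, hJ.J_add hK hΩK hN _ _ (T.cont1.mul T.cont2) (T.cont1.mul T.cont2)]
  ring

/-- The trace inequality in terms of the numerical data. -/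
theorem works_of (hD : cr g1 g2 ≠ 0) (hN : 0 < N) (T S : TF) (κ : ℝ) (hκ : κ = N / |cr g1 g2|)
    (hk : 0 < J (fun _ _ => 1))
    (h : 2 / Real.pi ^ 2 * (QDof J κ T S).k ^ 2 *
      ((mp g1 g2 * (QDof J κ T S).fxx + mr g1 g2 * (QDof J κ T S).fyy
          + 2 * mt g1 g2 * (QDof J κ T S).fxy)
        * (mp g1 g2 * (QDof J κ T S).gxx + mr g1 g2 * (QDof J κ T S).gyy
          + 2 * mt g1 g2 * (QDof J κ T S).gxy)
        - (mp g1 g2 * (QDof J κ T S).cxx + mr g1 g2 * (QDof J κ T S).cyy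
          + mt g1 g2 * (QDof J κ T S).cxy) ^ 2) ≤
      (mp g1 g2 * (QDof J κ T S).gxx + mr g1 g2 * (QDof J κ T S).gyy
          + 2 * mt g1 g2 * (QDof J κ T S).gxy) * (QDof J κ T S).B11
      + (mp g1 g2 * (QDof J κ T S).fxx + mr g1 g2 * (QDof J κ T S).fyy
          + 2 * mt g1 g2 * (QDof J κ T S).fxy) * (QDof J κ T S).B22
      - 2 * (mp g1 g2 * (QDof J κ T S).cxx + mr g1 g2 * (QDof J κ T S).cyy
          + mt g1 g2 * (QDof J κ T S).cxy) * (QDof J κ T S).B12) :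
    Works Ω (T.on o g1 g2) (S.on o g1 g2) := by
  unfold Works
  rw [hJ.stiff hK hΩK hD T T, hJ.stiff hK hΩK hD T S, hJ.stiff hK hΩK hD S S,
    hJ.cmass T T, hJ.cmass T S, hJ.cmass S S, hJ.volume, hJ.J_two hK hΩK hN.ne' T,
    hJ.J_two hK hΩK hN.ne' S, ← hκ]
  have hκ0 : 0 < κ := by rw [hκ]; exact div_pos hN (abs_pos.2 hD)
  simp only [QDof] at h
  set k := J (fun _ _ => 1) with hkdef
  set a1 := J (fun x y => T.φ1 x y * T.φ1 x y)
  set a2 := J (fun x y => T.φ2 x y * T.φ2 x y)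
  set a3 := J (fun x y => T.φ1 x y * T.φ2 x y)
  set b1 := J (fun x y => S.φ1 x y * S.φ1 x y)
  set b2 := J (fun x y => S.φ2 x y * S.φ2 x y)
  set b3 := J (fun x y => S.φ1 x y * S.φ2 x y)
  set c1 := J (fun x y => T.φ1 x y * S.φ1 x y)
  set c2 := J (fun x y => T.φ2 x y * S.φ2 x y)
  set c3 := J (fun x y => T.φ1 x y * S.φ2 x y + T.φ2 x y * S.φ1 x y)
  set m1 := J (fun x y => T.φ x y * T.φ x y)
  set m2 := J (fun x y => S.φ x y * S.φ x y)
  set m3 := J (fun x y => T.φ x y * S.φ x y)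
  set n1 := J T.φ
  set n2 := J S.φ
  have hmul := mul_le_mul_of_nonneg_left h (by positivity : 0 ≤ N * κ ^ 2 / k)
  clear_value k a1 a2 a3 b1 b2 b3 c1 c2 c3 m1 m2 m3 n1 n2
  clear hkdef h
  have hpi : Real.pi ≠ 0 := Real.pi_ne_zero
  refine le_of_eq_of_le ?_ (hmul.trans_eq ?_)
  · field_simp
  · field_simp

omit hJ in
theorem stiff_psd {u v : E2 → ℝ} (hu : ContDiff ℝ 1 u) (hv : ContDiff ℝ 1 v) :
    0 ≤ stiff Ω u u * stiff Ω v v - stiff Ω u v ^ 2 := by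
  have h : ∀ c1 c2 : ℝ, 0 ≤ c1 ^ 2 * stiff Ω u u + 2 * c1 * c2 * stiff Ω u v + c2 ^ 2 * stiff Ω v v := by
    intro c1 c2
    rw [← stiff_comb hK hΩK hu hv]
    exact integral_nonneg fun x => sq_nonneg _
  have h1 := h 1 0
  have h2 := h 0 1
  have h3 := h (-stiff Ω u v) (stiff Ω u u)
  have h4 := h (stiff Ω v v) (-stiff Ω u v)
  have h1' : 0 ≤ stiff Ω u u := by simpa using h1
  have h2' : 0 ≤ stiff Ω v v := by simpa using h2
  rcases h1'.eq_or_lt with h0 | h0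
  · rcases h2'.eq_or_lt with h5 | h5
    · have h6 := h 1 (-stiff Ω u v)
      rw [← h0, ← h5] at h6 ⊢
      nlinarith [sq_nonneg (stiff Ω u v)]
    · have : 0 ≤ stiff Ω v v * (stiff Ω u u * stiff Ω v v - stiff Ω u v ^ 2) := by
        linear_combination h4
      exact nonneg_of_mul_nonneg_right this h5
  · have : 0 ≤ stiff Ω u u * (stiff Ω u u * stiff Ω v v - stiff Ω u v ^ 2) := by
      linear_combination h3
    exact nonneg_of_mul_nonneg_right this h0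

omit hK hΩK hJ in
theorem tau_le : 2 / Real.pi ^ 2 ≤ 202643 / 1000000 := by
  rw [div_le_iff₀ (by positivity)]
  have := Real.pi_gt_d6
  nlinarith

omit hK hΩK in
theorem Dat.J_zero (hN : N ≠ 0) : J (fun _ _ => 0) = 0 := by
  have := hJ (fun _ _ => 0) continuous_const
  simp at this
  rcases this with h | h
  · exact absurd h hN
  · exact h

/-- The trace inequality from `Good`. -/
theorem works_of_good (hD : cr g1 g2 ≠ 0) (hN : 0 < N) (T S : TF) (κ : ℝ)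
    (hκ : κ = N / |cr g1 g2|) (hk : 0 < J (fun _ _ => 1))
    (hg : Good (QDof J κ T S) (mp g1 g2) (mr g1 g2) (mt g1 g2)) :
    Works Ω (TX.on o g1 g2) (TY.on o g1 g2) ∨ Works Ω (T.on o g1 g2) (S.on o g1 g2) := by
  have hκ0 : 0 < κ := by rw [hκ]; exact div_pos hN (abs_pos.2 hD)
  have hdet := metric_det g1 g2 hD
  rcases hg with hg | hg
  · left
    refine works_of hK hΩK hJ hD hN TX TY κ hκ hk ?_
    have h0 := hJ.J_zero hN.ne'
    simp only [QDof, TX, TY, mul_one, mul_zero, add_zero, h0] at hg ⊢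
    set k := J (fun _ _ => 1)
    have h1 : 2 / Real.pi ^ 2 * k ^ 3 ≤ 202643 / 1000000 * k ^ 3 :=
      mul_le_mul_of_nonneg_right tau_le (by positivity)
    have h2 := mul_le_mul_of_nonneg_left (h1.trans hg) hk.le
    refine le_of_eq_of_le ?_ (h2.trans_eq ?_)
    · linear_combination (2 / Real.pi ^ 2 * k ^ 4) * hdet
    · ring
  · right
    refine works_of hK hΩK hJ hD hN T S κ hκ hk ?_
    refine le_trans ?_ hg
    have hpsd := stiff_psd hK hΩK ((T.contDiff_on o g1 g2).of_le (by simp) : ContDiff ℝ 1 _)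
      ((S.contDiff_on o g1 g2).of_le (by simp) : ContDiff ℝ 1 _)
    rw [hJ.stiff hK hΩK hD T T, hJ.stiff hK hΩK hD T S, hJ.stiff hK hΩK hD S S,
      hJ.J_two hK hΩK hN.ne' T, hJ.J_two hK hΩK hN.ne' S, ← hκ] at hpsd
    refine mul_le_mul_of_nonneg_right (mul_le_mul_of_nonneg_right tau_le (by positivity)) ?_
    have : 0 ≤ κ ^ 2 * ((mp g1 g2 * (QDof J κ T S).fxx + mr g1 g2 * (QDof J κ T S).fyy
          + 2 * mt g1 g2 * (QDof J κ T S).fxy)
        * (mp g1 g2 * (QDof J κ T S).gxx + mr g1 g2 * (QDof J κ T S).gyy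
          + 2 * mt g1 g2 * (QDof J κ T S).gxy)
        - (mp g1 g2 * (QDof J κ T S).cxx + mr g1 g2 * (QDof J κ T S).cyy
          + mt g1 g2 * (QDof J κ T S).cxy) ^ 2) := by
      simp only [QDof]
      linear_combination hpsd
    exact nonneg_of_mul_nonneg_right this (by positivity)

end

end Pool.Agent.Helper238
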