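import Mathlib

set_option autoImplicit false

open MeasureTheory Set

namespace Pool.Agent.Helper238

/-- polynomial with coefficient list `l`, starting at degree `n` -/
def pv : List ℝ → ℕ → ℝ → ℝ
  | [], _, _ => 0
  | c :: l, n, x => c * x ^ n + pv l (n + 1) x

/-- its integral over `[a,b]` -/
noncomputable def pint (a b : ℝ) : List ℝ → ℕ → ℝ
  | [], _ => 0
  | c :: l, n => c * ((b ^ (n + 1) - a ^ (n + 1)) / (n + 1)) + pint a b l (n + 1)

/-- polynomial in two variables -/
def pv2 : List (List ℝ) → ℕ → ℝ → ℝ → ℝ
  | [], _, _, _ => 0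
  | l :: L, m, u, v => u ^ m * pv l 0 v + pv2 L (m + 1) u v

noncomputable def pint2 (a b : ℝ) : List (List ℝ) → ℕ → ℝ
  | [], _ => 0
  | l :: L, m => ((b ^ (m + 1) - a ^ (m + 1)) / (m + 1)) * pint a b l 0 + pint2 a b L (m + 1)

theorem continuous_pv (l : List ℝ) (n : ℕ) : Continuous (pv l n) := by
  induction l generalizing n with
  | nil => exact continuous_const
  | cons c l ih =>
    have h := ih (n + 1)
    show Continuous fun x => c * x ^ n + pv l (n + 1) x
    fun_prop

theorem integral_pv (a b : ℝ) (l : List ℝ) (n : ℕ) : ∫ x in a..b, pv l n x = pint a b l n := by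
  induction l generalizing n with
  | nil => simp [pv, pint]
  | cons c l ih =>
    show (∫ x in a..b, (c * x ^ n + pv l (n + 1) x)) = _
    rw [intervalIntegral.integral_add ((by fun_prop : Continuous fun x : ℝ => c * x ^ n).intervalIntegrable _ _)
      ((continuous_pv l (n + 1)).intervalIntegrable _ _), ih, intervalIntegral.integral_const_mul,
      integral_pow]
    simp [pint]

theorem integral_pv2 (a b : ℝ) (L : List (List ℝ)) (m : ℕ) :
    ∫ u in a..b, ∫ v in a..b, pv2 L m u v = pint2 a b L m := by
  have key : ∀ (L : List (List ℝ)) (m : ℕ) (u : ℝ),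
      ∫ v in a..b, pv2 L m u v = pv (L.map fun l => pint a b l 0) m u ∧
      Continuous (fun v => pv2 L m u v) := by
    intro L
    induction L with
    | nil =>
      intro m u
      constructor
      · simp [pv2, pv]
      · exact continuous_const
    | cons l L ih =>
      intro m u
      have hc := (ih (m + 1) u).2
      have hp := continuous_pv l 0
      constructor
      · show (∫ v in a..b, (u ^ m * pv l 0 v + pv2 L (m + 1) u v)) = _
        rw [intervalIntegral.integral_add ((by fun_prop : Continuous fun v : ℝ => u ^ m * pv l 0 v).intervalIntegrable _ _)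
          (hc.intervalIntegrable _ _), (ih (m + 1) u).1, intervalIntegral.integral_const_mul,
          integral_pv]
        simp [pv]; ring
      · show Continuous fun v => (u ^ m * pv l 0 v + pv2 L (m + 1) u v)
        fun_prop
  have h1 : (fun u => ∫ v in a..b, pv2 L m u v) = fun u => pv (L.map fun l => pint a b l 0) m u :=
    funext fun u => (key L m u).1
  rw [h1, integral_pv]
  induction L generalizing m with
  | nil => simp [pint, pint2]
  | cons l L ih =>
    simp only [List.map_cons, pint, pint2]
    rw [ih (m + 1) (funext fun u => (key L (m+1) u).1)]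
    ring

/-- If the integrand is a polynomial, the iterated integral is given by the coefficients. -/
theorem dint_eq {a b : ℝ} {f : ℝ → ℝ → ℝ} (L : List (List ℝ)) (V : ℝ)
    (h : ∀ u v, f u v = pv2 L 0 u v) (hV : pint2 a b L 0 = V) :
    ∫ u in a..b, ∫ v in a..b, f u v = V := by
  rw [← hV, ← integral_pv2]
  congr 1; ext u; congr 1; ext v; exact h u v

example (w1 w2 : ℝ) : ∫ X in (-(1/2) : ℝ)..(1/2), ∫ Y in (-(1/2) : ℝ)..(1/2),
    (X * (1 + w1 * Y)) ^ 2 * (1 + w1 * Y + w2 * X) = 1/12 + w1^2/48 := by
  refine dint_eq [[], [], [1, 3 * w1, 3 * w1 ^ 2, w1 ^ 3], [w2, 2 * w1 * w2, w1 ^ 2 * w2]] _ ?_ ?_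
  · intro u v
    simp only [pv2, pv]; ring
  · simp only [pint2, pint]; norm_num; ring

end Pool.Agent.Helper238
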