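import Pool.Agent.Helper238.Geo
import Pool.Agent.Helper238.PolyInt

set_option autoImplicit false

open MeasureTheory Set

namespace Pool.Agent.Helper238

variable (m f1 f2 : E2) (β η : ℝ)

/-- vertices -/
noncomputable def va : E2 := m - f1
noncomputable def vb : E2 := m + β • f1 + (1 + η) • f2
noncomputable def vc : E2 := m + f1
noncomputable def vd : E2 := m + β • f1 - (1 - η) • f2

/-- centre and bilinear frame -/
noncomputable def qo : E2 := m + (1/2 : ℝ) • (β • f1 + η • f2)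
noncomputable def q1 : E2 := -(f1 + f2)
noncomputable def q2 : E2 := f2 - f1
noncomputable def q3 : E2 := (-2 : ℝ) • (β • f1 + η • f2)

theorem q3_eq : q3 f1 f2 β η = (β + η) • q1 f1 f2 + (β - η) • q2 f1 f2 := by
  unfold q3 q1 q2
  simp only [smul_add, smul_sub, smul_neg, add_smul, sub_smul, neg_smul, two_smul]
  abel

theorem jac_q (z : ℝ × ℝ) : jac (q1 f1 f2) (q2 f1 f2) (q3 f1 f2 β η) z
    = cr (q1 f1 f2) (q2 f1 f2) * (1 + (β + η) * z.2 + (β - η) * z.1) := by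
  rw [q3_eq]
  simp [jac, cr]; ring

theorem cr_q : cr (q1 f1 f2) (q2 f1 f2) = -2 * cr f1 f2 := by
  simp [q1, q2, cr]; ring

theorem jq_pos (hβ : |β| < 1) (hη : |η| < 1) (z : ℝ × ℝ) (hz : z ∈ Oc) :
    0 < 1 + (β + η) * z.2 + (β - η) * z.1 := by
  obtain ⟨⟨h1, h2⟩, h3, h4⟩ := hz
  rw [abs_lt] at hβ hη
  nlinarith [mul_pos (sub_pos.2 hβ.1) (sub_pos.2 h1), mul_pos (sub_pos.2 hβ.2) (sub_pos.2 h2),
    mul_pos (sub_pos.2 hβ.1) (sub_pos.2 h3), mul_pos (sub_pos.2 hβ.2) (sub_pos.2 h4),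
    mul_pos (sub_pos.2 hη.1) (sub_pos.2 h1), mul_pos (sub_pos.2 hη.2) (sub_pos.2 h2),
    mul_pos (sub_pos.2 hη.1) (sub_pos.2 h3), mul_pos (sub_pos.2 hη.2) (sub_pos.2 h4)]

theorem convex_Oc : Convex ℝ Oc := (convex_Ioo _ _).prod (convex_Ioo _ _)

theorem bil_q_mem (hβ : |β| < 1) (hη : |η| < 1) (z : ℝ × ℝ) (hz : z ∈ Oc) :
    bil (qo m f1 f2 β η) (q1 f1 f2) (q2 f1 f2) (q3 f1 f2 β η) z ∈
      quadc (va m f1) (vb m f1 f2 β η) (vc m f1) (vd m f1 f2 β η) := by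
  obtain ⟨X, Y⟩ := z
  obtain ⟨⟨h1, h2⟩, h3, h4⟩ := hz
  simp only at h1 h2 h3 h4
  rw [abs_lt] at hβ hη
  have p1 : 0 < 1/2 + X := by linarith
  have p2 : 0 < 1/2 - X := by linarith
  have p3 : 0 < 1/2 + Y := by linarith
  have p4 : 0 < 1/2 - Y := by linarith
  have g1 : 0 < 1 + η := by linarith
  have g2 : 0 < 1 - η := by linarith
  have g3 : 0 < 1 + β := by linarith
  have g4 : 0 < 1 - β := by linarith
  set wa := (1/2 + X) * (1/2 + Y) with hwa
  set wb := (1/2 - X) * (1/2 + Y) with hwb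
  set wc := (1/2 - X) * (1/2 - Y) with hwc
  set wd := (1/2 + X) * (1/2 - Y) with hwd
  have ha : 0 < wa := mul_pos p1 p3
  have hb : 0 < wb := mul_pos p2 p3
  have hc : 0 < wc := mul_pos p2 p4
  have hd : 0 < wd := mul_pos p1 p4
  rcases le_total (wd * (1 - η)) (wb * (1 + η)) with hle | hle
  · left
    have := tri_mem (va m f1) (vb m f1 f2 β η) (vc m f1) (wa + wd / (1 + η) * (1 - β))
      (wb - wd / (1 + η) * (1 - η)) (wc + wd / (1 + η) * (1 + β)) (by positivity)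
      (by
        have : wd / (1 + η) * (1 - η) = wd * (1 - η) / (1 + η) := by ring
        rw [this, sub_nonneg, div_le_iff₀ g1]; exact hle) (by positivity)
      (by
        field_simp
        rw [hwa, hwb, hwc, hwd]; ring)
    convert this using 1
    have hd' : wd = wd / (1 + η) * (1 + η) := by field_simp
    ext i
    simp only [bil, qo, q1, q2, q3, va, vb, vc, PiLp.add_apply, PiLp.smul_apply, PiLp.sub_apply,
      PiLp.neg_apply, smul_eq_mul]
    set t := wd / (1 + η) with ht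
    have e1 : (1/2 + X) * (1/2 - Y) = t * (1 + η) := by rw [← hd']
    have e2 : wa = 1/2 + X - t * (1 + η) := by rw [hwa, ← e1]; ring
    have e3 : wc = 1/2 - Y - t * (1 + η) := by rw [hwc, ← e1]; ring
    have e4 : wb = Y - X + t * (1 + η) := by rw [hwb, ← e1]; ring
    have e5 : X * Y = X / 2 - Y / 2 + 1/4 - t * (1 + η) := by linear_combination -e1
    rw [e2, e3, e4, e5]
    ring
  · right
    have := tri_mem (va m f1) (vc m f1) (vd m f1 f2 β η) (wa + wb / (1 - η) * (1 - β))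
      (wc + wb / (1 - η) * (1 + β)) (wd - wb / (1 - η) * (1 + η)) (by positivity) (by positivity)
      (by
        have : wb / (1 - η) * (1 + η) = wb * (1 + η) / (1 - η) := by ring
        rw [this, sub_nonneg, div_le_iff₀ g2]; exact hle)
      (by
        field_simp
        rw [hwa, hwb, hwc, hwd]; ring)
    convert this using 1
    have hd' : wb = wb / (1 - η) * (1 - η) := by field_simp
    ext i
    simp only [bil, qo, q1, q2, q3, va, vd, vc, PiLp.add_apply, PiLp.smul_apply, PiLp.sub_apply,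
      PiLp.neg_apply, smul_eq_mul]
    set t := wb / (1 - η) with ht
    have e1 : (1/2 - X) * (1/2 + Y) = t * (1 - η) := by rw [← hd']
    have e2 : wa = 1/2 + Y - t * (1 - η) := by rw [hwa, ← e1]; ring
    have e3 : wc = 1/2 - X - t * (1 - η) := by rw [hwc, ← e1]; ring
    have e4 : wd = X - Y + t * (1 - η) := by rw [hwd, ← e1]; ring
    have e5 : X * Y = Y / 2 - X / 2 + 1/4 - t * (1 - η) := by linear_combination -e1
    rw [e2, e3, e4, e5]
    ring

theorem cr_bac : cr (vb m f1 f2 β η - va m f1) (vc m f1 - va m f1) = -2 * (1 + η) * cr f1 f2 := by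
  simp [cr, va, vb, vc]; ring

theorem cr_dac : cr (vd m f1 f2 β η - va m f1) (vc m f1 - va m f1) = 2 * (1 - η) * cr f1 f2 := by
  simp [cr, va, vd, vc]; ring

theorem cr_cad : cr (vc m f1 - va m f1) (vd m f1 f2 β η - va m f1) = -2 * (1 - η) * cr f1 f2 := by
  simp [cr, va, vd, vc]; ring

variable {m f1 f2 β η}

theorem opp (hcr : cr f1 f2 ≠ 0) (hη : |η| < 1) :
    cr (vb m f1 f2 β η - va m f1) (vc m f1 - va m f1) *
      cr (vd m f1 f2 β η - va m f1) (vc m f1 - va m f1) < 0 := by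
  rw [cr_bac, cr_dac]
  rw [abs_lt] at hη
  have : 0 < (1 + η) * (1 - η) * (cr f1 f2) ^ 2 := by
    have h1 : 0 < 1 + η := by linarith
    have h2 : 0 < 1 - η := by linarith
    positivity
  nlinarith

theorem area_quad (hcr : cr f1 f2 ≠ 0) (hη : |η| < 1) :
    ∫ _ in quado (va m f1) (vb m f1 f2 β η) (vc m f1) (vd m f1 f2 β η), (1:ℝ) = 2 * |cr f1 f2| := by
  have hη' := abs_lt.1 hη
  rw [integral_quad _ _ _ _ (opp hcr hη) _ continuous_const, area_tri, area_tri, cr_bac, cr_cad]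
  · rw [abs_mul, abs_mul, abs_mul, abs_mul, abs_of_pos (by linarith : 0 < 1 + η),
      abs_of_pos (by linarith : 0 < 1 - η)]
    norm_num
    ring
  · rw [cr_cad]
    have : 1 - η ≠ 0 := by linarith
    positivity
  · rw [cr_bac]
    have : 1 + η ≠ 0 := by linarith
    positivity

theorem image_q_ae (hcr : cr f1 f2 ≠ 0) (hβ : |β| < 1) (hη : |η| < 1) :
    (bil (qo m f1 f2 β η) (q1 f1 f2) (q2 f1 f2) (q3 f1 f2 β η) '' Oc : Set E2) =ᵐ[volume]
      quado (va m f1) (vb m f1 f2 β η) (vc m f1) (vd m f1 f2 β η) := by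
  have hD : cr (q1 f1 f2) (q2 f1 f2) ≠ 0 := by rw [cr_q]; positivity
  have hinj : InjOn (bil (qo m f1 f2 β η) (q1 f1 f2) (q2 f1 f2) (q3 f1 f2 β η)) Oc := by
    refine bil_inj_of_jac _ _ _ _ _ convex_Oc ?_
    intro z hz
    rw [jac_q]
    exact mul_ne_zero hD (jq_pos β η hβ hη z hz).ne'
  have hmeas : MeasurableSet (bil (qo m f1 f2 β η) (q1 f1 f2) (q2 f1 f2) (q3 f1 f2 β η) '' Oc) := by
    have h1 : MeasurableSet ((fun z => toP (bil (qo m f1 f2 β η) (q1 f1 f2) (q2 f1 f2)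
        (q3 f1 f2 β η) z)) '' Oc) :=
      measurableSet_Oc.image_of_continuousOn_injOn
        (fun z _ => (hasFDerivAt_bil _ _ _ _ z).continuousAt.continuousWithinAt)
        (toP.injective.comp_injOn hinj)
    have h2 : bil (qo m f1 f2 β η) (q1 f1 f2) (q2 f1 f2) (q3 f1 f2 β η) '' Oc =
        toP ⁻¹' ((fun z => toP (bil (qo m f1 f2 β η) (q1 f1 f2) (q2 f1 f2)
        (q3 f1 f2 β η) z)) '' Oc) := by
      ext x
      simp only [mem_image, mem_preimage]
      constructor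
      · rintro ⟨z, hz, rfl⟩; exact ⟨z, hz, rfl⟩
      · rintro ⟨z, hz, h⟩; exact ⟨z, hz, toP.injective h⟩
    rw [h2]
    exact toP.measurable h1
  refine Filter.EventuallyEq.trans ?_ (quado_ae _ _ _ _).symm
  have hsub : bil (qo m f1 f2 β η) (q1 f1 f2) (q2 f1 f2) (q3 f1 f2 β η) '' Oc ⊆
      quadc (va m f1) (vb m f1 f2 β η) (vc m f1) (vd m f1 f2 β η) := by
    rintro _ ⟨z, hz, rfl⟩
    exact bil_q_mem m f1 f2 β η hβ hη z hz
  have hfin : volume (quadc (va m f1) (vb m f1 f2 β η) (vc m f1) (vd m f1 f2 β η)) ≠ ⊤ :=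
    (isCompact_quadc _ _ _ _).measure_lt_top.ne
  refine ae_eq_of_subset_of_measure_ge hsub ?_ hmeas.nullMeasurableSet hfin
  -- compare real measures
  have e1 : ∫ _ in bil (qo m f1 f2 β η) (q1 f1 f2) (q2 f1 f2) (q3 f1 f2 β η) '' Oc, (1:ℝ)
      = 2 * |cr f1 f2| := by
    rw [cov _ _ _ _ _ measurableSet_Oc hinj (fun _ => (1:ℝ))]
    have : ∫ z in Oc, |jac (q1 f1 f2) (q2 f1 f2) (q3 f1 f2 β η) z| * (1:ℝ)
        = ∫ z in Oc, 2 * |cr f1 f2| * (1 + (β + η) * z.2 + (β - η) * z.1) := by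
      refine setIntegral_congr_fun measurableSet_Oc ?_
      intro z hz
      simp only
      rw [jac_q, abs_mul, abs_of_pos (jq_pos β η hβ hη z hz), cr_q, abs_mul]
      norm_num
    rw [this, Oc, integral_box _ _ _ _ (by norm_num) (by norm_num) _ (by fun_prop)]
    refine dint_eq [[2 * |cr f1 f2|, 2 * |cr f1 f2| * (β + η)], [2 * |cr f1 f2| * (β - η)]] _ ?_ ?_
    · intro u v
      simp only [pv2, pv]; ring
    · simp only [pint2, pint]; norm_num
  have e2 := area_quad (m := m) (β := β) hcr hη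
  rw [setIntegral_congr_set (quado_ae _ _ _ _)] at e2
  simp only [integral_const, smul_eq_mul, mul_one, MeasurableSet.univ, measureReal_restrict_apply,
    univ_inter] at e1 e2
  have hfin' : volume (bil (qo m f1 f2 β η) (q1 f1 f2) (q2 f1 f2) (q3 f1 f2 β η) '' Oc) ≠ ⊤ :=
    ((measure_mono hsub).trans_lt hfin.lt_top).ne
  rw [← e1] at e2
  exact ((measureReal_eq_measureReal_iff hfin hfin').1 e2).le

theorem bil_q_inj (hcr : cr f1 f2 ≠ 0) (hβ : |β| < 1) (hη : |η| < 1) :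
    InjOn (bil (qo m f1 f2 β η) (q1 f1 f2) (q2 f1 f2) (q3 f1 f2 β η)) Oc := by
  have hD : cr (q1 f1 f2) (q2 f1 f2) ≠ 0 := by rw [cr_q]; positivity
  refine bil_inj_of_jac _ _ _ _ _ convex_Oc ?_
  intro z hz
  rw [jac_q]
  exact mul_ne_zero hD (jq_pos β η hβ hη z hz).ne'

/-- Integration over a convex quadrilateral by bilinear coordinates. -/
theorem integral_convex (hcr : cr f1 f2 ≠ 0) (hβ : |β| < 1) (hη : |η| < 1) (F : E2 → ℝ)
    (hF : Continuous F) :
    ∫ x in quado (va m f1) (vb m f1 f2 β η) (vc m f1) (vd m f1 f2 β η), F x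
      = |cr (q1 f1 f2) (q2 f1 f2)| * ∫ X in (-(1/2) : ℝ)..(1/2), ∫ Y in (-(1/2) : ℝ)..(1/2),
        (1 + (β + η) * Y + (β - η) * X) *
          F (bil (qo m f1 f2 β η) (q1 f1 f2) (q2 f1 f2) (q3 f1 f2 β η) (X, Y)) := by
  rw [← setIntegral_congr_set (image_q_ae hcr hβ hη),
    cov _ _ _ _ _ measurableSet_Oc (bil_q_inj hcr hβ hη)]
  have : ∫ z in Oc, |jac (q1 f1 f2) (q2 f1 f2) (q3 f1 f2 β η) z| *
        F (bil (qo m f1 f2 β η) (q1 f1 f2) (q2 f1 f2) (q3 f1 f2 β η) z)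
      = ∫ z in Oc, |cr (q1 f1 f2) (q2 f1 f2)| * ((1 + (β + η) * z.2 + (β - η) * z.1) *
        F (bil (qo m f1 f2 β η) (q1 f1 f2) (q2 f1 f2) (q3 f1 f2 β η) z)) := by
    refine setIntegral_congr_fun measurableSet_Oc ?_
    intro z hz
    simp only
    rw [jac_q, abs_mul, abs_of_pos (jq_pos β η hβ hη z hz)]
    ring
  have hc := continuous_bil (qo m f1 f2 β η) (q1 f1 f2) (q2 f1 f2) (q3 f1 f2 β η)
  rw [this, Oc, integral_box _ _ _ _ (by norm_num) (by norm_num) _ (by fun_prop),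
    ← intervalIntegral.integral_const_mul]
  congr 1; ext u
  rw [← intervalIntegral.integral_const_mul]

theorem contDiff_toPbil (o e1 e2 e3 : E2) : ContDiff ℝ 1 (fun z => toP (bil o e1 e2 e3 z)) := by
  have : (fun z => toP (bil o e1 e2 e3 z)) = fun z : ℝ × ℝ =>
      ((o 0 + z.1 * e1 0 + z.2 * e2 0 + (z.1 * z.2) * e3 0 : ℝ),
       (o 1 + z.1 * e1 1 + z.2 * e2 1 + (z.1 * z.2) * e3 1 : ℝ)) := rfl
  rw [this]
  fun_prop

theorem bil_mem_interior (o e1 e2 e3 : E2) (S : Set (ℝ × ℝ)) (z : ℝ × ℝ) (hS : S ∈ nhds z)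
    (hj : jac e1 e2 e3 z ≠ 0) : bil o e1 e2 e3 z ∈ interior (bil o e1 e2 e3 '' S) := by
  have hst : HasStrictFDerivAt (fun z => toP (bil o e1 e2 e3 z)) (bilD e1 e2 e3 z) z :=
    ((contDiff_toPbil o e1 e2 e3).contDiffAt).hasStrictFDerivAt' (hasFDerivAt_bil o e1 e2 e3 z) (by simp)
  have hdet : (bilD e1 e2 e3 z).det ≠ 0 := by rw [det_bilD]; exact hj
  have hst' : HasStrictFDerivAt (fun z => toP (bil o e1 e2 e3 z))
      (((bilD e1 e2 e3 z).toContinuousLinearEquivOfDetNeZero hdet : (ℝ × ℝ) ≃L[ℝ] (ℝ × ℝ)) :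
        (ℝ × ℝ) →L[ℝ] (ℝ × ℝ)) z := hst
  have hmap := hst'.map_nhds_eq_of_equiv
  have h1 : (fun z => toP (bil o e1 e2 e3 z)) '' S ∈ nhds (toP (bil o e1 e2 e3 z)) := by
    rw [← hmap]; exact Filter.image_mem_map hS
  have hcont : Continuous (fun x : E2 => toP x) := by
    have : (fun x : E2 => toP x) = fun x : E2 => (x 0, x 1) := rfl
    rw [this]; fun_prop
  have h2 := hcont.continuousAt.preimage_mem_nhds h1
  rw [mem_interior_iff_mem_nhds]
  refine Filter.mem_of_superset h2 ?_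
  rintro x ⟨w, hw, hwx⟩
  exact ⟨w, hw, toP.injective hwx⟩

theorem isOpen_Oc : IsOpen Oc := isOpen_Ioo.prod isOpen_Ioo
theorem isOpen_O01 : IsOpen O01 := isOpen_Ioo.prod isOpen_Ioo

theorem qo_mem {m f1 f2 : E2} {β η : ℝ} (hcr : cr f1 f2 ≠ 0) (hβ : |β| < 1) (hη : |η| < 1) :
    qo m f1 f2 β η ∈ quado (va m f1) (vb m f1 f2 β η) (vc m f1) (vd m f1 f2 β η) := by
  have h0 : ((0:ℝ), (0:ℝ)) ∈ Oc := by
    constructor <;> constructor <;> norm_num
  have hD : cr (q1 f1 f2) (q2 f1 f2) ≠ 0 := by rw [cr_q]; positivity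
  have h1 := bil_mem_interior (qo m f1 f2 β η) (q1 f1 f2) (q2 f1 f2) (q3 f1 f2 β η) Oc (0, 0)
    (isOpen_Oc.mem_nhds h0) (by rw [jac_q]; simpa using hD)
  have h2 : bil (qo m f1 f2 β η) (q1 f1 f2) (q2 f1 f2) (q3 f1 f2 β η) (0, 0) = qo m f1 f2 β η := by
    simp [bil]
  rw [h2] at h1
  refine interior_mono ?_ h1
  rintro _ ⟨z, hz, rfl⟩
  exact bil_q_mem m f1 f2 β η hβ hη z hz

theorem tri_pt_mem (A B C : E2) (h : cr (B - A) (C - A) ≠ 0) (u v : ℝ) (hu : u ∈ Ioo (0:ℝ) 1)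
    (hv : v ∈ Ioo (0:ℝ) 1) : bil A (B - A) 0 (C - B) (u, v) ∈ interior (tri A B C) := by
  rw [tri_eq]
  have hj : jac (B - A) 0 (C - B) (u, v) = u * cr (B - A) (C - A) := by
    simp only [jac, cr, PiLp.sub_apply, PiLp.zero_apply]; ring
  have h1 := bil_mem_interior A (B - A) 0 (C - B) O01 (u, v) (isOpen_O01.mem_nhds ⟨hu, hv⟩)
    (by rw [hj]; exact mul_ne_zero hu.1.ne' h)
  exact interior_mono (image_mono (prod_mono Ioo_subset_Icc_self Ioo_subset_Icc_self)) h1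

end Pool.Agent.Helper238
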