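import Pool.Agent.Helper238.MomR1
import Pool.Agent.Helper238.Frame
import Pool.Agent.Helper238.Geo2
import Pool.Agent.Helper238.Cover

set_option autoImplicit false

open MeasureTheory Set

namespace Pool.Agent.Helper238

/-- first cubic trial function -/
noncomputable def TRa (w1 c k : ℝ) : TF where
  φ := fun x y => x - c * x ^ 3 + k * w1 * (x * y)
  φ1 := fun x y => 1 - 3 * c * x ^ 2 + k * w1 * y
  φ2 := fun x _ => k * w1 * x
  smooth := by fun_prop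
  deriv := by
    intro z
    have h1 := (hasFDerivAt_fst (𝕜 := ℝ) (E := ℝ) (F := ℝ) (p := z))
    have h2 := (hasFDerivAt_snd (𝕜 := ℝ) (E := ℝ) (F := ℝ) (p := z))
    have := (h1.sub ((h1.pow 3).const_mul c)).add ((h1.mul h2).const_mul (k * w1))
    refine this.congr_fderiv ?_
    ext <;> simp <;> ring
  cont1 := by fun_prop
  cont2 := by fun_prop

/-- second cubic trial function -/
noncomputable def TRb (w2 c k : ℝ) : TF where
  φ := fun x y => y - c * y ^ 3 + k * w2 * (x * y)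
  φ1 := fun _ y => k * w2 * y
  φ2 := fun x y => 1 - 3 * c * y ^ 2 + k * w2 * x
  smooth := by fun_prop
  deriv := by
    intro z
    have h1 := (hasFDerivAt_fst (𝕜 := ℝ) (E := ℝ) (F := ℝ) (p := z))
    have h2 := (hasFDerivAt_snd (𝕜 := ℝ) (E := ℝ) (F := ℝ) (p := z))
    have := (h2.sub ((h2.pow 3).const_mul c)).add ((h1.mul h2).const_mul (k * w2))
    refine this.congr_fderiv ?_
    ext <;> simp <;> ring
  cont1 := by fun_prop
  cont2 := by fun_prop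

theorem quadR1_eq (cn kn : ℤ) (w1 w2 : ℝ) :
    QDof (JQ w1 w2) 1 (TRa w1 ((cn : ℝ) / 10) ((kn : ℝ) / 10)) (TRb w2 ((cn : ℝ) / 10) ((kn : ℝ) / 10))
      = quadR1 cn kn w1 w2 := by
  simp only [QDof, TRa, TRb]
  rw [JQ_one, JQ_x, JQ_y, JQ_xx, JQ_yy, JQ_xy, JQ_f1f1, JQ_f2f2, JQ_f1f2, JQ_g1g1, JQ_g2g2, JQ_g1g2,
    JQ_f1g1, JQ_f2g2, JQ_fg12, JQ_ff, JQ_gg, JQ_fg, JQ_f, JQ_g]
  simp only [quadR1, lt, alg_add, alg_sub, alg_mul, alg_sc, alg_cst, QD.mk.injEq]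
  push_cast
  refine ⟨?_, ?_, ?_, ?_, ?_, ?_, ?_, ?_, ?_, ?_, ?_, ?_, ?_, ?_, ?_, ?_⟩ <;> ring

theorem xi_bil (o g1 g2 : E2) (w1 w2 : ℝ) (hD : cr g1 g2 ≠ 0) (z : ℝ × ℝ) :
    xi o g1 g2 (bil o g1 g2 (w1 • g1 + w2 • g2) z) = (z.1 * (1 + w1 * z.2), z.2 * (1 + w2 * z.1)) := by
  have h1 : cr (bil o g1 g2 (w1 • g1 + w2 • g2) z - o) g2 = z.1 * (1 + w1 * z.2) * cr g1 g2 := by
    simp [cr, bil]; ring
  have h2 : cr g1 (bil o g1 g2 (w1 • g1 + w2 • g2) z - o) = z.2 * (1 + w2 * z.1) * cr g1 g2 := by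
    simp [cr, bil]; ring
  unfold xi
  rw [h1, h2]
  field_simp

theorem dat_convex {m f1 f2 : E2} {β η : ℝ} (hcr : cr f1 f2 ≠ 0) (hβ : |β| < 1) (hη : |η| < 1) :
    Dat (quado (va m f1) (vb m f1 f2 β η) (vc m f1) (vd m f1 f2 β η)) (qo m f1 f2 β η)
      (q1 f1 f2) (q2 f1 f2) (JQ (β + η) (β - η)) |cr (q1 f1 f2) (q2 f1 f2)| := by
  have hD : cr (q1 f1 f2) (q2 f1 f2) ≠ 0 := by rw [cr_q]; positivity
  intro φ hφ
  have hx := continuous_xi (qo m f1 f2 β η) (q1 f1 f2) (q2 f1 f2)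
  have hc : Continuous fun x => φ (xi (qo m f1 f2 β η) (q1 f1 f2) (q2 f1 f2) x).1
    (xi (qo m f1 f2 β η) (q1 f1 f2) (q2 f1 f2) x).2 := hφ.comp hx
  rw [integral_convex hcr hβ hη _ hc]
  unfold JQ
  congr 1
  congr 1; ext X
  congr 1; ext Y
  simp only [q3_eq, xi_bil _ _ _ _ _ hD]

theorem xi_center (o g1 g2 : E2) : xi o g1 g2 o = (0, 0) := by
  simp [xi, cr]

theorem dx_indep (g1 g2 : E2) (hD : cr g1 g2 ≠ 0) (a b : ℝ)
    (h : a • dx1 g1 g2 + b • dx2 g1 g2 = 0) : a = 0 ∧ b = 0 := by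
  have h1 := congrArg (fun L : E2 →L[ℝ] ℝ => L g1) h
  have h2 := congrArg (fun L : E2 →L[ℝ] ℝ => L g2) h
  simp only [dx1, dx2, add_apply, smul_apply, sub_apply, PiLp.proj_apply, smul_eq_mul,
    zero_apply] at h1 h2
  constructor
  · have : a = a * (g2 1 / cr g1 g2 * g1 0 - g2 0 / cr g1 g2 * g1 1)
        + b * (g1 0 / cr g1 g2 * g1 1 - g1 1 / cr g1 g2 * g1 0) := by
      field_simp
      unfold cr; ring
    rw [this]; exact h1
  · have : b = a * (g2 1 / cr g1 g2 * g2 0 - g2 0 / cr g1 g2 * g2 1)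
        + b * (g1 0 / cr g1 g2 * g2 1 - g1 1 / cr g1 g2 * g2 0) := by
      field_simp
      unfold cr; ring
    rw [this]; exact h2

/-- linear independence of the gradients at a point -/
def Indep (u v : E2 → ℝ) (x0 : E2) : Prop :=
  ∀ c1 c2 : ℝ, c1 • fderiv ℝ u x0 + c2 • fderiv ℝ v x0 = 0 → c1 = 0 ∧ c2 = 0

theorem TF.indep (T S : TF) (o g1 g2 x0 : E2) (hD : cr g1 g2 ≠ 0)
    (h : T.φ1 (xi o g1 g2 x0).1 (xi o g1 g2 x0).2 * S.φ2 (xi o g1 g2 x0).1 (xi o g1 g2 x0).2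
      - T.φ2 (xi o g1 g2 x0).1 (xi o g1 g2 x0).2 * S.φ1 (xi o g1 g2 x0).1 (xi o g1 g2 x0).2 ≠ 0) :
    Indep (T.on o g1 g2) (S.on o g1 g2) x0 := by
  intro c1 c2 hc
  rw [T.fderiv_on, S.fderiv_on] at hc
  set a := T.φ1 (xi o g1 g2 x0).1 (xi o g1 g2 x0).2
  set b := T.φ2 (xi o g1 g2 x0).1 (xi o g1 g2 x0).2
  set c := S.φ1 (xi o g1 g2 x0).1 (xi o g1 g2 x0).2
  set d := S.φ2 (xi o g1 g2 x0).1 (xi o g1 g2 x0).2
  have h' : (c1 * a + c2 * c) • dx1 g1 g2 + (c1 * b + c2 * d) • dx2 g1 g2 = 0 := by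
    rw [← hc]
    ext v
    simp
    ring
  obtain ⟨h1, h2⟩ := dx_indep g1 g2 hD _ _ h'
  constructor
  · have : c1 * (a * d - b * c) = 0 := by linear_combination d * h1 - c * h2
    exact (mul_eq_zero.1 this).resolve_right h
  · have : c2 * (a * d - b * c) = 0 := by linear_combination a * h2 - b * h1
    exact (mul_eq_zero.1 this).resolve_right h

/-- The property we prove for all quadrilaterals. -/
def HasPair (Ω : Set E2) : Prop :=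
  ∃ u v : E2 → ℝ, ContDiff ℝ (⊤ : ℕ∞) u ∧ ContDiff ℝ (⊤ : ℕ∞) v ∧ (∃ x0 ∈ Ω, Indep u v x0) ∧
    Works Ω u v

theorem hasPair_convex_of_good {m f1 f2 : E2} {β η : ℝ} (hcr : cr f1 f2 ≠ 0) (hβ : |β| < 1)
    (hη : |η| < 1) (k : Nat)
    (hg : ∀ p r t : ℝ, 0 < p → p * r - t ^ 2 = 1 →
      Good (quadR1 (zoneC k) (zoneK k) (β + η) (β - η)) p r t) :
    HasPair (quado (va m f1) (vb m f1 f2 β η) (vc m f1) (vd m f1 f2 β η)) := by
  have hD : cr (q1 f1 f2) (q2 f1 f2) ≠ 0 := by rw [cr_q]; positivity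
  have hg' := hg (mp (q1 f1 f2) (q2 f1 f2)) (mr (q1 f1 f2) (q2 f1 f2)) (mt (q1 f1 f2) (q2 f1 f2))
    (mp_pos _ _ hD) (metric_det _ _ hD)
  rw [← quadR1_eq] at hg'
  have hJ := dat_convex (m := m) hcr hβ hη
  have hw := works_of_good (isCompact_quadc (va m f1) (vb m f1 f2 β η) (vc m f1) (vd m f1 f2 β η))
    interior_subset hJ hD (abs_pos.2 hD) _ _ 1 (by rw [div_self (abs_ne_zero.2 hD)])
    (by rw [JQ_one]; norm_num) hg'
  have hmem := qo_mem (m := m) hcr hβ hη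
  rcases hw with hw | hw
  · refine ⟨_, _, TX.contDiff_on _ _ _, TY.contDiff_on _ _ _, ⟨_, hmem, ?_⟩, hw⟩
    exact TF.indep _ _ _ _ _ _ hD (by simp [TX, TY])
  · refine ⟨_, _, TF.contDiff_on _ _ _ _, TF.contDiff_on _ _ _ _, ⟨_, hmem, ?_⟩, hw⟩
    exact TF.indep _ _ _ _ _ _ hD (by simp [TRa, TRb, xi_center])

theorem hasPair_R1 {m f1 f2 : E2} {β η : ℝ} (hcr : cr f1 f2 ≠ 0) (hβ0 : 0 < β) (hη0 : 0 ≤ η)
    (hle : η ≤ β) (hβ : β ≤ 13 / 16) (hs : 1 / 200 ≤ β ^ 2 + η ^ 2) :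
    HasPair (quado (va m f1) (vb m f1 f2 β η) (vc m f1) (vd m f1 f2 β η)) := by
  obtain ⟨k, hk⟩ := R1_good β η hβ0 hη0 hle hβ hs
  exact hasPair_convex_of_good hcr (by rw [abs_lt]; constructor <;> linarith)
    (by rw [abs_lt]; constructor <;> linarith) k hk

end Pool.Agent.Helper238
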