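import Pool.Agent.Helper238.PolyInt

set_option autoImplicit false

namespace Pool.Agent.Helper238

/-- Normalised integration over the quadrilateral, cut along the diagonal through `(-2,0)`. -/
noncomputable def JI (h q : ℝ) (φ : ℝ → ℝ → ℝ) : ℝ :=
  ∫ u in (0 : ℝ)..1, ∫ v in (0 : ℝ)..1,
    u * ((1 + h + q) * φ (-2 + 3 * u + 3 * h * u * v) (7 / 4 * (-u + u * v * (q + 1)))
      + (1 + h - q) * φ (-2 + u * (3 + 3 * h) - 3 * h * u * v) (7 / 4 * (q * u + u * v * (1 - q))))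

variable (h q : ℝ)

theorem JI_one : JI h q (fun _ _ => 1) = 1 + h := by
  unfold JI
  refine dint_eq
    [[], [2 + 2 * h]] _ ?_ ?_
  · intro u v
    simp only [pv2, pv]; ring
  · simp only [pint2, pint]; ring

theorem JI_x : JI h q (fun x _ => x) = h + h ^ (2:ℕ) := by
  unfold JI
  refine dint_eq
    [[], [-4 - 4 * h], [6 + 9 * h - 3 * h * q + 3 * h ^ (2:ℕ), 6 * h * q]] _ ?_ ?_
  · intro u v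
    simp only [pv2, pv]; ring
  · simp only [pint2, pint]; ring

theorem JI_y : JI h q (fun _ y => y) = 7 / 12 * h * q := by
  unfold JI
  refine dint_eq
    [[], [], [-7 / 4 - 7 / 4 * q ^ (2:ℕ) - 7 / 4 * h + 7 / 4 * h * q, 7 / 2 + 7 / 2 * q ^ (2:ℕ) + 7 / 2 * h]] _ ?_ ?_
  · intro u v
    simp only [pv2, pv]; ring
  · simp only [pint2, pint]; ring

theorem JI_xx : JI h q (fun x _ => x * x) = 1 / 2 + h + 2 * h ^ (2:ℕ) + 3 / 2 * h ^ (3:ℕ) := by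
  unfold JI
  refine dint_eq
    [[], [8 + 8 * h], [-24 - 36 * h + 12 * h * q - 12 * h ^ (2:ℕ), -24 * h * q], [18 + 36 * h - 18 * h * q
    + 27 * h ^ (2:ℕ) - 9 * h ^ (2:ℕ) * q + 9 * h ^ (3:ℕ), 36 * h * q - 18 * h ^ (2:ℕ) + 18 * h ^ (2:ℕ) * q - 18 * h ^ (3:ℕ), 18 * h ^ (2:ℕ) + 18 * h ^ (3:ℕ)]] _ ?_ ?_
  · intro u v
    simp only [pv2, pv]; ring
  · simp only [pint2, pint]; ring

theorem JI_yy : JI h q (fun _ y => y * y) = 49 / 96 + 49 / 96 * h + 49 / 96 * h * q ^ (2:ℕ) := by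
  unfold JI
  refine dint_eq
    [[], [], [], [49 / 16 + 49 / 16 * q + 49 / 16 * q ^ (2:ℕ) - 49 / 16 * q ^ (3:ℕ) + 49 / 16 * h + 49 / 16 *
    h * q ^ (2:ℕ), -49 / 8 - 49 / 8 * q - 147 / 8 * q ^ (2:ℕ) + 49 / 8 * q ^ (3:ℕ) - 49 / 8 * h - 49 / 8 * h *
    q ^ (2:ℕ), 49 / 8 + 147 / 8 * q ^ (2:ℕ) + 49 / 8 * h + 49 / 8 * h * q ^ (2:ℕ)]] _ ?_ ?_
  · intro u v
    simp only [pv2, pv]; ring
  · simp only [pint2, pint]; ring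

theorem JI_xy : JI h q (fun x y => x * y) = 7 / 12 * h * q + 7 / 8 * h ^ (2:ℕ) * q := by
  unfold JI
  refine dint_eq
    [[], [], [7 / 2 + 7 / 2 * q ^ (2:ℕ) + 7 / 2 * h - 7 / 2 * h * q, -7 - 7 * q ^ (2:ℕ) - 7 * h], [-21 / 4 -
    21 / 4 * q ^ (2:ℕ) - 21 / 4 * h + 21 / 2 * h * q - 21 / 4 * h * q ^ (2:ℕ) + 21 / 4 * h ^ (2:ℕ) * q, 21 / 2
    + 21 / 2 * q ^ (2:ℕ) + 21 / 2 * h - 21 * h * q + 21 / 2 * h * q ^ (2:ℕ) - 21 / 2 * h ^ (2:ℕ) * q, 21 * h *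
    q + 21 / 2 * h ^ (2:ℕ) * q]] _ ?_ ?_
  · intro u v
    simp only [pv2, pv]; ring
  · simp only [pint2, pint]; ring

theorem JI_f1f1 : JI h q (fun x _ => (1 - 3 / 10 * x) * (1 - 3 / 10 * x)) = 209 / 200 + 49 / 100 * h - 21 / 50 * h ^ (2:ℕ) + 27 / 200 * h ^ (3:ℕ) := by
  unfold JI
  refine dint_eq
    [[], [128 / 25 + 128 / 25 * h], [-144 / 25 - 216 / 25 * h + 72 / 25 * h * q - 72 / 25 * h ^ (2:ℕ),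
    -144 / 25 * h * q], [81 / 50 + 81 / 25 * h - 81 / 50 * h * q + 243 / 100 * h ^ (2:ℕ) - 81 / 100 *
    h ^ (2:ℕ) * q + 81 / 100 * h ^ (3:ℕ), 81 / 25 * h * q - 81 / 50 * h ^ (2:ℕ) + 81 / 50 * h ^ (2:ℕ) * q - 81 /
    50 * h ^ (3:ℕ), 81 / 50 * h ^ (2:ℕ) + 81 / 50 * h ^ (3:ℕ)]] _ ?_ ?_
  · intro u v
    simp only [pv2, pv]; ring
  · simp only [pint2, pint]; ring

theorem JI_f2f2 : JI h q (fun _ y => (3 / 10 * y) * (3 / 10 * y)) = 147 / 3200 + 147 / 3200 * h + 147 / 3200 * h * q ^ (2:ℕ) := by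
  unfold JI
  refine dint_eq
    [[], [], [], [441 / 1600 + 441 / 1600 * q + 441 / 1600 * q ^ (2:ℕ) - 441 / 1600 * q ^ (3:ℕ) + 441 / 1600 *
    h + 441 / 1600 * h * q ^ (2:ℕ), -441 / 800 - 441 / 800 * q - 1323 / 800 * q ^ (2:ℕ) + 441 / 800 * q ^ (3:ℕ) - 441 / 800 * h - 441 / 800 * h * q ^ (2:ℕ), 441 / 800 + 1323 / 800 * q ^ (2:ℕ) + 441 / 800 * h +
    441 / 800 * h * q ^ (2:ℕ)]] _ ?_ ?_
  · intro u v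
    simp only [pv2, pv]; ring
  · simp only [pint2, pint]; ring

theorem JI_f1f2 : JI h q (fun x y => (1 - 3 / 10 * x) * (3 / 10 * y)) = 49 / 400 * h * q - 63 / 800 * h ^ (2:ℕ) * q := by
  unfold JI
  refine dint_eq
    [[], [], [-21 / 25 - 21 / 25 * q ^ (2:ℕ) - 21 / 25 * h + 21 / 25 * h * q, 42 / 25 + 42 / 25 * q ^ (2:ℕ) +
    42 / 25 * h], [189 / 400 + 189 / 400 * q ^ (2:ℕ) + 189 / 400 * h - 189 / 200 * h * q + 189 / 400 *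
    h * q ^ (2:ℕ) - 189 / 400 * h ^ (2:ℕ) * q, -189 / 200 - 189 / 200 * q ^ (2:ℕ) - 189 / 200 * h + 189 / 100
    * h * q - 189 / 200 * h * q ^ (2:ℕ) + 189 / 200 * h ^ (2:ℕ) * q, -189 / 100 * h * q - 189 / 200 * h ^ (2:ℕ) * q]] _ ?_ ?_
  · intro u v
    simp only [pv2, pv]; ring
  · simp only [pint2, pint]; ring

theorem JI_g1g1 : JI h q (fun _ y => (3 / 10 * y) * (3 / 10 * y)) = 147 / 3200 + 147 / 3200 * h + 147 / 3200 * h * q ^ (2:ℕ) := by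
  unfold JI
  refine dint_eq
    [[], [], [], [441 / 1600 + 441 / 1600 * q + 441 / 1600 * q ^ (2:ℕ) - 441 / 1600 * q ^ (3:ℕ) + 441 / 1600 *
    h + 441 / 1600 * h * q ^ (2:ℕ), -441 / 800 - 441 / 800 * q - 1323 / 800 * q ^ (2:ℕ) + 441 / 800 * q ^ (3:ℕ) - 441 / 800 * h - 441 / 800 * h * q ^ (2:ℕ), 441 / 800 + 1323 / 800 * q ^ (2:ℕ) + 441 / 800 * h +
    441 / 800 * h * q ^ (2:ℕ)]] _ ?_ ?_
  · intro u v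
    simp only [pv2, pv]; ring
  · simp only [pint2, pint]; ring

theorem JI_g2g2 : JI h q (fun x _ => (1 + 3 / 10 * x) * (1 + 3 / 10 * x)) = 209 / 200 + 169 / 100 * h + 39 / 50 * h ^ (2:ℕ) + 27 / 200 * h ^ (3:ℕ) := by
  unfold JI
  refine dint_eq
    [[], [8 / 25 + 8 / 25 * h], [36 / 25 + 54 / 25 * h - 18 / 25 * h * q + 18 / 25 * h ^ (2:ℕ), 36 / 25 *
    h * q], [81 / 50 + 81 / 25 * h - 81 / 50 * h * q + 243 / 100 * h ^ (2:ℕ) - 81 / 100 * h ^ (2:ℕ) * q +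
    81 / 100 * h ^ (3:ℕ), 81 / 25 * h * q - 81 / 50 * h ^ (2:ℕ) + 81 / 50 * h ^ (2:ℕ) * q - 81 / 50 * h ^ (3:ℕ),
    81 / 50 * h ^ (2:ℕ) + 81 / 50 * h ^ (3:ℕ)]] _ ?_ ?_
  · intro u v
    simp only [pv2, pv]; ring
  · simp only [pint2, pint]; ring

theorem JI_g1g2 : JI h q (fun x y => (3 / 10 * y) * (1 + 3 / 10 * x)) = 91 / 400 * h * q + 63 / 800 * h ^ (2:ℕ) * q := by
  unfold JI
  refine dint_eq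
    [[], [], [-21 / 100 - 21 / 100 * q ^ (2:ℕ) - 21 / 100 * h + 21 / 100 * h * q, 21 / 50 + 21 / 50 * q ^ (2:ℕ) + 21 / 50 * h], [-189 / 400 - 189 / 400 * q ^ (2:ℕ) - 189 / 400 * h + 189 / 200 * h * q - 189 /
    400 * h * q ^ (2:ℕ) + 189 / 400 * h ^ (2:ℕ) * q, 189 / 200 + 189 / 200 * q ^ (2:ℕ) + 189 / 200 * h - 189 /
    100 * h * q + 189 / 200 * h * q ^ (2:ℕ) - 189 / 200 * h ^ (2:ℕ) * q, 189 / 100 * h * q + 189 / 200 * h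
    ^ (2:ℕ) * q]] _ ?_ ?_
  · intro u v
    simp only [pv2, pv]; ring
  · simp only [pint2, pint]; ring

theorem JI_f1g1 : JI h q (fun x y => (1 - 3 / 10 * x) * (3 / 10 * y)) = 49 / 400 * h * q - 63 / 800 * h ^ (2:ℕ) * q := by
  unfold JI
  refine dint_eq
    [[], [], [-21 / 25 - 21 / 25 * q ^ (2:ℕ) - 21 / 25 * h + 21 / 25 * h * q, 42 / 25 + 42 / 25 * q ^ (2:ℕ) +
    42 / 25 * h], [189 / 400 + 189 / 400 * q ^ (2:ℕ) + 189 / 400 * h - 189 / 200 * h * q + 189 / 400 *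
    h * q ^ (2:ℕ) - 189 / 400 * h ^ (2:ℕ) * q, -189 / 200 - 189 / 200 * q ^ (2:ℕ) - 189 / 200 * h + 189 / 100
    * h * q - 189 / 200 * h * q ^ (2:ℕ) + 189 / 200 * h ^ (2:ℕ) * q, -189 / 100 * h * q - 189 / 200 * h ^ (2:ℕ) * q]] _ ?_ ?_
  · intro u v
    simp only [pv2, pv]; ring
  · simp only [pint2, pint]; ring

theorem JI_f2g2 : JI h q (fun x y => (3 / 10 * y) * (1 + 3 / 10 * x)) = 91 / 400 * h * q + 63 / 800 * h ^ (2:ℕ) * q := by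
  unfold JI
  refine dint_eq
    [[], [], [-21 / 100 - 21 / 100 * q ^ (2:ℕ) - 21 / 100 * h + 21 / 100 * h * q, 21 / 50 + 21 / 50 * q ^ (2:ℕ) + 21 / 50 * h], [-189 / 400 - 189 / 400 * q ^ (2:ℕ) - 189 / 400 * h + 189 / 200 * h * q - 189 /
    400 * h * q ^ (2:ℕ) + 189 / 400 * h ^ (2:ℕ) * q, 189 / 200 + 189 / 200 * q ^ (2:ℕ) + 189 / 200 * h - 189 /
    100 * h * q + 189 / 200 * h * q ^ (2:ℕ) - 189 / 200 * h ^ (2:ℕ) * q, 189 / 100 * h * q + 189 / 200 * h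
    ^ (2:ℕ) * q]] _ ?_ ?_
  · intro u v
    simp only [pv2, pv]; ring
  · simp only [pint2, pint]; ring

theorem JI_fg12 : JI h q (fun x y => (1 - 3 / 10 * x) * (1 + 3 / 10 * x) + (3 / 10 * y) * (3 / 10 * y)) = 3203 / 3200 + 3059 / 3200 * h + 147 / 3200 * h * q ^ (2:ℕ) - 9 / 50 * h ^ (2:ℕ) - 27 / 200 * h ^ (3:ℕ) := by
  unfold JI
  refine dint_eq
    [[], [32 / 25 + 32 / 25 * h], [54 / 25 + 81 / 25 * h - 27 / 25 * h * q + 27 / 25 * h ^ (2:ℕ), 54 / 25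
    * h * q], [-2151 / 1600 + 441 / 1600 * q + 441 / 1600 * q ^ (2:ℕ) - 441 / 1600 * q ^ (3:ℕ) - 4743 /
    1600 * h + 81 / 50 * h * q + 441 / 1600 * h * q ^ (2:ℕ) - 243 / 100 * h ^ (2:ℕ) + 81 / 100 * h ^ (2:ℕ) * q
    - 81 / 100 * h ^ (3:ℕ), -441 / 800 - 441 / 800 * q - 1323 / 800 * q ^ (2:ℕ) + 441 / 800 * q ^ (3:ℕ) - 441
    / 800 * h - 81 / 25 * h * q - 441 / 800 * h * q ^ (2:ℕ) + 81 / 50 * h ^ (2:ℕ) - 81 / 50 * h ^ (2:ℕ) * q +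
    81 / 50 * h ^ (3:ℕ), 441 / 800 + 1323 / 800 * q ^ (2:ℕ) + 441 / 800 * h + 441 / 800 * h * q ^ (2:ℕ) - 81 /
    50 * h ^ (2:ℕ) - 81 / 50 * h ^ (3:ℕ)]] _ ?_ ?_
  · intro u v
    simp only [pv2, pv]; ring
  · simp only [pint2, pint]; ring

theorem JI_ff : JI h q (fun x y => (x - 3 / 20 * (x * x - y * y)) * (x - 3 / 20 * (x * x - y * y))) = 327491 / 512000 + 443763 / 512000 * h + 73843 / 512000 * h * q ^ (2:ℕ) + 7203 / 512000 * h * q ^ (4:ℕ) +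
    20069 / 16000 * h ^ (2:ℕ) + 3087 / 16000 * h ^ (2:ℕ) * q ^ (2:ℕ) + 10839 / 32000 * h ^ (3:ℕ) - 1323 / 16000 *
    h ^ (3:ℕ) * q ^ (2:ℕ) - 567 / 1000 * h ^ (4:ℕ) + 243 / 2000 * h ^ (5:ℕ) := by
  unfold JI
  refine dint_eq
    [[], [338 / 25 + 338 / 25 * h], [-1248 / 25 - 1872 / 25 * h + 624 / 25 * h * q - 624 / 25 * h ^ (2:ℕ),
    -1248 / 25 * h * q], [9237 / 160 - 1911 / 800 * q - 1911 / 800 * q ^ (2:ℕ) + 1911 / 800 * q ^ (3:ℕ) +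
    94281 / 800 * h - 1503 / 25 * h * q - 1911 / 800 * h * q ^ (2:ℕ) + 4509 / 50 * h ^ (2:ℕ) - 1503 / 50 *
    h ^ (2:ℕ) * q + 1503 / 50 * h ^ (3:ℕ), 1911 / 400 + 1911 / 400 * q + 5733 / 400 * q ^ (2:ℕ) - 1911 / 400 *
    q ^ (3:ℕ) + 1911 / 400 * h + 3006 / 25 * h * q + 1911 / 400 * h * q ^ (2:ℕ) - 1503 / 25 * h ^ (2:ℕ) + 1503
    / 25 * h ^ (2:ℕ) * q - 1503 / 25 * h ^ (3:ℕ), -1911 / 400 - 5733 / 400 * q ^ (2:ℕ) - 1911 / 400 * h - 1911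
    / 400 * h * q ^ (2:ℕ) + 1503 / 25 * h ^ (2:ℕ) + 1503 / 25 * h ^ (3:ℕ)], [-2151 / 100 + 441 / 100 * q + 441
    / 100 * q ^ (2:ℕ) - 441 / 100 * q ^ (3:ℕ) - 6039 / 100 * h + 972 / 25 * h * q + 441 / 50 * h * q ^ (2:ℕ) -
    441 / 100 * h * q ^ (3:ℕ) - 1944 / 25 * h ^ (2:ℕ) + 972 / 25 * h ^ (2:ℕ) * q + 441 / 100 * h ^ (2:ℕ) * q ^ (2:ℕ) -
    1296 / 25 * h ^ (3:ℕ) + 324 / 25 * h ^ (3:ℕ) * q - 324 / 25 * h ^ (4:ℕ), -441 / 50 - 441 / 50 * q - 1323 /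
    50 * q ^ (2:ℕ) + 441 / 50 * q ^ (3:ℕ) - 441 / 100 * h - 6453 / 100 * h * q - 3087 / 100 * h * q ^ (2:ℕ) +
    1323 / 100 * h * q ^ (3:ℕ) + 8217 / 100 * h ^ (2:ℕ) - 3447 / 50 * h ^ (2:ℕ) * q - 1323 / 100 * h ^ (2:ℕ) * q ^ (2:ℕ) + 2916 / 25 * h ^ (3:ℕ) - 972 / 25 * h ^ (3:ℕ) * q + 972 / 25 * h ^ (4:ℕ), 441 / 50 + 1323 / 50 * q ^ (2:ℕ)
    + 441 / 100 * h - 3969 / 100 * h * q + 3087 / 100 * h * q ^ (2:ℕ) - 1323 / 100 * h * q ^ (3:ℕ) - 8217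
    / 100 * h ^ (2:ℕ) - 1323 / 50 * h ^ (2:ℕ) * q + 1323 / 100 * h ^ (2:ℕ) * q ^ (2:ℕ) - 2916 / 25 * h ^ (3:ℕ) + 972 /
    25 * h ^ (3:ℕ) * q - 972 / 25 * h ^ (4:ℕ), 1323 / 50 * h * q + 441 / 50 * h * q ^ (3:ℕ) + 441 / 25 * h ^ (2:ℕ)
    * q - 648 / 25 * h ^ (3:ℕ) * q], [267849 / 102400 - 105399 / 102400 * q - 3969 / 3200 * q ^ (2:ℕ) +
    3969 / 3200 * q ^ (3:ℕ) + 21609 / 102400 * q ^ (4:ℕ) - 21609 / 102400 * q ^ (5:ℕ) + 202869 / 20480 * h -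
    729 / 100 * h * q - 11907 / 3200 * h * q ^ (2:ℕ) + 3969 / 1600 * h * q ^ (3:ℕ) + 21609 / 102400 * h *
    q ^ (4:ℕ) + 729 / 40 * h ^ (2:ℕ) - 2187 / 200 * h ^ (2:ℕ) * q - 11907 / 3200 * h ^ (2:ℕ) * q ^ (2:ℕ) + 3969 / 3200
    * h ^ (2:ℕ) * q ^ (3:ℕ) + 729 / 40 * h ^ (3:ℕ) - 729 / 100 * h ^ (3:ℕ) * q - 3969 / 3200 * h ^ (3:ℕ) * q ^ (2:ℕ) + 729
    / 80 * h ^ (4:ℕ) - 729 / 400 * h ^ (4:ℕ) * q + 729 / 400 * h ^ (5:ℕ), 8379 / 5120 + 10143 / 12800 * q +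
    168903 / 25600 * q ^ (2:ℕ) - 8379 / 5120 * q ^ (3:ℕ) - 21609 / 12800 * q ^ (4:ℕ) + 21609 / 25600 * q ^ (5:ℕ) -
    21609 / 25600 * h + 161127 / 25600 * h * q + 11907 / 800 * h * q ^ (2:ℕ) - 168903 / 25600 * h * q
    ^ (3:ℕ) - 21609 / 25600 * h * q ^ (4:ℕ) - 38961 / 1600 * h ^ (2:ℕ) + 4617 / 320 * h ^ (2:ℕ) * q + 11907 / 800
    * h ^ (2:ℕ) * q ^ (2:ℕ) - 3969 / 800 * h ^ (2:ℕ) * q ^ (3:ℕ) - 2187 / 50 * h ^ (3:ℕ) + 31023 / 1600 * h ^ (3:ℕ) * q +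
    3969 / 800 * h ^ (3:ℕ) * q ^ (2:ℕ) - 729 / 25 * h ^ (4:ℕ) + 729 / 100 * h ^ (4:ℕ) * q - 729 / 100 * h ^ (5:ℕ),
    -62181 / 51200 + 194481 / 51200 * q - 30429 / 12800 * q ^ (2:ℕ) - 64827 / 25600 * q ^ (3:ℕ) + 194481 /
    51200 * q ^ (4:ℕ) - 64827 / 51200 * q ^ (5:ℕ) + 64827 / 51200 * h + 636363 / 25600 * h * q - 316197 /
    25600 * h * q ^ (2:ℕ) + 25137 / 5120 * h * q ^ (3:ℕ) + 64827 / 51200 * h * q ^ (4:ℕ) + 2187 / 100 * h ^ (2:ℕ)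
    + 35721 / 1600 * h ^ (2:ℕ) * q - 35721 / 1600 * h ^ (2:ℕ) * q ^ (2:ℕ) + 11907 / 1600 * h ^ (2:ℕ) * q ^ (3:ℕ) +
    13203 / 320 * h ^ (3:ℕ) - 4617 / 320 * h ^ (3:ℕ) * q - 11907 / 1600 * h ^ (3:ℕ) * q ^ (2:ℕ) + 6561 / 200 * h ^ (4:ℕ) - 2187 / 200 * h ^ (4:ℕ) * q + 2187 / 200 * h ^ (5:ℕ), -21609 / 25600 - 64827 / 25600 * q - 21609 /
    2560 * q ^ (2:ℕ) + 21609 / 12800 * q ^ (3:ℕ) - 21609 / 5120 * q ^ (4:ℕ) + 21609 / 25600 * q ^ (5:ℕ) - 21609 /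
    25600 * h - 212121 / 12800 * h * q - 64827 / 12800 * h * q ^ (2:ℕ) - 8379 / 2560 * h * q ^ (3:ℕ) -
    21609 / 25600 * h * q ^ (4:ℕ) + 3969 / 800 * h ^ (2:ℕ) - 11907 / 800 * h ^ (2:ℕ) * q + 11907 / 800 * h ^ (2:ℕ)
    * q ^ (2:ℕ) - 3969 / 800 * h ^ (2:ℕ) * q ^ (3:ℕ) + 3969 / 800 * h ^ (3:ℕ) + 1539 / 160 * h ^ (3:ℕ) * q + 3969 /
    800 * h ^ (3:ℕ) * q ^ (2:ℕ) - 729 / 100 * h ^ (4:ℕ) + 729 / 100 * h ^ (4:ℕ) * q - 729 / 100 * h ^ (5:ℕ), 21609 /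
    51200 + 21609 / 5120 * q ^ (2:ℕ) + 21609 / 10240 * q ^ (4:ℕ) + 21609 / 51200 * h + 64827 / 25600 * h *
    q ^ (2:ℕ) + 21609 / 51200 * h * q ^ (4:ℕ) - 3969 / 1600 * h ^ (2:ℕ) - 11907 / 1600 * h ^ (2:ℕ) * q ^ (2:ℕ) - 3969
    / 1600 * h ^ (3:ℕ) - 3969 / 1600 * h ^ (3:ℕ) * q ^ (2:ℕ) + 729 / 200 * h ^ (4:ℕ) + 729 / 200 * h ^ (5:ℕ)]] _ ?_ ?_
  · intro u v
    simp only [pv2, pv]; ring
  · simp only [pint2, pint]; ring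

theorem JI_gg : JI h q (fun x y => (y + 3 / 10 * (x * y)) * (y + 3 / 10 * (x * y))) = 15631 / 24000 + 8281 / 9600 * h + 8281 / 9600 * h * q ^ (2:ℕ) + 1911 / 8000 * h ^ (2:ℕ) + 5733 / 8000 * h
    ^ (2:ℕ) * q ^ (2:ℕ) + 441 / 16000 * h ^ (3:ℕ) + 1323 / 8000 * h ^ (3:ℕ) * q ^ (2:ℕ) := by
  unfold JI
  refine dint_eq
    [[], [], [], [49 / 100 + 49 / 100 * q + 49 / 100 * q ^ (2:ℕ) - 49 / 100 * q ^ (3:ℕ) + 49 / 100 * h + 49 /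
    100 * h * q ^ (2:ℕ), -49 / 50 - 49 / 50 * q - 147 / 50 * q ^ (2:ℕ) + 49 / 50 * q ^ (3:ℕ) - 49 / 50 * h -
    49 / 50 * h * q ^ (2:ℕ), 49 / 50 + 147 / 50 * q ^ (2:ℕ) + 49 / 50 * h + 49 / 50 * h * q ^ (2:ℕ)], [441 /
    200 + 441 / 200 * q + 441 / 200 * q ^ (2:ℕ) - 441 / 200 * q ^ (3:ℕ) + 441 / 200 * h + 441 / 100 * h *
    q ^ (2:ℕ) - 441 / 200 * h * q ^ (3:ℕ) + 441 / 200 * h ^ (2:ℕ) * q ^ (2:ℕ), -441 / 100 - 441 / 100 * q - 1323 /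
    100 * q ^ (2:ℕ) + 441 / 100 * q ^ (3:ℕ) - 441 / 200 * h + 1323 / 200 * h * q - 3087 / 200 * h * q ^ (2:ℕ)
    + 1323 / 200 * h * q ^ (3:ℕ) + 441 / 200 * h ^ (2:ℕ) + 441 / 100 * h ^ (2:ℕ) * q - 1323 / 200 * h ^ (2:ℕ) * q
    ^ (2:ℕ), 441 / 100 + 1323 / 100 * q ^ (2:ℕ) + 441 / 200 * h - 3969 / 200 * h * q + 3087 / 200 * h * q
    ^ (2:ℕ) - 1323 / 200 * h * q ^ (3:ℕ) - 441 / 200 * h ^ (2:ℕ) - 1323 / 100 * h ^ (2:ℕ) * q + 1323 / 200 * h ^ (2:ℕ)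
    * q ^ (2:ℕ), 1323 / 100 * h * q + 441 / 100 * h * q ^ (3:ℕ) + 441 / 50 * h ^ (2:ℕ) * q], [3969 / 1600 +
    3969 / 1600 * q + 3969 / 1600 * q ^ (2:ℕ) - 3969 / 1600 * q ^ (3:ℕ) + 3969 / 1600 * h + 11907 / 1600 *
    h * q ^ (2:ℕ) - 3969 / 800 * h * q ^ (3:ℕ) + 11907 / 1600 * h ^ (2:ℕ) * q ^ (2:ℕ) - 3969 / 1600 * h ^ (2:ℕ) * q ^ (3:ℕ) + 3969 / 1600 * h ^ (3:ℕ) * q ^ (2:ℕ), -3969 / 800 - 3969 / 800 * q - 11907 / 800 * q ^ (2:ℕ) + 3969 /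
    800 * q ^ (3:ℕ) + 11907 / 800 * h * q - 11907 / 400 * h * q ^ (2:ℕ) + 11907 / 800 * h * q ^ (3:ℕ) + 3969 /
    800 * h ^ (2:ℕ) + 11907 / 800 * h ^ (2:ℕ) * q - 11907 / 400 * h ^ (2:ℕ) * q ^ (2:ℕ) + 3969 / 400 * h ^ (2:ℕ) * q ^ (3:ℕ) + 3969 / 800 * h ^ (3:ℕ) * q - 3969 / 400 * h ^ (3:ℕ) * q ^ (2:ℕ), 3969 / 800 + 11907 / 800 * q ^ (2:ℕ) -
    35721 / 800 * h * q + 11907 / 400 * h * q ^ (2:ℕ) - 11907 / 800 * h * q ^ (3:ℕ) - 35721 / 800 * h ^ (2:ℕ)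
    * q + 35721 / 800 * h ^ (2:ℕ) * q ^ (2:ℕ) - 11907 / 800 * h ^ (2:ℕ) * q ^ (3:ℕ) + 3969 / 800 * h ^ (3:ℕ) - 11907 /
    800 * h ^ (3:ℕ) * q + 11907 / 800 * h ^ (3:ℕ) * q ^ (2:ℕ), 11907 / 400 * h * q + 3969 / 400 * h * q ^ (3:ℕ) -
    3969 / 400 * h ^ (2:ℕ) + 11907 / 400 * h ^ (2:ℕ) * q - 11907 / 400 * h ^ (2:ℕ) * q ^ (2:ℕ) + 3969 / 400 * h ^ (2:ℕ) * q ^ (3:ℕ) - 3969 / 400 * h ^ (3:ℕ) + 3969 / 400 * h ^ (3:ℕ) * q - 3969 / 400 * h ^ (3:ℕ) * q ^ (2:ℕ), 3969 /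
    800 * h ^ (2:ℕ) + 11907 / 800 * h ^ (2:ℕ) * q ^ (2:ℕ) + 3969 / 800 * h ^ (3:ℕ) + 3969 / 800 * h ^ (3:ℕ) * q ^ (2:ℕ)]] _ ?_ ?_
  · intro u v
    simp only [pv2, pv]; ring
  · simp only [pint2, pint]; ring

theorem JI_fg : JI h q (fun x y => (x - 3 / 20 * (x * x - y * y)) * (y + 3 / 10 * (x * y))) = 287651 / 384000 * h * q + 13377 / 128000 * h * q ^ (3:ℕ) + 133567 / 128000 * h ^ (2:ℕ) * q + 3087 / 64000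
    * h ^ (2:ℕ) * q ^ (3:ℕ) + 189 / 8000 * h ^ (3:ℕ) * q - 567 / 4000 * h ^ (4:ℕ) * q := by
  unfold JI
  refine dint_eq
    [[], [], [91 / 50 + 91 / 50 * q ^ (2:ℕ) + 91 / 50 * h - 91 / 50 * h * q, -91 / 25 - 91 / 25 * q ^ (2:ℕ) -
    91 / 25 * h], [147 / 200 + 147 / 200 * q ^ (2:ℕ) + 147 / 200 * h - 147 / 100 * h * q + 147 / 200 *
    h * q ^ (2:ℕ) - 147 / 200 * h ^ (2:ℕ) * q, -147 / 100 - 147 / 100 * q ^ (2:ℕ) - 147 / 100 * h + 147 / 50 *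
    h * q - 147 / 100 * h * q ^ (2:ℕ) + 147 / 100 * h ^ (2:ℕ) * q, -147 / 50 * h * q - 147 / 100 * h ^ (2:ℕ) *
    q], [-22197 / 3200 - 1029 / 3200 * q - 1323 / 200 * q ^ (2:ℕ) + 1029 / 3200 * q ^ (3:ℕ) - 1029 / 3200
    * q ^ (4:ℕ) - 22197 / 3200 * h + 3969 / 200 * h * q - 1323 / 100 * h * q ^ (2:ℕ) + 1029 / 3200 * h * q
    ^ (3:ℕ) + 3969 / 200 * h ^ (2:ℕ) * q - 1323 / 200 * h ^ (2:ℕ) * q ^ (2:ℕ) + 1323 / 200 * h ^ (3:ℕ) * q, 45423 /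
    3200 + 3087 / 1600 * q + 4851 / 320 * q ^ (2:ℕ) - 3087 / 1600 * q ^ (3:ℕ) + 3087 / 3200 * q ^ (4:ℕ) +
    45423 / 3200 * h - 166257 / 3200 * h * q + 87759 / 3200 * h * q ^ (2:ℕ) - 3087 / 3200 * h * q ^ (3:ℕ)
    + 1323 / 200 * h ^ (2:ℕ) - 1323 / 25 * h ^ (2:ℕ) * q + 3969 / 200 * h ^ (2:ℕ) * q ^ (2:ℕ) + 1323 / 200 * h ^ (3:ℕ)
    - 3969 / 200 * h ^ (3:ℕ) * q, -3087 / 3200 - 3087 / 1600 * q - 9261 / 1600 * q ^ (2:ℕ) + 3087 / 1600 *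
    q ^ (3:ℕ) - 3087 / 3200 * q ^ (4:ℕ) - 3087 / 3200 * h + 166257 / 3200 * h * q - 9261 / 3200 * h * q ^ (2:ℕ) + 3087 / 3200 * h * q ^ (3:ℕ) - 3969 / 200 * h ^ (2:ℕ) + 1323 / 25 * h ^ (2:ℕ) * q - 3969 / 200 * h ^ (2:ℕ)
    * q ^ (2:ℕ) - 3969 / 200 * h ^ (3:ℕ) + 3969 / 200 * h ^ (3:ℕ) * q, 1029 / 1600 + 3087 / 800 * q ^ (2:ℕ) + 1029
    / 1600 * q ^ (4:ℕ) + 1029 / 1600 * h + 3087 / 1600 * h * q ^ (2:ℕ) + 1323 / 100 * h ^ (2:ℕ) + 1323 / 100 *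
    h ^ (2:ℕ) * q ^ (2:ℕ) + 1323 / 100 * h ^ (3:ℕ)], [3591 / 2560 - 9261 / 12800 * q + 1701 / 800 * q ^ (2:ℕ) +
    9261 / 12800 * q ^ (3:ℕ) - 9261 / 12800 * q ^ (4:ℕ) + 3591 / 2560 * h - 1701 / 200 * h * q + 5103 /
    800 * h * q ^ (2:ℕ) + 9261 / 6400 * h * q ^ (3:ℕ) - 9261 / 12800 * h * q ^ (4:ℕ) - 5103 / 400 * h ^ (2:ℕ) * q
    + 5103 / 800 * h ^ (2:ℕ) * q ^ (2:ℕ) + 9261 / 12800 * h ^ (2:ℕ) * q ^ (3:ℕ) - 1701 / 200 * h ^ (3:ℕ) * q + 1701 /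
    800 * h ^ (3:ℕ) * q ^ (2:ℕ) - 1701 / 800 * h ^ (4:ℕ) * q, -26649 / 12800 + 27783 / 6400 * q + 567 / 6400 *
    q ^ (2:ℕ) - 27783 / 6400 * q ^ (3:ℕ) + 27783 / 12800 * q ^ (4:ℕ) - 3591 / 1280 * h + 172557 / 6400 * h * q
    - 10773 / 1280 * h * q ^ (2:ℕ) - 9261 / 1280 * h * q ^ (3:ℕ) + 9261 / 3200 * h * q ^ (4:ℕ) - 90909 / 12800
    * h ^ (2:ℕ) + 15309 / 400 * h ^ (2:ℕ) * q - 217161 / 12800 * h ^ (2:ℕ) * q ^ (2:ℕ) - 9261 / 3200 * h ^ (2:ℕ) * q ^ (3:ℕ) - 1701 / 200 * h ^ (3:ℕ) + 11907 / 400 * h ^ (3:ℕ) * q - 1701 / 200 * h ^ (3:ℕ) * q ^ (2:ℕ) - 1701 / 800 * h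
    ^ (4:ℕ) + 1701 / 200 * h ^ (4:ℕ) * q, -27783 / 12800 - 27783 / 6400 * q - 83349 / 6400 * q ^ (2:ℕ) + 27783
    / 6400 * q ^ (3:ℕ) - 27783 / 12800 * q ^ (4:ℕ) - 135513 / 6400 * h * q - 83349 / 6400 * h * q ^ (2:ℕ) +
    83349 / 6400 * h * q ^ (3:ℕ) - 27783 / 6400 * h * q ^ (4:ℕ) + 272727 / 12800 * h ^ (2:ℕ) - 217161 / 6400 *
    h ^ (2:ℕ) * q + 32319 / 2560 * h ^ (2:ℕ) * q ^ (2:ℕ) + 27783 / 6400 * h ^ (2:ℕ) * q ^ (3:ℕ) + 5103 / 200 * h ^ (3:ℕ) -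
    15309 / 400 * h ^ (3:ℕ) * q + 5103 / 400 * h ^ (3:ℕ) * q ^ (2:ℕ) + 5103 / 800 * h ^ (4:ℕ) - 5103 / 400 * h ^ (4:ℕ)
    * q, 9261 / 6400 + 27783 / 3200 * q ^ (2:ℕ) + 9261 / 6400 * q ^ (4:ℕ) - 9261 / 800 * h * q + 27783 /
    3200 * h * q ^ (2:ℕ) - 9261 / 800 * h * q ^ (3:ℕ) + 9261 / 3200 * h * q ^ (4:ℕ) - 90909 / 6400 * h ^ (2:ℕ) -
    27783 / 3200 * h ^ (2:ℕ) * q - 10773 / 1280 * h ^ (2:ℕ) * q ^ (2:ℕ) - 9261 / 3200 * h ^ (2:ℕ) * q ^ (3:ℕ) - 1701 /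
    100 * h ^ (3:ℕ) + 1701 / 100 * h ^ (3:ℕ) * q - 1701 / 200 * h ^ (3:ℕ) * q ^ (2:ℕ) - 1701 / 400 * h ^ (4:ℕ) + 1701
    / 200 * h ^ (4:ℕ) * q, 9261 / 1600 * h * q + 9261 / 1600 * h * q ^ (3:ℕ) + 27783 / 6400 * h ^ (2:ℕ) * q +
    9261 / 6400 * h ^ (2:ℕ) * q ^ (3:ℕ) - 1701 / 200 * h ^ (3:ℕ) * q - 1701 / 400 * h ^ (4:ℕ) * q]] _ ?_ ?_
  · intro u v
    simp only [pv2, pv]; ring
  · simp only [pint2, pint]; ring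

theorem JI_f : JI h q (fun x y => (x - 3 / 20 * (x * x - y * y))) = 1 / 640 + 593 / 640 * h + 49 / 640 * h * q ^ (2:ℕ) + 7 / 10 * h ^ (2:ℕ) - 9 / 40 * h ^ (3:ℕ) := by
  unfold JI
  refine dint_eq
    [[], [-26 / 5 - 26 / 5 * h], [48 / 5 + 72 / 5 * h - 24 / 5 * h * q + 24 / 5 * h ^ (2:ℕ), 48 / 5 * h *
    q], [-717 / 320 + 147 / 320 * q + 147 / 320 * q ^ (2:ℕ) - 147 / 320 * q ^ (3:ℕ) - 1581 / 320 * h + 27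
    / 10 * h * q + 147 / 320 * h * q ^ (2:ℕ) - 81 / 20 * h ^ (2:ℕ) + 27 / 20 * h ^ (2:ℕ) * q - 27 / 20 * h ^ (3:ℕ), -147 / 160 - 147 / 160 * q - 441 / 160 * q ^ (2:ℕ) + 147 / 160 * q ^ (3:ℕ) - 147 / 160 * h - 27 / 5
    * h * q - 147 / 160 * h * q ^ (2:ℕ) + 27 / 10 * h ^ (2:ℕ) - 27 / 10 * h ^ (2:ℕ) * q + 27 / 10 * h ^ (3:ℕ), 147
    / 160 + 441 / 160 * q ^ (2:ℕ) + 147 / 160 * h + 147 / 160 * h * q ^ (2:ℕ) - 27 / 10 * h ^ (2:ℕ) - 27 / 10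
    * h ^ (3:ℕ)]] _ ?_ ?_
  · intro u v
    simp only [pv2, pv]; ring
  · simp only [pint2, pint]; ring

theorem JI_g : JI h q (fun x y => (y + 3 / 10 * (x * y))) = 91 / 120 * h * q + 21 / 80 * h ^ (2:ℕ) * q := by
  unfold JI
  refine dint_eq
    [[], [], [-7 / 10 - 7 / 10 * q ^ (2:ℕ) - 7 / 10 * h + 7 / 10 * h * q, 7 / 5 + 7 / 5 * q ^ (2:ℕ) + 7 / 5 *
    h], [-63 / 40 - 63 / 40 * q ^ (2:ℕ) - 63 / 40 * h + 63 / 20 * h * q - 63 / 40 * h * q ^ (2:ℕ) + 63 /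
    40 * h ^ (2:ℕ) * q, 63 / 20 + 63 / 20 * q ^ (2:ℕ) + 63 / 20 * h - 63 / 10 * h * q + 63 / 20 * h * q ^ (2:ℕ) - 63 / 20 * h ^ (2:ℕ) * q, 63 / 10 * h * q + 63 / 20 * h ^ (2:ℕ) * q]] _ ?_ ?_
  · intro u v
    simp only [pv2, pv]; ring
  · simp only [pint2, pint]; ring

end Pool.Agent.Helper238
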