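import Pool.Agent.Helper238.PolyInt

set_option autoImplicit false

namespace Pool.Agent.Helper238

/-- Normalised integration over the quadrilateral, cut along the other diagonal. -/
noncomputable def JII (h q : ℝ) (φ : ℝ → ℝ → ℝ) : ℝ :=
  ∫ u in (0 : ℝ)..1, ∫ v in (0 : ℝ)..1,
    u * (2 * φ (1 - 3 * u + 3 * u * v) (7 / 4 * (-1 + u + u * v))
      + 2 * h * φ (1 + 3 * h * u * v) (7 / 4 * (-1 + 2 * u + u * v * (q - 1))))

variable (h q : ℝ)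

theorem JII_one : JII h q (fun _ _ => 1) = 1 + h := by
  unfold JII
  refine dint_eq
    [[], [2 + 2 * h]] _ ?_ ?_
  · intro u v
    simp only [pv2, pv]; ring
  · simp only [pint2, pint]; ring

theorem JII_x : JII h q (fun x _ => x) = h + h ^ (2:ℕ) := by
  unfold JII
  refine dint_eq
    [[], [2 + 2 * h], [-6, 6 + 6 * h ^ (2:ℕ)]] _ ?_ ?_
  · intro u v
    simp only [pv2, pv]; ring
  · simp only [pint2, pint]; ring

theorem JII_y : JII h q (fun _ y => y) = 7 / 12 * h * q := by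
  unfold JII
  refine dint_eq
    [[], [-7 / 2 - 7 / 2 * h], [7 / 2 + 7 * h, 7 / 2 - 7 / 2 * h + 7 / 2 * h * q]] _ ?_ ?_
  · intro u v
    simp only [pv2, pv]; ring
  · simp only [pint2, pint]; ring

theorem JII_xx : JII h q (fun x _ => x * x) = 1 / 2 + h + 2 * h ^ (2:ℕ) + 3 / 2 * h ^ (3:ℕ) := by
  unfold JII
  refine dint_eq
    [[], [2 + 2 * h], [-12, 12 + 12 * h ^ (2:ℕ)], [18, -36, 18 + 18 * h ^ (3:ℕ)]] _ ?_ ?_
  · intro u v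
    simp only [pv2, pv]; ring
  · simp only [pint2, pint]; ring

theorem JII_yy : JII h q (fun _ y => y * y) = 49 / 96 + 49 / 96 * h + 49 / 96 * h * q ^ (2:ℕ) := by
  unfold JII
  refine dint_eq
    [[], [49 / 8 + 49 / 8 * h], [-49 / 4 - 49 / 2 * h, -49 / 4 + 49 / 4 * h - 49 / 4 * h * q], [49 / 8
    + 49 / 2 * h, 49 / 4 - 49 / 2 * h + 49 / 2 * h * q, 49 / 8 + 49 / 8 * h - 49 / 4 * h * q + 49
    / 8 * h * q ^ (2:ℕ)]] _ ?_ ?_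
  · intro u v
    simp only [pv2, pv]; ring
  · simp only [pint2, pint]; ring

theorem JII_xy : JII h q (fun x y => x * y) = 7 / 12 * h * q + 7 / 8 * h ^ (2:ℕ) * q := by
  unfold JII
  refine dint_eq
    [[], [-7 / 2 - 7 / 2 * h], [14 + 7 * h, -7 - 7 / 2 * h + 7 / 2 * h * q - 21 / 2 * h ^ (2:ℕ)], [-21 /
    2, 21 * h ^ (2:ℕ), 21 / 2 - 21 / 2 * h ^ (2:ℕ) + 21 / 2 * h ^ (2:ℕ) * q]] _ ?_ ?_
  · intro u v
    simp only [pv2, pv]; ring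
  · simp only [pint2, pint]; ring

theorem JII_f1f1 : JII h q (fun x _ => (1 - 3 / 10 * x) * (1 - 3 / 10 * x)) = 209 / 200 + 49 / 100 * h - 21 / 50 * h ^ (2:ℕ) + 27 / 200 * h ^ (3:ℕ) := by
  unfold JII
  refine dint_eq
    [[], [49 / 50 + 49 / 50 * h], [63 / 25, -63 / 25 - 63 / 25 * h ^ (2:ℕ)], [81 / 50, -81 / 25, 81 / 50 +
    81 / 50 * h ^ (3:ℕ)]] _ ?_ ?_
  · intro u v
    simp only [pv2, pv]; ring
  · simp only [pint2, pint]; ring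

theorem JII_f2f2 : JII h q (fun _ y => (3 / 10 * y) * (3 / 10 * y)) = 147 / 3200 + 147 / 3200 * h + 147 / 3200 * h * q ^ (2:ℕ) := by
  unfold JII
  refine dint_eq
    [[], [441 / 800 + 441 / 800 * h], [-441 / 400 - 441 / 200 * h, -441 / 400 + 441 / 400 * h - 441 /
    400 * h * q], [441 / 800 + 441 / 200 * h, 441 / 400 - 441 / 200 * h + 441 / 200 * h * q, 441 /
    800 + 441 / 800 * h - 441 / 400 * h * q + 441 / 800 * h * q ^ (2:ℕ)]] _ ?_ ?_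
  · intro u v
    simp only [pv2, pv]; ring
  · simp only [pint2, pint]; ring

theorem JII_f1f2 : JII h q (fun x y => (1 - 3 / 10 * x) * (3 / 10 * y)) = 49 / 400 * h * q - 63 / 800 * h ^ (2:ℕ) * q := by
  unfold JII
  refine dint_eq
    [[], [-147 / 200 - 147 / 200 * h], [-21 / 100 + 147 / 100 * h, 42 / 25 - 147 / 200 * h + 147 / 200
    * h * q + 189 / 200 * h ^ (2:ℕ)], [189 / 200, -189 / 100 * h ^ (2:ℕ), -189 / 200 + 189 / 200 * h ^ (2:ℕ) -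
    189 / 200 * h ^ (2:ℕ) * q]] _ ?_ ?_
  · intro u v
    simp only [pv2, pv]; ring
  · simp only [pint2, pint]; ring

theorem JII_g1g1 : JII h q (fun _ y => (3 / 10 * y) * (3 / 10 * y)) = 147 / 3200 + 147 / 3200 * h + 147 / 3200 * h * q ^ (2:ℕ) := by
  unfold JII
  refine dint_eq
    [[], [441 / 800 + 441 / 800 * h], [-441 / 400 - 441 / 200 * h, -441 / 400 + 441 / 400 * h - 441 /
    400 * h * q], [441 / 800 + 441 / 200 * h, 441 / 400 - 441 / 200 * h + 441 / 200 * h * q, 441 /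
    800 + 441 / 800 * h - 441 / 400 * h * q + 441 / 800 * h * q ^ (2:ℕ)]] _ ?_ ?_
  · intro u v
    simp only [pv2, pv]; ring
  · simp only [pint2, pint]; ring

theorem JII_g2g2 : JII h q (fun x _ => (1 + 3 / 10 * x) * (1 + 3 / 10 * x)) = 209 / 200 + 169 / 100 * h + 39 / 50 * h ^ (2:ℕ) + 27 / 200 * h ^ (3:ℕ) := by
  unfold JII
  refine dint_eq
    [[], [169 / 50 + 169 / 50 * h], [-117 / 25, 117 / 25 + 117 / 25 * h ^ (2:ℕ)], [81 / 50, -81 / 25, 81 /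
    50 + 81 / 50 * h ^ (3:ℕ)]] _ ?_ ?_
  · intro u v
    simp only [pv2, pv]; ring
  · simp only [pint2, pint]; ring

theorem JII_g1g2 : JII h q (fun x y => (3 / 10 * y) * (1 + 3 / 10 * x)) = 91 / 400 * h * q + 63 / 800 * h ^ (2:ℕ) * q := by
  unfold JII
  refine dint_eq
    [[], [-273 / 200 - 273 / 200 * h], [231 / 100 + 273 / 100 * h, 21 / 50 - 273 / 200 * h + 273 / 200
    * h * q - 189 / 200 * h ^ (2:ℕ)], [-189 / 200, 189 / 100 * h ^ (2:ℕ), 189 / 200 - 189 / 200 * h ^ (2:ℕ) +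
    189 / 200 * h ^ (2:ℕ) * q]] _ ?_ ?_
  · intro u v
    simp only [pv2, pv]; ring
  · simp only [pint2, pint]; ring

theorem JII_f1g1 : JII h q (fun x y => (1 - 3 / 10 * x) * (3 / 10 * y)) = 49 / 400 * h * q - 63 / 800 * h ^ (2:ℕ) * q := by
  unfold JII
  refine dint_eq
    [[], [-147 / 200 - 147 / 200 * h], [-21 / 100 + 147 / 100 * h, 42 / 25 - 147 / 200 * h + 147 / 200
    * h * q + 189 / 200 * h ^ (2:ℕ)], [189 / 200, -189 / 100 * h ^ (2:ℕ), -189 / 200 + 189 / 200 * h ^ (2:ℕ) -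
    189 / 200 * h ^ (2:ℕ) * q]] _ ?_ ?_
  · intro u v
    simp only [pv2, pv]; ring
  · simp only [pint2, pint]; ring

theorem JII_f2g2 : JII h q (fun x y => (3 / 10 * y) * (1 + 3 / 10 * x)) = 91 / 400 * h * q + 63 / 800 * h ^ (2:ℕ) * q := by
  unfold JII
  refine dint_eq
    [[], [-273 / 200 - 273 / 200 * h], [231 / 100 + 273 / 100 * h, 21 / 50 - 273 / 200 * h + 273 / 200
    * h * q - 189 / 200 * h ^ (2:ℕ)], [-189 / 200, 189 / 100 * h ^ (2:ℕ), 189 / 200 - 189 / 200 * h ^ (2:ℕ) +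
    189 / 200 * h ^ (2:ℕ) * q]] _ ?_ ?_
  · intro u v
    simp only [pv2, pv]; ring
  · simp only [pint2, pint]; ring

theorem JII_fg12 : JII h q (fun x y => (1 - 3 / 10 * x) * (1 + 3 / 10 * x) + (3 / 10 * y) * (3 / 10 * y)) = 3203 / 3200 + 3059 / 3200 * h + 147 / 3200 * h * q ^ (2:ℕ) - 9 / 50 * h ^ (2:ℕ) - 27 / 200 * h ^ (3:ℕ) := by
  unfold JII
  refine dint_eq
    [[], [1897 / 800 + 1897 / 800 * h], [-9 / 400 - 441 / 200 * h, -873 / 400 + 441 / 400 * h - 441 /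
    400 * h * q - 27 / 25 * h ^ (2:ℕ)], [-171 / 160 + 441 / 200 * h, 1737 / 400 - 441 / 200 * h + 441
    / 200 * h * q, -171 / 160 + 441 / 800 * h - 441 / 400 * h * q + 441 / 800 * h * q ^ (2:ℕ) - 81 /
    50 * h ^ (3:ℕ)]] _ ?_ ?_
  · intro u v
    simp only [pv2, pv]; ring
  · simp only [pint2, pint]; ring

theorem JII_ff : JII h q (fun x y => (x - 3 / 20 * (x * x - y * y)) * (x - 3 / 20 * (x * x - y * y))) = 327491 / 512000 + 443763 / 512000 * h + 73843 / 512000 * h * q ^ (2:ℕ) + 7203 / 512000 * h * q ^ (4:ℕ) +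
    20069 / 16000 * h ^ (2:ℕ) + 3087 / 16000 * h ^ (2:ℕ) * q ^ (2:ℕ) + 10839 / 32000 * h ^ (3:ℕ) - 1323 / 16000 *
    h ^ (3:ℕ) * q ^ (2:ℕ) - 567 / 1000 * h ^ (4:ℕ) + 243 / 2000 * h ^ (5:ℕ) := by
  unfold JII
  refine dint_eq
    [[], [175561 / 51200 + 175561 / 51200 * h], [-202377 / 12800 - 61593 / 6400 * h, 79191 / 12800 +
    61593 / 12800 * h - 61593 / 12800 * h * q + 8799 / 800 * h ^ (2:ℕ)], [347163 / 25600 + 104811 /
    6400 * h, 60027 / 12800 - 104811 / 6400 * h + 104811 / 6400 * h * q - 3087 / 200 * h ^ (2:ℕ),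
    -47973 / 25600 + 104811 / 25600 * h - 104811 / 12800 * h * q + 104811 / 25600 * h * q ^ (2:ℕ) +
    3087 / 400 * h ^ (2:ℕ) - 3087 / 400 * h ^ (2:ℕ) * q + 2799 / 1600 * h ^ (3:ℕ)], [27531 / 2560 - 21609 /
    1600 * h, -613179 / 12800 + 64827 / 3200 * h - 64827 / 3200 * h * q + 3087 / 200 * h ^ (2:ℕ),
    356517 / 12800 - 64827 / 6400 * h + 64827 / 3200 * h * q - 64827 / 6400 * h * q ^ (2:ℕ) - 3087 /
    200 * h ^ (2:ℕ) + 3087 / 200 * h ^ (2:ℕ) * q + 3969 / 400 * h ^ (3:ℕ), -10773 / 2560 + 21609 / 12800 * h -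
    64827 / 12800 * h * q + 64827 / 12800 * h * q ^ (2:ℕ) - 21609 / 12800 * h * q ^ (3:ℕ) + 3087 / 800 * h
    ^ (2:ℕ) - 3087 / 400 * h ^ (2:ℕ) * q + 3087 / 800 * h ^ (2:ℕ) * q ^ (2:ℕ) - 3969 / 800 * h ^ (3:ℕ) + 3969 / 800 *
    h ^ (3:ℕ) * q - 567 / 50 * h ^ (4:ℕ)], [3249 / 2048 + 21609 / 3200 * h, -33003 / 2560 - 21609 / 1600 *
    h + 21609 / 1600 * h * q, 751707 / 25600 + 64827 / 6400 * h - 64827 / 3200 * h * q + 64827 /
    6400 * h * q ^ (2:ℕ) - 3969 / 400 * h ^ (3:ℕ), -33003 / 2560 - 21609 / 6400 * h + 64827 / 6400 * h * q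
    - 64827 / 6400 * h * q ^ (2:ℕ) + 21609 / 6400 * h * q ^ (3:ℕ) + 3969 / 400 * h ^ (3:ℕ) - 3969 / 400 * h ^ (3:ℕ) * q, 3249 / 2048 + 21609 / 51200 * h - 21609 / 12800 * h * q + 64827 / 25600 * h * q ^ (2:ℕ) -
    21609 / 12800 * h * q ^ (3:ℕ) + 21609 / 51200 * h * q ^ (4:ℕ) - 3969 / 1600 * h ^ (3:ℕ) + 3969 / 800 * h ^ (3:ℕ) * q - 3969 / 1600 * h ^ (3:ℕ) * q ^ (2:ℕ) + 729 / 200 * h ^ (5:ℕ)]] _ ?_ ?_
  · intro u v
    simp only [pv2, pv]; ring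
  · simp only [pint2, pint]; ring

theorem JII_gg : JII h q (fun x y => (y + 3 / 10 * (x * y)) * (y + 3 / 10 * (x * y))) = 15631 / 24000 + 8281 / 9600 * h + 8281 / 9600 * h * q ^ (2:ℕ) + 1911 / 8000 * h ^ (2:ℕ) + 5733 / 8000 * h
    ^ (2:ℕ) * q ^ (2:ℕ) + 441 / 16000 * h ^ (3:ℕ) + 1323 / 8000 * h ^ (3:ℕ) * q ^ (2:ℕ) := by
  unfold JII
  refine dint_eq
    [[], [8281 / 800 + 8281 / 800 * h], [-7007 / 200 - 8281 / 200 * h, -637 / 100 + 8281 / 400 * h -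
    8281 / 400 * h * q + 5733 / 400 * h ^ (2:ℕ)], [17591 / 400 + 8281 / 200 * h, 539 / 50 - 8281 / 200
    * h + 8281 / 200 * h * q - 5733 / 100 * h ^ (2:ℕ), -5341 / 400 + 8281 / 800 * h - 8281 / 400 * h *
    q + 8281 / 800 * h * q ^ (2:ℕ) + 5733 / 200 * h ^ (2:ℕ) - 5733 / 200 * h ^ (2:ℕ) * q + 3969 / 800 * h ^ (3:ℕ)], [-4851 / 200, -441 / 100 + 5733 / 100 * h ^ (2:ℕ), 4851 / 200 - 5733 / 100 * h ^ (2:ℕ) + 5733 /
    100 * h ^ (2:ℕ) * q - 3969 / 200 * h ^ (3:ℕ), 441 / 100 + 5733 / 400 * h ^ (2:ℕ) - 5733 / 200 * h ^ (2:ℕ) * q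
    + 5733 / 400 * h ^ (2:ℕ) * q ^ (2:ℕ) + 3969 / 400 * h ^ (3:ℕ) - 3969 / 400 * h ^ (3:ℕ) * q], [3969 / 800, 0,
    -3969 / 400 + 3969 / 200 * h ^ (3:ℕ), -3969 / 200 * h ^ (3:ℕ) + 3969 / 200 * h ^ (3:ℕ) * q, 3969 / 800 +
    3969 / 800 * h ^ (3:ℕ) - 3969 / 400 * h ^ (3:ℕ) * q + 3969 / 800 * h ^ (3:ℕ) * q ^ (2:ℕ)]] _ ?_ ?_
  · intro u v
    simp only [pv2, pv]; ring
  · simp only [pint2, pint]; ring

theorem JII_fg : JII h q (fun x y => (x - 3 / 20 * (x * x - y * y)) * (y + 3 / 10 * (x * y))) = 287651 / 384000 * h * q + 13377 / 128000 * h * q ^ (3:ℕ) + 133567 / 128000 * h ^ (2:ℕ) * q + 3087 / 64000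
    * h ^ (2:ℕ) * q ^ (3:ℕ) + 189 / 8000 * h ^ (3:ℕ) * q - 567 / 4000 * h ^ (4:ℕ) * q := by
  unfold JII
  refine dint_eq
    [[], [-38129 / 6400 - 38129 / 6400 * h], [9527 / 400 + 64883 / 3200 * h, -11333 / 3200 - 64883 /
    6400 * h + 64883 / 6400 * h * q - 87549 / 6400 * h ^ (2:ℕ)], [-74613 / 3200 - 40131 / 1600 * h,
    -37107 / 3200 + 40131 / 1600 * h - 40131 / 1600 * h * q + 106071 / 3200 * h ^ (2:ℕ), 15729 / 1600
    - 40131 / 6400 * h + 40131 / 3200 * h * q - 40131 / 6400 * h * q ^ (2:ℕ) - 106071 / 6400 * h ^ (2:ℕ) +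
    106071 / 6400 * h ^ (2:ℕ) * q - 189 / 400 * h ^ (3:ℕ)], [2121 / 800 + 13377 / 800 * h, 73269 / 3200 -
    40131 / 1600 * h + 40131 / 1600 * h * q - 27783 / 1600 * h ^ (2:ℕ), -18081 / 1600 + 40131 / 3200 *
    h - 40131 / 1600 * h * q + 40131 / 3200 * h * q ^ (2:ℕ) + 27783 / 1600 * h ^ (2:ℕ) - 27783 / 1600 * h
    ^ (2:ℕ) * q + 189 / 200 * h ^ (3:ℕ), 7917 / 3200 - 13377 / 6400 * h + 40131 / 6400 * h * q - 40131 /
    6400 * h * q ^ (2:ℕ) + 13377 / 6400 * h * q ^ (3:ℕ) - 27783 / 6400 * h ^ (2:ℕ) + 27783 / 3200 * h ^ (2:ℕ) * q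
    - 27783 / 6400 * h ^ (2:ℕ) * q ^ (2:ℕ) - 189 / 400 * h ^ (3:ℕ) + 189 / 400 * h ^ (3:ℕ) * q + 1701 / 400 * h ^ (4:ℕ)], [3591 / 1280, -36477 / 3200 + 9261 / 800 * h ^ (2:ℕ), -27783 / 1600 * h ^ (2:ℕ) + 27783 / 1600 * h
    ^ (2:ℕ) * q, 36477 / 3200 + 27783 / 3200 * h ^ (2:ℕ) - 27783 / 1600 * h ^ (2:ℕ) * q + 27783 / 3200 * h ^ (2:ℕ)
    * q ^ (2:ℕ) - 1701 / 200 * h ^ (4:ℕ), -3591 / 1280 - 9261 / 6400 * h ^ (2:ℕ) + 27783 / 6400 * h ^ (2:ℕ) * q -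
    27783 / 6400 * h ^ (2:ℕ) * q ^ (2:ℕ) + 9261 / 6400 * h ^ (2:ℕ) * q ^ (3:ℕ) + 1701 / 400 * h ^ (4:ℕ) - 1701 / 400 *
    h ^ (4:ℕ) * q]] _ ?_ ?_
  · intro u v
    simp only [pv2, pv]; ring
  · simp only [pint2, pint]; ring

theorem JII_f : JII h q (fun x y => (x - 3 / 20 * (x * x - y * y))) = 1 / 640 + 593 / 640 * h + 49 / 640 * h * q ^ (2:ℕ) + 7 / 10 * h ^ (2:ℕ) - 9 / 40 * h ^ (3:ℕ) := by
  unfold JII
  refine dint_eq
    [[], [419 / 160 + 419 / 160 * h], [-483 / 80 - 147 / 40 * h, 189 / 80 + 147 / 80 * h - 147 / 80 *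
    h * q + 21 / 5 * h ^ (2:ℕ)], [-57 / 32 + 147 / 40 * h, 579 / 80 - 147 / 40 * h + 147 / 40 * h * q,
    -57 / 32 + 147 / 160 * h - 147 / 80 * h * q + 147 / 160 * h * q ^ (2:ℕ) - 27 / 10 * h ^ (3:ℕ)]] _ ?_ ?_
  · intro u v
    simp only [pv2, pv]; ring
  · simp only [pint2, pint]; ring

theorem JII_g : JII h q (fun x y => (y + 3 / 10 * (x * y))) = 91 / 120 * h * q + 21 / 80 * h ^ (2:ℕ) * q := by
  unfold JII
  refine dint_eq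
    [[], [-91 / 20 - 91 / 20 * h], [77 / 10 + 91 / 10 * h, 7 / 5 - 91 / 20 * h + 91 / 20 * h * q - 63
    / 20 * h ^ (2:ℕ)], [-63 / 20, 63 / 10 * h ^ (2:ℕ), 63 / 20 - 63 / 20 * h ^ (2:ℕ) + 63 / 20 * h ^ (2:ℕ) * q]] _ ?_ ?_
  · intro u v
    simp only [pv2, pv]; ring
  · simp only [pint2, pint]; ring

end Pool.Agent.Helper238
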