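import Pool.Agent.Helper238.FinR1
import Pool.Agent.Helper238.MomJI
import Pool.Agent.Helper238.MomJII

set_option autoImplicit false

open MeasureTheory Set

namespace Pool.Agent.Helper238

/-- first quadratic trial function -/
noncomputable def TQa : TF where
  φ := fun x y => x - 3 / 20 * (x * x - y * y)
  φ1 := fun x _ => 1 - 3 / 10 * x
  φ2 := fun _ y => 3 / 10 * y
  smooth := by fun_prop
  deriv := by
    intro z
    have h1 := (hasFDerivAt_fst (𝕜 := ℝ) (E := ℝ) (F := ℝ) (p := z))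
    have h2 := (hasFDerivAt_snd (𝕜 := ℝ) (E := ℝ) (F := ℝ) (p := z))
    have := h1.sub (((h1.mul h1).sub (h2.mul h2)).const_mul (3 / 20))
    refine this.congr_fderiv ?_
    ext <;> simp <;> ring
  cont1 := by fun_prop
  cont2 := by fun_prop

/-- second quadratic trial function -/
noncomputable def TQb : TF where
  φ := fun x y => y + 3 / 10 * (x * y)
  φ1 := fun _ y => 3 / 10 * y
  φ2 := fun x _ => 1 + 3 / 10 * x
  smooth := by fun_prop
  deriv := by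
    intro z
    have h1 := (hasFDerivAt_fst (𝕜 := ℝ) (E := ℝ) (F := ℝ) (p := z))
    have h2 := (hasFDerivAt_snd (𝕜 := ℝ) (E := ℝ) (F := ℝ) (p := z))
    have := h2.add ((h1.mul h2).const_mul (3 / 10))
    refine this.congr_fderiv ?_
    ext <;> simp <;> ring
  cont1 := by fun_prop
  cont2 := by fun_prop

theorem quadR23_eqI (h q : ℝ) : QDof (JI h q) (21 / 4) TQa TQb = quadR23 h q := by
  simp only [QDof, TQa, TQb]
  simp only [JI_one, JI_x, JI_y, JI_xx, JI_yy, JI_xy, JI_f1f1, JI_f2f2, JI_f1f2, JI_g1g1, JI_g2g2, JI_g1g2,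
    JI_f1g1, JI_f2g2, JI_fg12, JI_ff, JI_gg, JI_fg, JI_f, JI_g]
  simp only [quadR23, quadA, lt, alg_add, alg_sub, alg_mul, alg_sc, alg_cst, QD.mk.injEq]
  push_cast
  refine ⟨?_, ?_, ?_, ?_, ?_, ?_, ?_, ?_, ?_, ?_, ?_, ?_, ?_, ?_, ?_, ?_⟩ <;> ring

theorem quadR23_eqII (h q : ℝ) : QDof (JII h q) (21 / 4) TQa TQb = quadR23 h q := by
  simp only [QDof, TQa, TQb]
  simp only [JII_one, JII_x, JII_y, JII_xx, JII_yy, JII_xy, JII_f1f1, JII_f2f2, JII_f1f2, JII_g1g1,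
    JII_g2g2, JII_g1g2, JII_f1g1, JII_f2g2, JII_fg12, JII_ff, JII_gg, JII_fg, JII_f, JII_g]
  simp only [quadR23, quadA, lt, alg_add, alg_sub, alg_mul, alg_sc, alg_cst, QD.mk.injEq]
  push_cast
  refine ⟨?_, ?_, ?_, ?_, ?_, ?_, ?_, ?_, ?_, ?_, ?_, ?_, ?_, ?_, ?_, ?_⟩ <;> ring

/-- point with frame coordinates -/
noncomputable def fp (o g1 g2 : E2) (x y : ℝ) : E2 := o + x • g1 + y • g2

theorem int_tri_frame (o g1 g2 : E2) (hD : cr g1 g2 ≠ 0) (x1 y1 x2 y2 x3 y3 : ℝ)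
    (hΔ : (x2 - x1) * (y3 - y1) - (y2 - y1) * (x3 - x1) ≠ 0) (φ : ℝ → ℝ → ℝ)
    (hφ : Continuous (fun z : ℝ × ℝ => φ z.1 z.2)) :
    ∫ x in tri (fp o g1 g2 x1 y1) (fp o g1 g2 x2 y2) (fp o g1 g2 x3 y3),
      φ (xi o g1 g2 x).1 (xi o g1 g2 x).2
      = |(x2 - x1) * (y3 - y1) - (y2 - y1) * (x3 - x1)| * |cr g1 g2| *
        ∫ u in (0:ℝ)..1, ∫ v in (0:ℝ)..1,
          u * φ (x1 + u * (x2 - x1) + u * v * (x3 - x2)) (y1 + u * (y2 - y1) + u * v * (y3 - y2)) := by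
  have hcr : cr (fp o g1 g2 x2 y2 - fp o g1 g2 x1 y1) (fp o g1 g2 x3 y3 - fp o g1 g2 x1 y1)
      = ((x2 - x1) * (y3 - y1) - (y2 - y1) * (x3 - x1)) * cr g1 g2 := by
    simp [cr, fp]; ring
  have hc : Continuous fun x => φ (xi o g1 g2 x).1 (xi o g1 g2 x).2 :=
    hφ.comp (continuous_xi o g1 g2)
  rw [integral_tri' _ _ _ (by rw [hcr]; exact mul_ne_zero hΔ hD) _ hc, hcr, abs_mul]
  congr 1
  congr 1; ext u
  congr 1; ext v
  have h1 : xi o g1 g2 (bil (fp o g1 g2 x1 y1) (fp o g1 g2 x2 y2 - fp o g1 g2 x1 y1) 0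
      (fp o g1 g2 x3 y3 - fp o g1 g2 x2 y2) (u, v))
      = (x1 + u * (x2 - x1) + u * v * (x3 - x2), y1 + u * (y2 - y1) + u * v * (y3 - y2)) := by
    have e1 : cr (bil (fp o g1 g2 x1 y1) (fp o g1 g2 x2 y2 - fp o g1 g2 x1 y1) 0
      (fp o g1 g2 x3 y3 - fp o g1 g2 x2 y2) (u, v) - o) g2
      = (x1 + u * (x2 - x1) + u * v * (x3 - x2)) * cr g1 g2 := by
      simp [cr, bil, fp]; ring
    have e2 : cr g1 (bil (fp o g1 g2 x1 y1) (fp o g1 g2 x2 y2 - fp o g1 g2 x1 y1) 0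
      (fp o g1 g2 x3 y3 - fp o g1 g2 x2 y2) (u, v) - o)
      = (y1 + u * (y2 - y1) + u * v * (y3 - y2)) * cr g1 g2 := by
      simp [cr, bil, fp]; ring
    unfold xi
    rw [e1, e2]
    field_simp
  rw [h1]

theorem dint_add (f g : ℝ → ℝ → ℝ) (hf : Continuous (fun z : ℝ × ℝ => f z.1 z.2))
    (hg : Continuous (fun z : ℝ × ℝ => g z.1 z.2)) (a b : ℝ) :
    (a * ∫ u in (0:ℝ)..1, ∫ v in (0:ℝ)..1, f u v) + b * ∫ u in (0:ℝ)..1, ∫ v in (0:ℝ)..1, g u v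
      = ∫ u in (0:ℝ)..1, ∫ v in (0:ℝ)..1, (a * f u v + b * g u v) := by
  have h1 := integral_box 0 1 0 1 zero_le_one zero_le_one _ hf
  have h2 := integral_box 0 1 0 1 zero_le_one zero_le_one _ hg
  have h3 := integral_box 0 1 0 1 zero_le_one zero_le_one (fun z : ℝ × ℝ => a * f z.1 z.2 + b * g z.1 z.2)
    (by fun_prop)
  simp only at h1 h2 h3
  rw [← h1, ← h2, ← h3]
  have i1 : IntegrableOn (fun z : ℝ × ℝ => f z.1 z.2) (Ioo (0:ℝ) 1 ×ˢ Ioo (0:ℝ) 1) volume :=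
    (hf.continuousOn.integrableOn_compact (isCompact_Icc.prod isCompact_Icc)).mono_set
      (prod_mono Ioo_subset_Icc_self Ioo_subset_Icc_self)
  have i2 : IntegrableOn (fun z : ℝ × ℝ => g z.1 z.2) (Ioo (0:ℝ) 1 ×ˢ Ioo (0:ℝ) 1) volume :=
    (hg.continuousOn.integrableOn_compact (isCompact_Icc.prod isCompact_Icc)).mono_set
      (prod_mono Ioo_subset_Icc_self Ioo_subset_Icc_self)
  rw [integral_add (i1.const_mul a) (i2.const_mul b), integral_const_mul, integral_const_mul]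

theorem datI (o g1 g2 : E2) (hD : cr g1 g2 ≠ 0) (h q : ℝ) (hq1 : 0 < 1 + h + q)
    (hq2 : 0 < 1 + h - q) :
    Dat (quado (fp o g1 g2 (-2) 0) (fp o g1 g2 1 (-(7/4))) (fp o g1 g2 (1 + 3 * h) (7 / 4 * q))
      (fp o g1 g2 1 (7 / 4))) o g1 g2 (JI h q) (21 / 4 * |cr g1 g2|) := by
  intro φ hφ
  have hc : Continuous fun x => φ (xi o g1 g2 x).1 (xi o g1 g2 x).2 :=
    hφ.comp (continuous_xi o g1 g2)
  have hopp : cr (fp o g1 g2 1 (-(7/4)) - fp o g1 g2 (-2) 0)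
      (fp o g1 g2 (1 + 3 * h) (7 / 4 * q) - fp o g1 g2 (-2) 0) *
      cr (fp o g1 g2 1 (7 / 4) - fp o g1 g2 (-2) 0)
      (fp o g1 g2 (1 + 3 * h) (7 / 4 * q) - fp o g1 g2 (-2) 0) < 0 := by
    have e1 : cr (fp o g1 g2 1 (-(7/4)) - fp o g1 g2 (-2) 0)
      (fp o g1 g2 (1 + 3 * h) (7 / 4 * q) - fp o g1 g2 (-2) 0) = 21/4 * (1 + h + q) * cr g1 g2 := by
      simp [cr, fp]; ring
    have e2 : cr (fp o g1 g2 1 (7 / 4) - fp o g1 g2 (-2) 0)
      (fp o g1 g2 (1 + 3 * h) (7 / 4 * q) - fp o g1 g2 (-2) 0) = -(21/4 * (1 + h - q) * cr g1 g2) := by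
      simp [cr, fp]; ring
    rw [e1, e2]
    have : 0 < 21/4 * (1 + h + q) * (21/4 * (1 + h - q)) * cr g1 g2 ^ 2 := by positivity
    nlinarith
  rw [integral_quad _ _ _ _ hopp _ hc,
    int_tri_frame o g1 g2 hD (-2) 0 1 (-(7/4)) (1 + 3 * h) (7 / 4 * q)
      (by
        have : (1 - -2) * (7 / 4 * q - 0) - (-(7/4) - 0) * (1 + 3 * h - -2) = 21 / 4 * (1 + h + q) := by ring
        rw [this]; positivity) φ hφ,
    int_tri_frame o g1 g2 hD (-2) 0 (1 + 3 * h) (7 / 4 * q) 1 (7/4)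
      (by
        have : (1 + 3 * h - -2) * (7 / 4 - 0) - (7 / 4 * q - 0) * (1 - -2) = 21 / 4 * (1 + h - q) := by ring
        rw [this]; positivity) φ hφ]
  have a1 : |(1 - -2) * (7 / 4 * q - 0) - (-(7/4) - 0) * (1 + 3 * h - -2)| = 21 / 4 * (1 + h + q) := by
    rw [show (1 - -2) * (7 / 4 * q - 0) - (-(7/4) - 0) * (1 + 3 * h - -2) = 21 / 4 * (1 + h + q) by ring]
    exact abs_of_pos (by positivity)
  have a2 : |(1 + 3 * h - -2) * (7 / 4 - 0) - (7 / 4 * q - 0) * (1 - -2)| = 21 / 4 * (1 + h - q) := by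
    rw [show (1 + 3 * h - -2) * (7 / 4 - 0) - (7 / 4 * q - 0) * (1 - -2) = 21 / 4 * (1 + h - q) by ring]
    exact abs_of_pos (by positivity)
  rw [a1, a2, dint_add]
  · unfold JI
    rw [← intervalIntegral.integral_const_mul]
    congr 1; ext u
    rw [← intervalIntegral.integral_const_mul]
    congr 1; ext v
    have e1 : -2 + u * (1 - -2) + u * v * (1 + 3 * h - 1) = -2 + 3 * u + 3 * h * u * v := by ring
    have e2 : 0 + u * (-(7/4) - 0) + u * v * (7 / 4 * q - -(7/4)) = 7 / 4 * (-u + u * v * (q + 1)) := by ring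
    have e3 : -2 + u * (1 + 3 * h - -2) + u * v * (1 - (1 + 3 * h)) = -2 + u * (3 + 3 * h) - 3 * h * u * v := by ring
    have e4 : 0 + u * (7 / 4 * q - 0) + u * v * (7 / 4 - 7 / 4 * q) = 7 / 4 * (q * u + u * v * (1 - q)) := by ring
    rw [e1, e2, e3, e4]
    ring
  · fun_prop
  · fun_prop

theorem oppII (o g1 g2 : E2) (hD : cr g1 g2 ≠ 0) (h q : ℝ) (hh : 0 < h) :
    cr (fp o g1 g2 (-2) 0 - fp o g1 g2 1 (-(7/4))) (fp o g1 g2 1 (7 / 4) - fp o g1 g2 1 (-(7/4))) *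
      cr (fp o g1 g2 (1 + 3 * h) (7 / 4 * q) - fp o g1 g2 1 (-(7/4)))
      (fp o g1 g2 1 (7 / 4) - fp o g1 g2 1 (-(7/4))) < 0 := by
  have e1 : cr (fp o g1 g2 (-2) 0 - fp o g1 g2 1 (-(7/4)))
      (fp o g1 g2 1 (7 / 4) - fp o g1 g2 1 (-(7/4))) = -(21/2 * cr g1 g2) := by
    simp [cr, fp]; ring
  have e2 : cr (fp o g1 g2 (1 + 3 * h) (7 / 4 * q) - fp o g1 g2 1 (-(7/4)))
      (fp o g1 g2 1 (7 / 4) - fp o g1 g2 1 (-(7/4))) = 21/2 * h * cr g1 g2 := by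
    simp [cr, fp]; ring
  rw [e1, e2]
  have : 0 < 21/2 * (21/2 * h) * cr g1 g2 ^ 2 := by positivity
  nlinarith

theorem datII (o g1 g2 : E2) (hD : cr g1 g2 ≠ 0) (h q : ℝ) (hh : 0 < h) :
    Dat (quado (fp o g1 g2 1 (-(7/4))) (fp o g1 g2 (-2) 0) (fp o g1 g2 1 (7 / 4))
      (fp o g1 g2 (1 + 3 * h) (7 / 4 * q))) o g1 g2 (JII h q) (21 / 4 * |cr g1 g2|) := by
  intro φ hφ
  have hc : Continuous fun x => φ (xi o g1 g2 x).1 (xi o g1 g2 x).2 :=
    hφ.comp (continuous_xi o g1 g2)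
  rw [integral_quad _ _ _ _ (oppII o g1 g2 hD h q hh) _ hc,
    int_tri_frame o g1 g2 hD 1 (-(7/4)) (-2) 0 1 (7 / 4) (by norm_num) φ hφ,
    int_tri_frame o g1 g2 hD 1 (-(7/4)) 1 (7/4) (1 + 3 * h) (7 / 4 * q)
      (by
        have : (1 - 1) * (7 / 4 * q - -(7 / 4)) - (7 / 4 - -(7 / 4)) * (1 + 3 * h - 1) = -(21 / 2 * h) := by ring
        rw [this]; exact neg_ne_zero.2 (by positivity)) φ hφ]
  have a1 : |((-2:ℝ) - 1) * (7 / 4 - -(7 / 4)) - (0 - -(7 / 4)) * (1 - 1)| = 21 / 2 := by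
    rw [show ((-2:ℝ) - 1) * (7 / 4 - -(7 / 4)) - (0 - -(7 / 4)) * (1 - 1) = -(21 / 2) by norm_num,
      abs_neg]
    exact abs_of_pos (by norm_num)
  have a2 : |(1 - 1) * (7 / 4 * q - -(7 / 4)) - (7 / 4 - -(7 / 4)) * (1 + 3 * h - 1)| = 21 / 2 * h := by
    rw [show (1 - 1) * (7 / 4 * q - -(7 / 4)) - (7 / 4 - -(7 / 4)) * (1 + 3 * h - 1) = -(21 / 2 * h) by ring,
      abs_neg]
    exact abs_of_pos (by positivity)
  rw [a1, a2, dint_add]
  · unfold JII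
    rw [← intervalIntegral.integral_const_mul]
    congr 1; ext u
    rw [← intervalIntegral.integral_const_mul]
    congr 1; ext v
    have e1 : 1 + u * (-2 - 1) + u * v * (1 - -2) = 1 - 3 * u + 3 * u * v := by ring
    have e2 : -(7/4) + u * (0 - -(7/4)) + u * v * (7 / 4 - 0) = 7 / 4 * (-1 + u + u * v) := by ring
    have e3 : 1 + u * (1 - 1) + u * v * (1 + 3 * h - 1) = 1 + 3 * h * u * v := by ring
    have e4 : -(7/4) + u * (7 / 4 - -(7/4)) + u * v * (7 / 4 * q - 7 / 4)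
      = 7 / 4 * (-1 + 2 * u + u * v * (q - 1)) := by ring
    rw [e1, e2, e3, e4]
    ring
  · fun_prop
  · fun_prop

/-- criterion for the linear pair -/
theorem lin_crit (C11 C22 C12 T p r t : ℝ) (hC : 0 < C11) (hT : 0 ≤ T)
    (hd : T ^ 2 ≤ 4 * (C11 * C22 - C12 ^ 2)) (hp : 0 < p) (hdet : p * r - t ^ 2 = 1) :
    T ≤ r * C11 + p * C22 - 2 * t * C12 := by
  have h1 : C11 * p * (r * C11 + p * C22 - 2 * t * C12)
      = C11 ^ 2 + (t * C11 - p * C12) ^ 2 + p ^ 2 * (C11 * C22 - C12 ^ 2) := by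
    linear_combination C11 ^ 2 * hdet
  have h2 : C11 * p * T ≤ C11 * p * (r * C11 + p * C22 - 2 * t * C12) := by
    rw [h1]
    have h3 : p ^ 2 * T ^ 2 ≤ p ^ 2 * (4 * (C11 * C22 - C12 ^ 2)) :=
      mul_le_mul_of_nonneg_left hd (by positivity)
    nlinarith [sq_nonneg (t * C11 - p * C12), sq_nonneg (2 * C11 - p * T)]
  exact le_of_mul_le_mul_left h2 (by positivity)

theorem good_lin (h ν : ℝ) (hh : -1 < h) (hc : 109 / 1000 * (1 + h) ^ 2 ≤ h * (ν ^ 2 - 1))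
    (p r t : ℝ) (hp : 0 < p) (hdet : p * r - t ^ 2 = 1) :
    Good (quadR23 h (ν * (1 + h))) p r t := by
  left
  refine lin_crit _ _ _ _ p r t ?_ ?_ ?_ hp hdet
  · simp only [quadR23, quadA, lt, alg_add, alg_sub, alg_mul, alg_sc, alg_cst]
    push_cast
    have : 0 < 2 / 21 * ((1 + h) ^ 2 * (1 + h + h ^ 2)) := by
      have h1 : 0 < 1 + h := by linarith
      have h2 : 0 < 1 + h + h ^ 2 := by nlinarith
      positivity
    calc (0:ℝ) < 2 / 21 * ((1 + h) ^ 2 * (1 + h + h ^ 2)) := this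
      _ = _ := by ring
  · simp only [quadR23, quadA, lt, alg_add, alg_cst]
    push_cast
    have h1 : 0 < 1 + h := by linarith
    have : 0 < (1:ℝ) / 1 + h := by linarith
    positivity
  · simp only [quadR23, quadA, lt, alg_add, alg_sub, alg_mul, alg_sc, alg_cst]
    push_cast
    have hk : 0 < (1 + h) ^ 4 := by
      have h1 : 0 < 1 + h := by linarith
      positivity
    have h2 := mul_le_mul_of_nonneg_left hc hk.le
    have h3 : (202643 / 1000000 : ℝ) ^ 2 * ((1 + h) ^ 4 * (1 + h) ^ 2)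
        ≤ (1 + h) ^ 4 * ((1 + h) ^ 2 + h * (ν ^ 2 - 1)) / 27 := by
      have h4 : 0 ≤ (1 + h) ^ 4 * (1 + h) ^ 2 := by positivity
      nlinarith
    calc _ = (202643 / 1000000 : ℝ) ^ 2 * ((1 + h) ^ 4 * (1 + h) ^ 2) := by ring
      _ ≤ _ := h3
      _ = _ := by ring

/-- vertices in the family, first labelling -/
theorem hasPair_I (o g1 g2 : E2) (hD : cr g1 g2 ≠ 0) (h ν : ℝ) (hh : -1 < h)
    (hh1 : h ≤ 7 / 64) (hν0 : 0 ≤ ν) (hν : ν ≤ 13 / 16)
    (hc : -(7 / 32) ≤ h ∨ 109 / 1000 * (1 + h) ^ 2 ≤ h * (ν ^ 2 - 1)) :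
    HasPair (quado (fp o g1 g2 (-2) 0) (fp o g1 g2 1 (-(7/4)))
      (fp o g1 g2 (1 + 3 * h) (7 / 4 * (ν * (1 + h)))) (fp o g1 g2 1 (7 / 4))) := by
  have hk : 0 < 1 + h := by linarith
  have hg : Good (quadR23 h (ν * (1 + h))) (mp g1 g2) (mr g1 g2) (mt g1 g2) := by
    rcases hc with hh0 | hc
    · rcases R23_good h ν hh0 hh1 hν0 (Or.inl hν) with hg | hg
      · exact hg _ _ _ (mp_pos _ _ hD) (metric_det _ _ hD)
      · exact good_lin h ν (by linarith) hg _ _ _ (mp_pos _ _ hD) (metric_det _ _ hD)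
    · exact good_lin h ν (by linarith) hc _ _ _ (mp_pos _ _ hD) (metric_det _ _ hD)
  rw [← quadR23_eqI] at hg
  have hJ := datI o g1 g2 hD h (ν * (1 + h)) (by nlinarith) (by nlinarith)
  have hN : 0 < 21 / 4 * |cr g1 g2| := by have := abs_pos.2 hD; positivity
  have hw := works_of_good (isCompact_quadc _ _ _ _) interior_subset hJ hD hN _ _ (21/4)
    (by have := abs_ne_zero.2 hD; field_simp) (by rw [JI_one]; exact hk) hg
  -- a point
  have hcr : cr (fp o g1 g2 1 (-(7/4)) - fp o g1 g2 (-2) 0)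
      (fp o g1 g2 (1 + 3 * h) (7 / 4 * (ν * (1 + h))) - fp o g1 g2 (-2) 0)
      = 21/4 * (1 + h) * (1 + ν) * cr g1 g2 := by
    simp [cr, fp]; ring
  have hx := tri_pt_mem (fp o g1 g2 (-2) 0) (fp o g1 g2 1 (-(7/4)))
    (fp o g1 g2 (1 + 3 * h) (7 / 4 * (ν * (1 + h)))) (by rw [hcr]; positivity) (1/2) (1/2)
    (by constructor <;> norm_num) (by constructor <;> norm_num)
  have hx' := interior_mono (subset_union_left (t := tri (fp o g1 g2 (-2) 0)
    (fp o g1 g2 (1 + 3 * h) (7 / 4 * (ν * (1 + h)))) (fp o g1 g2 1 (7 / 4)))) hx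
  rcases hw with hw | hw
  · refine ⟨_, _, TX.contDiff_on _ _ _, TY.contDiff_on _ _ _, ⟨_, hx', ?_⟩, hw⟩
    exact TF.indep _ _ _ _ _ _ hD (by simp [TX, TY])
  · refine ⟨_, _, TF.contDiff_on _ _ _ _, TF.contDiff_on _ _ _ _, ⟨_, hx', ?_⟩, hw⟩
    refine TF.indep _ _ _ _ _ _ hD ?_
    have e1 : xi o g1 g2 (bil (fp o g1 g2 (-2) 0) (fp o g1 g2 1 (-(7/4)) - fp o g1 g2 (-2) 0) 0
      (fp o g1 g2 (1 + 3 * h) (7 / 4 * (ν * (1 + h))) - fp o g1 g2 1 (-(7/4))) (1/2, 1/2))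
      = (-(1/2) + 3/4 * h, 7/16 * (ν * (1 + h) - 1)) := by
      have e1 : cr (bil (fp o g1 g2 (-2) 0) (fp o g1 g2 1 (-(7/4)) - fp o g1 g2 (-2) 0) 0
        (fp o g1 g2 (1 + 3 * h) (7 / 4 * (ν * (1 + h))) - fp o g1 g2 1 (-(7/4))) (1/2, 1/2) - o) g2
        = (-(1/2) + 3/4 * h) * cr g1 g2 := by
        simp [cr, bil, fp]; ring
      have e2 : cr g1 (bil (fp o g1 g2 (-2) 0) (fp o g1 g2 1 (-(7/4)) - fp o g1 g2 (-2) 0) 0
        (fp o g1 g2 (1 + 3 * h) (7 / 4 * (ν * (1 + h))) - fp o g1 g2 1 (-(7/4))) (1/2, 1/2) - o)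
        = (7/16 * (ν * (1 + h) - 1)) * cr g1 g2 := by
        simp [cr, bil, fp]; ring
      unfold xi
      rw [e1, e2]
      field_simp
    rw [e1]
    simp only [TQa, TQb]
    have b1 : (-(1/2) + 3/4 * h) ^ 2 ≤ 2 := by nlinarith
    have b2 : (7/16 * (ν * (1 + h) - 1)) ^ 2 ≤ 1 := by
      have : 0 ≤ ν * (1 + h) := by positivity
      have : ν * (1 + h) ≤ 1 := by nlinarith
      nlinarith
    have : (1 - 3 / 10 * (-(1/2) + 3/4 * h)) * (1 + 3 / 10 * (-(1/2) + 3/4 * h))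
      - 3 / 10 * (7/16 * (ν * (1 + h) - 1)) * (3 / 10 * (7/16 * (ν * (1 + h) - 1))) > 0 := by
      nlinarith
    exact this.ne'

theorem ptII (o g1 g2 : E2) (hD : cr g1 g2 ≠ 0) (h q : ℝ) :
    ∃ x0 ∈ quado (fp o g1 g2 1 (-(7/4))) (fp o g1 g2 (-2) 0) (fp o g1 g2 1 (7 / 4))
      (fp o g1 g2 (1 + 3 * h) (7 / 4 * q)), xi o g1 g2 x0 = (1/4, -(7/16)) := by
  have hcr : cr (fp o g1 g2 (-2) 0 - fp o g1 g2 1 (-(7/4)))
      (fp o g1 g2 1 (7 / 4) - fp o g1 g2 1 (-(7/4))) = -(21/2 * cr g1 g2) := by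
    simp [cr, fp]; ring
  have hx := tri_pt_mem (fp o g1 g2 1 (-(7/4))) (fp o g1 g2 (-2) 0) (fp o g1 g2 1 (7 / 4))
    (by rw [hcr]; exact neg_ne_zero.2 (by positivity)) (1/2) (1/2)
    (by constructor <;> norm_num) (by constructor <;> norm_num)
  refine ⟨_, interior_mono subset_union_left hx, ?_⟩
  have e1 : cr (bil (fp o g1 g2 1 (-(7/4))) (fp o g1 g2 (-2) 0 - fp o g1 g2 1 (-(7/4))) 0
      (fp o g1 g2 1 (7 / 4) - fp o g1 g2 (-2) 0) (1/2, 1/2) - o) g2 = 1/4 * cr g1 g2 := by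
    simp [cr, bil, fp]; ring
  have e2 : cr g1 (bil (fp o g1 g2 1 (-(7/4))) (fp o g1 g2 (-2) 0 - fp o g1 g2 1 (-(7/4))) 0
      (fp o g1 g2 1 (7 / 4) - fp o g1 g2 (-2) 0) (1/2, 1/2) - o) = -(7/16) * cr g1 g2 := by
    simp [cr, bil, fp]; ring
  unfold xi
  rw [e1, e2]
  field_simp

/-- vertices in the family, second labelling -/
theorem hasPair_II (o g1 g2 : E2) (hD : cr g1 g2 ≠ 0) (h ν : ℝ) (hh0 : 0 < h)
    (hν0 : 0 ≤ ν)
    (hc : (h ≤ 7 / 64 ∧ ν ≤ 5 / 2) ∨ 109 / 1000 * (1 + h) ^ 2 ≤ h * (ν ^ 2 - 1)) :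
    HasPair (quado (fp o g1 g2 1 (-(7/4))) (fp o g1 g2 (-2) 0) (fp o g1 g2 1 (7 / 4))
      (fp o g1 g2 (1 + 3 * h) (7 / 4 * (ν * (1 + h))))) := by
  have hk : 0 < 1 + h := by linarith
  have hg : Good (quadR23 h (ν * (1 + h))) (mp g1 g2) (mr g1 g2) (mt g1 g2) := by
    rcases hc with ⟨hh1, hν⟩ | hc
    · rcases R23_good h ν (by linarith) hh1 hν0 (Or.inr ⟨hh0.le, hν⟩) with hg | hg
      · exact hg _ _ _ (mp_pos _ _ hD) (metric_det _ _ hD)
      · exact good_lin h ν (by linarith) hg _ _ _ (mp_pos _ _ hD) (metric_det _ _ hD)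
    · exact good_lin h ν (by linarith) hc _ _ _ (mp_pos _ _ hD) (metric_det _ _ hD)
  rw [← quadR23_eqII] at hg
  have hJ := datII o g1 g2 hD h (ν * (1 + h)) hh0
  have hN : 0 < 21 / 4 * |cr g1 g2| := by have := abs_pos.2 hD; positivity
  have hw := works_of_good (isCompact_quadc _ _ _ _) interior_subset hJ hD hN _ _ (21/4)
    (by have := abs_ne_zero.2 hD; field_simp) (by rw [JII_one]; exact hk) hg
  obtain ⟨x0, hx', hxi⟩ := ptII o g1 g2 hD h (ν * (1 + h))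
  rcases hw with hw | hw
  · refine ⟨_, _, TX.contDiff_on _ _ _, TY.contDiff_on _ _ _, ⟨_, hx', ?_⟩, hw⟩
    exact TF.indep _ _ _ _ _ _ hD (by simp [TX, TY])
  · refine ⟨_, _, TF.contDiff_on _ _ _ _, TF.contDiff_on _ _ _ _, ⟨_, hx', ?_⟩, hw⟩
    refine TF.indep _ _ _ _ _ _ hD ?_
    rw [hxi]
    simp only [TQa, TQb]
    norm_num

/-- if `M - b` is positive semidefinite the inequality for `b` is enough -/
theorem works_mono {Ω K : Set E2} (hK : IsCompact K) (hΩK : Ω ⊆ K) {u v : E2 → ℝ}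
    (hu : ContDiff ℝ 1 u) (hv : ContDiff ℝ 1 v) (b11 b12 b22 : ℝ)
    (hb : ∀ s t : ℝ, s ^ 2 * b11 + 2 * s * t * b12 + t ^ 2 * b22 ≤
      s ^ 2 * cmass Ω u u + 2 * s * t * cmass Ω u v + t ^ 2 * cmass Ω v v)
    (h : 2 * volume.real Ω / Real.pi ^ 2 * (stiff Ω u u * stiff Ω v v - stiff Ω u v ^ 2) ≤
    stiff Ω v v * b11 + stiff Ω u u * b22 - 2 * stiff Ω u v * b12) : Works Ω u v := by
  unfold Works
  refine h.trans ?_
  set a := stiff Ω u u
  set b := stiff Ω u v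
  set c := stiff Ω v v
  have hA : ∀ s t : ℝ, 0 ≤ s ^ 2 * a + 2 * s * t * b + t ^ 2 * c := by
    intro s t
    rw [← stiff_comb hK hΩK hu hv]
    exact integral_nonneg fun x => sq_nonneg _
  have ha : 0 ≤ a := by simpa using hA 1 0
  have hdet : 0 ≤ a * c - b ^ 2 := stiff_psd hK hΩK hu hv
  -- a * (trace) = form at (-b, a) scaled + det * form at (1,0)
  rcases ha.eq_or_lt with h0 | h0
  · have hb0 : b = 0 := by
      have : b ^ 2 ≤ 0 := by rw [← h0] at hdet; linarith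
      exact pow_eq_zero_iff (two_ne_zero) |>.1 (le_antisymm this (sq_nonneg _))
    have h1 := hb 1 0
    have hc : 0 ≤ c := by simpa using hA 0 1
    rw [← h0, hb0]
    have h1' : b11 ≤ cmass Ω u u := by simpa using h1
    nlinarith [mul_le_mul_of_nonneg_left h1' hc]
  · have h1 := hb (-b) a
    have h2 := hb 1 0
    have h1' : 0 ≤ a * ((c * cmass Ω u u + a * cmass Ω v v - 2 * b * cmass Ω u v)
      - (c * b11 + a * b22 - 2 * b * b12)) := by
      have h3 : b11 ≤ cmass Ω u u := by simpa using h2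
      have h4 := mul_le_mul_of_nonneg_left h3 hdet
      nlinarith
    have := nonneg_of_mul_nonneg_right h1' h0
    linarith

theorem cmass_mono {Ω T0 K : Set E2} (hK : IsCompact K) (hΩK : Ω ⊆ K)
    (hT : T0 ≤ᵐ[volume] Ω) (hTK : T0 ⊆ K) (hvT : volume.real T0 ≠ 0) (hvΩ : volume.real Ω ≠ 0) {u v : E2 → ℝ}
    (hu : ContDiff ℝ 1 u) (hv : ContDiff ℝ 1 v) (s t : ℝ) :
    s ^ 2 * cmass T0 u u + 2 * s * t * cmass T0 u v + t ^ 2 * cmass T0 v v ≤
      s ^ 2 * cmass Ω u u + 2 * s * t * cmass Ω u v + t ^ 2 * cmass Ω v v := by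
  rw [← mass_comb hK hTK hu hv hvT, ← mass_comb hK hΩK hu hv hvΩ]
  have hcu := hu.continuous
  have hcv := hv.continuous
  have hcΩ : Continuous (comb Ω u v s t) := by unfold comb; fun_prop
  have hcT : Continuous (comb T0 u v s t) := by unfold comb; fun_prop
  have h1 : ∫ x in T0, comb Ω u v s t x ^ 2 ≤ ∫ x in Ω, comb Ω u v s t x ^ 2 :=
    setIntegral_mono_set (intOn hK hΩK (by fun_prop))
      (Filter.Eventually.of_forall fun x => sq_nonneg _) hT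
  refine le_trans ?_ h1
  set δ := (s * (∫ x in T0, u x) + t * ∫ x in T0, v x) / volume.real T0
    - (s * (∫ x in Ω, u x) + t * ∫ x in Ω, v x) / volume.real Ω with hδ
  have e : ∀ x, comb Ω u v s t x ^ 2 = comb T0 u v s t x ^ 2 + (2 * δ * comb T0 u v s t x + δ ^ 2) := by
    intro x; simp only [comb, hδ]; ring
  simp_rw [e]
  rw [iadd hK hTK (by fun_prop) (by fun_prop), iadd hK hTK (by fun_prop) (by fun_prop),
    integral_const_mul, int_comb hK hTK hu hv hvT]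
  have : 0 ≤ ∫ _ in T0, δ ^ 2 := integral_nonneg fun x => sq_nonneg _
  linarith

theorem quadS_eq (h ν : ℝ) (hν : ν ≠ 0) : quadS (h * ν ^ 2) (1 / ν) =
    { quadR23 h (ν * (1 + h)) with
      B11 := 62379 / 512000 * (1 + h), B22 := 2233 / 18000 * (1 + h), B12 := 0 } := by
  have e1 : h * ν ^ 2 * (1 / ν * (1 / ν)) = h := by field_simp
  have e2 : h * ν ^ 2 * (1 / ν) = h * ν := by field_simp
  simp only [quadS, quadR23, quadA, lt, alg_add, alg_sub, alg_mul, alg_sc, alg_cst, QD.mk.injEq]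
  rw [e1, e2]
  push_cast
  refine ⟨?_, ?_, ?_, ?_, ?_, ?_, ?_, ?_, ?_, ?_, ?_, ?_, ?_, ?_, ?_, ?_⟩ <;> ring

/-- long spikes -/
theorem hasPair_S (o g1 g2 : E2) (hD : cr g1 g2 ≠ 0) (h ν : ℝ) (hh0 : 0 < h) (hh1 : h ≤ 7 / 64)
    (hν0 : 5 / 2 ≤ ν) :
    HasPair (quado (fp o g1 g2 1 (-(7/4))) (fp o g1 g2 (-2) 0) (fp o g1 g2 1 (7 / 4))
      (fp o g1 g2 (1 + 3 * h) (7 / 4 * (ν * (1 + h))))) := by
  by_cases hc : 109 / 1000 * (1 + h) ^ 2 ≤ h * (ν ^ 2 - 1)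
  · exact hasPair_II o g1 g2 hD h ν hh0 (by linarith) (Or.inr hc)
  push Not at hc
  have hνpos : 0 < ν := by linarith
  have hy0 : 0 ≤ 1 / ν := by positivity
  have hy1 : 1 / ν ≤ 2 / 5 := by
    rw [div_le_iff₀ hνpos]; linarith
  have hn0 : 0 ≤ h * ν ^ 2 := by positivity
  have hν2 : 25 / 4 ≤ ν ^ 2 := by nlinarith
  have hn1 : h * ν ^ 2 ≤ 9 / 64 := by
    have k1 : h * ν ^ 2 ≤ 16 / 100 := by nlinarith
    have k2 : h ≤ 256 / 10000 := by nlinarith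
    nlinarith
  have e1 : h * ν ^ 2 * (1 / ν) ^ 2 = h := by field_simp
  have hS : ∀ p r t : ℝ, 0 < p → p * r - t ^ 2 = 1 → Good (quadS (h * ν ^ 2) (1 / ν)) p r t := by
    rcases S_good (h * ν ^ 2) (1 / ν) hn0 hn1 hy0 hy1 with hg | hg
    · exact hg
    · exfalso
      rw [e1] at hg
      nlinarith
  have hg := hS _ _ _ (mp_pos _ _ hD) (metric_det _ _ hD)
  rw [quadS_eq h ν hνpos.ne'] at hg
  have hk : 0 < 1 + h := by linarith
  have hJ := datII o g1 g2 hD h (ν * (1 + h)) hh0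
  have hDpos : 0 < |cr g1 g2| := abs_pos.2 hD
  have hN : 0 < 21 / 4 * |cr g1 g2| := by positivity
  rcases hg with hg | hg
  · -- linear pair
    have hg' : Good (quadR23 h (ν * (1 + h))) (mp g1 g2) (mr g1 g2) (mt g1 g2) := Or.inl hg
    rw [← quadR23_eqII] at hg'
    obtain ⟨x0, hx', hxi⟩ := ptII o g1 g2 hD h (ν * (1 + h))
    rcases works_of_good (isCompact_quadc _ _ _ _) interior_subset hJ hD hN _ _ (21/4)
      (by field_simp) (by rw [JII_one]; exact hk) hg' with hw | hw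
    · refine ⟨_, _, TX.contDiff_on _ _ _, TY.contDiff_on _ _ _, ⟨_, hx', ?_⟩, hw⟩
      exact TF.indep _ _ _ _ _ _ hD (by simp [TX, TY])
    · refine ⟨_, _, TF.contDiff_on _ _ _ _, TF.contDiff_on _ _ _ _, ⟨_, hx', ?_⟩, hw⟩
      refine TF.indep _ _ _ _ _ _ hD ?_
      rw [hxi]
      simp only [TQa, TQb]
      norm_num
  · obtain ⟨x0, hx', hxi⟩ := ptII o g1 g2 hD h (ν * (1 + h))
    refine ⟨TQa.on o g1 g2, TQb.on o g1 g2, TF.contDiff_on _ _ _ _, TF.contDiff_on _ _ _ _,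
      ⟨_, hx', ?_⟩, ?_⟩
    · refine TF.indep _ _ _ _ _ _ hD ?_
      rw [hxi]
      simp only [TQa, TQb]
      norm_num
    set Ω := quado (fp o g1 g2 1 (-(7/4))) (fp o g1 g2 (-2) 0) (fp o g1 g2 1 (7 / 4))
      (fp o g1 g2 (1 + 3 * h) (7 / 4 * (ν * (1 + h)))) with hΩ
    set T0 := tri (fp o g1 g2 1 (-(7/4))) (fp o g1 g2 (-2) 0) (fp o g1 g2 1 (7 / 4)) with hT0
    have hKc := isCompact_quadc (fp o g1 g2 1 (-(7/4))) (fp o g1 g2 (-2) 0) (fp o g1 g2 1 (7 / 4))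
      (fp o g1 g2 (1 + 3 * h) (7 / 4 * (ν * (1 + h))))
    have hu : ContDiff ℝ 1 (TQa.on o g1 g2) := (TQa.contDiff_on o g1 g2).of_le (by simp)
    have hv : ContDiff ℝ 1 (TQb.on o g1 g2) := (TQb.contDiff_on o g1 g2).of_le (by simp)
    -- data of the triangle
    have hJ0 : Dat T0 o g1 g2 (JII 0 0) (21 / 4 * |cr g1 g2|) := by
      intro φ hφ
      rw [hT0, int_tri_frame o g1 g2 hD 1 (-(7/4)) (-2) 0 1 (7 / 4) (by norm_num) φ hφ]
      have a1 : |((-2:ℝ) - 1) * (7 / 4 - -(7 / 4)) - (0 - -(7 / 4)) * (1 - 1)| = 21 / 2 := by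
        rw [show ((-2:ℝ) - 1) * (7 / 4 - -(7 / 4)) - (0 - -(7 / 4)) * (1 - 1) = -(21 / 2) by norm_num,
          abs_neg]
        exact abs_of_pos (by norm_num)
      rw [a1]
      unfold JII
      rw [← intervalIntegral.integral_const_mul, ← intervalIntegral.integral_const_mul]
      congr 1; ext u
      rw [← intervalIntegral.integral_const_mul, ← intervalIntegral.integral_const_mul]
      congr 1; ext v
      have e1 : 1 + u * (-2 - 1) + u * v * (1 - -2) = 1 - 3 * u + 3 * u * v := by ring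
      have e2 : -(7/4) + u * (0 - -(7/4)) + u * v * (7 / 4 - 0) = 7 / 4 * (-1 + u + u * v) := by ring
      rw [e1, e2]
      ring
    have hm : ∀ s t : ℝ, s ^ 2 * cmass T0 (TQa.on o g1 g2) (TQa.on o g1 g2)
        + 2 * s * t * cmass T0 (TQa.on o g1 g2) (TQb.on o g1 g2)
        + t ^ 2 * cmass T0 (TQb.on o g1 g2) (TQb.on o g1 g2) ≤
        s ^ 2 * cmass Ω (TQa.on o g1 g2) (TQa.on o g1 g2)
        + 2 * s * t * cmass Ω (TQa.on o g1 g2) (TQb.on o g1 g2)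
        + t ^ 2 * cmass Ω (TQb.on o g1 g2) (TQb.on o g1 g2) := by
      intro s t
      refine cmass_mono hKc interior_subset ?_ subset_union_left ?_ ?_ hu hv s t
      · have h1 : T0 ≤ᵐ[volume] quadc (fp o g1 g2 1 (-(7/4))) (fp o g1 g2 (-2) 0) (fp o g1 g2 1 (7 / 4))
          (fp o g1 g2 (1 + 3 * h) (7 / 4 * (ν * (1 + h)))) :=
          (subset_union_left : T0 ⊆ _).eventuallyLE
        exact h1.trans (quado_ae _ _ _ _).symm.le
      · rw [hJ0.volume, JII_one]; positivity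
      · rw [hJ.volume, JII_one]; positivity
    refine works_mono hKc interior_subset hu hv _ _ _ hm ?_
    rw [hJ0.cmass, hJ0.cmass, hJ0.cmass]
    have c11 : JII 0 0 (fun x y => TQa.φ x y * TQa.φ x y) - JII 0 0 TQa.φ * JII 0 0 TQa.φ
        = 21 / 4 * (62379 / 512000) := by
      simp only [TQa]
      rw [JII_ff, JII_f]; norm_num
    have c22 : JII 0 0 (fun x y => TQb.φ x y * TQb.φ x y) - JII 0 0 TQb.φ * JII 0 0 TQb.φ
        = 21 / 4 * (2233 / 18000) := by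
      simp only [TQb]
      rw [JII_gg, JII_g]; norm_num
    have c12 : JII 0 0 (fun x y => TQa.φ x y * TQb.φ x y) - JII 0 0 TQa.φ * JII 0 0 TQb.φ = 0 := by
      simp only [TQa, TQb]
      rw [JII_fg, JII_f, JII_g]; norm_num
    have hpsd := stiff_psd hKc interior_subset hu hv
    rw [hJ.stiff hKc interior_subset hD, hJ.stiff hKc interior_subset hD,
      hJ.stiff hKc interior_subset hD, hJ.J_two hKc interior_subset hN.ne' TQa,
      hJ.J_two hKc interior_subset hN.ne' TQb] at hpsd ⊢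
    rw [hJ.volume, JII_one, JII_one]
    rw [← quadR23_eqII] at hg
    simp only [QDof] at hg
    rw [JII_one] at hg
    have hκ : 21 / 4 * |cr g1 g2| / |cr g1 g2| = 21 / 4 := by field_simp
    rw [hκ] at hpsd ⊢
    set N := 21 / 4 * |cr g1 g2| with hNdef
    set p := mp g1 g2
    set r := mr g1 g2
    set t := mt g1 g2
    set a1 := JII h (ν * (1 + h)) (fun x y => TQa.φ1 x y * TQa.φ1 x y)
    set a2 := JII h (ν * (1 + h)) (fun x y => TQa.φ2 x y * TQa.φ2 x y)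
    set a3 := JII h (ν * (1 + h)) (fun x y => TQa.φ1 x y * TQa.φ2 x y)
    set b1 := JII h (ν * (1 + h)) (fun x y => TQb.φ1 x y * TQb.φ1 x y)
    set b2 := JII h (ν * (1 + h)) (fun x y => TQb.φ2 x y * TQb.φ2 x y)
    set b3 := JII h (ν * (1 + h)) (fun x y => TQb.φ1 x y * TQb.φ2 x y)
    set c1 := JII h (ν * (1 + h)) (fun x y => TQa.φ1 x y * TQb.φ1 x y)
    set c2 := JII h (ν * (1 + h)) (fun x y => TQa.φ2 x y * TQb.φ2 x y)
    set c3 := JII h (ν * (1 + h)) (fun x y => TQa.φ1 x y * TQb.φ2 x y + TQa.φ2 x y * TQb.φ1 x y)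
    set m11 := JII 0 0 (fun x y => TQa.φ x y * TQa.φ x y)
    set m22 := JII 0 0 (fun x y => TQb.φ x y * TQb.φ x y)
    set m12 := JII 0 0 (fun x y => TQa.φ x y * TQb.φ x y)
    set n1 := JII 0 0 TQa.φ
    set n2 := JII 0 0 TQb.φ
    have hA : 0 ≤ (p * a1 + r * a2 + 2 * t * a3) * (p * b1 + r * b2 + 2 * t * b3)
        - (p * c1 + r * c2 + t * c3) ^ 2 := by
      nlinarith [hpsd]
    have hg2 : 2 / Real.pi ^ 2 * (1 + h) * ((p * a1 + r * a2 + 2 * t * a3) * (p * b1 + r * b2 + 2 * t * b3)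
        - (p * c1 + r * c2 + t * c3) ^ 2) ≤
        (p * b1 + r * b2 + 2 * t * b3) * (62379 / 512000)
          + (p * a1 + r * a2 + 2 * t * a3) * (2233 / 18000) := by
      have h1 : 2 / Real.pi ^ 2 * ((1 + h) ^ 2 * ((p * a1 + r * a2 + 2 * t * a3) * (p * b1 + r * b2 + 2 * t * b3)
        - (p * c1 + r * c2 + t * c3) ^ 2)) ≤ 202643 / 1000000 * ((1 + h) ^ 2 *
          ((p * a1 + r * a2 + 2 * t * a3) * (p * b1 + r * b2 + 2 * t * b3)
        - (p * c1 + r * c2 + t * c3) ^ 2)) :=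
        mul_le_mul_of_nonneg_right tau_le (by positivity)
      have h2 : (1 + h) * (2 / Real.pi ^ 2 * (1 + h) * ((p * a1 + r * a2 + 2 * t * a3)
          * (p * b1 + r * b2 + 2 * t * b3) - (p * c1 + r * c2 + t * c3) ^ 2)) ≤
          (1 + h) * ((p * b1 + r * b2 + 2 * t * b3) * (62379 / 512000)
          + (p * a1 + r * a2 + 2 * t * a3) * (2233 / 18000)) := by
        linear_combination h1 + hg
      exact le_of_mul_le_mul_left h2 hk
    have hmul := mul_le_mul_of_nonneg_left hg2 (by positivity : 0 ≤ N * (21 / 4) ^ 2)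
    have d11 : N * m11 - N * n1 * (N * n1) / (N * (1 + 0)) = N * (m11 - n1 * n1) := by
      field_simp; ring
    have d22 : N * m22 - N * n2 * (N * n2) / (N * (1 + 0)) = N * (m22 - n2 * n2) := by
      field_simp; ring
    have d12 : N * m12 - N * n1 * (N * n2) / (N * (1 + 0)) = N * (m12 - n1 * n2) := by
      field_simp; ring
    rw [d11, d22, d12, c11, c22, c12]
    linear_combination hmul

end Pool.Agent.Helper238
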