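import Pool.Agent.Helper238.R0f

set_option autoImplicit false

open MeasureTheory Set

namespace Pool.Agent.Helper238

theorem r0_lin {p r t w1 w2 : ℝ} (hp : 0 < p) (hr : 0 < r) (hdet : p * r - t ^ 2 = 1)
    (hpr : 5 / 2 ≤ p + r) (hs : w1 ^ 2 + w2 ^ 2 ≤ 1 / 100) :
    202643 / 1000000 ≤ r * (1 / 12 + 1 / 48 * w1 ^ 2 - (1 / 12 * w2) * (1 / 12 * w2))
      + p * (1 / 12 + 1 / 48 * w2 ^ 2 - (1 / 12 * w1) * (1 / 12 * w1))
      - 2 * t * (1 / 48 * w1 * w2 - (1 / 12 * w2) * (1 / 12 * w1)) := by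
  have hm := abs_le.1 (m_le w1 w2)
  have ht : |t| ≤ (p + r) / 2 := by
    apply abs_le_of_sq_le_sq _ (by linarith)
    nlinarith only [hdet, sq_nonneg (p - r)]
  have htm := (abs_le.1 (mul_abs_le ht (m_le w1 w2))).2
  have h1 : (p + r) / 2 * ((w1 ^ 2 + w2 ^ 2) / 2) ≤ (p + r) / 2 * (1 / 200) :=
    mul_le_mul_of_nonneg_left (by linarith) (by linarith)
  have h2 : r * w2 ^ 2 ≤ r * (1 / 100) := mul_le_mul_of_nonneg_left (by nlinarith only [hs, sq_nonneg w1]) hr.le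
  have h3 : p * w1 ^ 2 ≤ p * (1 / 100) := mul_le_mul_of_nonneg_left (by nlinarith only [hs, sq_nonneg w2]) hp.le
  have h4 : 0 ≤ r * w1 ^ 2 := by positivity
  have h5 : 0 ≤ p * w2 ^ 2 := by positivity
  linarith only [htm, h1, h2, h3, h4, h5, hpr]

theorem hasPair_R0 {m f1 f2 : E2} {β η : ℝ} (hcr : cr f1 f2 ≠ 0)
    (hs : β ^ 2 + η ^ 2 ≤ 1 / 200) :
    HasPair (quado (va m f1) (vb m f1 f2 β η) (vc m f1) (vd m f1 f2 β η)) := by
  have hβ : |β| < 1 := by rw [abs_lt]; constructor <;> nlinarith [sq_nonneg β, sq_nonneg η]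
  have hη : |η| < 1 := by rw [abs_lt]; constructor <;> nlinarith [sq_nonneg β, sq_nonneg η]
  have hD : cr (q1 f1 f2) (q2 f1 f2) ≠ 0 := by rw [cr_q]; positivity
  have hJ := dat_convex (m := m) hcr hβ hη
  have hmem := qo_mem (m := m) hcr hβ hη
  have hK := isCompact_quadc (va m f1) (vb m f1 f2 β η) (vc m f1) (vd m f1 f2 β η)
  have hws : (β + η) ^ 2 + (β - η) ^ 2 ≤ 1 / 100 := by linarith [show (β + η) ^ 2 + (β - η) ^ 2 = 2 * (β ^ 2 + η ^ 2) by ring]
  obtain ⟨w1, hw1⟩ : ∃ w, w = β + η := ⟨_, rfl⟩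
  obtain ⟨w2, hw2⟩ : ∃ w, w = β - η := ⟨_, rfl⟩
  rw [← hw1, ← hw2] at hws hJ
  have hp := mp_pos _ _ hD
  have hdet := metric_det _ _ hD
  set p := mp (q1 f1 f2) (q2 f1 f2) with hpdef
  set r := mr (q1 f1 f2) (q2 f1 f2) with hrdef
  set t := mt (q1 f1 f2) (q2 f1 f2) with htdef
  have hr : 0 < r := by
    have : 0 < p * r := by nlinarith [sq_nonneg t]
    exact pos_of_mul_pos_right this hp.le
  have hone : JQ w1 w2 (fun _ _ => 1) = 1 := JQ_one w1 w2
  have hN := abs_pos.2 hD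
  have hκ : (1 : ℝ) = |cr (q1 f1 f2) (q2 f1 f2)| / |cr (q1 f1 f2) (q2 f1 f2)| := by rw [div_self hN.ne']
  rcases le_total (p + r) (5 / 2) with hpr | hpr
  · -- trigonometric pair
    refine ⟨(TSa w1).on _ _ _, (TSb w2).on _ _ _, TF.contDiff_on _ _ _ _, TF.contDiff_on _ _ _ _,
      ⟨_, hmem, ?_⟩, works_of hK interior_subset hJ hD hN (TSa w1) (TSb w2) 1 hκ (by rw [hone]; norm_num) ?_⟩
    · refine TF.indep _ _ _ _ _ _ hD ?_
      simp [TSa, TSb, xi_center, Real.pi_ne_zero]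
    · have hz0 : 0 ≤ (p + r) / 2 - 1 := by
        nlinarith [sq_nonneg (p - r), sq_nonneg t]
      have key := r0_alg (c := Real.pi ^ 2 / 2) (z := (p + r) / 2 - 1) (u := (p - r) / 2) (t := t)
        (a := w1 ^ 2) (b := w2 ^ 2) (m := w1 * w2)
        (by have := Real.pi_gt_d4; nlinarith) (by have := Real.pi_lt_d4; have := Real.pi_pos; nlinarith)
        (sq_nonneg _) (sq_nonneg _) hws (m_le w1 w2)
        b_fxx b_fyy (b_fxy hws) b_gyy b_gxx (b_gxy hws) b_cxx b_cyy (b_cxy hws) (b_B11 hws)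
        (b_B22 hws) (b_B12 hws) hz0 (by linarith) (by linear_combination hdet)
      rw [show 1 + ((p + r) / 2 - 1) + (p - r) / 2 = p by ring,
        show 1 + ((p + r) / 2 - 1) - (p - r) / 2 = r by ring] at key
      have hk : (QDof (JQ w1 w2) 1 (TSa w1) (TSb w2)).k = 1 := hone
      rw [hk]
      have hpi : 0 < 2 / Real.pi ^ 2 := by positivity
      have key2 := mul_le_mul_of_nonneg_left key hpi.le
      rw [← mul_assoc, show 2 / Real.pi ^ 2 * (Real.pi ^ 2 / 2) = 1 by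
        have := Real.pi_ne_zero; field_simp, one_mul] at key2
      rw [one_pow, mul_one]
      exact key2
  · -- linear pair
    refine ⟨TX.on _ _ _, TY.on _ _ _, TF.contDiff_on _ _ _ _, TF.contDiff_on _ _ _ _,
      ⟨_, hmem, ?_⟩, works_of hK interior_subset hJ hD hN TX TY 1 hκ (by rw [hone]; norm_num) ?_⟩
    · refine TF.indep _ _ _ _ _ _ hD ?_
      simp [TX, TY]
    · have h0 := hJ.J_zero hN.ne'
      have key := r0_lin hp hr hdet hpr hws
      simp only [QDof, TX, TY, mul_one, mul_zero, add_zero, h0]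
      rw [hone, JQ_x, JQ_y, JQ_xx, JQ_yy, JQ_xy]
      have h1 := (tau_le).trans key
      refine le_of_eq_of_le ?_ (h1.trans_eq ?_)
      · linear_combination (2 / Real.pi ^ 2) * hdet
      · ring

end Pool.Agent.Helper238
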