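import Pool.Agent.Helper238.All
import Pool.Agent.Helper238.R0

set_option autoImplicit false

open MeasureTheory Set

namespace Pool.Agent.Helper238

theorem tri_swap13 (A B C : E2) : tri A B C = tri C B A := by
  unfold tri
  congr 1
  ext x; simp only [mem_insert_iff, mem_singleton_iff]; tauto

theorem tri_swap23 (A B C : E2) : tri A B C = tri A C B := by
  unfold tri
  congr 1
  ext x; simp only [mem_insert_iff, mem_singleton_iff]; tauto

theorem tri_swap12 (A B C : E2) : tri A B C = tri B A C := by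
  unfold tri
  congr 1
  ext x; simp only [mem_insert_iff, mem_singleton_iff]; tauto

theorem quado_swap_ac (a b c d : E2) : quado a b c d = quado c b a d := by
  unfold quado quadc
  rw [tri_swap13 a b c, tri_swap12 a c d]

theorem quado_swap_bd (a b c d : E2) : quado a b c d = quado a d c b := by
  unfold quado quadc
  rw [union_comm, tri_swap23 a c d, tri_swap23 a b c]

theorem hasPair_pos {m f1 f2 : E2} {β η : ℝ} (hcr : cr f1 f2 ≠ 0) (hβ : 0 ≤ β) (hη0 : 0 ≤ η)
    (hη : η < 1) :
    HasPair (quado (va m f1) (vb m f1 f2 β η) (vc m f1) (vd m f1 f2 β η)) := by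
  rcases le_total (β ^ 2 + η ^ 2) (1 / 200) with h | h
  · exact hasPair_R0 hcr h
  · rcases le_total η (13 / 16) with h1 | h1
    · rcases le_total β (13 / 16) with h2 | h2
      · exact hasPair_R1' hcr hβ hη0 h2 h1 h
      · exact hasPair_fam1 hcr h2 hη0 h1
    · exact hasPair_fam2 hcr hβ h1 hη

theorem cr_neg_f1 {f1 f2 : E2} (h : cr f1 f2 ≠ 0) : cr (-f1) f2 ≠ 0 := by
  rw [cr_neg_left]; exact neg_ne_zero.2 h

theorem cr_neg_f2 {f1 f2 : E2} (h : cr f1 f2 ≠ 0) : cr f1 (-f2) ≠ 0 := by
  rw [cr_neg_right]; exact neg_ne_zero.2 h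

theorem hasPair_eta {m f1 f2 : E2} {β η : ℝ} (hcr : cr f1 f2 ≠ 0) (hη0 : 0 ≤ η)
    (hη : η < 1) :
    HasPair (quado (va m f1) (vb m f1 f2 β η) (vc m f1) (vd m f1 f2 β η)) := by
  rcases le_total 0 β with h | h
  · exact hasPair_pos hcr h hη0 hη
  · have := hasPair_pos (m := m) (f1 := -f1) (f2 := f2) (β := -β) (η := η) (cr_neg_f1 hcr)
      (by linarith) hη0 hη
    rw [quado_swap_ac] at this
    convert this using 2
    · simp [va, vc, sub_eq_add_neg]
    · simp [vb]
    · simp [va, vc, sub_eq_add_neg]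
    · simp [vd]

theorem hasPair_nf {m f1 f2 : E2} {β η : ℝ} (hcr : cr f1 f2 ≠ 0) (hη : |η| < 1) :
    HasPair (quado (va m f1) (vb m f1 f2 β η) (vc m f1) (vd m f1 f2 β η)) := by
  rw [abs_lt] at hη
  rcases le_total 0 η with h | h
  · exact hasPair_eta hcr h hη.2
  · have := hasPair_eta (m := m) (f1 := f1) (f2 := -f2) (β := β) (η := -η) (cr_neg_f2 hcr)
      (by linarith) (by linarith)
    rw [quado_swap_bd] at this
    convert this using 2
    · ext i; simp [vb, vd]
    · ext i; simp [vb, vd]; ring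

/-- Every quadrilateral admits a working pair. -/
theorem hasPair_quad (a b c d : E2) (h : cr (b - a) (c - a) * cr (d - a) (c - a) < 0) :
    HasPair (quado a b c d) := by
  set m : E2 := (1/2 : ℝ) • (a + c) with hm
  set f1 : E2 := (1/2 : ℝ) • (c - a) with hf1
  set f2 : E2 := (1/2 : ℝ) • (b - d) with hf2
  set w : E2 := (1/2 : ℝ) • (b + d - a - c) with hw
  have hcr : cr f1 f2 ≠ 0 := by
    have e : cr f1 f2 = 1/4 * (cr (d - a) (c - a) - cr (b - a) (c - a)) := by
      simp [cr, hf1, hf2]; ring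
    rw [e]
    intro h0
    have : cr (d - a) (c - a) = cr (b - a) (c - a) := by linarith
    rw [this] at h
    nlinarith [mul_self_nonneg (cr (b - a) (c - a))]
  set β : ℝ := cr w f2 / cr f1 f2 with hβ
  set η : ℝ := cr f1 w / cr f1 f2 with hη
  have hwe : w = β • f1 + η • f2 := by
    ext i
    fin_cases i
    · simp only [hβ, hη, PiLp.add_apply, PiLp.smul_apply, smul_eq_mul]
      field_simp
      simp only [cr]; simp; ring
    · simp only [hβ, hη, PiLp.add_apply, PiLp.smul_apply, smul_eq_mul]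
      field_simp
      simp only [cr]; simp; ring
  have ha : a = va m f1 := by
    ext i; simp [va, hm, hf1]; ring
  have hc : c = vc m f1 := by
    ext i; simp [vc, hm, hf1]; ring
  have hb : b = vb m f1 f2 β η := by
    have : vb m f1 f2 β η = m + w + f2 := by
      rw [hwe]; ext i; simp [vb]; ring
    rw [this]
    ext i; simp [hm, hw, hf2]; ring
  have hd : d = vd m f1 f2 β η := by
    have : vd m f1 f2 β η = m + w - f2 := by
      rw [hwe]; ext i; simp [vd]; ring
    rw [this]
    ext i; simp [hm, hw, hf2]; ring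
  have hη1 : |η| < 1 := by
    have h' := h
    rw [ha, hb, hc, hd, cr_bac, cr_dac] at h'
    have hpos : 0 < cr f1 f2 ^ 2 := by positivity
    rw [abs_lt]
    have h2 : 0 < (1 - η ^ 2) * cr f1 f2 ^ 2 := by nlinarith
    have h3 : 0 < 1 - η ^ 2 := (mul_pos_iff_of_pos_right hpos).1 h2
    constructor <;> nlinarith
  have key := hasPair_nf (m := m) (β := β) hcr hη1
  rw [← ha, ← hb, ← hc, ← hd] at key
  exact key

end Pool.Agent.Helper238
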