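import Mathlib

set_option autoImplicit false

open MeasureTheory Set

namespace Pool.Agent.Helper238

/-- the Euclidean plane -/
abbrev E2 := EuclideanSpace ℝ (Fin 2)

/-- coordinates as a measurable equivalence -/
noncomputable def toP : E2 ≃ᵐ ℝ × ℝ :=
  (MeasurableEquiv.toLp 2 (Fin 2 → ℝ)).symm.trans MeasurableEquiv.finTwoArrow

theorem toP_apply (x : E2) : toP x = (x 0, x 1) := rfl

theorem toP_mp : MeasurePreserving toP volume volume :=
  (volume_preserving_finTwoArrow ℝ).comp (PiLp.volume_preserving_ofLp (Fin 2))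

/-- cross product -/
def cr (u v : E2) : ℝ := u 0 * v 1 - u 1 * v 0

/-- the bilinear map -/
noncomputable def bil (o e1 e2 e3 : E2) (z : ℝ × ℝ) : E2 :=
  o + z.1 • e1 + z.2 • e2 + (z.1 * z.2) • e3

/-- its Jacobian -/
def jac (e1 e2 e3 : E2) (z : ℝ × ℝ) : ℝ :=
  cr e1 e2 + z.1 * cr e1 e3 + z.2 * cr e3 e2

noncomputable def bilD (e1 e2 e3 : E2) (z : ℝ × ℝ) : ℝ × ℝ →L[ℝ] ℝ × ℝ :=
  (Matrix.toLin (.finTwoProd ℝ) (.finTwoProd ℝ)
    !![e1 0 + z.2 * e3 0, e2 0 + z.1 * e3 0; e1 1 + z.2 * e3 1, e2 1 + z.1 * e3 1]).toContinuousLinearMap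

theorem det_bilD (e1 e2 e3 : E2) (z : ℝ × ℝ) : (bilD e1 e2 e3 z).det = jac e1 e2 e3 z := by
  unfold bilD
  simp only [LinearMap.det_toContinuousLinearMap, LinearMap.det_toLin, Matrix.det_fin_two_of, jac, cr]
  ring

theorem hasFDerivAt_bil (o e1 e2 e3 : E2) (z : ℝ × ℝ) :
    HasFDerivAt (fun z => toP (bil o e1 e2 e3 z)) (bilD e1 e2 e3 z) z := by
  unfold bilD
  rw [Matrix.toLin_finTwoProd_toContinuousLinearMap]
  have h : ∀ i : Fin 2, HasFDerivAt (fun z : ℝ × ℝ => o i + z.1 * e1 i + z.2 * e2 i + (z.1 * z.2) * e3 i)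
      ((e1 i + z.2 * e3 i) • ContinuousLinearMap.fst ℝ ℝ ℝ +
        (e2 i + z.1 * e3 i) • ContinuousLinearMap.snd ℝ ℝ ℝ) z := by
    intro i
    have h1 := (hasFDerivAt_fst (𝕜 := ℝ) (E := ℝ) (F := ℝ) (p := z))
    have h2 := (hasFDerivAt_snd (𝕜 := ℝ) (E := ℝ) (F := ℝ) (p := z))
    have := (((hasFDerivAt_const (o i) z).add (h1.mul_const (e1 i))).add
      (h2.mul_const (e2 i))).add ((h1.mul h2).mul_const (e3 i))
    refine this.congr_fderiv ?_
    ext <;> simp <;> ring
  refine (HasFDerivAt.prodMk (h 0) (h 1)).congr_fderiv ?_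
  rfl

theorem cov (o e1 e2 e3 : E2) (S : Set (ℝ × ℝ)) (hS : MeasurableSet S)
    (hinj : InjOn (bil o e1 e2 e3) S) (F : E2 → ℝ) :
    ∫ x in bil o e1 e2 e3 '' S, F x = ∫ z in S, |jac e1 e2 e3 z| * F (bil o e1 e2 e3 z) := by
  have h1 : ∫ x in bil o e1 e2 e3 '' S, F x
      = ∫ y in toP '' (bil o e1 e2 e3 '' S), F (toP.symm y) := by
    rw [toP_mp.setIntegral_image_emb toP.measurableEmbedding]
    simp
  rw [h1, image_image]
  have hinj' : InjOn (fun z => toP (bil o e1 e2 e3 z)) S := toP.injective.comp_injOn hinj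
  rw [integral_image_eq_integral_abs_det_fderiv_smul volume hS
    (fun z _ => (hasFDerivAt_bil o e1 e2 e3 z).hasFDerivWithinAt) hinj']
  simp [det_bilD]

/-- closed parameter square for triangles -/
def Q01 : Set (ℝ × ℝ) := Icc 0 1 ×ˢ Icc 0 1
/-- open parameter square for triangles -/
def O01 : Set (ℝ × ℝ) := Ioo 0 1 ×ˢ Ioo 0 1

/-- the closed triangle -/
abbrev tri (A B C : E2) : Set E2 := convexHull ℝ {A, B, C}

theorem tri_eq (A B C : E2) : tri A B C = bil A (B - A) 0 (C - B) '' Q01 := by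
  unfold tri
  rw [convexHull_insert (by simp), convexHull_pair]
  ext x
  simp only [convexJoin_singleton_left, mem_iUnion, mem_image, Q01, mem_prod, Prod.exists,
    segment_eq_image, bil]
  constructor
  · rintro ⟨y, ⟨v, hv, rfl⟩, u, hu, rfl⟩
    refine ⟨u, v, ⟨hu, hv⟩, ?_⟩
    simp only [smul_sub, smul_add, sub_smul, one_smul, mul_smul, smul_zero]
    abel
  · rintro ⟨u, v, ⟨hu, hv⟩, rfl⟩
    refine ⟨(1 - v) • B + v • C, ⟨v, hv, rfl⟩, u, hu, ?_⟩
    simp only [smul_sub, smul_add, sub_smul, one_smul, mul_smul, smul_zero]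
    abel

theorem volume_Q_diff_O : volume (Q01 \ O01) = 0 := by
  have h : (O01 : Set (ℝ × ℝ)) =ᵐ[volume] Q01 := by
    unfold O01 Q01
    rw [Measure.volume_eq_prod]
    exact Measure.set_prod_ae_eq Ioo_ae_eq_Icc Ioo_ae_eq_Icc
  exact (ae_le_set.1 h.symm.le)

theorem null_image (o e1 e2 e3 : E2) (S : Set (ℝ × ℝ)) (hS : volume S = 0) :
    volume (bil o e1 e2 e3 '' S) = 0 := by
  have h1 : volume ((fun z => toP (bil o e1 e2 e3 z)) '' S) = 0 :=
    addHaar_image_eq_zero_of_differentiableOn_of_addHaar_eq_zero volume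
      (fun z _ => (hasFDerivAt_bil o e1 e2 e3 z).differentiableAt.differentiableWithinAt) hS
  have h2 : bil o e1 e2 e3 '' S = toP ⁻¹' ((fun z => toP (bil o e1 e2 e3 z)) '' S) := by
    ext x
    simp only [mem_image, mem_preimage]
    constructor
    · rintro ⟨z, hz, rfl⟩; exact ⟨z, hz, rfl⟩
    · rintro ⟨z, hz, h⟩; exact ⟨z, hz, toP.injective h⟩
  rw [h2, toP_mp.measure_preimage_equiv]
  exact h1

theorem tri_ae (A B C : E2) : (bil A (B - A) 0 (C - B) '' O01 : Set E2) =ᵐ[volume] tri A B C := by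
  rw [tri_eq]
  have hsub : bil A (B - A) 0 (C - B) '' O01 ⊆ bil A (B - A) 0 (C - B) '' Q01 :=
    image_mono (prod_mono Ioo_subset_Icc_self Ioo_subset_Icc_self)
  rw [ae_eq_set]
  constructor
  · rw [sdiff_eq_empty.2 hsub]; simp
  · refine measure_mono_null (subset_image_diff _ _ _) (null_image _ _ _ _ _ volume_Q_diff_O)

theorem cr_sub_left (u v w : E2) : cr (u - v) w = cr u w - cr v w := by
  simp [cr]; ring
theorem cr_sub_right (u v w : E2) : cr u (v - w) = cr u v - cr u w := by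
  simp [cr]; ring
theorem cr_add_left (u v w : E2) : cr (u + v) w = cr u w + cr v w := by
  simp [cr]; ring
theorem cr_add_right (u v w : E2) : cr u (v + w) = cr u v + cr u w := by
  simp [cr]; ring
theorem cr_smul_left (k : ℝ) (u v : E2) : cr (k • u) v = k * cr u v := by
  simp [cr]; ring
theorem cr_smul_right (k : ℝ) (u v : E2) : cr u (k • v) = k * cr u v := by
  simp [cr]; ring
theorem cr_self (u : E2) : cr u u = 0 := by
  simp [cr]; ring
theorem cr_zero_left (u : E2) : cr 0 u = 0 := by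
  simp [cr]
theorem cr_zero_right (u : E2) : cr u 0 = 0 := by
  simp [cr]
theorem cr_neg_left (u v : E2) : cr (-u) v = - cr u v := by
  simp [cr]; ring
theorem cr_neg_right (u v : E2) : cr u (-v) = - cr u v := by
  simp [cr]; ring
theorem cr_swap (u v : E2) : cr u v = - cr v u := by
  simp [cr]; ring

theorem tri_inj (A B C : E2) (h : cr (B - A) (C - A) ≠ 0) :
    InjOn (bil A (B - A) 0 (C - B)) O01 := by
  rintro ⟨u, v⟩ ⟨hu, hv⟩ ⟨u', v'⟩ ⟨hu', hv'⟩ heq
  simp only [mem_Ioo] at hu hv hu' hv'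
  have hcr : cr (B - A) (C - B) ≠ 0 := by
    have : cr (B - A) (C - B) = cr (B - A) (C - A) := by
      simp [cr]; ring
    rwa [this]
  have h1 : cr (bil A (B - A) 0 (C - B) (u, v) - A) (C - B) = u * cr (B - A) (C - B) := by
    simp [cr, bil]; ring
  have h1' : cr (bil A (B - A) 0 (C - B) (u', v') - A) (C - B) = u' * cr (B - A) (C - B) := by
    simp [cr, bil]; ring
  have h2 : cr (B - A) (bil A (B - A) 0 (C - B) (u, v) - A) = (u * v) * cr (B - A) (C - B) := by
    simp [cr, bil]; ring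
  have h2' : cr (B - A) (bil A (B - A) 0 (C - B) (u', v') - A) = (u' * v') * cr (B - A) (C - B) := by
    simp [cr, bil]; ring
  rw [heq] at h1 h2
  have e1 : u = u' := mul_right_cancel₀ hcr (h1.symm.trans h1')
  subst e1
  have e2 : u * v = u * v' := mul_right_cancel₀ hcr (h2.symm.trans h2')
  have e3 : v = v' := mul_left_cancel₀ hu.1.ne' e2
  rw [e3]

theorem measurableSet_O01 : MeasurableSet O01 := measurableSet_Ioo.prod measurableSet_Ioo

theorem integral_tri (A B C : E2) (h : cr (B - A) (C - A) ≠ 0) (F : E2 → ℝ) :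
    ∫ x in tri A B C, F x
      = ∫ z in O01, (z.1 * |cr (B - A) (C - A)|) * F (bil A (B - A) 0 (C - B) z) := by
  rw [← setIntegral_congr_set (tri_ae A B C), cov _ _ _ _ _ measurableSet_O01 (tri_inj A B C h)]
  refine setIntegral_congr_fun measurableSet_O01 ?_
  rintro ⟨u, v⟩ ⟨hu, hv⟩
  simp only [mem_Ioo] at hu hv
  simp only
  congr 1
  have : jac (B - A) 0 (C - B) (u, v) = u * cr (B - A) (C - A) := by
    simp only [jac, cr, PiLp.sub_apply, PiLp.zero_apply]; ring
  rw [this, abs_mul, abs_of_pos hu.1]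

theorem isCompact_tri (A B C : E2) : IsCompact (tri A B C) :=
  Set.Finite.isCompact_convexHull ℝ (by simp : ({A, B, C} : Set E2).Finite)

theorem convex_tri (A B C : E2) : Convex ℝ (tri A B C) := convex_convexHull _ _

/-- the closed quadrilateral -/
abbrev quadc (a b c d : E2) : Set E2 := tri a b c ∪ tri a c d

/-- the open quadrilateral -/
abbrev quado (a b c d : E2) : Set E2 := interior (quadc a b c d)

theorem isCompact_quadc (a b c d : E2) : IsCompact (quadc a b c d) :=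
  (isCompact_tri a b c).union (isCompact_tri a c d)

theorem quado_ae (a b c d : E2) : (quado a b c d : Set E2) =ᵐ[volume] quadc a b c d := by
  rw [ae_eq_set]
  constructor
  · rw [sdiff_eq_empty.2 interior_subset]; simp
  · have hf : quadc a b c d \ interior (quadc a b c d) ⊆
        frontier (tri a b c) ∪ frontier (tri a c d) := by
      have h1 : quadc a b c d \ interior (quadc a b c d) = frontier (quadc a b c d) :=
        ((isCompact_quadc a b c d).isClosed.frontier_eq).symm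
      rw [h1]
      refine (frontier_union_subset _ _).trans ?_
      exact union_subset_union inter_subset_left inter_subset_right
    refine measure_mono_null hf (measure_union_null ?_ ?_)
    · exact (convex_tri a b c).addHaar_frontier volume
    · exact (convex_tri a c d).addHaar_frontier volume

theorem tri_side (A B C x : E2) (hx : x ∈ tri A B C) :
    ∃ u v : ℝ, u ∈ Icc (0:ℝ) 1 ∧ v ∈ Icc (0:ℝ) 1 ∧ x = bil A (B - A) 0 (C - B) (u, v) := by
  rw [tri_eq] at hx
  obtain ⟨⟨u, v⟩, ⟨hu, hv⟩, rfl⟩ := hx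
  exact ⟨u, v, hu, hv, rfl⟩

theorem tri_inter_null (a b c d : E2) (h : cr (b - a) (c - a) * cr (d - a) (c - a) < 0) :
    volume (tri a b c ∩ tri a c d) = 0 := by
  have hsub : tri a b c ∩ tri a c d ⊆ bil a (b - a) 0 (c - b) '' (Q01 \ O01) := by
    rintro x ⟨h1, h2⟩
    obtain ⟨u, v, hu, hv, rfl⟩ := tri_side _ _ _ _ h1
    obtain ⟨u', v', hu', hv', he⟩ := tri_side _ _ _ _ h2
    refine ⟨(u, v), ⟨⟨hu, hv⟩, ?_⟩, rfl⟩
    rintro ⟨hu2, hv2⟩
    simp only [mem_Ioo, mem_Icc] at hu hv hu' hv' hu2 hv2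
    have e1 : cr (bil a (b - a) 0 (c - b) (u, v) - a) (c - a) = u * (1 - v) * cr (b - a) (c - a) := by
      simp [cr, bil]; ring
    have e2 : cr (bil a (c - a) 0 (d - c) (u', v') - a) (c - a) = u' * v' * cr (d - a) (c - a) := by
      simp [cr, bil]; ring
    rw [he, e2] at e1
    have h3 : 0 < u * (1 - v) := mul_pos hu2.1 (by linarith)
    have h4 : 0 ≤ u' * v' := mul_nonneg hu'.1 hv'.1
    rcases mul_neg_iff.1 h with ⟨h5, h6⟩ | ⟨h5, h6⟩
    · nlinarith [mul_pos h3 h5, mul_nonneg h4 (neg_nonneg.2 h6.le)]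
    · nlinarith [mul_pos h3 (neg_pos.2 h5), mul_nonneg h4 h6.le]
  exact measure_mono_null hsub (null_image _ _ _ _ _ volume_Q_diff_O)

theorem integral_quad (a b c d : E2) (h : cr (b - a) (c - a) * cr (d - a) (c - a) < 0)
    (F : E2 → ℝ) (hF : Continuous F) :
    ∫ x in quado a b c d, F x = (∫ x in tri a b c, F x) + ∫ x in tri a c d, F x := by
  rw [setIntegral_congr_set (quado_ae a b c d)]
  exact setIntegral_union₀ (tri_inter_null a b c d h)
    (isCompact_tri a c d).isClosed.measurableSet.nullMeasurableSet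
    (hF.continuousOn.integrableOn_compact (isCompact_tri a b c))
    (hF.continuousOn.integrableOn_compact (isCompact_tri a c d))

theorem integral_box (a b c d : ℝ) (hab : a ≤ b) (hcd : c ≤ d) (g : ℝ × ℝ → ℝ)
    (hg : Continuous g) :
    ∫ z in Ioo a b ×ˢ Ioo c d, g z = ∫ u in a..b, ∫ v in c..d, g (u, v) := by
  rw [Measure.volume_eq_prod, setIntegral_prod]
  · rw [intervalIntegral.integral_of_le hab, integral_Ioc_eq_integral_Ioo]
    refine setIntegral_congr_fun measurableSet_Ioo ?_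
    intro u _
    simp only
    rw [intervalIntegral.integral_of_le hcd, integral_Ioc_eq_integral_Ioo]
  · have : IntegrableOn g (Icc a b ×ˢ Icc c d) (volume.prod volume) := by
      rw [← Measure.volume_eq_prod]
      exact hg.continuousOn.integrableOn_compact (isCompact_Icc.prod isCompact_Icc)
    exact this.mono_set (prod_mono Ioo_subset_Icc_self Ioo_subset_Icc_self)

theorem continuous_bil (o e1 e2 e3 : E2) : Continuous (bil o e1 e2 e3) := by
  unfold bil; fun_prop

theorem continuous_jac (e1 e2 e3 : E2) : Continuous (jac e1 e2 e3) := by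
  unfold jac; fun_prop

theorem integral_tri' (A B C : E2) (h : cr (B - A) (C - A) ≠ 0) (F : E2 → ℝ) (hF : Continuous F) :
    ∫ x in tri A B C, F x
      = |cr (B - A) (C - A)| * ∫ u in (0:ℝ)..1, ∫ v in (0:ℝ)..1,
        u * F (bil A (B - A) 0 (C - B) (u, v)) := by
  rw [integral_tri A B C h, O01, integral_box 0 1 0 1 zero_le_one zero_le_one]
  · rw [← intervalIntegral.integral_const_mul]
    congr 1; ext u
    rw [← intervalIntegral.integral_const_mul]
    congr 1; ext v
    ring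
  · have := continuous_bil A (B - A) 0 (C - B)
    fun_prop

theorem area_tri (A B C : E2) (h : cr (B - A) (C - A) ≠ 0) :
    ∫ _ in tri A B C, (1:ℝ) = |cr (B - A) (C - A)| / 2 := by
  rw [integral_tri' A B C h (fun _ => 1) continuous_const]
  simp
  ring

theorem tri_mem (A B C : E2) (x y z : ℝ) (hx : 0 ≤ x) (hy : 0 ≤ y) (hz : 0 ≤ z)
    (h : x + y + z = 1) : x • A + y • B + z • C ∈ tri A B C := by
  have := (convex_tri A B C).sum_mem (t := Finset.univ) (w := ![x, y, z]) (z := ![A, B, C])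
    (by intro i _; fin_cases i <;> simp [hx, hy, hz])
    (by simp [Fin.sum_univ_three, h])
    (by
      intro i _
      have : ∀ p ∈ ({A, B, C} : Set E2), p ∈ tri A B C := fun p hp => subset_convexHull ℝ _ hp
      fin_cases i
      · exact this _ (by simp)
      · exact this _ (by simp)
      · exact this _ (by simp))
  simpa [Fin.sum_univ_three] using this

/-- open centred square -/
def Oc : Set (ℝ × ℝ) := Ioo (-(1/2)) (1/2) ×ˢ Ioo (-(1/2)) (1/2)

theorem measurableSet_Oc : MeasurableSet Oc := measurableSet_Ioo.prod measurableSet_Ioo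

theorem bil_inj_of_jac (o e1 e2 e3 : E2) (S : Set (ℝ × ℝ)) (hS : Convex ℝ S)
    (hj : ∀ z ∈ S, jac e1 e2 e3 z ≠ 0) : InjOn (bil o e1 e2 e3) S := by
  intro z hz z' hz' heq
  have hm : ((1/2 : ℝ) • z + (1/2 : ℝ) • z') ∈ S :=
    hS hz hz' (by norm_num) (by norm_num) (by norm_num)
  have hj' := hj _ hm
  have h0 : ∀ i : Fin 2, (z.1 - z'.1) * (e1 i + (1/2 * z.2 + 1/2 * z'.2) * e3 i)
      + (z.2 - z'.2) * (e2 i + (1/2 * z.1 + 1/2 * z'.1) * e3 i) = 0 := by
    intro i
    have := congrArg (fun x : E2 => x i) heq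
    simp [bil] at this
    linear_combination this
  have hj2 : jac e1 e2 e3 ((1/2 : ℝ) • z + (1/2 : ℝ) • z')
      = (e1 0 + (1/2 * z.2 + 1/2 * z'.2) * e3 0) * (e2 1 + (1/2 * z.1 + 1/2 * z'.1) * e3 1)
      - (e1 1 + (1/2 * z.2 + 1/2 * z'.2) * e3 1) * (e2 0 + (1/2 * z.1 + 1/2 * z'.1) * e3 0) := by
    simp [jac, cr]; ring
  rw [hj2] at hj'
  have a0 := h0 0
  have a1 := h0 1
  have k1 : (z.1 - z'.1) * ((e1 0 + (1/2 * z.2 + 1/2 * z'.2) * e3 0) * (e2 1 + (1/2 * z.1 + 1/2 * z'.1) * e3 1)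
      - (e1 1 + (1/2 * z.2 + 1/2 * z'.2) * e3 1) * (e2 0 + (1/2 * z.1 + 1/2 * z'.1) * e3 0)) = 0 := by
    linear_combination (e2 1 + (1/2 * z.1 + 1/2 * z'.1) * e3 1) * a0
      - (e2 0 + (1/2 * z.1 + 1/2 * z'.1) * e3 0) * a1
  have k2 : (z.2 - z'.2) * ((e1 0 + (1/2 * z.2 + 1/2 * z'.2) * e3 0) * (e2 1 + (1/2 * z.1 + 1/2 * z'.1) * e3 1)
      - (e1 1 + (1/2 * z.2 + 1/2 * z'.2) * e3 1) * (e2 0 + (1/2 * z.1 + 1/2 * z'.1) * e3 0)) = 0 := by
    linear_combination (e1 0 + (1/2 * z.2 + 1/2 * z'.2) * e3 0) * a1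
      - (e1 1 + (1/2 * z.2 + 1/2 * z'.2) * e3 1) * a0
  have l1 := (mul_eq_zero.1 k1).resolve_right hj'
  have l2 := (mul_eq_zero.1 k2).resolve_right hj'
  exact Prod.ext (by linarith) (by linarith)

end Pool.Agent.Helper238
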