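import Pool.Agent.Helper238.Geo

set_option autoImplicit false

open MeasureTheory Set

namespace Pool.Agent.Helper238

/-- dot product of covectors -/
noncomputable def gdot (L M : E2 →L[ℝ] ℝ) : ℝ :=
  L (EuclideanSpace.single 0 1) * M (EuclideanSpace.single 0 1) +
    L (EuclideanSpace.single 1 1) * M (EuclideanSpace.single 1 1)

theorem norm_sq_clm (L : E2 →L[ℝ] ℝ) : ‖L‖ ^ 2 = gdot L L := by
  set y := (InnerProductSpace.toDual ℝ E2).symm L with hy
  have hL : L = InnerProductSpace.toDual ℝ E2 y := by rw [hy]; simp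
  have h1 : ‖L‖ = ‖y‖ := by rw [hy]; simp
  have h2 : ∀ i : Fin 2, L (EuclideanSpace.single i 1) = y i := by
    intro i
    rw [hL, InnerProductSpace.toDual_apply_apply]
    simp [PiLp.inner_apply]
  rw [h1, EuclideanSpace.norm_sq_eq, Fin.sum_univ_two, gdot, h2, h2]
  simp; ring

theorem gdot_lin (c1 c2 : ℝ) (L M : E2 →L[ℝ] ℝ) :
    gdot (c1 • L + c2 • M) (c1 • L + c2 • M)
      = c1 ^ 2 * gdot L L + 2 * c1 * c2 * gdot L M + c2 ^ 2 * gdot M M := by
  simp [gdot]; ring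

/-- stiffness -/
noncomputable def stiff (Ω : Set E2) (u v : E2 → ℝ) : ℝ := ∫ x in Ω, gdot (fderiv ℝ u x) (fderiv ℝ v x)

/-- centred mass -/
noncomputable def cmass (Ω : Set E2) (u v : E2 → ℝ) : ℝ :=
  (∫ x in Ω, u x * v x) - (∫ x in Ω, u x) * (∫ x in Ω, v x) / volume.real Ω

theorem continuous_gdot {u v : E2 → ℝ} (hu : ContDiff ℝ 1 u) (hv : ContDiff ℝ 1 v) :
    Continuous fun x => gdot (fderiv ℝ u x) (fderiv ℝ v x) := by
  have h1 := hu.continuous_fderiv (by simp)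
  have h2 := hv.continuous_fderiv (by simp)
  unfold gdot
  fun_prop

/-- the combination with zero mean -/
noncomputable def comb (Ω : Set E2) (u v : E2 → ℝ) (c1 c2 : ℝ) : E2 → ℝ :=
  fun x => c1 * u x + c2 * v x - (c1 * (∫ x in Ω, u x) + c2 * ∫ x in Ω, v x) / volume.real Ω

theorem fderiv_comb (Ω : Set E2) {u v : E2 → ℝ} (hu : ContDiff ℝ 1 u) (hv : ContDiff ℝ 1 v)
    (c1 c2 : ℝ) (x : E2) : fderiv ℝ (comb Ω u v c1 c2) x = c1 • fderiv ℝ u x + c2 • fderiv ℝ v x := by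
  have h1 := (hu.differentiable (by simp)) x
  have h2 := (hv.differentiable (by simp)) x
  unfold comb
  rw [fderiv_sub_const, fderiv_fun_add (h1.const_mul _) (h2.const_mul _), fderiv_const_mul h1,
    fderiv_const_mul h2]

section
variable {Ω K : Set E2} (hK : IsCompact K) (hΩK : Ω ⊆ K) {u v : E2 → ℝ}
include hK hΩK

theorem intOn {f : E2 → ℝ} (hf : Continuous f) : IntegrableOn f Ω :=
  (hf.continuousOn.integrableOn_compact hK).mono_set hΩK

theorem iadd {f g : E2 → ℝ} (hf : Continuous f) (hg : Continuous g) :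
    ∫ x in Ω, (f x + g x) = (∫ x in Ω, f x) + ∫ x in Ω, g x :=
  integral_add (intOn hK hΩK hf) (intOn hK hΩK hg)

theorem isub {f g : E2 → ℝ} (hf : Continuous f) (hg : Continuous g) :
    ∫ x in Ω, (f x - g x) = (∫ x in Ω, f x) - ∫ x in Ω, g x :=
  integral_sub (intOn hK hΩK hf) (intOn hK hΩK hg)

theorem stiff_comb (hu : ContDiff ℝ 1 u) (hv : ContDiff ℝ 1 v) (c1 c2 : ℝ) :
    ∫ x in Ω, ‖fderiv ℝ (comb Ω u v c1 c2) x‖ ^ 2
      = c1 ^ 2 * stiff Ω u u + 2 * c1 * c2 * stiff Ω u v + c2 ^ 2 * stiff Ω v v := by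
  simp_rw [norm_sq_clm, fderiv_comb Ω hu hv, gdot_lin]
  have i1 := continuous_gdot hu hu
  have i2 := continuous_gdot hu hv
  have i3 := continuous_gdot hv hv
  rw [iadd hK hΩK (by fun_prop) (by fun_prop), iadd hK hΩK (by fun_prop) (by fun_prop),
    integral_const_mul, integral_const_mul, integral_const_mul]
  rfl

theorem int_comb (hu : ContDiff ℝ 1 u) (hv : ContDiff ℝ 1 v) (hvol : volume.real Ω ≠ 0) (c1 c2 : ℝ) :
    ∫ x in Ω, comb Ω u v c1 c2 x = 0 := by
  have i1 := hu.continuous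
  have i2 := hv.continuous
  unfold comb
  rw [isub hK hΩK (by fun_prop) (by fun_prop), iadd hK hΩK (by fun_prop) (by fun_prop),
    integral_const_mul, integral_const_mul]
  simp only [integral_const, smul_eq_mul, MeasurableSet.univ, measureReal_restrict_apply, univ_inter]
  field_simp
  ring

theorem mass_comb (hu : ContDiff ℝ 1 u) (hv : ContDiff ℝ 1 v) (hvol : volume.real Ω ≠ 0) (c1 c2 : ℝ) :
    ∫ x in Ω, comb Ω u v c1 c2 x ^ 2
      = c1 ^ 2 * cmass Ω u u + 2 * c1 * c2 * cmass Ω u v + c2 ^ 2 * cmass Ω v v := by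
  have hcu := hu.continuous
  have hcv := hv.continuous
  set κ := (c1 * (∫ x in Ω, u x) + c2 * ∫ x in Ω, v x) / volume.real Ω with hκ
  have e : ∀ x, comb Ω u v c1 c2 x ^ 2 = ((c1 ^ 2 * (u x * u x) + 2 * c1 * c2 * (u x * v x))
      + (c2 ^ 2 * (v x * v x) + κ ^ 2)) - (2 * κ * c1 * u x + 2 * κ * c2 * v x) := by
    intro x; simp only [comb, ← hκ]; ring
  simp_rw [e]
  rw [isub hK hΩK (by fun_prop) (by fun_prop), iadd hK hΩK (by fun_prop) (by fun_prop),
    iadd hK hΩK (by fun_prop) (by fun_prop), iadd hK hΩK (by fun_prop) (by fun_prop),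
    iadd hK hΩK (by fun_prop) (by fun_prop),
    integral_const_mul, integral_const_mul, integral_const_mul, integral_const_mul,
    integral_const_mul]
  simp only [integral_const, smul_eq_mul, MeasurableSet.univ, measureReal_restrict_apply, univ_inter,
    cmass]
  rw [hκ]
  field_simp
  ring

end

/-- The trace inequality for the pair `u, v` on `Ω`. -/
def Works (Ω : Set E2) (u v : E2 → ℝ) : Prop :=
  2 * volume.real Ω / Real.pi ^ 2 * (stiff Ω u u * stiff Ω v v - stiff Ω u v ^ 2) ≤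
    stiff Ω v v * cmass Ω u u + stiff Ω u u * cmass Ω v v - 2 * stiff Ω u v * cmass Ω u v

theorem pos_mixed (a b c x y z : ℝ) (ha : 0 < a) (hab : 0 < a * c - b ^ 2) (hx : 0 < x)
    (hxz : 0 < x * z - y ^ 2) : 0 < c * x + a * z - 2 * b * y := by
  have h1 : 0 < (a * x) * (c * x + a * z - 2 * b * y) := by
    have : (a * x) * (c * x + a * z - 2 * b * y)
        = (a * c - b ^ 2) * x ^ 2 + (b * x - a * y) ^ 2 + a ^ 2 * (x * z - y ^ 2) := by ring
    rw [this]; positivity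
  exact (mul_pos_iff_of_pos_left (by positivity)).1 h1

theorem pd_of_forall (a b c : ℝ) (h : ∀ s t : ℝ, (s ≠ 0 ∨ t ≠ 0) →
    0 < s ^ 2 * a + 2 * s * t * b + t ^ 2 * c) : 0 < a ∧ 0 < a * c - b ^ 2 := by
  have h1 : 0 < a := by
    have := h 1 0 (Or.inl one_ne_zero); simpa using this
  refine ⟨h1, ?_⟩
  have h2 := h (-b) a (Or.inr h1.ne')
  have : (-b) ^ 2 * a + 2 * (-b) * a * b + a ^ 2 * c = a * (a * c - b ^ 2) := by ring
  rw [this] at h2
  exact (mul_pos_iff_of_pos_left h1).1 h2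

theorem eq_zero_of_int_sq {Ω : Set E2} (hΩ : IsOpen Ω) {K : Set E2} (hK : IsCompact K)
    (hΩK : Ω ⊆ K) {w : E2 → ℝ} (hw : Continuous w) (h : ∫ x in Ω, w x ^ 2 ≤ 0) :
    ∀ x ∈ Ω, w x = 0 := by
  have h0 : ∫ x in Ω, w x ^ 2 = 0 := le_antisymm h (integral_nonneg fun x => sq_nonneg _)
  have h1 := (setIntegral_eq_zero_iff_of_nonneg_ae (μ := volume) (s := Ω)
    (Filter.Eventually.of_forall fun x => sq_nonneg (w x))
    (intOn hK hΩK (by fun_prop : Continuous fun x => w x ^ 2))).1 h0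
  have h2 : (fun x => w x ^ 2) =ᵐ[volume.restrict Ω] fun _ => 0 := h1
  have h3 := Measure.eqOn_open_of_ae_eq h2 hΩ (by fun_prop) (by fun_prop)
  intro x hx
  have := h3 hx
  simpa using this

/-- If the pair works then some combination is a good trial function. -/
theorem exists_good {Ω K : Set E2} (hK : IsCompact K) (hΩK : Ω ⊆ K) (hΩ : IsOpen Ω)
    {u v : E2 → ℝ} (hu : ContDiff ℝ 1 u) (hv : ContDiff ℝ 1 v) (x0 : E2) (hx0 : x0 ∈ Ω)
    (hind : ∀ c1 c2 : ℝ, c1 • fderiv ℝ u x0 + c2 • fderiv ℝ v x0 = 0 → c1 = 0 ∧ c2 = 0)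
    (hW : Works Ω u v) :
    ∃ c1 c2 : ℝ, 0 < ∫ x in Ω, comb Ω u v c1 c2 x ^ 2 ∧
      volume.real Ω * ∫ x in Ω, ‖fderiv ℝ (comb Ω u v c1 c2) x‖ ^ 2 ≤
        Real.pi ^ 2 * ∫ x in Ω, comb Ω u v c1 c2 x ^ 2 := by
  have hV : 0 < volume.real Ω := by
    have h1 : 0 < volume Ω := hΩ.measure_pos volume ⟨x0, hx0⟩
    have h2 : volume Ω ≠ ⊤ := ((measure_mono hΩK).trans_lt hK.measure_lt_top).ne
    exact ENNReal.toReal_pos h1.ne' h2
  have hpi : 0 < Real.pi ^ 2 := by positivity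
  have hcc : ∀ c1 c2, Continuous (comb Ω u v c1 c2) := by
    intro c1 c2
    have := hu.continuous
    have := hv.continuous
    unfold comb; fun_prop
  have hpos : ∀ c1 c2 : ℝ, (c1 ≠ 0 ∨ c2 ≠ 0) → 0 < ∫ x in Ω, comb Ω u v c1 c2 x ^ 2 := by
    intro c1 c2 hc
    by_contra hneg
    push Not at hneg
    have hz := eq_zero_of_int_sq hΩ hK hΩK (hcc c1 c2) hneg
    have hev : comb Ω u v c1 c2 =ᶠ[nhds x0] fun _ => 0 := by
      filter_upwards [hΩ.mem_nhds hx0] with x hx using hz x hx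
    have hf := hev.fderiv_eq (𝕜 := ℝ)
    rw [fderiv_comb Ω hu hv] at hf
    simp only [fderiv_fun_const, Pi.zero_apply] at hf
    obtain ⟨h1, h2⟩ := hind c1 c2 hf
    rcases hc with hc | hc
    · exact hc h1
    · exact hc h2
  by_contra hno
  push Not at hno
  have hM : ∀ s t : ℝ, (s ≠ 0 ∨ t ≠ 0) →
      0 < s ^ 2 * (volume.real Ω * stiff Ω u u - Real.pi ^ 2 * cmass Ω u u)
        + 2 * s * t * (volume.real Ω * stiff Ω u v - Real.pi ^ 2 * cmass Ω u v)
        + t ^ 2 * (volume.real Ω * stiff Ω v v - Real.pi ^ 2 * cmass Ω v v) := by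
    intro s t hst
    have := hno s t (hpos s t hst)
    rw [stiff_comb hK hΩK hu hv, mass_comb hK hΩK hu hv hV.ne'] at this
    linarith
  have hA : ∀ s t : ℝ, (s ≠ 0 ∨ t ≠ 0) →
      0 < s ^ 2 * stiff Ω u u + 2 * s * t * stiff Ω u v + t ^ 2 * stiff Ω v v := by
    intro s t hst
    have h1 := hM s t hst
    have h2 := hpos s t hst
    rw [mass_comb hK hΩK hu hv hV.ne'] at h2
    have h3 : 0 < volume.real Ω * (s ^ 2 * stiff Ω u u + 2 * s * t * stiff Ω u v + t ^ 2 * stiff Ω v v) := by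
      nlinarith [mul_pos hpi h2]
    exact (mul_pos_iff_of_pos_left hV).1 h3
  obtain ⟨hM1, hM2⟩ := pd_of_forall _ _ _ hM
  obtain ⟨hA1, hA2⟩ := pd_of_forall _ _ _ hA
  have hS := pos_mixed _ _ _ _ _ _ hA1 hA2 hM1 hM2
  unfold Works at hW
  have hW' : 2 * volume.real Ω * (stiff Ω u u * stiff Ω v v - stiff Ω u v ^ 2) ≤
    Real.pi ^ 2 * (stiff Ω v v * cmass Ω u u + stiff Ω u u * cmass Ω v v - 2 * stiff Ω u v * cmass Ω u v) := by
    have := mul_le_mul_of_nonneg_left hW hpi.le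
    calc _ = Real.pi ^ 2 * (2 * volume.real Ω / Real.pi ^ 2 * (stiff Ω u u * stiff Ω v v - stiff Ω u v ^ 2)) := by
          field_simp
      _ ≤ _ := this
  nlinarith

end Pool.Agent.Helper238
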