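import Pool.Agent.Helper238.PolyInt

set_option autoImplicit false

namespace Pool.Agent.Helper238

/-- Integration over the image of the centred unit square under the bilinear map. -/
noncomputable def JQ (w1 w2 : ℝ) (φ : ℝ → ℝ → ℝ) : ℝ :=
  ∫ u in (-(1/2) : ℝ)..(1/2), ∫ v in (-(1/2) : ℝ)..(1/2),
    (1 + w1 * v + w2 * u) * φ (u * (1 + w1 * v)) (v * (1 + w2 * u))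

variable (w1 w2 c k : ℝ)

theorem JQ_one : JQ w1 w2 (fun _ _ => 1) = 1 := by
  unfold JQ
  refine dint_eq
    [[1, w1], [w2]] _ ?_ ?_
  · intro u v
    simp only [pv2, pv]; ring
  · simp only [pint2, pint]; ring

theorem JQ_x : JQ w1 w2 (fun x _ => x) = 1 / 12 * w2 := by
  unfold JQ
  refine dint_eq
    [[], [1, 2 * w1, w1 ^ (2:ℕ)], [w2, w1 * w2]] _ ?_ ?_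
  · intro u v
    simp only [pv2, pv]; ring
  · simp only [pint2, pint]; ring

theorem JQ_y : JQ w1 w2 (fun _ y => y) = 1 / 12 * w1 := by
  unfold JQ
  refine dint_eq
    [[0, 1, w1], [0, 2 * w2, w1 * w2], [0, w2 ^ (2:ℕ)]] _ ?_ ?_
  · intro u v
    simp only [pv2, pv]; ring
  · simp only [pint2, pint]; ring

theorem JQ_xx : JQ w1 w2 (fun x _ => x * x) = 1 / 12 + 1 / 48 * w1 ^ (2:ℕ) := by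
  unfold JQ
  refine dint_eq
    [[], [], [1, 3 * w1, 3 * w1 ^ (2:ℕ), w1 ^ (3:ℕ)], [w2, 2 * w1 * w2, w1 ^ (2:ℕ) * w2]] _ ?_ ?_
  · intro u v
    simp only [pv2, pv]; ring
  · simp only [pint2, pint]; ring

theorem JQ_yy : JQ w1 w2 (fun _ y => y * y) = 1 / 12 + 1 / 48 * w2 ^ (2:ℕ) := by
  unfold JQ
  refine dint_eq
    [[0, 0, 1, w1], [0, 0, 3 * w2, 2 * w1 * w2], [0, 0, 3 * w2 ^ (2:ℕ), w1 * w2 ^ (2:ℕ)], [0, 0, w2 ^ (3:ℕ)]] _ ?_ ?_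
  · intro u v
    simp only [pv2, pv]; ring
  · simp only [pint2, pint]; ring

theorem JQ_xy : JQ w1 w2 (fun x y => x * y) = 1 / 48 * w1 * w2 := by
  unfold JQ
  refine dint_eq
    [[], [0, 1, 2 * w1, w1 ^ (2:ℕ)], [0, 2 * w2, 3 * w1 * w2, w1 ^ (2:ℕ) * w2], [0, w2 ^ (2:ℕ), w1 * w2 ^ (2:ℕ)]] _ ?_ ?_
  · intro u v
    simp only [pv2, pv]; ring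
  · simp only [pint2, pint]; ring

theorem JQ_f1f1 : JQ w1 w2 (fun x y => (1 - 3 * c * x ^ (2:ℕ) + k * w1 * y) * (1 - 3 * c * x ^ (2:ℕ) + k * w1 * y)) = 1 - 1 / 2 * c + 9 / 80 * c ^ (2:ℕ) + 1 / 6 * w1 ^ (2:ℕ) * k + 1 / 12 * w1 ^ (2:ℕ) * k ^ (2:ℕ) - 1 / 8 * w1 ^ (2:ℕ) * c
    - 1 / 8 * w1 ^ (2:ℕ) * c * k + 3 / 32 * w1 ^ (2:ℕ) * c ^ (2:ℕ) + 1 / 48 * w1 ^ (2:ℕ) * w2 ^ (2:ℕ) * k ^ (2:ℕ) - 1 / 80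
    * w1 ^ (2:ℕ) * w2 ^ (2:ℕ) * c * k - 1 / 160 * w1 ^ (4:ℕ) * c * k + 9 / 1280 * w1 ^ (4:ℕ) * c ^ (2:ℕ) := by
  unfold JQ
  refine dint_eq
    [[1, w1 + 2 * w1 * k, 2 * w1 ^ (2:ℕ) * k + w1 ^ (2:ℕ) * k ^ (2:ℕ), w1 ^ (3:ℕ) * k ^ (2:ℕ)], [w2, 4 * w1 * w2 * k, 2 *
    w1 ^ (2:ℕ) * w2 * k + 3 * w1 ^ (2:ℕ) * w2 * k ^ (2:ℕ), 2 * w1 ^ (3:ℕ) * w2 * k ^ (2:ℕ)], [-6 * c, -18 * w1 * c - 6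
    * w1 * c * k + 2 * w1 * w2 ^ (2:ℕ) * k, -18 * w1 ^ (2:ℕ) * c - 18 * w1 ^ (2:ℕ) * c * k + 3 * w1 ^ (2:ℕ) * w2 ^ (2:ℕ) * k ^ (2:ℕ), -6 * w1 ^ (3:ℕ) * c - 18 * w1 ^ (3:ℕ) * c * k + w1 ^ (3:ℕ) * w2 ^ (2:ℕ) * k ^ (2:ℕ), -6 * w1 ^ (4:ℕ) * c *
    k], [-6 * w2 * c, -12 * w1 * w2 * c - 12 * w1 * w2 * c * k, -6 * w1 ^ (2:ℕ) * w2 * c - 30 * w1 ^ (2:ℕ)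
    * w2 * c * k + w1 ^ (2:ℕ) * w2 ^ (3:ℕ) * k ^ (2:ℕ), -24 * w1 ^ (3:ℕ) * w2 * c * k, -6 * w1 ^ (4:ℕ) * w2 * c * k],
    [9 * c ^ (2:ℕ), 45 * w1 * c ^ (2:ℕ) - 6 * w1 * w2 ^ (2:ℕ) * c * k, 90 * w1 ^ (2:ℕ) * c ^ (2:ℕ) - 12 * w1 ^ (2:ℕ) * w2
    ^ (2:ℕ) * c * k, 90 * w1 ^ (3:ℕ) * c ^ (2:ℕ) - 6 * w1 ^ (3:ℕ) * w2 ^ (2:ℕ) * c * k, 45 * w1 ^ (4:ℕ) * c ^ (2:ℕ), 9 * w1 ^ (5:ℕ) * c ^ (2:ℕ)], [9 * w2 * c ^ (2:ℕ), 36 * w1 * w2 * c ^ (2:ℕ), 54 * w1 ^ (2:ℕ) * w2 * c ^ (2:ℕ), 36 * w1 ^ (3:ℕ) * w2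
    * c ^ (2:ℕ), 9 * w1 ^ (4:ℕ) * w2 * c ^ (2:ℕ)]] _ ?_ ?_
  · intro u v
    simp only [pv2, pv]; ring
  · simp only [pint2, pint]; ring

theorem JQ_f2f2 : JQ w1 w2 (fun x _ => (k * w1 * x) * (k * w1 * x)) = 1 / 12 * w1 ^ (2:ℕ) * k ^ (2:ℕ) + 1 / 48 * w1 ^ (4:ℕ) * k ^ (2:ℕ) := by
  unfold JQ
  refine dint_eq
    [[], [], [w1 ^ (2:ℕ) * k ^ (2:ℕ), 3 * w1 ^ (3:ℕ) * k ^ (2:ℕ), 3 * w1 ^ (4:ℕ) * k ^ (2:ℕ), w1 ^ (5:ℕ) * k ^ (2:ℕ)], [w1 ^ (2:ℕ) * w2 *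
    k ^ (2:ℕ), 2 * w1 ^ (3:ℕ) * w2 * k ^ (2:ℕ), w1 ^ (4:ℕ) * w2 * k ^ (2:ℕ)]] _ ?_ ?_
  · intro u v
    simp only [pv2, pv]; ring
  · simp only [pint2, pint]; ring

theorem JQ_f1f2 : JQ w1 w2 (fun x y => (1 - 3 * c * x ^ (2:ℕ) + k * w1 * y) * (k * w1 * x)) = 1 / 12 * w1 * w2 * k - 3 / 80 * w1 * w2 * c * k + 1 / 48 * w1 ^ (3:ℕ) * w2 * k ^ (2:ℕ) - 3 / 320 * w1 ^ (3:ℕ)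
    * w2 * c * k := by
  unfold JQ
  refine dint_eq
    [[], [w1 * k, 2 * w1 ^ (2:ℕ) * k + w1 ^ (2:ℕ) * k ^ (2:ℕ), w1 ^ (3:ℕ) * k + 2 * w1 ^ (3:ℕ) * k ^ (2:ℕ), w1 ^ (4:ℕ) * k ^ (2:ℕ)],
    [w1 * w2 * k, w1 ^ (2:ℕ) * w2 * k + 2 * w1 ^ (2:ℕ) * w2 * k ^ (2:ℕ), 3 * w1 ^ (3:ℕ) * w2 * k ^ (2:ℕ), w1 ^ (4:ℕ) * w2
    * k ^ (2:ℕ)], [-3 * w1 * c * k, -12 * w1 ^ (2:ℕ) * c * k + w1 ^ (2:ℕ) * w2 ^ (2:ℕ) * k ^ (2:ℕ), -18 * w1 ^ (3:ℕ) * c *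
    k + w1 ^ (3:ℕ) * w2 ^ (2:ℕ) * k ^ (2:ℕ), -12 * w1 ^ (4:ℕ) * c * k, -3 * w1 ^ (5:ℕ) * c * k], [-3 * w1 * w2 * c *
    k, -9 * w1 ^ (2:ℕ) * w2 * c * k, -9 * w1 ^ (3:ℕ) * w2 * c * k, -3 * w1 ^ (4:ℕ) * w2 * c * k]] _ ?_ ?_
  · intro u v
    simp only [pv2, pv]; ring
  · simp only [pint2, pint]; ring

theorem JQ_g1g1 : JQ w1 w2 (fun _ y => (k * w2 * y) * (k * w2 * y)) = 1 / 12 * w2 ^ (2:ℕ) * k ^ (2:ℕ) + 1 / 48 * w2 ^ (4:ℕ) * k ^ (2:ℕ) := by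
  unfold JQ
  refine dint_eq
    [[0, 0, w2 ^ (2:ℕ) * k ^ (2:ℕ), w1 * w2 ^ (2:ℕ) * k ^ (2:ℕ)], [0, 0, 3 * w2 ^ (3:ℕ) * k ^ (2:ℕ), 2 * w1 * w2 ^ (3:ℕ) * k ^ (2:ℕ)],
    [0, 0, 3 * w2 ^ (4:ℕ) * k ^ (2:ℕ), w1 * w2 ^ (4:ℕ) * k ^ (2:ℕ)], [0, 0, w2 ^ (5:ℕ) * k ^ (2:ℕ)]] _ ?_ ?_
  · intro u v
    simp only [pv2, pv]; ring
  · simp only [pint2, pint]; ring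

theorem JQ_g2g2 : JQ w1 w2 (fun x y => (1 - 3 * c * y ^ (2:ℕ) + k * w2 * x) * (1 - 3 * c * y ^ (2:ℕ) + k * w2 * x)) = 1 - 1 / 2 * c + 9 / 80 * c ^ (2:ℕ) + 1 / 6 * w2 ^ (2:ℕ) * k + 1 / 12 * w2 ^ (2:ℕ) * k ^ (2:ℕ) - 1 / 8 * w2 ^ (2:ℕ) * c
    - 1 / 8 * w2 ^ (2:ℕ) * c * k + 3 / 32 * w2 ^ (2:ℕ) * c ^ (2:ℕ) - 1 / 160 * w2 ^ (4:ℕ) * c * k + 9 / 1280 * w2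
    ^ (4:ℕ) * c ^ (2:ℕ) + 1 / 48 * w1 ^ (2:ℕ) * w2 ^ (2:ℕ) * k ^ (2:ℕ) - 1 / 80 * w1 ^ (2:ℕ) * w2 ^ (2:ℕ) * c * k := by
  unfold JQ
  refine dint_eq
    [[1, w1, -6 * c, -6 * w1 * c, 9 * c ^ (2:ℕ), 9 * w1 * c ^ (2:ℕ)], [w2 + 2 * w2 * k, 4 * w1 * w2 * k, -18 *
    w2 * c - 6 * w2 * c * k + 2 * w1 ^ (2:ℕ) * w2 * k, -12 * w1 * w2 * c - 12 * w1 * w2 * c * k, 45 *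
    w2 * c ^ (2:ℕ) - 6 * w1 ^ (2:ℕ) * w2 * c * k, 36 * w1 * w2 * c ^ (2:ℕ)], [2 * w2 ^ (2:ℕ) * k + w2 ^ (2:ℕ) * k ^ (2:ℕ),
    2 * w1 * w2 ^ (2:ℕ) * k + 3 * w1 * w2 ^ (2:ℕ) * k ^ (2:ℕ), -18 * w2 ^ (2:ℕ) * c - 18 * w2 ^ (2:ℕ) * c * k + 3 * w1
    ^ (2:ℕ) * w2 ^ (2:ℕ) * k ^ (2:ℕ), -6 * w1 * w2 ^ (2:ℕ) * c - 30 * w1 * w2 ^ (2:ℕ) * c * k + w1 ^ (3:ℕ) * w2 ^ (2:ℕ) * k ^ (2:ℕ), 90 * w2 ^ (2:ℕ) * c ^ (2:ℕ) - 12 * w1 ^ (2:ℕ) * w2 ^ (2:ℕ) * c * k, 54 * w1 * w2 ^ (2:ℕ) * c ^ (2:ℕ)], [w2 ^ (3:ℕ) * k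
    ^ (2:ℕ), 2 * w1 * w2 ^ (3:ℕ) * k ^ (2:ℕ), -6 * w2 ^ (3:ℕ) * c - 18 * w2 ^ (3:ℕ) * c * k + w1 ^ (2:ℕ) * w2 ^ (3:ℕ) * k ^ (2:ℕ),
    -24 * w1 * w2 ^ (3:ℕ) * c * k, 90 * w2 ^ (3:ℕ) * c ^ (2:ℕ) - 6 * w1 ^ (2:ℕ) * w2 ^ (3:ℕ) * c * k, 36 * w1 * w2 ^ (3:ℕ)
    * c ^ (2:ℕ)], [0, 0, -6 * w2 ^ (4:ℕ) * c * k, -6 * w1 * w2 ^ (4:ℕ) * c * k, 45 * w2 ^ (4:ℕ) * c ^ (2:ℕ), 9 * w1 *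
    w2 ^ (4:ℕ) * c ^ (2:ℕ)], [0, 0, 0, 0, 9 * w2 ^ (5:ℕ) * c ^ (2:ℕ)]] _ ?_ ?_
  · intro u v
    simp only [pv2, pv]; ring
  · simp only [pint2, pint]; ring

theorem JQ_g1g2 : JQ w1 w2 (fun x y => (k * w2 * y) * (1 - 3 * c * y ^ (2:ℕ) + k * w2 * x)) = 1 / 12 * w1 * w2 * k - 3 / 80 * w1 * w2 * c * k + 1 / 48 * w1 * w2 ^ (3:ℕ) * k ^ (2:ℕ) - 3 / 320 * w1 * w2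
    ^ (3:ℕ) * c * k := by
  unfold JQ
  refine dint_eq
    [[0, w2 * k, w1 * w2 * k, -3 * w2 * c * k, -3 * w1 * w2 * c * k], [0, 2 * w2 ^ (2:ℕ) * k + w2 ^ (2:ℕ) * k
    ^ (2:ℕ), w1 * w2 ^ (2:ℕ) * k + 2 * w1 * w2 ^ (2:ℕ) * k ^ (2:ℕ), -12 * w2 ^ (2:ℕ) * c * k + w1 ^ (2:ℕ) * w2 ^ (2:ℕ) * k ^ (2:ℕ), -9 * w1 * w2 ^ (2:ℕ) * c * k], [0, w2 ^ (3:ℕ) * k + 2 * w2 ^ (3:ℕ) * k ^ (2:ℕ), 3 * w1 * w2 ^ (3:ℕ) * k ^ (2:ℕ),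
    -18 * w2 ^ (3:ℕ) * c * k + w1 ^ (2:ℕ) * w2 ^ (3:ℕ) * k ^ (2:ℕ), -9 * w1 * w2 ^ (3:ℕ) * c * k], [0, w2 ^ (4:ℕ) * k ^ (2:ℕ),
    w1 * w2 ^ (4:ℕ) * k ^ (2:ℕ), -12 * w2 ^ (4:ℕ) * c * k, -3 * w1 * w2 ^ (4:ℕ) * c * k], [0, 0, 0, -3 * w2 ^ (5:ℕ) *
    c * k]] _ ?_ ?_
  · intro u v
    simp only [pv2, pv]; ring
  · simp only [pint2, pint]; ring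

theorem JQ_f1g1 : JQ w1 w2 (fun x y => (1 - 3 * c * x ^ (2:ℕ) + k * w1 * y) * (k * w2 * y)) = 1 / 12 * w1 * w2 * k + 1 / 12 * w1 * w2 * k ^ (2:ℕ) - 1 / 16 * w1 * w2 * c * k + 1 / 48 * w1 * w2 ^ (3:ℕ)
    * k ^ (2:ℕ) - 1 / 160 * w1 * w2 ^ (3:ℕ) * c * k - 1 / 320 * w1 ^ (3:ℕ) * w2 * c * k := by
  unfold JQ
  refine dint_eq
    [[0, w2 * k, w1 * w2 * k + w1 * w2 * k ^ (2:ℕ), w1 ^ (2:ℕ) * w2 * k ^ (2:ℕ)], [0, 2 * w2 ^ (2:ℕ) * k, w1 * w2 ^ (2:ℕ)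
    * k + 3 * w1 * w2 ^ (2:ℕ) * k ^ (2:ℕ), 2 * w1 ^ (2:ℕ) * w2 ^ (2:ℕ) * k ^ (2:ℕ)], [0, -3 * w2 * c * k + w2 ^ (3:ℕ) * k,
    -9 * w1 * w2 * c * k + 3 * w1 * w2 ^ (3:ℕ) * k ^ (2:ℕ), -9 * w1 ^ (2:ℕ) * w2 * c * k + w1 ^ (2:ℕ) * w2 ^ (3:ℕ) * k
    ^ (2:ℕ), -3 * w1 ^ (3:ℕ) * w2 * c * k], [0, -6 * w2 ^ (2:ℕ) * c * k, -15 * w1 * w2 ^ (2:ℕ) * c * k + w1 * w2 ^ (4:ℕ) * k ^ (2:ℕ), -12 * w1 ^ (2:ℕ) * w2 ^ (2:ℕ) * c * k, -3 * w1 ^ (3:ℕ) * w2 ^ (2:ℕ) * c * k], [0, -3 * w2 ^ (3:ℕ) * c *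
    k, -6 * w1 * w2 ^ (3:ℕ) * c * k, -3 * w1 ^ (2:ℕ) * w2 ^ (3:ℕ) * c * k]] _ ?_ ?_
  · intro u v
    simp only [pv2, pv]; ring
  · simp only [pint2, pint]; ring

theorem JQ_f2g2 : JQ w1 w2 (fun x y => (k * w1 * x) * (1 - 3 * c * y ^ (2:ℕ) + k * w2 * x)) = 1 / 12 * w1 * w2 * k + 1 / 12 * w1 * w2 * k ^ (2:ℕ) - 1 / 16 * w1 * w2 * c * k - 1 / 320 * w1 * w2 ^ (3:ℕ)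
    * c * k + 1 / 48 * w1 ^ (3:ℕ) * w2 * k ^ (2:ℕ) - 1 / 160 * w1 ^ (3:ℕ) * w2 * c * k := by
  unfold JQ
  refine dint_eq
    [[], [w1 * k, 2 * w1 ^ (2:ℕ) * k, -3 * w1 * c * k + w1 ^ (3:ℕ) * k, -6 * w1 ^ (2:ℕ) * c * k, -3 * w1 ^ (3:ℕ) * c *
    k], [w1 * w2 * k + w1 * w2 * k ^ (2:ℕ), w1 ^ (2:ℕ) * w2 * k + 3 * w1 ^ (2:ℕ) * w2 * k ^ (2:ℕ), -9 * w1 * w2 *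
    c * k + 3 * w1 ^ (3:ℕ) * w2 * k ^ (2:ℕ), -15 * w1 ^ (2:ℕ) * w2 * c * k + w1 ^ (4:ℕ) * w2 * k ^ (2:ℕ), -6 * w1 ^ (3:ℕ)
    * w2 * c * k], [w1 * w2 ^ (2:ℕ) * k ^ (2:ℕ), 2 * w1 ^ (2:ℕ) * w2 ^ (2:ℕ) * k ^ (2:ℕ), -9 * w1 * w2 ^ (2:ℕ) * c * k +
    w1 ^ (3:ℕ) * w2 ^ (2:ℕ) * k ^ (2:ℕ), -12 * w1 ^ (2:ℕ) * w2 ^ (2:ℕ) * c * k, -3 * w1 ^ (3:ℕ) * w2 ^ (2:ℕ) * c * k], [0, 0,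
    -3 * w1 * w2 ^ (3:ℕ) * c * k, -3 * w1 ^ (2:ℕ) * w2 ^ (3:ℕ) * c * k]] _ ?_ ?_
  · intro u v
    simp only [pv2, pv]; ring
  · simp only [pint2, pint]; ring

theorem JQ_fg12 : JQ w1 w2 (fun x y => (1 - 3 * c * x ^ (2:ℕ) + k * w1 * y) * (1 - 3 * c * y ^ (2:ℕ) + k * w2 * x) + (k * w1 * x) * (k * w2 * y)) = 1 - 1 / 2 * c + 1 / 16 * c ^ (2:ℕ) + 1 / 12 * w2 ^ (2:ℕ) * k - 1 / 16 * w2 ^ (2:ℕ) * c - 3 / 80 * w2 ^ (2:ℕ) * c *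
    k + 9 / 320 * w2 ^ (2:ℕ) * c ^ (2:ℕ) + 1 / 12 * w1 ^ (2:ℕ) * k - 1 / 16 * w1 ^ (2:ℕ) * c - 3 / 80 * w1 ^ (2:ℕ) * c
    * k + 9 / 320 * w1 ^ (2:ℕ) * c ^ (2:ℕ) + 1 / 24 * w1 ^ (2:ℕ) * w2 ^ (2:ℕ) * k ^ (2:ℕ) - 3 / 160 * w1 ^ (2:ℕ) * w2 ^ (2:ℕ)
    * c * k + 9 / 1280 * w1 ^ (2:ℕ) * w2 ^ (2:ℕ) * c ^ (2:ℕ) := by
  unfold JQ
  refine dint_eq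
    [[1, w1 + w1 * k, -3 * c + w1 ^ (2:ℕ) * k, -3 * w1 * c - 3 * w1 * c * k, -3 * w1 ^ (2:ℕ) * c * k], [w2 +
    w2 * k, 4 * w1 * w2 * k + 2 * w1 * w2 * k ^ (2:ℕ), -9 * w2 * c + 2 * w1 ^ (2:ℕ) * w2 * k + 4 * w1 ^ (2:ℕ)
    * w2 * k ^ (2:ℕ), -6 * w1 * w2 * c - 12 * w1 * w2 * c * k + 2 * w1 ^ (3:ℕ) * w2 * k ^ (2:ℕ), -9 * w1 ^ (2:ℕ) *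
    w2 * c * k], [-3 * c + w2 ^ (2:ℕ) * k, -9 * w1 * c + 2 * w1 * w2 ^ (2:ℕ) * k + 4 * w1 * w2 ^ (2:ℕ) * k ^ (2:ℕ), 9 * c ^ (2:ℕ) - 9 * w2 ^ (2:ℕ) * c - 9 * w1 ^ (2:ℕ) * c + 6 * w1 ^ (2:ℕ) * w2 ^ (2:ℕ) * k ^ (2:ℕ), 27 * w1 * c ^ (2:ℕ)
    - 3 * w1 * w2 ^ (2:ℕ) * c - 18 * w1 * w2 ^ (2:ℕ) * c * k - 3 * w1 ^ (3:ℕ) * c + 2 * w1 ^ (3:ℕ) * w2 ^ (2:ℕ) * k ^ (2:ℕ), 27 * w1 ^ (2:ℕ) * c ^ (2:ℕ) - 9 * w1 ^ (2:ℕ) * w2 ^ (2:ℕ) * c * k, 9 * w1 ^ (3:ℕ) * c ^ (2:ℕ)], [-3 * w2 * c - 3 *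
    w2 * c * k, -6 * w1 * w2 * c - 12 * w1 * w2 * c * k + 2 * w1 * w2 ^ (3:ℕ) * k ^ (2:ℕ), 27 * w2 * c ^ (2:ℕ)
    - 3 * w2 ^ (3:ℕ) * c - 3 * w1 ^ (2:ℕ) * w2 * c - 18 * w1 ^ (2:ℕ) * w2 * c * k + 2 * w1 ^ (2:ℕ) * w2 ^ (3:ℕ) * k ^ (2:ℕ), 72 * w1 * w2 * c ^ (2:ℕ) - 12 * w1 * w2 ^ (3:ℕ) * c * k - 12 * w1 ^ (3:ℕ) * w2 * c * k, 63 * w1 ^ (2:ℕ) *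
    w2 * c ^ (2:ℕ) - 3 * w1 ^ (2:ℕ) * w2 ^ (3:ℕ) * c * k - 3 * w1 ^ (4:ℕ) * w2 * c * k, 18 * w1 ^ (3:ℕ) * w2 * c ^ (2:ℕ)],
    [-3 * w2 ^ (2:ℕ) * c * k, -9 * w1 * w2 ^ (2:ℕ) * c * k, 27 * w2 ^ (2:ℕ) * c ^ (2:ℕ) - 9 * w1 ^ (2:ℕ) * w2 ^ (2:ℕ) * c
    * k, 63 * w1 * w2 ^ (2:ℕ) * c ^ (2:ℕ) - 3 * w1 * w2 ^ (4:ℕ) * c * k - 3 * w1 ^ (3:ℕ) * w2 ^ (2:ℕ) * c * k, 45 * w1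
    ^ (2:ℕ) * w2 ^ (2:ℕ) * c ^ (2:ℕ), 9 * w1 ^ (3:ℕ) * w2 ^ (2:ℕ) * c ^ (2:ℕ)], [0, 0, 9 * w2 ^ (3:ℕ) * c ^ (2:ℕ), 18 * w1 * w2 ^ (3:ℕ) * c ^ (2:ℕ), 9 * w1 ^ (2:ℕ) * w2 ^ (3:ℕ) * c ^ (2:ℕ)]] _ ?_ ?_
  · intro u v
    simp only [pv2, pv]; ring
  · simp only [pint2, pint]; ring

theorem JQ_ff : JQ w1 w2 (fun x y => (x - c * x ^ (3:ℕ) + k * w1 * (x * y)) * (x - c * x ^ (3:ℕ) + k * w1 * (x * y))) = 1 / 12 - 1 / 40 * c + 1 / 448 * c ^ (2:ℕ) + 1 / 48 * w1 ^ (2:ℕ) + 1 / 24 * w1 ^ (2:ℕ) * k + 1 / 144 * w1 ^ (2:ℕ) *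
    k ^ (2:ℕ) - 1 / 48 * w1 ^ (2:ℕ) * c - 1 / 96 * w1 ^ (2:ℕ) * c * k + 1 / 256 * w1 ^ (2:ℕ) * c ^ (2:ℕ) + 1 / 240 *
    w1 ^ (2:ℕ) * w2 ^ (2:ℕ) * k + 1 / 320 * w1 ^ (2:ℕ) * w2 ^ (2:ℕ) * k ^ (2:ℕ) - 1 / 672 * w1 ^ (2:ℕ) * w2 ^ (2:ℕ) * c * k +
    1 / 480 * w1 ^ (4:ℕ) * k + 1 / 320 * w1 ^ (4:ℕ) * k ^ (2:ℕ) - 1 / 640 * w1 ^ (4:ℕ) * c - 1 / 320 * w1 ^ (4:ℕ) * c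
    * k + 1 / 1024 * w1 ^ (4:ℕ) * c ^ (2:ℕ) + 1 / 1280 * w1 ^ (4:ℕ) * w2 ^ (2:ℕ) * k ^ (2:ℕ) - 1 / 4480 * w1 ^ (4:ℕ) * w2
    ^ (2:ℕ) * c * k - 1 / 17920 * w1 ^ (6:ℕ) * c * k + 1 / 28672 * w1 ^ (6:ℕ) * c ^ (2:ℕ) := by
  unfold JQ
  refine dint_eq
    [[], [], [1, 3 * w1 + 2 * w1 * k, 3 * w1 ^ (2:ℕ) + 6 * w1 ^ (2:ℕ) * k + w1 ^ (2:ℕ) * k ^ (2:ℕ), w1 ^ (3:ℕ) + 6 * w1 ^ (3:ℕ) * k + 3 * w1 ^ (3:ℕ) * k ^ (2:ℕ), 2 * w1 ^ (4:ℕ) * k + 3 * w1 ^ (4:ℕ) * k ^ (2:ℕ), w1 ^ (5:ℕ) * k ^ (2:ℕ)], [w2, 2 * w1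
    * w2 + 4 * w1 * w2 * k, w1 ^ (2:ℕ) * w2 + 10 * w1 ^ (2:ℕ) * w2 * k + 3 * w1 ^ (2:ℕ) * w2 * k ^ (2:ℕ), 8 * w1 ^ (3:ℕ) * w2 * k + 8 * w1 ^ (3:ℕ) * w2 * k ^ (2:ℕ), 2 * w1 ^ (4:ℕ) * w2 * k + 7 * w1 ^ (4:ℕ) * w2 * k ^ (2:ℕ), 2 * w1 ^ (5:ℕ) * w2 * k ^ (2:ℕ)], [-2 * c, -10 * w1 * c - 2 * w1 * c * k + 2 * w1 * w2 ^ (2:ℕ) * k, -20 * w1 ^ (2:ℕ) *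
    c - 10 * w1 ^ (2:ℕ) * c * k + 4 * w1 ^ (2:ℕ) * w2 ^ (2:ℕ) * k + 3 * w1 ^ (2:ℕ) * w2 ^ (2:ℕ) * k ^ (2:ℕ), -20 * w1 ^ (3:ℕ)
    * c - 20 * w1 ^ (3:ℕ) * c * k + 2 * w1 ^ (3:ℕ) * w2 ^ (2:ℕ) * k + 7 * w1 ^ (3:ℕ) * w2 ^ (2:ℕ) * k ^ (2:ℕ), -10 * w1 ^ (4:ℕ) * c - 20 * w1 ^ (4:ℕ) * c * k + 5 * w1 ^ (4:ℕ) * w2 ^ (2:ℕ) * k ^ (2:ℕ), -2 * w1 ^ (5:ℕ) * c - 10 * w1 ^ (5:ℕ) * c *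
    k + w1 ^ (5:ℕ) * w2 ^ (2:ℕ) * k ^ (2:ℕ), -2 * w1 ^ (6:ℕ) * c * k], [-2 * w2 * c, -8 * w1 * w2 * c - 4 * w1 *
    w2 * c * k, -12 * w1 ^ (2:ℕ) * w2 * c - 18 * w1 ^ (2:ℕ) * w2 * c * k + w1 ^ (2:ℕ) * w2 ^ (3:ℕ) * k ^ (2:ℕ), -8 *
    w1 ^ (3:ℕ) * w2 * c - 32 * w1 ^ (3:ℕ) * w2 * c * k + 2 * w1 ^ (3:ℕ) * w2 ^ (3:ℕ) * k ^ (2:ℕ), -2 * w1 ^ (4:ℕ) * w2 * c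
    - 28 * w1 ^ (4:ℕ) * w2 * c * k + w1 ^ (4:ℕ) * w2 ^ (3:ℕ) * k ^ (2:ℕ), -12 * w1 ^ (5:ℕ) * w2 * c * k, -2 * w1 ^ (6:ℕ) *
    w2 * c * k], [c ^ (2:ℕ), 7 * w1 * c ^ (2:ℕ) - 2 * w1 * w2 ^ (2:ℕ) * c * k, 21 * w1 ^ (2:ℕ) * c ^ (2:ℕ) - 8 * w1 ^ (2:ℕ) * w2 ^ (2:ℕ) * c * k, 35 * w1 ^ (3:ℕ) * c ^ (2:ℕ) - 12 * w1 ^ (3:ℕ) * w2 ^ (2:ℕ) * c * k, 35 * w1 ^ (4:ℕ) * c ^ (2:ℕ) -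
    8 * w1 ^ (4:ℕ) * w2 ^ (2:ℕ) * c * k, 21 * w1 ^ (5:ℕ) * c ^ (2:ℕ) - 2 * w1 ^ (5:ℕ) * w2 ^ (2:ℕ) * c * k, 7 * w1 ^ (6:ℕ) * c
    ^ (2:ℕ), w1 ^ (7:ℕ) * c ^ (2:ℕ)], [w2 * c ^ (2:ℕ), 6 * w1 * w2 * c ^ (2:ℕ), 15 * w1 ^ (2:ℕ) * w2 * c ^ (2:ℕ), 20 * w1 ^ (3:ℕ)
    * w2 * c ^ (2:ℕ), 15 * w1 ^ (4:ℕ) * w2 * c ^ (2:ℕ), 6 * w1 ^ (5:ℕ) * w2 * c ^ (2:ℕ), w1 ^ (6:ℕ) * w2 * c ^ (2:ℕ)]] _ ?_ ?_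
  · intro u v
    simp only [pv2, pv]; ring
  · simp only [pint2, pint]; ring

theorem JQ_gg : JQ w1 w2 (fun x y => (y - c * y ^ (3:ℕ) + k * w2 * (x * y)) * (y - c * y ^ (3:ℕ) + k * w2 * (x * y))) = 1 / 12 - 1 / 40 * c + 1 / 448 * c ^ (2:ℕ) + 1 / 48 * w2 ^ (2:ℕ) + 1 / 24 * w2 ^ (2:ℕ) * k + 1 / 144 * w2 ^ (2:ℕ) *
    k ^ (2:ℕ) - 1 / 48 * w2 ^ (2:ℕ) * c - 1 / 96 * w2 ^ (2:ℕ) * c * k + 1 / 256 * w2 ^ (2:ℕ) * c ^ (2:ℕ) + 1 / 480 *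
    w2 ^ (4:ℕ) * k + 1 / 320 * w2 ^ (4:ℕ) * k ^ (2:ℕ) - 1 / 640 * w2 ^ (4:ℕ) * c - 1 / 320 * w2 ^ (4:ℕ) * c * k + 1 /
    1024 * w2 ^ (4:ℕ) * c ^ (2:ℕ) - 1 / 17920 * w2 ^ (6:ℕ) * c * k + 1 / 28672 * w2 ^ (6:ℕ) * c ^ (2:ℕ) + 1 / 240 * w1
    ^ (2:ℕ) * w2 ^ (2:ℕ) * k + 1 / 320 * w1 ^ (2:ℕ) * w2 ^ (2:ℕ) * k ^ (2:ℕ) - 1 / 672 * w1 ^ (2:ℕ) * w2 ^ (2:ℕ) * c * k + 1 /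
    1280 * w1 ^ (2:ℕ) * w2 ^ (4:ℕ) * k ^ (2:ℕ) - 1 / 4480 * w1 ^ (2:ℕ) * w2 ^ (4:ℕ) * c * k := by
  unfold JQ
  refine dint_eq
    [[0, 0, 1, w1, -2 * c, -2 * w1 * c, c ^ (2:ℕ), w1 * c ^ (2:ℕ)], [0, 0, 3 * w2 + 2 * w2 * k, 2 * w1 * w2 +
    4 * w1 * w2 * k, -10 * w2 * c - 2 * w2 * c * k + 2 * w1 ^ (2:ℕ) * w2 * k, -8 * w1 * w2 * c - 4 *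
    w1 * w2 * c * k, 7 * w2 * c ^ (2:ℕ) - 2 * w1 ^ (2:ℕ) * w2 * c * k, 6 * w1 * w2 * c ^ (2:ℕ)], [0, 0, 3 * w2
    ^ (2:ℕ) + 6 * w2 ^ (2:ℕ) * k + w2 ^ (2:ℕ) * k ^ (2:ℕ), w1 * w2 ^ (2:ℕ) + 10 * w1 * w2 ^ (2:ℕ) * k + 3 * w1 * w2 ^ (2:ℕ) *
    k ^ (2:ℕ), -20 * w2 ^ (2:ℕ) * c - 10 * w2 ^ (2:ℕ) * c * k + 4 * w1 ^ (2:ℕ) * w2 ^ (2:ℕ) * k + 3 * w1 ^ (2:ℕ) * w2 ^ (2:ℕ)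
    * k ^ (2:ℕ), -12 * w1 * w2 ^ (2:ℕ) * c - 18 * w1 * w2 ^ (2:ℕ) * c * k + w1 ^ (3:ℕ) * w2 ^ (2:ℕ) * k ^ (2:ℕ), 21 * w2 ^ (2:ℕ) * c ^ (2:ℕ) - 8 * w1 ^ (2:ℕ) * w2 ^ (2:ℕ) * c * k, 15 * w1 * w2 ^ (2:ℕ) * c ^ (2:ℕ)], [0, 0, w2 ^ (3:ℕ) + 6 * w2 ^ (3:ℕ)
    * k + 3 * w2 ^ (3:ℕ) * k ^ (2:ℕ), 8 * w1 * w2 ^ (3:ℕ) * k + 8 * w1 * w2 ^ (3:ℕ) * k ^ (2:ℕ), -20 * w2 ^ (3:ℕ) * c - 20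
    * w2 ^ (3:ℕ) * c * k + 2 * w1 ^ (2:ℕ) * w2 ^ (3:ℕ) * k + 7 * w1 ^ (2:ℕ) * w2 ^ (3:ℕ) * k ^ (2:ℕ), -8 * w1 * w2 ^ (3:ℕ) * c
    - 32 * w1 * w2 ^ (3:ℕ) * c * k + 2 * w1 ^ (3:ℕ) * w2 ^ (3:ℕ) * k ^ (2:ℕ), 35 * w2 ^ (3:ℕ) * c ^ (2:ℕ) - 12 * w1 ^ (2:ℕ) *
    w2 ^ (3:ℕ) * c * k, 20 * w1 * w2 ^ (3:ℕ) * c ^ (2:ℕ)], [0, 0, 2 * w2 ^ (4:ℕ) * k + 3 * w2 ^ (4:ℕ) * k ^ (2:ℕ), 2 * w1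
    * w2 ^ (4:ℕ) * k + 7 * w1 * w2 ^ (4:ℕ) * k ^ (2:ℕ), -10 * w2 ^ (4:ℕ) * c - 20 * w2 ^ (4:ℕ) * c * k + 5 * w1 ^ (2:ℕ) *
    w2 ^ (4:ℕ) * k ^ (2:ℕ), -2 * w1 * w2 ^ (4:ℕ) * c - 28 * w1 * w2 ^ (4:ℕ) * c * k + w1 ^ (3:ℕ) * w2 ^ (4:ℕ) * k ^ (2:ℕ), 35
    * w2 ^ (4:ℕ) * c ^ (2:ℕ) - 8 * w1 ^ (2:ℕ) * w2 ^ (4:ℕ) * c * k, 15 * w1 * w2 ^ (4:ℕ) * c ^ (2:ℕ)], [0, 0, w2 ^ (5:ℕ) * k ^ (2:ℕ), 2 * w1 * w2 ^ (5:ℕ) * k ^ (2:ℕ), -2 * w2 ^ (5:ℕ) * c - 10 * w2 ^ (5:ℕ) * c * k + w1 ^ (2:ℕ) * w2 ^ (5:ℕ) * k ^ (2:ℕ),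
    -12 * w1 * w2 ^ (5:ℕ) * c * k, 21 * w2 ^ (5:ℕ) * c ^ (2:ℕ) - 2 * w1 ^ (2:ℕ) * w2 ^ (5:ℕ) * c * k, 6 * w1 * w2 ^ (5:ℕ)
    * c ^ (2:ℕ)], [0, 0, 0, 0, -2 * w2 ^ (6:ℕ) * c * k, -2 * w1 * w2 ^ (6:ℕ) * c * k, 7 * w2 ^ (6:ℕ) * c ^ (2:ℕ), w1 *
    w2 ^ (6:ℕ) * c ^ (2:ℕ)], [0, 0, 0, 0, 0, 0, w2 ^ (7:ℕ) * c ^ (2:ℕ)]] _ ?_ ?_
  · intro u v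
    simp only [pv2, pv]; ring
  · simp only [pint2, pint]; ring

theorem JQ_fg : JQ w1 w2 (fun x y => (x - c * x ^ (3:ℕ) + k * w1 * (x * y)) * (y - c * y ^ (3:ℕ) + k * w2 * (x * y))) = 1 / 48 * w1 * w2 + 1 / 24 * w1 * w2 * k + 1 / 144 * w1 * w2 * k ^ (2:ℕ) - 7 / 480 * w1 * w2 * c - 1 /
    96 * w1 * w2 * c * k + 3 / 1280 * w1 * w2 * c ^ (2:ℕ) + 1 / 320 * w1 * w2 ^ (3:ℕ) * k + 1 / 320 * w1 *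
    w2 ^ (3:ℕ) * k ^ (2:ℕ) - 1 / 1280 * w1 * w2 ^ (3:ℕ) * c - 31 / 13440 * w1 * w2 ^ (3:ℕ) * c * k + 13 / 35840 *
    w1 * w2 ^ (3:ℕ) * c ^ (2:ℕ) - 1 / 35840 * w1 * w2 ^ (5:ℕ) * c * k + 1 / 320 * w1 ^ (3:ℕ) * w2 * k + 1 / 320 *
    w1 ^ (3:ℕ) * w2 * k ^ (2:ℕ) - 1 / 1280 * w1 ^ (3:ℕ) * w2 * c - 31 / 13440 * w1 ^ (3:ℕ) * w2 * c * k + 13 /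
    35840 * w1 ^ (3:ℕ) * w2 * c ^ (2:ℕ) + 1 / 1280 * w1 ^ (3:ℕ) * w2 ^ (3:ℕ) * k ^ (2:ℕ) - 1 / 4480 * w1 ^ (3:ℕ) * w2 ^ (3:ℕ)
    * c * k + 1 / 28672 * w1 ^ (3:ℕ) * w2 ^ (3:ℕ) * c ^ (2:ℕ) - 1 / 35840 * w1 ^ (5:ℕ) * w2 * c * k := by
  unfold JQ
  refine dint_eq
    [[], [0, 1, 2 * w1 + w1 * k, -c + w1 ^ (2:ℕ) + 2 * w1 ^ (2:ℕ) * k, -2 * w1 * c - w1 * c * k + w1 ^ (3:ℕ) * k,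
    -w1 ^ (2:ℕ) * c - 2 * w1 ^ (2:ℕ) * c * k, -w1 ^ (3:ℕ) * c * k], [0, 2 * w2 + w2 * k, 3 * w1 * w2 + 6 * w1
    * w2 * k + w1 * w2 * k ^ (2:ℕ), -4 * w2 * c + w1 ^ (2:ℕ) * w2 + 8 * w1 ^ (2:ℕ) * w2 * k + 3 * w1 ^ (2:ℕ) * w2
    * k ^ (2:ℕ), -7 * w1 * w2 * c - 5 * w1 * w2 * c * k + 3 * w1 ^ (3:ℕ) * w2 * k + 3 * w1 ^ (3:ℕ) * w2 * k ^ (2:ℕ), -3 * w1 ^ (2:ℕ) * w2 * c - 9 * w1 ^ (2:ℕ) * w2 * c * k + w1 ^ (4:ℕ) * w2 * k ^ (2:ℕ), -4 * w1 ^ (3:ℕ) * w2 * c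
    * k], [0, -c + w2 ^ (2:ℕ) + 2 * w2 ^ (2:ℕ) * k, -4 * w1 * c + w1 * w2 ^ (2:ℕ) + 8 * w1 * w2 ^ (2:ℕ) * k + 3 *
    w1 * w2 ^ (2:ℕ) * k ^ (2:ℕ), c ^ (2:ℕ) - 6 * w2 ^ (2:ℕ) * c - 6 * w1 ^ (2:ℕ) * c + 8 * w1 ^ (2:ℕ) * w2 ^ (2:ℕ) * k + 8 *
    w1 ^ (2:ℕ) * w2 ^ (2:ℕ) * k ^ (2:ℕ), 4 * w1 * c ^ (2:ℕ) - 9 * w1 * w2 ^ (2:ℕ) * c - 10 * w1 * w2 ^ (2:ℕ) * c * k - 4 *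
    w1 ^ (3:ℕ) * c + 2 * w1 ^ (3:ℕ) * w2 ^ (2:ℕ) * k + 7 * w1 ^ (3:ℕ) * w2 ^ (2:ℕ) * k ^ (2:ℕ), 6 * w1 ^ (2:ℕ) * c ^ (2:ℕ) - 3 *
    w1 ^ (2:ℕ) * w2 ^ (2:ℕ) * c - 16 * w1 ^ (2:ℕ) * w2 ^ (2:ℕ) * c * k - w1 ^ (4:ℕ) * c + 2 * w1 ^ (4:ℕ) * w2 ^ (2:ℕ) * k ^ (2:ℕ),
    4 * w1 ^ (3:ℕ) * c ^ (2:ℕ) - 6 * w1 ^ (3:ℕ) * w2 ^ (2:ℕ) * c * k, w1 ^ (4:ℕ) * c ^ (2:ℕ)], [0, -2 * w2 * c - w2 * c *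
    k + w2 ^ (3:ℕ) * k, -7 * w1 * w2 * c - 5 * w1 * w2 * c * k + 3 * w1 * w2 ^ (3:ℕ) * k + 3 * w1 * w2 ^ (3:ℕ)
    * k ^ (2:ℕ), 4 * w2 * c ^ (2:ℕ) - 4 * w2 ^ (3:ℕ) * c - 9 * w1 ^ (2:ℕ) * w2 * c - 10 * w1 ^ (2:ℕ) * w2 * c * k + 2
    * w1 ^ (2:ℕ) * w2 ^ (3:ℕ) * k + 7 * w1 ^ (2:ℕ) * w2 ^ (3:ℕ) * k ^ (2:ℕ), 15 * w1 * w2 * c ^ (2:ℕ) - 5 * w1 * w2 ^ (3:ℕ) *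
    c - 10 * w1 * w2 ^ (3:ℕ) * c * k - 5 * w1 ^ (3:ℕ) * w2 * c - 10 * w1 ^ (3:ℕ) * w2 * c * k + 5 * w1 ^ (3:ℕ) *
    w2 ^ (3:ℕ) * k ^ (2:ℕ), 21 * w1 ^ (2:ℕ) * w2 * c ^ (2:ℕ) - w1 ^ (2:ℕ) * w2 ^ (3:ℕ) * c - 14 * w1 ^ (2:ℕ) * w2 ^ (3:ℕ) * c * k
    - w1 ^ (4:ℕ) * w2 * c - 5 * w1 ^ (4:ℕ) * w2 * c * k + w1 ^ (4:ℕ) * w2 ^ (3:ℕ) * k ^ (2:ℕ), 13 * w1 ^ (3:ℕ) * w2 * c ^ (2:ℕ) - 4 * w1 ^ (3:ℕ) * w2 ^ (3:ℕ) * c * k - w1 ^ (5:ℕ) * w2 * c * k, 3 * w1 ^ (4:ℕ) * w2 * c ^ (2:ℕ)], [0, -w2 ^ (2:ℕ) *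
    c - 2 * w2 ^ (2:ℕ) * c * k, -3 * w1 * w2 ^ (2:ℕ) * c - 9 * w1 * w2 ^ (2:ℕ) * c * k + w1 * w2 ^ (4:ℕ) * k ^ (2:ℕ),
    6 * w2 ^ (2:ℕ) * c ^ (2:ℕ) - w2 ^ (4:ℕ) * c - 3 * w1 ^ (2:ℕ) * w2 ^ (2:ℕ) * c - 16 * w1 ^ (2:ℕ) * w2 ^ (2:ℕ) * c * k + 2 *
    w1 ^ (2:ℕ) * w2 ^ (4:ℕ) * k ^ (2:ℕ), 21 * w1 * w2 ^ (2:ℕ) * c ^ (2:ℕ) - w1 * w2 ^ (4:ℕ) * c - 5 * w1 * w2 ^ (4:ℕ) * c * k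
    - w1 ^ (3:ℕ) * w2 ^ (2:ℕ) * c - 14 * w1 ^ (3:ℕ) * w2 ^ (2:ℕ) * c * k + w1 ^ (3:ℕ) * w2 ^ (4:ℕ) * k ^ (2:ℕ), 27 * w1 ^ (2:ℕ) *
    w2 ^ (2:ℕ) * c ^ (2:ℕ) - 6 * w1 ^ (2:ℕ) * w2 ^ (4:ℕ) * c * k - 6 * w1 ^ (4:ℕ) * w2 ^ (2:ℕ) * c * k, 15 * w1 ^ (3:ℕ) * w2 ^ (2:ℕ) * c ^ (2:ℕ) - w1 ^ (3:ℕ) * w2 ^ (4:ℕ) * c * k - w1 ^ (5:ℕ) * w2 ^ (2:ℕ) * c * k, 3 * w1 ^ (4:ℕ) * w2 ^ (2:ℕ) * c ^ (2:ℕ)],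
    [0, -w2 ^ (3:ℕ) * c * k, -4 * w1 * w2 ^ (3:ℕ) * c * k, 4 * w2 ^ (3:ℕ) * c ^ (2:ℕ) - 6 * w1 ^ (2:ℕ) * w2 ^ (3:ℕ) * c *
    k, 13 * w1 * w2 ^ (3:ℕ) * c ^ (2:ℕ) - w1 * w2 ^ (5:ℕ) * c * k - 4 * w1 ^ (3:ℕ) * w2 ^ (3:ℕ) * c * k, 15 * w1 ^ (2:ℕ) *
    w2 ^ (3:ℕ) * c ^ (2:ℕ) - w1 ^ (2:ℕ) * w2 ^ (5:ℕ) * c * k - w1 ^ (4:ℕ) * w2 ^ (3:ℕ) * c * k, 7 * w1 ^ (3:ℕ) * w2 ^ (3:ℕ) * c ^ (2:ℕ), w1 ^ (4:ℕ) * w2 ^ (3:ℕ) * c ^ (2:ℕ)], [0, 0, 0, w2 ^ (4:ℕ) * c ^ (2:ℕ), 3 * w1 * w2 ^ (4:ℕ) * c ^ (2:ℕ), 3 * w1 ^ (2:ℕ) *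
    w2 ^ (4:ℕ) * c ^ (2:ℕ), w1 ^ (3:ℕ) * w2 ^ (4:ℕ) * c ^ (2:ℕ)]] _ ?_ ?_
  · intro u v
    simp only [pv2, pv]; ring
  · simp only [pint2, pint]; ring

theorem JQ_f : JQ w1 w2 (fun x y => (x - c * x ^ (3:ℕ) + k * w1 * (x * y))) = 1 / 12 * w2 - 1 / 80 * w2 * c + 1 / 48 * w1 ^ (2:ℕ) * w2 * k - 1 / 320 * w1 ^ (2:ℕ) * w2 * c := by
  unfold JQ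
  refine dint_eq
    [[], [1, 2 * w1 + w1 * k, w1 ^ (2:ℕ) + 2 * w1 ^ (2:ℕ) * k, w1 ^ (3:ℕ) * k], [w2, w1 * w2 + 2 * w1 * w2 * k, 3
    * w1 ^ (2:ℕ) * w2 * k, w1 ^ (3:ℕ) * w2 * k], [-c, -4 * w1 * c + w1 * w2 ^ (2:ℕ) * k, -6 * w1 ^ (2:ℕ) * c + w1
    ^ (2:ℕ) * w2 ^ (2:ℕ) * k, -4 * w1 ^ (3:ℕ) * c, -w1 ^ (4:ℕ) * c], [-w2 * c, -3 * w1 * w2 * c, -3 * w1 ^ (2:ℕ) * w2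
    * c, -w1 ^ (3:ℕ) * w2 * c]] _ ?_ ?_
  · intro u v
    simp only [pv2, pv]; ring
  · simp only [pint2, pint]; ring

theorem JQ_g : JQ w1 w2 (fun x y => (y - c * y ^ (3:ℕ) + k * w2 * (x * y))) = 1 / 12 * w1 - 1 / 80 * w1 * c + 1 / 48 * w1 * w2 ^ (2:ℕ) * k - 1 / 320 * w1 * w2 ^ (2:ℕ) * c := by
  unfold JQ
  refine dint_eq
    [[0, 1, w1, -c, -w1 * c], [0, 2 * w2 + w2 * k, w1 * w2 + 2 * w1 * w2 * k, -4 * w2 * c + w1 ^ (2:ℕ) *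
    w2 * k, -3 * w1 * w2 * c], [0, w2 ^ (2:ℕ) + 2 * w2 ^ (2:ℕ) * k, 3 * w1 * w2 ^ (2:ℕ) * k, -6 * w2 ^ (2:ℕ) * c +
    w1 ^ (2:ℕ) * w2 ^ (2:ℕ) * k, -3 * w1 * w2 ^ (2:ℕ) * c], [0, w2 ^ (3:ℕ) * k, w1 * w2 ^ (3:ℕ) * k, -4 * w2 ^ (3:ℕ) * c,
    -w1 * w2 ^ (3:ℕ) * c], [0, 0, 0, -w2 ^ (4:ℕ) * c]] _ ?_ ?_
  · intro u v
    simp only [pv2, pv]; ring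
  · simp only [pint2, pint]; ring

end Pool.Agent.Helper238
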