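import Pool.Agent.Helper238.Poin

set_option autoImplicit false

open MeasureTheory Set

namespace Pool.Agent.Helper238

/-- the open unit square -/
def Sq : Set E2 := {x | 0 < x 0 ∧ x 0 < 1 ∧ 0 < x 1 ∧ x 1 < 1}

noncomputable def ee0 : E2 := EuclideanSpace.single 0 1
noncomputable def ee1 : E2 := EuclideanSpace.single 1 1

theorem bil_ee0 (z : ℝ × ℝ) : bil 0 ee0 ee1 0 z 0 = z.1 := by
  simp [bil, ee0, ee1]

theorem bil_ee1 (z : ℝ × ℝ) : bil 0 ee0 ee1 0 z 1 = z.2 := by
  simp [bil, ee0, ee1]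

theorem Sq_eq : Sq = bil 0 ee0 ee1 0 '' O01 := by
  ext x
  constructor
  · rintro ⟨h1, h2, h3, h4⟩
    refine ⟨(x 0, x 1), ⟨⟨h1, h2⟩, h3, h4⟩, ?_⟩
    ext i
    fin_cases i
    · exact bil_ee0 _
    · exact bil_ee1 _
  · rintro ⟨z, ⟨⟨h1, h2⟩, h3, h4⟩, rfl⟩
    refine ⟨?_, ?_, ?_, ?_⟩
    · rw [bil_ee0]; exact h1
    · rw [bil_ee0]; exact h2
    · rw [bil_ee1]; exact h3
    · rw [bil_ee1]; exact h4

theorem integral_Sq (g : E2 → ℝ) (hg : Continuous g) :
    ∫ x in Sq, g x = ∫ x in (0:ℝ)..1, ∫ y in (0:ℝ)..1, g (bil 0 ee0 ee1 0 (x, y)) := by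
  have hinj : InjOn (bil 0 ee0 ee1 0) O01 := by
    intro z _ z' _ h
    have h1 := congrArg (fun v : E2 => v 0) h
    have h2 := congrArg (fun v : E2 => v 1) h
    simp only [bil_ee0, bil_ee1] at h1 h2
    exact Prod.ext h1 h2
  rw [Sq_eq, cov _ _ _ _ _ measurableSet_O01 hinj]
  have hj : ∀ z, |jac ee0 ee1 0 z| = 1 := by
    intro z
    simp [jac, cr, ee0, ee1]
  simp_rw [hj, one_mul]
  have := continuous_bil 0 ee0 ee1 0
  rw [O01, integral_box 0 1 0 1 zero_le_one zero_le_one _ (by fun_prop)]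

theorem hasDerivAt_bil1 (x y : ℝ) : HasDerivAt (fun x => bil 0 ee0 ee1 0 (x, y)) ee0 x := by
  unfold bil
  simp only [smul_zero, add_zero, zero_add]
  have := ((hasDerivAt_id x).smul_const ee0).add_const (y • ee1)
  simpa using this

theorem hasDerivAt_bil2 (x y : ℝ) : HasDerivAt (fun y => bil 0 ee0 ee1 0 (x, y)) ee1 y := by
  unfold bil
  simp only [smul_zero, add_zero, zero_add]
  have := ((hasDerivAt_id y).smul_const ee1).const_add (x • ee0)
  simpa using this

/-- Neumann-Poincare inequality on the unit square. -/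
theorem poincare_Sq (f : E2 → ℝ) (hf : ContDiff ℝ 1 f) (h0 : ∫ x in Sq, f x = 0) :
    Real.pi ^ 2 * ∫ x in Sq, f x ^ 2 ≤ ∫ x in Sq, ‖fderiv ℝ f x‖ ^ 2 := by
  have hfc := hf.continuous
  have hfd := hf.continuous_fderiv (by simp)
  have hb := continuous_bil 0 ee0 ee1 0
  rw [integral_Sq f hfc] at h0
  rw [integral_Sq _ (by fun_prop), integral_Sq _ (by fun_prop)]
  have hd : ∀ p, HasFDerivAt f (fderiv ℝ f p) p := fun p => ((hf.differentiable (by simp)) p).hasFDerivAt
  have key := sq_poincare (F := fun x y => f (bil 0 ee0 ee1 0 (x, y)))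
    (Fx := fun x y => fderiv ℝ f (bil 0 ee0 ee1 0 (x, y)) ee0)
    (Fy := fun x y => fderiv ℝ f (bil 0 ee0 ee1 0 (x, y)) ee1)
    (by unfold Function.uncurry; simp only; fun_prop)
    (by unfold Function.uncurry; simp only; fun_prop)
    (by unfold Function.uncurry; simp only; fun_prop)
    (fun x y => (hd _).comp_hasDerivAt x (hasDerivAt_bil1 x y))
    (fun x y => (hd _).comp_hasDerivAt y (hasDerivAt_bil2 x y)) h0
  refine key.trans_eq ?_
  have c1 : Continuous fun x => ∫ y in (0:ℝ)..1, fderiv ℝ f (bil 0 ee0 ee1 0 (x, y)) ee0 ^ 2 :=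
    intervalIntegral.continuous_parametric_intervalIntegral_of_continuous'
      (by unfold Function.uncurry; simp only; fun_prop) _ _
  have c2 : Continuous fun x => ∫ y in (0:ℝ)..1, fderiv ℝ f (bil 0 ee0 ee1 0 (x, y)) ee1 ^ 2 :=
    intervalIntegral.continuous_parametric_intervalIntegral_of_continuous'
      (by unfold Function.uncurry; simp only; fun_prop) _ _
  rw [← ii_add c1 c2]
  congr 1; ext x
  rw [← ii_add (by fun_prop) (by fun_prop)]
  congr 1; ext y
  rw [norm_sq_clm, gdot]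
  unfold ee0 ee1
  ring

theorem isOpen_Sq : IsOpen Sq := by
  have h0 : Continuous fun x : E2 => x 0 := by fun_prop
  have h1 : Continuous fun x : E2 => x 1 := by fun_prop
  have e : Sq = ({x : E2 | 0 < x 0} ∩ {x | x 0 < 1}) ∩ ({x | 0 < x 1} ∩ {x | x 1 < 1}) := by
    ext x; simp only [Sq, mem_ofPred_eq, mem_inter_iff]; tauto
  rw [e]
  exact ((isOpen_lt continuous_const h0).inter (isOpen_lt h0 continuous_const)).inter
    ((isOpen_lt continuous_const h1).inter (isOpen_lt h1 continuous_const))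

/-- the test function `x - 1/2` -/
theorem Sq_test : ContDiff ℝ (⊤ : ℕ∞) (fun x : E2 => x 0 - 1 / 2) ∧
    ∫ x in Sq, (x 0 - 1 / 2) = 0 ∧ 0 < ∫ x in Sq, (x 0 - 1 / 2) ^ 2 := by
  refine ⟨by fun_prop, ?_, ?_⟩
  · rw [integral_Sq _ (by fun_prop)]
    simp only [bil_ee0]
    simp
  · rw [integral_Sq _ (by fun_prop)]
    simp only [bil_ee0]
    have : ∫ x in (0:ℝ)..1, ∫ y in (0:ℝ)..1, (x - 1 / 2) ^ 2 = 1 / 12 := by
      refine dint_eq [[1/4], [-1], [1]] _ ?_ ?_
      · intro u v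
        simp only [pv2, pv]; ring
      · simp only [pint2, pint]; norm_num
    rw [this]; norm_num

end Pool.Agent.Helper238
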