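import Pool.Agent.Helper238.Region
import Pool.Agent.Helper238.Square

set_option autoImplicit false

open MeasureTheory Set

namespace Pool.Agent.Helper238

/-- Poincare property -/
def PP (U : Set E2) : Prop :=
  ∃ C : ℝ, 0 ≤ C ∧ ∀ f : E2 → ℝ, ContDiff ℝ 1 f →
    ∃ c : ℝ, ∫ x in U, (f x - c) ^ 2 ≤ C * ∫ x in U, ‖fderiv ℝ f x‖ ^ 2

theorem PP.congr {U V : Set E2} (h : (U : Set E2) =ᵐ[volume] V) (hU : PP U) : PP V := by
  obtain ⟨C, hC, hf⟩ := hU
  refine ⟨C, hC, fun f h1 => ?_⟩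
  obtain ⟨c, hc⟩ := hf f h1
  refine ⟨c, ?_⟩
  rw [← setIntegral_congr_set h, ← setIntegral_congr_set h]
  exact hc

theorem int_union_le {U V K : Set E2} (hK : IsCompact K) (hU : U ⊆ K) (hV : V ⊆ K) {g : E2 → ℝ}
    (hg : Continuous g) (h0 : ∀ x, 0 ≤ g x) :
    ∫ x in U ∪ V, g x ≤ (∫ x in U, g x) + ∫ x in V, g x := by
  have i1 : Integrable g (volume.restrict U) := intOn hK hU hg
  have i2 : Integrable g (volume.restrict V) := intOn hK hV hg
  rw [← integral_add_measure i1 i2]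
  exact integral_mono_measure (Measure.restrict_union_le U V) (Filter.Eventually.of_forall h0)
    (i1.add_measure i2)

theorem int_mono_set {U V K : Set E2} (hK : IsCompact K) (hV : V ⊆ K) (hUV : U ⊆ V) {g : E2 → ℝ}
    (hg : Continuous g) (h0 : ∀ x, 0 ≤ g x) : ∫ x in U, g x ≤ ∫ x in V, g x :=
  setIntegral_mono_set (intOn hK hV hg) (Filter.Eventually.of_forall h0) hUV.eventuallyLE

theorem int_mono' {U K : Set E2} (hK : IsCompact K) (hU : U ⊆ K) {g h : E2 → ℝ}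
    (hg : Continuous g) (hh : Continuous h) (h0 : ∀ x, g x ≤ h x) : ∫ x in U, g x ≤ ∫ x in U, h x :=
  integral_mono (intOn hK hU hg) (intOn hK hU hh) h0

theorem PP.union {U V K : Set E2} (hK : IsCompact K) (hUK : U ⊆ K) (hVK : V ⊆ K) (hU : PP U) (hV : PP V)
    (hpos : (interior (U ∩ V)).Nonempty) : PP (U ∪ V) := by
  obtain ⟨C1, hC1, h1⟩ := hU
  obtain ⟨C2, hC2, h2⟩ := hV
  have hWK : U ∩ V ⊆ K := fun x hx => hUK hx.1
  have hfin : volume (U ∩ V) ≠ ⊤ := ((measure_mono hWK).trans_lt hK.measure_lt_top).ne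
  have hm : 0 < volume.real (U ∩ V) :=
    ENNReal.toReal_pos (Measure.measure_pos_of_nonempty_interior volume hpos).ne' hfin
  obtain ⟨w, hw⟩ : ∃ w, w = volume.real (U ∩ V) := ⟨_, rfl⟩
  obtain ⟨vV, hvV⟩ : ∃ w, w = volume.real V := ⟨_, rfl⟩
  rw [← hw] at hm
  have hvV0 : 0 ≤ vV := by rw [hvV]; positivity
  refine ⟨C1 + 2 * C2 + 4 * vV * (C1 + C2) / w, by positivity, fun f hf => ?_⟩
  obtain ⟨c1, hc1⟩ := h1 f hf
  obtain ⟨c2, hc2⟩ := h2 f hf
  refine ⟨c1, ?_⟩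
  have hfc := hf.continuous
  have hfd := hf.continuous_fderiv (by simp)
  have g1 : ∫ x in U, ‖fderiv ℝ f x‖ ^ 2 ≤ ∫ x in U ∪ V, ‖fderiv ℝ f x‖ ^ 2 :=
    int_mono_set hK (union_subset hUK hVK) subset_union_left (by fun_prop) (fun _ => sq_nonneg _)
  have g2 : ∫ x in V, ‖fderiv ℝ f x‖ ^ 2 ≤ ∫ x in U ∪ V, ‖fderiv ℝ f x‖ ^ 2 :=
    int_mono_set hK (union_subset hUK hVK) subset_union_right (by fun_prop) (fun _ => sq_nonneg _)
  obtain ⟨G, hG⟩ : ∃ G, G = ∫ x in U ∪ V, ‖fderiv ℝ f x‖ ^ 2 := ⟨_, rfl⟩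
  rw [← hG] at g1 g2 ⊢
  have hG0 : 0 ≤ G := by rw [hG]; exact integral_nonneg fun _ => sq_nonneg _
  obtain ⟨a, ha⟩ : ∃ a, a = ∫ x in U, (f x - c1) ^ 2 := ⟨_, rfl⟩
  obtain ⟨b, hb⟩ : ∃ b, b = ∫ x in V, (f x - c2) ^ 2 := ⟨_, rfl⟩
  rw [← ha] at hc1
  rw [← hb] at hc2
  have ha' : a ≤ C1 * G := hc1.trans (mul_le_mul_of_nonneg_left g1 hC1)
  have hb' : b ≤ C2 * G := hc2.trans (mul_le_mul_of_nonneg_left g2 hC2)
  -- difference of the constants
  have k1 : w * (c1 - c2) ^ 2 ≤ 2 * a + 2 * b := by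
    have e1 : ∫ x in U ∩ V, (c1 - c2) ^ 2 = w * (c1 - c2) ^ 2 := by
      rw [setIntegral_const, hw]; simp
    have e2 : ∫ x in U ∩ V, (c1 - c2) ^ 2 ≤ ∫ x in U ∩ V, (2 * (f x - c1) ^ 2 + 2 * (f x - c2) ^ 2) :=
      int_mono' hK hWK (by fun_prop) (by fun_prop) (fun x => by nlinarith [sq_nonneg ((f x - c1) + (f x - c2))])
    rw [iadd hK hWK (by fun_prop) (by fun_prop), integral_const_mul, integral_const_mul] at e2
    have e3 : ∫ x in U ∩ V, (f x - c1) ^ 2 ≤ a := by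
      rw [ha]; exact int_mono_set hK hUK inter_subset_left (by fun_prop) (fun _ => sq_nonneg _)
    have e4 : ∫ x in U ∩ V, (f x - c2) ^ 2 ≤ b := by
      rw [hb]; exact int_mono_set hK hVK inter_subset_right (by fun_prop) (fun _ => sq_nonneg _)
    linarith
  have k2 : ∫ x in V, (f x - c1) ^ 2 ≤ 2 * b + 2 * (vV * (c1 - c2) ^ 2) := by
    have e2 : ∫ x in V, (f x - c1) ^ 2 ≤ ∫ x in V, (2 * (f x - c2) ^ 2 + 2 * (c1 - c2) ^ 2) :=
      int_mono' hK hVK (by fun_prop) (by fun_prop) (fun x => by nlinarith [sq_nonneg ((f x - c2) + (c1 - c2))])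
    rw [iadd hK hVK (by fun_prop) (by fun_prop), integral_const_mul, setIntegral_const, ← hb, ← hvV] at e2
    simp only [smul_eq_mul] at e2
    linarith
  have k3 : ∫ x in U ∪ V, (f x - c1) ^ 2 ≤ a + (2 * b + 2 * (vV * (c1 - c2) ^ 2)) := by
    refine (int_union_le hK hUK hVK (by fun_prop) (fun _ => sq_nonneg _)).trans ?_
    rw [ha]; linarith
  have k4 : (c1 - c2) ^ 2 ≤ (2 * C1 * G + 2 * C2 * G) / w := by
    rw [le_div_iff₀ hm]; linarith
  have k5 := mul_le_mul_of_nonneg_left k4 hvV0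
  refine k3.trans ?_
  have k6 : (C1 + 2 * C2 + 4 * vV * (C1 + C2) / w) * G
      = C1 * G + 2 * (C2 * G) + 2 * (vV * ((2 * C1 * G + 2 * C2 * G) / w)) := by
    field_simp; ring
  rw [k6]
  linarith

/-- closed parallelogram -/
abbrev par (o e1 e2 : E2) : Set E2 := bil o e1 e2 0 '' Q01

theorem par_ae (o e1 e2 : E2) : (bil o e1 e2 0 '' O01 : Set E2) =ᵐ[volume] par o e1 e2 := by
  have hsub : bil o e1 e2 0 '' O01 ⊆ bil o e1 e2 0 '' Q01 :=
    image_mono (prod_mono Ioo_subset_Icc_self Ioo_subset_Icc_self)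
  rw [ae_eq_set]
  constructor
  · rw [sdiff_eq_empty.2 hsub]; simp
  · exact measure_mono_null (subset_image_diff _ _ _) (null_image _ _ _ _ _ volume_Q_diff_O)

theorem jac_par (e1 e2 : E2) (z : ℝ × ℝ) : jac e1 e2 0 z = cr e1 e2 := by
  simp [jac, cr]

theorem PP_par (o e1 e2 : E2) (h : cr e1 e2 ≠ 0) : PP (par o e1 e2) := by
  refine PP.congr (par_ae o e1 e2) ?_
  have hinj : InjOn (bil o e1 e2 0) O01 :=
    bil_inj_of_jac o e1 e2 0 O01 ((convex_Ioo _ _).prod (convex_Ioo _ _)) (fun z _ => by rw [jac_par]; exact h)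
  have hint : ∀ g : E2 → ℝ, Continuous g → ∫ x in bil o e1 e2 0 '' O01, g x
      = |cr e1 e2| * ∫ x in (0:ℝ)..1, ∫ y in (0:ℝ)..1, g (bil o e1 e2 0 (x, y)) := by
    intro g hg
    have hb := continuous_bil o e1 e2 0
    rw [cov _ _ _ _ _ measurableSet_O01 hinj]
    simp_rw [jac_par]
    rw [integral_const_mul, O01, integral_box 0 1 0 1 zero_le_one zero_le_one _ (by fun_prop)]
  have hcr : 0 < |cr e1 e2| := abs_pos.2 h
  refine ⟨(‖e1‖ ^ 2 + ‖e2‖ ^ 2) / Real.pi ^ 2, by positivity, fun f hf => ?_⟩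
  have hfc := hf.continuous
  have hfd := hf.continuous_fderiv (by simp)
  have hb := continuous_bil o e1 e2 0
  have hd : ∀ p, HasFDerivAt f (fderiv ℝ f p) p := fun p => ((hf.differentiable (by simp)) p).hasFDerivAt
  obtain ⟨c, hc⟩ : ∃ c, c = ∫ x in (0:ℝ)..1, ∫ y in (0:ℝ)..1, f (bil o e1 e2 0 (x, y)) := ⟨_, rfl⟩
  refine ⟨c, ?_⟩
  have d1 : ∀ x y : ℝ, HasDerivAt (fun x => bil o e1 e2 0 (x, y)) e1 x := by
    intro x y
    unfold bil
    simp only [smul_zero, add_zero]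
    have := (((hasDerivAt_id x).smul_const e1).const_add o).add_const (y • e2)
    simpa using this
  have d2 : ∀ x y : ℝ, HasDerivAt (fun y => bil o e1 e2 0 (x, y)) e2 y := by
    intro x y
    unfold bil
    simp only [smul_zero, add_zero]
    have := ((hasDerivAt_id y).smul_const e2).const_add (o + x • e1)
    simpa using this
  have key := sq_poincare (F := fun x y => f (bil o e1 e2 0 (x, y)) - c)
    (Fx := fun x y => fderiv ℝ f (bil o e1 e2 0 (x, y)) e1)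
    (Fy := fun x y => fderiv ℝ f (bil o e1 e2 0 (x, y)) e2)
    (by unfold Function.uncurry; simp only; fun_prop)
    (by unfold Function.uncurry; simp only; fun_prop)
    (by unfold Function.uncurry; simp only; fun_prop)
    (fun x y => ((hd _).comp_hasDerivAt x (d1 x y)).sub_const c)
    (fun x y => ((hd _).comp_hasDerivAt y (d2 x y)).sub_const c)
    (by
      have : Continuous (Function.uncurry fun x y : ℝ => f (bil o e1 e2 0 (x, y))) := by
        unfold Function.uncurry; simp only; fun_prop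
      rw [dint_sub _ (fun _ _ => c) this (by unfold Function.uncurry; simp only; fun_prop), ← hc]
      simp)
  rw [hint _ (by fun_prop), hint _ (by fun_prop)]
  have hpi : 0 < Real.pi ^ 2 := by positivity
  have c1 : Continuous fun x => ∫ y in (0:ℝ)..1, fderiv ℝ f (bil o e1 e2 0 (x, y)) e1 ^ 2 :=
    intervalIntegral.continuous_parametric_intervalIntegral_of_continuous'
      (by unfold Function.uncurry; simp only; fun_prop) _ _
  have c2 : Continuous fun x => ∫ y in (0:ℝ)..1, fderiv ℝ f (bil o e1 e2 0 (x, y)) e2 ^ 2 :=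
    intervalIntegral.continuous_parametric_intervalIntegral_of_continuous'
      (by unfold Function.uncurry; simp only; fun_prop) _ _
  have c3 : Continuous fun x => ∫ y in (0:ℝ)..1, ‖fderiv ℝ f (bil o e1 e2 0 (x, y))‖ ^ 2 :=
    intervalIntegral.continuous_parametric_intervalIntegral_of_continuous'
      (by unfold Function.uncurry; simp only; fun_prop) _ _
  have hb2 : (∫ x in (0:ℝ)..1, ∫ y in (0:ℝ)..1, fderiv ℝ f (bil o e1 e2 0 (x, y)) e1 ^ 2)
      + (∫ x in (0:ℝ)..1, ∫ y in (0:ℝ)..1, fderiv ℝ f (bil o e1 e2 0 (x, y)) e2 ^ 2)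
      ≤ (‖e1‖ ^ 2 + ‖e2‖ ^ 2) * ∫ x in (0:ℝ)..1, ∫ y in (0:ℝ)..1, ‖fderiv ℝ f (bil o e1 e2 0 (x, y))‖ ^ 2 := by
    have q : ∀ (L : E2 →L[ℝ] ℝ) (e : E2), L e ^ 2 ≤ ‖e‖ ^ 2 * ‖L‖ ^ 2 := by
      intro L e
      have h1 := L.le_opNorm e
      rw [Real.norm_eq_abs] at h1
      have h2 := pow_le_pow_left₀ (abs_nonneg _) h1 2
      rw [sq_abs] at h2
      calc L e ^ 2 ≤ (‖L‖ * ‖e‖) ^ 2 := h2
        _ = _ := by ring
    have m1 : (∫ x in (0:ℝ)..1, ∫ y in (0:ℝ)..1, fderiv ℝ f (bil o e1 e2 0 (x, y)) e1 ^ 2)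
        ≤ ∫ x in (0:ℝ)..1, ‖e1‖ ^ 2 * ∫ y in (0:ℝ)..1, ‖fderiv ℝ f (bil o e1 e2 0 (x, y))‖ ^ 2 := by
      refine ii_mono c1 (by fun_prop) zero_le_one (fun x _ => ?_)
      rw [← intervalIntegral.integral_const_mul]
      exact ii_mono (by fun_prop) (by fun_prop) zero_le_one (fun y _ => q _ _)
    have m2 : (∫ x in (0:ℝ)..1, ∫ y in (0:ℝ)..1, fderiv ℝ f (bil o e1 e2 0 (x, y)) e2 ^ 2)
        ≤ ∫ x in (0:ℝ)..1, ‖e2‖ ^ 2 * ∫ y in (0:ℝ)..1, ‖fderiv ℝ f (bil o e1 e2 0 (x, y))‖ ^ 2 := by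
      refine ii_mono c2 (by fun_prop) zero_le_one (fun x _ => ?_)
      rw [← intervalIntegral.integral_const_mul]
      exact ii_mono (by fun_prop) (by fun_prop) zero_le_one (fun y _ => q _ _)
    rw [intervalIntegral.integral_const_mul] at m1 m2
    linarith
  have key2 := key.trans hb2
  rw [div_mul_eq_mul_div, le_div_iff₀ hpi]
  have key3 := mul_le_mul_of_nonneg_left key2 hcr.le
  linarith

end Pool.Agent.Helper238
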