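import Pool.Agent.Helper238.PP

set_option autoImplicit false

open MeasureTheory Set

namespace Pool.Agent.Helper238

theorem par_pt (A B C : E2) (s t : ℝ) :
    bil A ((1/2 : ℝ) • (B - A)) ((1/2 : ℝ) • (C - A)) 0 (s, t)
      = (1 - s / 2 - t / 2) • A + (s / 2) • B + (t / 2) • C := by
  ext i; simp [bil]; ring

theorem par_subset (A B C : E2) : par A ((1/2 : ℝ) • (B - A)) ((1/2 : ℝ) • (C - A)) ⊆ tri A B C := by
  rintro _ ⟨⟨s, t⟩, ⟨hs, ht⟩, rfl⟩
  simp only at hs ht
  rw [par_pt]
  exact tri_mem A B C _ _ _ (by linarith [hs.2, ht.2]) (by linarith [hs.1]) (by linarith [ht.1]) (by ring)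

theorem mem_par (A B C : E2) (x y z : ℝ) (hy : 0 ≤ y) (hz : 0 ≤ z) (hy1 : y ≤ 1 / 2) (hz1 : z ≤ 1 / 2)
    (h : x + y + z = 1) :
    x • A + y • B + z • C ∈ par A ((1/2 : ℝ) • (B - A)) ((1/2 : ℝ) • (C - A)) := by
  refine ⟨(2 * y, 2 * z), ⟨⟨by simpa using hy, by simp only; linarith⟩, by simpa using hz, by simp only; linarith⟩, ?_⟩
  rw [par_pt]
  have hx : x = 1 - y - z := by linarith
  rw [hx]
  congr 1
  · congr 1
    · congr 1; ring
    · congr 1; ring
  · congr 1; ring

theorem centroid_mem (A B C : E2) (hD : cr (B - A) (C - A) ≠ 0) :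
    (1/3 : ℝ) • A + (1/3 : ℝ) • B + (1/3 : ℝ) • C ∈
      interior (par A ((1/2 : ℝ) • (B - A)) ((1/2 : ℝ) • (C - A))) := by
  have h1 := bil_mem_interior A ((1/2 : ℝ) • (B - A)) ((1/2 : ℝ) • (C - A)) 0 O01 (2/3, 2/3)
    (isOpen_O01.mem_nhds (by constructor <;> constructor <;> norm_num))
    (by rw [jac_par, cr_smul_left, cr_smul_right]; positivity)
  rw [par_pt] at h1
  have h2 := interior_mono (image_mono (prod_mono Ioo_subset_Icc_self Ioo_subset_Icc_self)) h1
  have e1 : (1 - 2 / 3 / 2 - 2 / 3 / 2 : ℝ) = 1 / 3 := by norm_num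
  have e2 : (2 / 3 / 2 : ℝ) = 1 / 3 := by norm_num
  rw [e1, e2] at h2
  exact h2

theorem tri_perm1 (A B C : E2) : tri B A C = tri A B C := by
  unfold tri; congr 1; ext x; simp only [mem_insert_iff, mem_singleton_iff]; tauto

theorem tri_perm2 (A B C : E2) : tri C A B = tri A B C := by
  unfold tri; congr 1; ext x; simp only [mem_insert_iff, mem_singleton_iff]; tauto

theorem tri_cover (A B C : E2) (hD : cr (B - A) (C - A) ≠ 0) :
    tri A B C = (par A ((1/2 : ℝ) • (B - A)) ((1/2 : ℝ) • (C - A))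
      ∪ par B ((1/2 : ℝ) • (A - B)) ((1/2 : ℝ) • (C - B)))
      ∪ par C ((1/2 : ℝ) • (A - C)) ((1/2 : ℝ) • (B - C)) := by
  apply Subset.antisymm
  · intro x hx
    obtain ⟨h1, h2, h3⟩ := (mem_tri_iff hD).1 hx
    have hxe := bary' hD (x := x)
    rw [hxe]
    generalize cB A B C x = y at *
    generalize cC A B C x = z at *
    by_cases hy : y ≤ 1 / 2
    · by_cases hz : z ≤ 1 / 2
      · exact Or.inl (Or.inl (mem_par A B C _ _ _ h1 h2 hy hz (by ring)))
      · right
        push Not at hz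
        have := mem_par C A B z (1 - y - z) y (by linarith) h1 (by linarith) hy (by ring)
        convert this using 1
        abel
    · left; right
      push Not at hy
      have := mem_par B A C y (1 - y - z) z (by linarith) h2 (by linarith) (by linarith) (by ring)
      convert this using 1
      abel
  · apply union_subset
    · apply union_subset
      · exact par_subset A B C
      · rw [← tri_perm1]; exact par_subset B A C
    · rw [← tri_perm2]; exact par_subset C A B

theorem PP_tri (A B C : E2) (hD : cr (B - A) (C - A) ≠ 0) : PP (tri A B C) := by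
  have hD1 : cr (A - B) (C - B) ≠ 0 := by
    have : cr (A - B) (C - B) = - cr (B - A) (C - A) := by simp [cr]; ring
    rw [this]; exact neg_ne_zero.2 hD
  have hD2 : cr (A - C) (B - C) ≠ 0 := by
    have : cr (A - C) (B - C) = cr (B - A) (C - A) := by simp [cr]; ring
    rw [this]; exact hD
  have g0 := centroid_mem A B C hD
  have g1 := centroid_mem B A C hD1
  have g2 := centroid_mem C A B hD2
  have e1 : (1/3 : ℝ) • B + (1/3 : ℝ) • A + (1/3 : ℝ) • C = (1/3 : ℝ) • A + (1/3 : ℝ) • B + (1/3 : ℝ) • C := by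
    abel
  have e2 : (1/3 : ℝ) • C + (1/3 : ℝ) • A + (1/3 : ℝ) • B = (1/3 : ℝ) • A + (1/3 : ℝ) • B + (1/3 : ℝ) • C := by
    abel
  rw [e1] at g1
  rw [e2] at g2
  have s0 := par_subset A B C
  have s1 := par_subset B A C
  have s2 := par_subset C A B
  rw [tri_perm1] at s1
  rw [tri_perm2] at s2
  have p0 : PP (par A ((1/2 : ℝ) • (B - A)) ((1/2 : ℝ) • (C - A))) :=
    PP_par _ _ _ (by rw [cr_smul_left, cr_smul_right]; positivity)
  have p1 : PP (par B ((1/2 : ℝ) • (A - B)) ((1/2 : ℝ) • (C - B))) :=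
    PP_par _ _ _ (by rw [cr_smul_left, cr_smul_right]; positivity)
  have p2 : PP (par C ((1/2 : ℝ) • (A - C)) ((1/2 : ℝ) • (B - C))) :=
    PP_par _ _ _ (by rw [cr_smul_left, cr_smul_right]; positivity)
  have q1 := PP.union (isCompact_tri A B C) s0 s1 p0 p1 (by rw [interior_inter]; exact ⟨_, g0, g1⟩)
  have q2 := PP.union (isCompact_tri A B C) (union_subset s0 s1) s2 q1 p2
    (by
      rw [interior_inter]
      exact ⟨_, interior_mono subset_union_left g0, g2⟩)
  rw [tri_cover A B C hD]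
  exact q2

theorem continuous_cB (A B C : E2) : Continuous (cB A B C) := by
  have : cB A B C = fun x : E2 => ((x 0 - A 0) * (C - A) 1 - (x 1 - A 1) * (C - A) 0) / cr (B - A) (C - A) := by
    ext x; simp [cB, cr]
  rw [this]; fun_prop

theorem continuous_cC (A B C : E2) : Continuous (cC A B C) := by
  have : cC A B C = fun x : E2 => ((B - A) 0 * (x 1 - A 1) - (B - A) 1 * (x 0 - A 0)) / cr (B - A) (C - A) := by
    ext x; simp [cC, cr]
  rw [this]; fun_prop

theorem isOpen_otri (A B C : E2) (hD : cr (B - A) (C - A) ≠ 0) : IsOpen (otri A B C) := by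
  have h1 := continuous_cB A B C
  have h2 := continuous_cC A B C
  have : otri A B C = ({x | 0 < cB A B C x} ∩ {x | 0 < cC A B C x}) ∩ {x | cB A B C x + cC A B C x < 1} := by
    ext x
    rw [mem_otri_iff hD]
    simp only [mem_inter_iff, mem_ofPred_eq]
    tauto
  rw [this]
  exact ((isOpen_lt continuous_const h1).inter (isOpen_lt continuous_const h2)).inter
    (isOpen_lt (h1.add h2) continuous_const)

theorem otri_subset (A B C : E2) : otri A B C ⊆ tri A B C := by
  rw [tri_eq]
  exact image_mono (prod_mono Ioo_subset_Icc_self Ioo_subset_Icc_self)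

/-- the midpoint of the diagonal is an interior point -/
theorem mid_interior {a b c d : E2} (h : cr (b - a) (c - a) * cr (d - a) (c - a) < 0) :
    (1/2 : ℝ) • (a + c) ∈ interior (quadc a b c d) := by
  have hX : cr (b - a) (c - a) ≠ 0 := by intro h0; rw [h0] at h; simp at h
  have hY : cr (d - a) (c - a) ≠ 0 := by intro h0; rw [h0] at h; simp at h
  have hY' : cr (c - a) (d - a) ≠ 0 := by rw [cr_swap]; exact neg_ne_zero.2 hY
  have k1 := continuous_cB a b c
  have k2 := continuous_cC a b c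
  have k3 := continuous_cB a c d
  have k4 := continuous_cC a c d
  obtain ⟨m1, m2⟩ := coords_of_comb hX (x := 1/2) (y := 0) (z := 1/2) (by norm_num)
  have e : (1/2 : ℝ) • a + (0:ℝ) • b + (1/2 : ℝ) • c = (1/2 : ℝ) • (a + c) := by
    rw [zero_smul, add_zero, smul_add]
  rw [e] at m1 m2
  obtain ⟨m3, m4⟩ := coords_of_comb hY' (x := 1/2) (y := 1/2) (z := 0) (by norm_num)
  have e' : (1/2 : ℝ) • a + (1/2 : ℝ) • c + (0:ℝ) • d = (1/2 : ℝ) • (a + c) := by
    rw [zero_smul, add_zero, smul_add]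
  rw [e'] at m3 m4
  rw [mem_interior]
  refine ⟨({x | cB a b c x + cC a b c x < 1} ∩ {x | 0 < cC a b c x}) ∩
    ({x | cB a c d x + cC a c d x < 1} ∩ {x | 0 < cB a c d x}), ?_,
    ((isOpen_lt (k1.add k2) continuous_const).inter (isOpen_lt continuous_const k2)).inter
    ((isOpen_lt (k3.add k4) continuous_const).inter (isOpen_lt continuous_const k3)), ?_⟩
  · rintro x ⟨⟨h1, h2⟩, h3, h4⟩
    simp only [mem_ofPred_eq] at h1 h2 h3 h4
    by_cases hβ : 0 ≤ cB a b c x
    · left
      rw [mem_tri_iff hX]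
      exact ⟨hβ, h2.le, h1.le⟩
    · right
      push Not at hβ
      rw [mem_tri_iff hY']
      refine ⟨h4.le, ?_, h3.le⟩
      have e5 : cC a c d x * (cr (d - a) (c - a) ^ 2)
          = cB a b c x * (cr (b - a) (c - a) * cr (d - a) (c - a)) := by
        unfold cC cB
        rw [cr_swap (c - a) (x - a), cr_swap (c - a) (d - a)]
        field_simp
      have h6 : 0 < cr (d - a) (c - a) ^ 2 := by positivity
      have h5 : 0 < cB a b c x * (cr (b - a) (c - a) * cr (d - a) (c - a)) := mul_pos_of_neg_of_neg hβ h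
      rw [← e5] at h5
      exact ((mul_pos_iff_of_pos_right h6).1 h5).le
  · simp only [mem_inter_iff, mem_ofPred_eq]
    rw [m1, m2, m3, m4]
    norm_num

theorem PP_quadc {a b c d : E2} (h : cr (b - a) (c - a) * cr (d - a) (c - a) < 0) :
    PP (quadc a b c d) := by
  have hX : cr (b - a) (c - a) ≠ 0 := by intro h0; rw [h0] at h; simp at h
  have hY : cr (d - a) (c - a) ≠ 0 := by intro h0; rw [h0] at h; simp at h
  have e13 : tri a c d = tri a d c := by
    unfold tri; congr 1; ext x; simp only [mem_insert_iff, mem_singleton_iff]; tauto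
  have hm := mid_interior h
  obtain ⟨m, hmd⟩ : ∃ m, m = (1/2 : ℝ) • (a + c) := ⟨_, rfl⟩
  rw [← hmd] at hm
  obtain ⟨r, hr, hball⟩ := Metric.isOpen_iff.1 isOpen_interior m hm
  obtain ⟨δ, hδ⟩ : ∃ δ, δ = r / 2 := ⟨_, rfl⟩
  have hδ0 : 0 < δ := by rw [hδ]; positivity
  obtain ⟨R, hR⟩ : ∃ R : Set E2, R = par (m - (δ / 2) • (ee0 + ee1)) (δ • ee0) (δ • ee1) := ⟨_, rfl⟩
  have hcr : cr (δ • ee0) (δ • ee1) ≠ 0 := by
    rw [cr_smul_left, cr_smul_right]
    have : cr ee0 ee1 = 1 := by simp [cr, ee0, ee1]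
    rw [this]; positivity
  have hmR : m ∈ interior R := by
    have h1 := bil_mem_interior (m - (δ / 2) • (ee0 + ee1)) (δ • ee0) (δ • ee1) 0 O01 (1/2, 1/2)
      (isOpen_O01.mem_nhds (by constructor <;> constructor <;> norm_num))
      (by rw [jac_par]; exact hcr)
    have h2 := interior_mono (image_mono (prod_mono Ioo_subset_Icc_self Ioo_subset_Icc_self)) h1
    have e : bil (m - (δ / 2) • (ee0 + ee1)) (δ • ee0) (δ • ee1) 0 (1/2, 1/2) = m := by
      ext i; simp [bil]; ring
    rw [e] at h2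
    rw [hR]; exact h2
  have hRsub : R ⊆ quadc a b c d := by
    rw [hR]
    rintro _ ⟨⟨s, t⟩, ⟨hs, ht⟩, rfl⟩
    simp only at hs ht
    refine interior_subset (hball ?_)
    rw [Metric.mem_ball, dist_eq_norm]
    have e : bil (m - (δ / 2) • (ee0 + ee1)) (δ • ee0) (δ • ee1) 0 (s, t) - m
        = (δ * (s - 1 / 2)) • ee0 + (δ * (t - 1 / 2)) • ee1 := by
      ext i; simp [bil]; ring
    rw [e]
    have n0 : ‖ee0‖ = 1 := by simp [ee0]
    have n1 : ‖ee1‖ = 1 := by simp [ee1]
    refine (norm_add_le _ _).trans_lt ?_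
    rw [norm_smul, norm_smul, n0, n1, mul_one, mul_one, Real.norm_eq_abs, Real.norm_eq_abs, abs_mul,
      abs_mul, abs_of_pos hδ0]
    have a1 : |s - 1 / 2| ≤ 1 / 2 := by rw [abs_le]; constructor <;> linarith [hs.1, hs.2]
    have a2 : |t - 1 / 2| ≤ 1 / 2 := by rw [abs_le]; constructor <;> linarith [ht.1, ht.2]
    have b1 := mul_le_mul_of_nonneg_left a1 hδ0.le
    have b2 := mul_le_mul_of_nonneg_left a2 hδ0.le
    linarith
  have hK := isCompact_quadc a b c d
  have p1 := PP_tri a b c hX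
  have p2 : PP (tri a c d) := by rw [e13]; exact PP_tri a d c hY
  have pR : PP R := by rw [hR]; exact PP_par _ _ _ hcr
  have q1 : PP (tri a b c ∪ R) := by
    refine PP.union hK subset_union_left hRsub p1 pR ?_
    obtain ⟨y, hy1, hy2⟩ := mid_closure hX isOpen_interior (by rw [← hmd]; exact hmR)
    refine ⟨y, ?_⟩
    rw [interior_inter]
    exact ⟨interior_maximal (otri_subset a b c) (isOpen_otri a b c hX) hy1, hy2⟩
  have q2 : PP ((tri a b c ∪ R) ∪ tri a c d) := by
    refine PP.union hK (union_subset subset_union_left hRsub) subset_union_right q1 p2 ?_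
    obtain ⟨y, hy1, hy2⟩ := mid_closure hY isOpen_interior (by rw [← hmd]; exact hmR)
    refine ⟨y, ?_⟩
    rw [interior_inter]
    refine ⟨interior_mono subset_union_right hy2, ?_⟩
    rw [e13]
    exact interior_maximal (otri_subset a d c) (isOpen_otri a d c hY) hy1
  have e : (tri a b c ∪ R) ∪ tri a c d = quadc a b c d := by
    apply Subset.antisymm
    · exact union_subset (union_subset subset_union_left hRsub) subset_union_right
    · exact union_subset (subset_union_left.trans subset_union_left) subset_union_right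
  rw [← e]
  exact q2

/-- Poincare inequality for mean-zero functions -/
theorem poincare_quado {a b c d : E2} (h : cr (b - a) (c - a) * cr (d - a) (c - a) < 0) :
    ∃ κ : ℝ, 0 < κ ∧ ∀ f : E2 → ℝ, ContDiff ℝ 1 f → ∫ x in quado a b c d, f x = 0 →
      κ * ∫ x in quado a b c d, f x ^ 2 ≤ ∫ x in quado a b c d, ‖fderiv ℝ f x‖ ^ 2 := by
  obtain ⟨C, hC, hf⟩ := PP.congr (quado_ae a b c d).symm (PP_quadc h)
  refine ⟨1 / (C + 1), by positivity, fun f h1 h0 => ?_⟩
  obtain ⟨k, hk⟩ := hf f h1
  have hK := isCompact_quadc a b c d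
  have hs : quado a b c d ⊆ quadc a b c d := interior_subset
  have hfc := h1.continuous
  have e1 : ∫ x in quado a b c d, (f x - k) ^ 2
      = (∫ x in quado a b c d, f x ^ 2) + k ^ 2 * volume.real (quado a b c d) := by
    have e2 : ∀ x, (f x - k) ^ 2 = (f x ^ 2 + (-(2 * k)) * f x) + k ^ 2 := fun x => by ring
    simp_rw [e2]
    rw [iadd hK hs (by fun_prop) (by fun_prop), iadd hK hs (by fun_prop) (by fun_prop),
      integral_const_mul, h0, setIntegral_const]
    simp; ring
  rw [e1] at hk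
  have hv : 0 ≤ k ^ 2 * volume.real (quado a b c d) := by positivity
  have hg : 0 ≤ ∫ x in quado a b c d, ‖fderiv ℝ f x‖ ^ 2 := integral_nonneg fun _ => sq_nonneg _
  rw [one_div, inv_mul_le_iff₀ (by positivity)]
  nlinarith

end Pool.Agent.Helper238
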