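import Pool.Agent.Helper238.Cert

set_option autoImplicit false

namespace Pool.Agent.Helper238


open Alg in
/-- Data of the pair `x - c x³ + κ w₁ x y`, `y - c y³ + κ w₂ x y` (with `c = cn/10`,
`κ = kn/10`) on the image of the unit square under `(X + w₁ X Y, Y + w₂ X Y)`. -/
def quadR1 {α : Type} [Alg α] (cn kn : Int) (w1 w2 : α) : QD α :=
  lt (Alg.mul w1 w1) fun a => lt (Alg.mul w2 w2) fun b => lt (Alg.mul w1 w2) fun m =>
  lt (cst 1 1) fun one =>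
  lt (Alg.add one (sc 1 4 a)) fun A1 => lt (Alg.add one (sc 1 4 b)) fun B1 =>
  lt (Alg.mul a a) fun aa => lt (Alg.mul b b) fun bb => lt (Alg.mul a b) fun mm =>
  lt (Alg.add (Alg.add one (sc 5 6 a)) (sc 1 16 aa)) fun x4a =>
  lt (Alg.add (Alg.add one (sc 5 6 b)) (sc 1 16 bb)) fun x4b =>
  lt (Alg.add (Alg.add (Alg.add one (sc 7 4 a)) (sc 7 16 aa)) (sc 1 64 (Alg.mul aa a))) fun x6a =>
  lt (Alg.add (Alg.add (Alg.add one (sc 7 4 b)) (sc 7 16 bb)) (sc 1 64 (Alg.mul bb b))) fun x6b =>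
  lt (Alg.add (Alg.add (cst 1 48) (sc 1 960 a)) (sc 1 480 b)) fun Xa =>
  lt (Alg.add (Alg.add (cst 1 48) (sc 1 960 b)) (sc 1 480 a)) fun Xb =>
  lt (Alg.add (Alg.add (Alg.add (Alg.add (cst 1 192) (sc 1 640 a)) (sc 1 35840 aa)) (sc 1 1344 b)) (sc 1 8960 mm)) fun Wa =>
  lt (Alg.add (Alg.add (Alg.add (Alg.add (cst 1 192) (sc 1 640 b)) (sc 1 35840 bb)) (sc 1 1344 a)) (sc 1 8960 mm)) fun Wb =>
  lt (Alg.add (Alg.add (cst 1 144) (sc 1 320 (Alg.add a b))) (sc 1 1280 mm)) fun Z =>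
  lt (Alg.sub (Alg.sub (cst 1 12) (cst (3 * cn) 800)) (sc (3 * cn) 3200 a)) fun ea =>
  lt (Alg.sub (Alg.sub (cst 1 12) (cst (3 * cn) 800)) (sc (3 * cn) 3200 b)) fun eb =>
  lt (Alg.sub (cst 1 12) (sc (3 * cn) 10 Xa)) fun ua =>
  lt (Alg.sub (cst 1 12) (sc (3 * cn) 10 Xb)) fun ub =>
  lt (Alg.add (Alg.sub (cst 1 12) (sc cn 800 A1)) (sc kn 480 a)) fun mfa =>
  lt (Alg.add (Alg.sub (cst 1 12) (sc cn 800 B1)) (sc kn 480 b)) fun mfb =>
  { k := one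
    fxx := Alg.add (Alg.add (Alg.add (Alg.sub one (sc cn 20 A1)) (sc (9 * (cn * cn)) 8000 x4a)) (sc kn 5 (Alg.mul a ua))) (sc (kn * kn) 1200 (Alg.mul a B1))
    fyy := sc (kn * kn) 1200 (Alg.mul a A1)
    fxy := sc kn 10 (Alg.mul m (Alg.add ea (sc kn 480 a)))
    gxx := sc (kn * kn) 1200 (Alg.mul b B1)
    gyy := Alg.add (Alg.add (Alg.add (Alg.sub one (sc cn 20 B1)) (sc (9 * (cn * cn)) 8000 x4b)) (sc kn 5 (Alg.mul b ub))) (sc (kn * kn) 1200 (Alg.mul b A1))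
    gxy := sc kn 10 (Alg.mul m (Alg.add eb (sc kn 480 b)))
    cxx := sc kn 10 (Alg.mul m (Alg.add ua (sc kn 120 B1)))
    cyy := sc kn 10 (Alg.mul m (Alg.add ub (sc kn 120 A1)))
    cxy := Alg.add (Alg.add (Alg.add (Alg.sub one (sc cn 40 (Alg.add A1 B1))) (sc (9 * (cn * cn)) 100 Z)) (sc kn 10 (Alg.add (Alg.mul b ea) (Alg.mul a eb)))) (sc (kn * kn) 2400 mm)
    B11 := Alg.sub (Alg.add (Alg.add (Alg.add (Alg.sub (sc 1 12 A1) (sc cn 400 x4a)) (sc (cn * cn) 44800 x6a)) (sc kn 5 (Alg.mul a (Alg.sub Xa (sc cn 10 Wa))))) (sc (kn * kn) 100 (Alg.mul a Z))) (Alg.mul b (Alg.mul mfa mfa))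
    B22 := Alg.sub (Alg.add (Alg.add (Alg.add (Alg.sub (sc 1 12 B1) (sc cn 400 x4b)) (sc (cn * cn) 44800 x6b)) (sc kn 5 (Alg.mul b (Alg.sub Xb (sc cn 10 Wb))))) (sc (kn * kn) 100 (Alg.mul b Z))) (Alg.mul a (Alg.mul mfb mfb))
    B12 := Alg.mul m (Alg.sub (Alg.add (Alg.add (Alg.add (Alg.add (Alg.add (Alg.sub (Alg.sub (cst 1 48) (cst (7 * cn) 4800)) (sc cn 12800 (Alg.add a b))) (cst (3 * (cn * cn)) 128000)) (sc (13 * (cn * cn)) 3584000 (Alg.add a b))) (sc (cn * cn) 2867200 mm)) (sc kn 10 (Alg.sub (Alg.add Xa Xb) (sc cn 10 (Alg.add Wa Wb))))) (sc (kn * kn) 100 Z)) (Alg.mul mfa mfb))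
    C11 := Alg.sub (sc 1 12 A1) (sc 1 144 b)
    C22 := Alg.sub (sc 1 12 B1) (sc 1 144 a)
    C12 := sc 1 72 m }

theorem quadR1_rel {x y : ℝ} (hx : |x| ≤ 1) (hy : |y| ≤ 1) (cn kn : Int) {w1 w2 : TM} {v1 v2 : ℝ}
    (h1 : Mem x y w1 v1) (h2 : Mem x y w2 v2) :
    QDRel x y (quadR1 cn kn w1 w2) (quadR1 cn kn v1 v2) := by
  unfold quadR1
  repeat' (with_reducible refine lt_rel (R := Mem x y) (Q := QDRel x y) (by with_reducible repeat' (first | assumption | apply Mem.add | apply Mem.sub | apply Mem.mul | apply Mem.sc | apply Mem.cst | exact Nat.one_pos | decide)) (fun _ _ _ => ?_))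
  constructor
  all_goals (with_reducible repeat' (first | assumption | apply Mem.add | apply Mem.sub | apply Mem.mul | apply Mem.sc | apply Mem.cst | exact Nat.one_pos | decide))

/-- zones -/
def zoneC : Nat → Int
  | 0 => 14
  | 1 => 12
  | _ => 9
def zoneK : Nat → Int
  | 0 => 12
  | 1 => 11
  | _ => 8

open Alg in
def testR1 (k : Nat) (l s : Int) (u v : TM) : Bool :=
  match s with
  | .ofNat s =>
    lt (sc 1048577 1048576 v) fun e =>
      posAll (certList l (.ofNat s) (quadR1 (zoneC k) (zoneK k) (Alg.add u e) (Alg.sub u e)))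
  | .negSucc _ => false

/-- the box is outside of the region `0 < u`, `v ≤ u`, `u ^ 2 + v ^ 2 ≥ 1/200`  -/
def skipR1 (c1 : Int) (h1 : Nat) (c2 : Int) (h2 : Nat) : Bool :=
  decide (c1 + h1 ≤ c2 - h2) ||
    (decide (0 ≤ c1 - h1) && decide (0 ≤ c2 - h2) &&
     decide (200 * (1048576 ^ 2 * (c1 + h1) ^ 2 + (1048577 * (c2 + h2)) ^ 2) < 1048576 ^ 2 * 18446744073709551616 ^ 2))

/-- what the certificate shows in the first region -/
def PR1 (u v : ℝ) : Prop :=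
  0 < u → 0 ≤ v → v * (1048577 / 1048576) ≤ u →
    1 / 200 ≤ u ^ 2 + (v * (1048577 / 1048576)) ^ 2 →
    ∃ k : Nat, ∀ p r t : ℝ, 0 < p → p * r - t ^ 2 = 1 →
      Good (quadR1 (zoneC k) (zoneK k) (u + v * (1048577 / 1048576))
        (u - v * (1048577 / 1048576))) p r t

theorem testR1_sound (k : Nat) (l s : Int) (X Y : TM) (x y u v : ℝ) (hx : |x| ≤ 1) (hy : |y| ≤ 1)
    (hX : Mem x y X u) (hY : Mem x y Y v) (h : testR1 k l s X Y = true) : PR1 u v := by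
  intro _ _ _ _
  match s, h with
  | .ofNat s, h =>
  refine ⟨k, fun p r t hp hdet => ?_⟩
  have he : Mem x y (Alg.sc 1048577 1048576 Y) (Alg.sc 1048577 1048576 v) :=
    Mem.sc _ _ (by norm_num) hx hy hY
  have e1 : v * (1048577 / 1048576) = Alg.sc 1048577 1048576 v := by
    simp only [alg_sc]; push_cast; ring
  rw [e1]
  have hQ := quadR1_rel hx hy (zoneC k) (zoneK k) (hX.add he) (hX.sub he)
  have hl := posAll_sound hx hy (certList_rel hx hy l (.ofNat s) hQ) h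
  exact good_of_cert _ l (.ofNat s) (Int.natCast_nonneg s) hl p r t hp hdet
  | .negSucc s, h => exact absurd h (by simp [testR1])

theorem skipR1_sound (c1 : ℤ) (h1 : ℕ) (c2 : ℤ) (h2 : ℕ) (u v : ℝ) (h : skipR1 c1 h1 c2 h2 = true)
    (hu : |u * 18446744073709551616 - c1| ≤ h1) (hv : |v * 18446744073709551616 - c2| ≤ h2) :
    PR1 u v := by
  intro h0 hv0 hle hge
  exfalso
  rw [abs_le] at hu hv
  rw [skipR1, Bool.or_eq_true, Bool.and_eq_true, Bool.and_eq_true, decide_eq_true_eq,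
    decide_eq_true_eq, decide_eq_true_eq, decide_eq_true_eq] at h
  rcases h with h | ⟨⟨h3, h4⟩, h⟩
  · have h' : (c1 : ℝ) + h1 ≤ c2 - h2 := by exact_mod_cast h
    have : u ≤ v := by linarith [hu.2, hv.1]
    nlinarith
  · have h3' : (0 : ℝ) ≤ c1 - h1 := by exact_mod_cast h3
    have h4' : (0 : ℝ) ≤ c2 - h2 := by exact_mod_cast h4
    have h' : 200 * ((1048576:ℝ) ^ 2 * (c1 + h1) ^ 2 + (1048577 * (c2 + h2)) ^ 2)
      < 1048576 ^ 2 * 18446744073709551616 ^ 2 := by exact_mod_cast h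
    have hu2 : (u * 18446744073709551616) ^ 2 ≤ ((c1:ℝ) + h1) ^ 2 :=
      pow_le_pow_left₀ (by positivity) (by linarith [hu.2]) 2
    have hv2 : (v * 18446744073709551616) ^ 2 ≤ ((c2:ℝ) + h2) ^ 2 :=
      pow_le_pow_left₀ (by positivity) (by linarith [hv.2]) 2
    nlinarith

end Pool.Agent.Helper238
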