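import Pool.Agent.Helper238.Cert

set_option autoImplicit false

namespace Pool.Agent.Helper238


open Alg in
/-- Stiffness and covariance part for the pair `x - (3/20)(x² - y²)`, `y + (3/10) x y` on the
quadrilateral with vertices `(-2,0)`, `(1,-7/4)`, `(1+3h, ν(1+h)7/4)`, `(1,7/4)`, given
normalised moments; `B` entries supplied separately. -/
def quadA {α : Type} [Alg α] (k m01 m02 m10 m11 m20 B11 B22 B12 : α) : QD α :=
  lt (sc 441 1600 m02) fun fyy =>
  lt (sc 21 40 (Alg.sub m01 (sc 3 10 m11))) fun fxy =>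
  lt (sc 21 40 (Alg.add m01 (sc 3 10 m11))) fun gxy =>
  { k := k
    fxx := Alg.add (Alg.sub k (sc 3 5 m10)) (sc 9 100 m20)
    fyy := fyy
    fxy := fxy
    gxx := fyy
    gyy := Alg.add (Alg.add k (sc 3 5 m10)) (sc 9 100 m20)
    gxy := gxy
    cxx := fxy
    cyy := gxy
    cxy := Alg.add (Alg.sub k (sc 9 100 m20)) fyy
    B11 := B11
    B22 := B22
    B12 := B12
    C11 := sc 4 21 (Alg.sub (Alg.mul k m20) (Alg.mul m10 m10))
    C22 := sc 7 12 (Alg.sub (Alg.mul k m02) (Alg.mul m01 m01))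
    C12 := sc 1 3 (Alg.sub (Alg.mul k m11) (Alg.mul m10 m01)) }

open Alg in
/-- The data as functions of `h` and `q = ν (1 + h)`. -/
def quadR23 {α : Type} [Alg α] (h q : α) : QD α :=
  lt (Alg.add (cst 1 1) h) fun k =>
  lt (Alg.mul h h) fun h2 => lt (Alg.mul q q) fun q2 => lt (Alg.mul h q) fun hq => lt (Alg.mul hq h) fun h2q =>
  lt (Alg.mul hq q) fun hq2 => lt (Alg.mul h2 h) fun h3 => lt (Alg.mul h3 h) fun h4 => lt (Alg.mul h4 h) fun h5 =>
  lt (Alg.mul h2 q2) fun h2q2 => lt (Alg.mul h2q2 h) fun h3q2 => lt (Alg.mul h2q h) fun h3q =>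
  lt (Alg.mul h3q h) fun h4q => lt (Alg.mul hq2 q) fun hq3 => lt (Alg.mul hq3 h) fun h2q3 =>
  lt (Alg.mul hq3 q) fun hq4 =>
  lt (sc 1 3 hq) fun m01 =>
  lt (sc 1 6 (Alg.add k hq2)) fun m02 =>
  lt (sc 1 15 (Alg.add (Alg.add k hq2) hq4)) fun m04 =>
  lt (Alg.add h h2) fun m10 =>
  lt (Alg.add (sc 1 3 hq) (sc 1 2 h2q)) fun m11 =>
  lt (Alg.add (Alg.add (Alg.add (cst 1 15) (sc 1 6 (Alg.add h hq2))) (sc 1 10 h2)) (sc 3 10 h2q2)) fun m12 =>
  lt (Alg.add (Alg.add (Alg.add (cst 1 2) h) (sc 2 1 h2)) (sc 3 2 h3)) fun m20 =>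
  lt (Alg.add (Alg.add (sc 1 3 hq) h2q) (sc 9 10 h3q)) fun m21 =>
  lt (Alg.add (Alg.add (Alg.add (Alg.add (Alg.add (cst 1 15) (sc 1 6 (Alg.add h hq2))) (sc 1 5 h2)) (sc 3 5 h2q2)) (sc 1 10 h3)) (sc 3 5 h3q2))
    fun m22 =>
  lt (Alg.add (Alg.add (Alg.add (Alg.add (cst (-1) 5) h) (sc 3 1 h2)) (sc 9 2 h3)) (sc 27 10 h4)) fun m30 =>
  lt (Alg.add (Alg.add (Alg.add (Alg.add (Alg.add (cst 3 5) h) (sc 4 1 h2)) (sc 9 1 h3)) (sc 54 5 h4)) (sc 27 5 h5)) fun m40 =>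
  lt (sc 1 10 (Alg.add hq hq3)) fun m03 =>
  lt (Alg.add (sc 1 10 (Alg.add (Alg.add hq hq3) h2q)) (sc 1 5 h2q3)) fun m13 =>
  lt (Alg.add (Alg.add (Alg.add (sc 1 3 hq) (sc 3 2 h2q)) (sc 27 10 h3q)) (sc 9 5 h4q)) fun m31 =>
  lt (Alg.add (Alg.sub m20 (sc 3 10 (Alg.sub m30 (sc 49 16 m12)))) (sc 9 400 (Alg.add (Alg.sub m40 (sc 49 8 m22)) (sc 2401 256 m04)))) fun ff =>
  lt (Alg.sub m10 (sc 3 20 (Alg.sub m20 (sc 49 16 m02)))) fun f1 =>
  lt (sc 49 16 (Alg.add (Alg.add m02 (sc 3 5 m12)) (sc 9 100 m22))) fun gg =>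
  lt (sc 7 4 (Alg.add m01 (sc 3 10 m11))) fun g1 =>
  lt (sc 7 4 (Alg.sub (Alg.add (Alg.add m11 (sc 3 20 m21)) (sc 147 320 m03)) (sc 9 200 (Alg.sub m31 (sc 49 16 m13))))) fun fg =>
  quadA k m01 m02 m10 m11 m20 (sc 4 21 (Alg.sub (Alg.mul k ff) (Alg.mul f1 f1))) (sc 4 21 (Alg.sub (Alg.mul k gg) (Alg.mul g1 g1)))
    (sc 4 21 (Alg.sub (Alg.mul k fg) (Alg.mul f1 g1)))

open Alg in
/-- The data for long spikes, as functions of `n = h ν²` and `y = 1/ν`; the mass matrix is that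
of the triangle with vertices `(-2,0)`, `(1,-7/4)`, `(1,7/4)`. -/
def quadS {α : Type} [Alg α] (n y : α) : QD α :=
  lt (Alg.mul n (Alg.mul y y)) fun h =>
  lt (Alg.add (cst 1 1) h) fun k =>
  lt (Alg.mul h h) fun h2 => lt (Alg.mul h2 h) fun h3 =>
  lt (Alg.mul (Alg.mul n y) k) fun hq => lt (Alg.mul (Alg.mul n k) k) fun hq2 =>
  lt (sc 1 3 hq) fun m01 =>
  lt (sc 1 6 (Alg.add k hq2)) fun m02 =>
  lt (Alg.add h h2) fun m10 =>
  lt (Alg.add (sc 1 3 hq) (sc 1 2 (Alg.mul hq h))) fun m11 =>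
  lt (Alg.add (Alg.add (Alg.add (cst 1 2) h) (sc 2 1 h2)) (sc 3 2 h3)) fun m20 =>
  quadA k m01 m02 m10 m11 m20 (sc 62379 512000 k) (sc 2233 18000 k) (cst 0 1)

theorem quadA_rel {x y : ℝ} (hx : |x| ≤ 1) (hy : |y| ≤ 1)
    {a1 a2 a3 a4 a5 a6 a7 a8 a9 : TM} {b1 b2 b3 b4 b5 b6 b7 b8 b9 : ℝ}
    (h1 : Mem x y a1 b1) (h2 : Mem x y a2 b2) (h3 : Mem x y a3 b3) (h4 : Mem x y a4 b4)
    (h5 : Mem x y a5 b5) (h6 : Mem x y a6 b6) (h7 : Mem x y a7 b7) (h8 : Mem x y a8 b8)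
    (h9 : Mem x y a9 b9) :
    QDRel x y (quadA a1 a2 a3 a4 a5 a6 a7 a8 a9) (quadA b1 b2 b3 b4 b5 b6 b7 b8 b9) := by
  unfold quadA
  repeat' (with_reducible refine lt_rel (R := Mem x y) (Q := QDRel x y) (by with_reducible repeat' (first | assumption | apply Mem.add | apply Mem.sub | apply Mem.mul | apply Mem.sc | apply Mem.cst | exact Nat.one_pos | decide)) (fun _ _ _ => ?_))
  constructor
  all_goals (with_reducible repeat' (first | assumption | apply Mem.add | apply Mem.sub | apply Mem.mul | apply Mem.sc | apply Mem.cst | exact Nat.one_pos | decide))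

theorem quadR23_rel {x y : ℝ} (hx : |x| ≤ 1) (hy : |y| ≤ 1) {w1 w2 : TM} {v1 v2 : ℝ}
    (h1 : Mem x y w1 v1) (h2 : Mem x y w2 v2) :
    QDRel x y (quadR23 w1 w2) (quadR23 v1 v2) := by
  unfold quadR23
  repeat' (with_reducible refine lt_rel (R := Mem x y) (Q := QDRel x y) (by with_reducible repeat' (first | assumption | apply Mem.add | apply Mem.sub | apply Mem.mul | apply Mem.sc | apply Mem.cst | exact Nat.one_pos | decide)) (fun _ _ _ => ?_))
  apply quadA_rel hx hy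
  all_goals (with_reducible repeat' (first | assumption | apply Mem.add | apply Mem.sub | apply Mem.mul | apply Mem.sc | apply Mem.cst | exact Nat.one_pos | decide))

theorem quadS_rel {x y : ℝ} (hx : |x| ≤ 1) (hy : |y| ≤ 1) {w1 w2 : TM} {v1 v2 : ℝ}
    (h1 : Mem x y w1 v1) (h2 : Mem x y w2 v2) :
    QDRel x y (quadS w1 w2) (quadS v1 v2) := by
  unfold quadS
  repeat' (with_reducible refine lt_rel (R := Mem x y) (Q := QDRel x y) (by with_reducible repeat' (first | assumption | apply Mem.add | apply Mem.sub | apply Mem.mul | apply Mem.sc | apply Mem.cst | exact Nat.one_pos | decide)) (fun _ _ _ => ?_))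
  apply quadA_rel hx hy
  all_goals (with_reducible repeat' (first | assumption | apply Mem.add | apply Mem.sub | apply Mem.mul | apply Mem.sc | apply Mem.cst | exact Nat.one_pos | decide))

open Alg in
def testR23 (k : Nat) (l s : Int) (u v : TM) : Bool :=
  lt (Alg.add (cst 1 1) u) fun k1 =>
  match k with
  | 0 =>
    match s with
    | .ofNat s => posAll (certList l (.ofNat s) (quadR23 u (Alg.mul v k1)))
    | .negSucc _ => false
  | _ => TM.pos (Alg.sub (Alg.mul u (Alg.sub (Alg.mul v v) (cst 1 1))) (sc 109 1000 (Alg.mul k1 k1)))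

def PR23 (h ν : ℝ) : Prop :=
  (∀ p r t : ℝ, 0 < p → p * r - t ^ 2 = 1 → Good (quadR23 h (ν * (1 + h))) p r t) ∨
    109 / 1000 * (1 + h) ^ 2 ≤ h * (ν ^ 2 - 1)

theorem testR23_sound (k : Nat) (l s : Int) (X Y : TM) (x y u v : ℝ) (hx : |x| ≤ 1) (hy : |y| ≤ 1)
    (hX : Mem x y X u) (hY : Mem x y Y v) (h : testR23 k l s X Y = true) : PR23 u v := by
  unfold testR23 lt at h
  have h1 : Mem x y (Alg.cst 1 1) (Alg.cst 1 1) := Mem.cst _ _ (by norm_num)
  match k, s, h with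
  | 0, .ofNat s, h =>
    left
    intro p r t hp hdet
    have e1 : v * (1 + u) = Alg.mul v (Alg.add (Alg.cst 1 1) u) := by
      simp
    rw [e1]
    have hQ := quadR23_rel hx hy hX (Mem.mul hx hy hY (Mem.add h1 hX))
    have hl := posAll_sound hx hy (certList_rel hx hy l (.ofNat s) hQ) h
    exact good_of_cert _ l (.ofNat s) (Int.natCast_nonneg s) hl p r t hp hdet
  | 0, .negSucc s, h => exact absurd h (by simp)
  | k + 1, _, h =>
    right
    have h2 : Mem x y (Alg.sub (Alg.mul X (Alg.sub (Alg.mul Y Y) (Alg.cst 1 1)))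
      (Alg.sc 109 1000 (Alg.mul (Alg.add (Alg.cst 1 1) X) (Alg.add (Alg.cst 1 1) X))))
      (Alg.sub (Alg.mul u (Alg.sub (Alg.mul v v) (Alg.cst 1 1)))
      (Alg.sc 109 1000 (Alg.mul (Alg.add (Alg.cst 1 1) u) (Alg.add (Alg.cst 1 1) u)))) := by
      (with_reducible repeat' (first | assumption | apply Mem.add | apply Mem.sub | apply Mem.mul | apply Mem.sc | apply Mem.cst | exact Nat.one_pos | decide))
    have h3 := h2.pos hx hy h
    simp only [alg_add, alg_sub, alg_mul, alg_sc, alg_cst] at h3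
    push_cast at h3
    linarith

open Alg in
def testS (k : Nat) (l s : Int) (u v : TM) : Bool :=
  match k with
  | 0 =>
    match s with
    | .ofNat s => posAll (certList l (.ofNat s) (quadS u v))
    | .negSucc _ => false
  | _ => lt (Alg.mul v v) fun y2 => lt (Alg.add (cst 1 1) (Alg.mul u y2)) fun k1 =>
    TM.pos (Alg.sub (Alg.sub u (Alg.mul u y2)) (sc 109 1000 (Alg.mul k1 k1)))

def PS (n y : ℝ) : Prop :=
  (∀ p r t : ℝ, 0 < p → p * r - t ^ 2 = 1 → Good (quadS n y) p r t) ∨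
    109 / 1000 * (1 + n * y ^ 2) ^ 2 ≤ n - n * y ^ 2

theorem testS_sound (k : Nat) (l s : Int) (X Y : TM) (x y u v : ℝ) (hx : |x| ≤ 1) (hy : |y| ≤ 1)
    (hX : Mem x y X u) (hY : Mem x y Y v) (h : testS k l s X Y = true) : PS u v := by
  unfold testS at h
  match k, s, h with
  | 0, .ofNat s, h =>
    left
    intro p r t hp hdet
    have hQ := quadS_rel hx hy hX hY
    have hl := posAll_sound hx hy (certList_rel hx hy l (.ofNat s) hQ) h
    exact good_of_cert _ l (.ofNat s) (Int.natCast_nonneg s) hl p r t hp hdet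
  | 0, .negSucc s, h => exact absurd h (by simp)
  | k + 1, _, h =>
    right
    unfold lt at h
    have h1 : Mem x y (Alg.cst 1 1) (Alg.cst 1 1) := Mem.cst _ _ (by norm_num)
    have h2 : Mem x y (Alg.sub (Alg.sub X (Alg.mul X (Alg.mul Y Y)))
      (Alg.sc 109 1000 (Alg.mul (Alg.add (Alg.cst 1 1) (Alg.mul X (Alg.mul Y Y)))
        (Alg.add (Alg.cst 1 1) (Alg.mul X (Alg.mul Y Y))))))
      (Alg.sub (Alg.sub u (Alg.mul u (Alg.mul v v)))
      (Alg.sc 109 1000 (Alg.mul (Alg.add (Alg.cst 1 1) (Alg.mul u (Alg.mul v v)))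
        (Alg.add (Alg.cst 1 1) (Alg.mul u (Alg.mul v v)))))) := by
      (with_reducible repeat' (first | assumption | apply Mem.add | apply Mem.sub | apply Mem.mul | apply Mem.sc | apply Mem.cst | exact Nat.one_pos | decide))
    have h3 := h2.pos hx hy h
    simp only [alg_add, alg_sub, alg_mul, alg_sc, alg_cst] at h3
    push_cast at h3
    nlinarith

end Pool.Agent.Helper238
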