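import Pool.Agent.Helper238.FinR1

set_option autoImplicit false

open MeasureTheory Set

namespace Pool.Agent.Helper238

theorem ii_add {f g : ℝ → ℝ} (hf : Continuous f) (hg : Continuous g) (a b : ℝ) :
    ∫ x in a..b, (f x + g x) = (∫ x in a..b, f x) + ∫ x in a..b, g x :=
  intervalIntegral.integral_add (hf.intervalIntegrable _ _) (hg.intervalIntegrable _ _)

theorem int_sym (g : ℝ → ℝ) (hg : Continuous g) (h : ℝ) :
    ∫ x in (-h)..h, g x = ∫ x in (0:ℝ)..h, (g x + g (-x)) := by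
  rw [ii_add hg (by fun_prop)]
  have h1 : ∫ x in (0:ℝ)..h, g (-x) = ∫ x in (-h)..(0:ℝ), g x := by
    rw [intervalIntegral.integral_comp_neg]; simp
  rw [h1, add_comm, intervalIntegral.integral_add_adjacent_intervals (hg.intervalIntegrable _ _)
    (hg.intervalIntegrable _ _)]

/-- iterated integral over the centred square as an integral over the quarter -/
theorem dint_quarter (F : ℝ → ℝ → ℝ) (hF : Continuous (Function.uncurry F)) :
    ∫ u in (-(1/2) : ℝ)..(1/2), ∫ v in (-(1/2) : ℝ)..(1/2), F u v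
      = ∫ u in (0 : ℝ)..(1/2), ∫ v in (0 : ℝ)..(1/2),
        (F u v + F (-u) v + F u (-v) + F (-u) (-v)) := by
  have hF' : Continuous fun z : ℝ × ℝ => F z.1 z.2 := hF
  have hc : Continuous fun u => ∫ v in (-(1/2) : ℝ)..(1/2), F u v :=
    intervalIntegral.continuous_parametric_intervalIntegral_of_continuous' hF _ _
  rw [int_sym _ hc]
  congr 1; ext u
  have c1 : ∀ u : ℝ, Continuous fun v => F u v := fun u => hF'.comp (by fun_prop : Continuous fun v : ℝ => (u, v))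
  have c2 : ∀ u : ℝ, Continuous fun v => F u (-v) := fun u =>
    hF'.comp (by fun_prop : Continuous fun v : ℝ => (u, -v))
  have c3 : Continuous fun v => F u v + F u (-v) := (c1 u).add (c2 u)
  have c4 : Continuous fun v => F (-u) v + F (-u) (-v) := (c1 (-u)).add (c2 (-u))
  rw [int_sym _ (c1 u), int_sym _ (c1 (-u)), ← ii_add c3 c4]
  congr 1; ext v
  ring

/-- comparison of iterated integrals -/
theorem dint_abs_le (F G : ℝ → ℝ → ℝ) (hF : Continuous (Function.uncurry F))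
    (hG : Continuous (Function.uncurry G)) {a b : ℝ} (hab : a ≤ b)
    (h : ∀ u ∈ Icc a b, ∀ v ∈ Icc a b, |F u v| ≤ G u v) :
    |∫ u in a..b, ∫ v in a..b, F u v| ≤ ∫ u in a..b, ∫ v in a..b, G u v := by
  have hF' : Continuous fun z : ℝ × ℝ => F z.1 z.2 := hF
  have hG' : Continuous fun z : ℝ × ℝ => G z.1 z.2 := hG
  have c1 : ∀ u : ℝ, Continuous fun v => F u v := fun u => hF'.comp (by fun_prop : Continuous fun v : ℝ => (u, v))
  have c2 : ∀ u : ℝ, Continuous fun v => G u v := fun u => hG'.comp (by fun_prop : Continuous fun v : ℝ => (u, v))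
  have hc : Continuous fun u => ∫ v in a..b, F u v :=
    intervalIntegral.continuous_parametric_intervalIntegral_of_continuous' hF _ _
  have hd : Continuous fun u => ∫ v in a..b, G u v :=
    intervalIntegral.continuous_parametric_intervalIntegral_of_continuous' hG _ _
  refine (intervalIntegral.abs_integral_le_integral_abs hab).trans ?_
  refine intervalIntegral.integral_mono_on hab (hc.abs.intervalIntegrable _ _)
    (hd.intervalIntegrable _ _) ?_
  intro u hu
  refine (intervalIntegral.abs_integral_le_integral_abs hab).trans ?_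
  exact intervalIntegral.integral_mono_on hab ((c1 u).abs.intervalIntegrable _ _)
    ((c2 u).intervalIntegrable _ _) (fun v hv => h u hu v hv)

theorem JQ_eq_set (w1 w2 : ℝ) (φ : ℝ → ℝ → ℝ) (hφ : Continuous (fun z : ℝ × ℝ => φ z.1 z.2)) :
    JQ w1 w2 φ = ∫ z in Oc, (1 + w1 * z.2 + w2 * z.1) * φ (z.1 * (1 + w1 * z.2)) (z.2 * (1 + w2 * z.1)) := by
  have hc : Continuous fun z : ℝ × ℝ => (1 + w1 * z.2 + w2 * z.1) *
      φ (z.1 * (1 + w1 * z.2)) (z.2 * (1 + w2 * z.1)) := by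
    have : Continuous fun z : ℝ × ℝ => φ (z.1 * (1 + w1 * z.2)) (z.2 * (1 + w2 * z.1)) :=
      hφ.comp (by fun_prop : Continuous fun z : ℝ × ℝ => (z.1 * (1 + w1 * z.2), z.2 * (1 + w2 * z.1)))
    fun_prop
  rw [Oc, integral_box _ _ _ _ (by norm_num) (by norm_num) _ hc]
  rfl

theorem JQ_swap (w1 w2 : ℝ) (φ : ℝ → ℝ → ℝ) (hφ : Continuous (fun z : ℝ × ℝ => φ z.1 z.2)) :
    JQ w1 w2 φ = JQ w2 w1 (fun x y => φ y x) := by
  have hφ' : Continuous (fun z : ℝ × ℝ => φ z.2 z.1) := hφ.comp continuous_swap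
  rw [JQ_eq_set w1 w2 φ hφ, JQ_eq_set w2 w1 (fun x y => φ y x) hφ', Oc, Measure.volume_eq_prod,
    ← setIntegral_prod_swap]
  refine integral_congr_ae (Filter.Eventually.of_forall fun z => ?_)
  simp only [Prod.fst_swap, Prod.snd_swap]
  ring

theorem JQ_lin (w1 w2 : ℝ) (φ ψ : ℝ → ℝ → ℝ) (hφ : Continuous (fun z : ℝ × ℝ => φ z.1 z.2))
    (hψ : Continuous (fun z : ℝ × ℝ => ψ z.1 z.2)) (α β : ℝ) :
    JQ w1 w2 (fun x y => α * φ x y + β * ψ x y) = α * JQ w1 w2 φ + β * JQ w1 w2 ψ := by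
  rw [JQ_eq_set w1 w2 φ hφ, JQ_eq_set w1 w2 ψ hψ,
    JQ_eq_set w1 w2 (fun x y => α * φ x y + β * ψ x y) (by fun_prop)]
  have key : ∀ χ : ℝ → ℝ → ℝ, Continuous (fun z : ℝ × ℝ => χ z.1 z.2) →
      IntegrableOn (fun z : ℝ × ℝ => (1 + w1 * z.2 + w2 * z.1) *
      χ (z.1 * (1 + w1 * z.2)) (z.2 * (1 + w2 * z.1))) Oc volume := by
    intro χ hχ
    have hc : Continuous fun z : ℝ × ℝ => (1 + w1 * z.2 + w2 * z.1) *
      χ (z.1 * (1 + w1 * z.2)) (z.2 * (1 + w2 * z.1)) := by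
      have : Continuous fun z : ℝ × ℝ => χ (z.1 * (1 + w1 * z.2)) (z.2 * (1 + w2 * z.1)) :=
        hχ.comp (by fun_prop : Continuous fun z : ℝ × ℝ => (z.1 * (1 + w1 * z.2), z.2 * (1 + w2 * z.1)))
      fun_prop
    exact (hc.continuousOn.integrableOn_compact (isCompact_Icc.prod isCompact_Icc)).mono_set
      (prod_mono Ioo_subset_Icc_self Ioo_subset_Icc_self)
  rw [← integral_const_mul, ← integral_const_mul,
    ← integral_add ((key φ hφ).const_mul α) ((key ψ hψ).const_mul β)]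
  refine integral_congr_ae (Filter.Eventually.of_forall fun z => ?_)
  simp only
  ring

/-- quarter form of `JQ` -/
theorem JQ_quarter (w1 w2 : ℝ) (φ : ℝ → ℝ → ℝ) (hφ : Continuous (fun z : ℝ × ℝ => φ z.1 z.2)) :
    JQ w1 w2 φ = ∫ u in (0 : ℝ)..(1/2), ∫ v in (0 : ℝ)..(1/2),
      ((1 + w1 * v + w2 * u) * φ (u * (1 + w1 * v)) (v * (1 + w2 * u))
      + (1 + w1 * v - w2 * u) * φ (-(u * (1 + w1 * v))) (v * (1 - w2 * u))
      + (1 - w1 * v + w2 * u) * φ (u * (1 - w1 * v)) (-(v * (1 + w2 * u)))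
      + (1 - w1 * v - w2 * u) * φ (-(u * (1 - w1 * v))) (-(v * (1 - w2 * u)))) := by
  have hc : Continuous fun z : ℝ × ℝ => (1 + w1 * z.2 + w2 * z.1) *
      φ (z.1 * (1 + w1 * z.2)) (z.2 * (1 + w2 * z.1)) := by
    have : Continuous fun z : ℝ × ℝ => φ (z.1 * (1 + w1 * z.2)) (z.2 * (1 + w2 * z.1)) :=
      hφ.comp (by fun_prop : Continuous fun z : ℝ × ℝ => (z.1 * (1 + w1 * z.2), z.2 * (1 + w2 * z.1)))
    fun_prop
  unfold JQ
  rw [dint_quarter (fun u v => (1 + w1 * v + w2 * u) * φ (u * (1 + w1 * v)) (v * (1 + w2 * u))) hc]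
  congr 1; ext u
  congr 1; ext v
  have e1 : -u * (1 + w1 * v) = -(u * (1 + w1 * v)) := by ring
  have e2 : v * (1 + w2 * -u) = v * (1 - w2 * u) := by ring
  have e3 : u * (1 + w1 * -v) = u * (1 - w1 * v) := by ring
  have e4 : -v * (1 + w2 * u) = -(v * (1 + w2 * u)) := by ring
  have e5 : -u * (1 + w1 * -v) = -(u * (1 - w1 * v)) := by ring
  have e6 : -v * (1 + w2 * -u) = -(v * (1 - w2 * u)) := by ring
  rw [e1, e2, e3, e4, e5, e6]
  ring

end Pool.Agent.Helper238
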