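import Pool.Agent.Helper238.R0a

set_option autoImplicit false

open MeasureTheory Set

namespace Pool.Agent.Helper238

theorem ii_sub {f g : ℝ → ℝ} (hf : Continuous f) (hg : Continuous g) (a b : ℝ) :
    ∫ x in a..b, (f x - g x) = (∫ x in a..b, f x) - ∫ x in a..b, g x :=
  intervalIntegral.integral_sub (hf.intervalIntegrable _ _) (hg.intervalIntegrable _ _)

theorem dint_sub (F G : ℝ → ℝ → ℝ) (hF : Continuous (Function.uncurry F))
    (hG : Continuous (Function.uncurry G)) (a b : ℝ) :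
    ∫ u in a..b, ∫ v in a..b, (F u v - G u v)
      = (∫ u in a..b, ∫ v in a..b, F u v) - ∫ u in a..b, ∫ v in a..b, G u v := by
  have hF' : Continuous fun z : ℝ × ℝ => F z.1 z.2 := hF
  have hG' : Continuous fun z : ℝ × ℝ => G z.1 z.2 := hG
  have c1 : ∀ u : ℝ, Continuous fun v => F u v := fun u => hF'.comp (by fun_prop : Continuous fun v : ℝ => (u, v))
  have c2 : ∀ u : ℝ, Continuous fun v => G u v := fun u => hG'.comp (by fun_prop : Continuous fun v : ℝ => (u, v))
  have hc : Continuous fun u => ∫ v in a..b, F u v :=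
    intervalIntegral.continuous_parametric_intervalIntegral_of_continuous' hF _ _
  have hd : Continuous fun u => ∫ v in a..b, G u v :=
    intervalIntegral.continuous_parametric_intervalIntegral_of_continuous' hG _ _
  rw [← ii_sub hc hd]
  congr 1; ext u
  rw [ii_sub (c1 u) (c2 u)]

/-- comparison for `JQ` on the quarter square -/
theorem JQ_close (w1 w2 : ℝ) (φ : ℝ → ℝ → ℝ) (hφ : Continuous (fun z : ℝ × ℝ => φ z.1 z.2))
    (M R : ℝ → ℝ → ℝ) (hM : Continuous (Function.uncurry M)) (hR : Continuous (Function.uncurry R))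
    (V W : ℝ) (hV : ∫ u in (0 : ℝ)..(1/2), ∫ v in (0 : ℝ)..(1/2), M u v = V)
    (hW : ∫ u in (0 : ℝ)..(1/2), ∫ v in (0 : ℝ)..(1/2), R u v = W)
    (h : ∀ u ∈ Icc (0:ℝ) (1/2), ∀ v ∈ Icc (0:ℝ) (1/2),
      |((1 + w1 * v + w2 * u) * φ (u * (1 + w1 * v)) (v * (1 + w2 * u))
      + (1 + w1 * v - w2 * u) * φ (-(u * (1 + w1 * v))) (v * (1 - w2 * u))
      + (1 - w1 * v + w2 * u) * φ (u * (1 - w1 * v)) (-(v * (1 + w2 * u)))
      + (1 - w1 * v - w2 * u) * φ (-(u * (1 - w1 * v))) (-(v * (1 - w2 * u)))) - M u v| ≤ R u v) :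
    |JQ w1 w2 φ - V| ≤ W := by
  rw [JQ_quarter w1 w2 φ hφ, ← hV, ← hW]
  have k1 : Continuous fun z : ℝ × ℝ => φ (z.1 * (1 + w1 * z.2)) (z.2 * (1 + w2 * z.1)) :=
    hφ.comp (by fun_prop : Continuous fun z : ℝ × ℝ => (z.1 * (1 + w1 * z.2), z.2 * (1 + w2 * z.1)))
  have k2 : Continuous fun z : ℝ × ℝ => φ (-(z.1 * (1 + w1 * z.2))) (z.2 * (1 - w2 * z.1)) :=
    hφ.comp (by fun_prop : Continuous fun z : ℝ × ℝ => (-(z.1 * (1 + w1 * z.2)), z.2 * (1 - w2 * z.1)))
  have k3 : Continuous fun z : ℝ × ℝ => φ (z.1 * (1 - w1 * z.2)) (-(z.2 * (1 + w2 * z.1))) :=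
    hφ.comp (by fun_prop : Continuous fun z : ℝ × ℝ => (z.1 * (1 - w1 * z.2), -(z.2 * (1 + w2 * z.1))))
  have k4 : Continuous fun z : ℝ × ℝ => φ (-(z.1 * (1 - w1 * z.2))) (-(z.2 * (1 - w2 * z.1))) :=
    hφ.comp (by fun_prop : Continuous fun z : ℝ × ℝ => (-(z.1 * (1 - w1 * z.2)), -(z.2 * (1 - w2 * z.1))))
  have hQ : Continuous (Function.uncurry fun u v : ℝ =>
      ((1 + w1 * v + w2 * u) * φ (u * (1 + w1 * v)) (v * (1 + w2 * u))
      + (1 + w1 * v - w2 * u) * φ (-(u * (1 + w1 * v))) (v * (1 - w2 * u))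
      + (1 - w1 * v + w2 * u) * φ (u * (1 - w1 * v)) (-(v * (1 + w2 * u)))
      + (1 - w1 * v - w2 * u) * φ (-(u * (1 - w1 * v))) (-(v * (1 - w2 * u))))) := by
    unfold Function.uncurry
    simp only
    fun_prop
  rw [← dint_sub _ _ hQ hM]
  have hQM : Continuous (Function.uncurry fun u v : ℝ =>
      ((1 + w1 * v + w2 * u) * φ (u * (1 + w1 * v)) (v * (1 + w2 * u))
      + (1 + w1 * v - w2 * u) * φ (-(u * (1 + w1 * v))) (v * (1 - w2 * u))
      + (1 - w1 * v + w2 * u) * φ (u * (1 - w1 * v)) (-(v * (1 + w2 * u)))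
      + (1 - w1 * v - w2 * u) * φ (-(u * (1 - w1 * v))) (-(v * (1 - w2 * u)))) - M u v) := by
    have := hQ.sub hM
    exact this
  exact dint_abs_le _ _ hQM hR (by norm_num) h

open Real

/-- (Y1) -/
theorem JQ_cos2 (w1 w2 : ℝ) : JQ w1 w2 (fun _ y => cos (2 * π * y)) = 0 := by
  have h := JQ_close w1 w2 (fun _ y => cos (2 * π * y)) (by fun_prop)
    (fun u v => 2 * (1 + w2 * u) * cos (2 * π * (v * (1 + w2 * u)))
      + 2 * (1 - w2 * u) * cos (2 * π * (v * (1 - w2 * u)))) (fun _ _ => 0)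
    (by unfold Function.uncurry; simp only; fun_prop) (by unfold Function.uncurry; simp only; fun_prop) 0 0 ?_ (by simp) ?_
  · have := abs_nonneg (JQ w1 w2 (fun _ y => cos (2 * π * y)) - 0)
    have h2 := le_antisymm h this
    rw [sub_zero, abs_eq_zero] at h2
    exact h2
  · have key : ∀ u : ℝ, ∫ v in (0 : ℝ)..(1/2), (2 * (1 + w2 * u) * cos (2 * π * (v * (1 + w2 * u)))
      + 2 * (1 - w2 * u) * cos (2 * π * (v * (1 - w2 * u)))) = 0 := by
      intro u
      have hd : ∀ v ∈ uIcc (0:ℝ) (1/2), HasDerivAt (fun v : ℝ => (1 / π) *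
          (sin (2 * π * (v * (1 + w2 * u))) + sin (2 * π * (v * (1 - w2 * u)))))
          (2 * (1 + w2 * u) * cos (2 * π * (v * (1 + w2 * u)))
            + 2 * (1 - w2 * u) * cos (2 * π * (v * (1 - w2 * u)))) v := by
        intro v _
        have e1 : HasDerivAt (fun v : ℝ => 2 * π * (v * (1 + w2 * u))) (2 * π * (1 * (1 + w2 * u))) v :=
          ((hasDerivAt_id v).mul_const _).const_mul _
        have e2 : HasDerivAt (fun v : ℝ => 2 * π * (v * (1 - w2 * u))) (2 * π * (1 * (1 - w2 * u))) v :=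
          ((hasDerivAt_id v).mul_const _).const_mul _
        have := (e1.sin.add e2.sin).const_mul (1 / π)
        refine this.congr_deriv ?_
        have := Real.pi_ne_zero
        field_simp
      rw [intervalIntegral.integral_eq_sub_of_hasDerivAt hd
        ((by fun_prop : Continuous fun v : ℝ => (2 * (1 + w2 * u) * cos (2 * π * (v * (1 + w2 * u)))
            + 2 * (1 - w2 * u) * cos (2 * π * (v * (1 - w2 * u))))).intervalIntegrable _ _)]
      have e3 : 2 * π * (1 / 2 * (1 + w2 * u)) = π * (w2 * u) + π := by ring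
      have e4 : 2 * π * (1 / 2 * (1 - w2 * u)) = -(π * (w2 * u)) + π := by ring
      rw [e3, e4, Real.sin_add_pi, Real.sin_add_pi, Real.sin_neg]
      simp
    simp_rw [key]
    simp
  · intro u _ v _
    skip
    rw [show 2 * π * -(v * (1 + w2 * u)) = -(2 * π * (v * (1 + w2 * u))) by ring,
      show 2 * π * -(v * (1 - w2 * u)) = -(2 * π * (v * (1 - w2 * u))) by ring, Real.cos_neg,
      Real.cos_neg]
    rw [show (1 + w1 * v + w2 * u) * cos (2 * π * (v * (1 + w2 * u))) +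
            (1 + w1 * v - w2 * u) * cos (2 * π * (v * (1 - w2 * u))) +
          (1 - w1 * v + w2 * u) * cos (2 * π * (v * (1 + w2 * u))) +
        (1 - w1 * v - w2 * u) * cos (2 * π * (v * (1 - w2 * u))) -
      (2 * (1 + w2 * u) * cos (2 * π * (v * (1 + w2 * u))) +
        2 * (1 - w2 * u) * cos (2 * π * (v * (1 - w2 * u)))) = 0 by ring]
    simp

theorem JQ_cossq_y (w1 w2 : ℝ) : JQ w1 w2 (fun _ y => cos (π * y) * cos (π * y)) = 1 / 2 := by
  have e : (fun _ y : ℝ => cos (π * y) * cos (π * y)) =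
      (fun x y : ℝ => 1 / 2 * ((fun _ _ => (1:ℝ)) x y) + 1 / 2 * (fun _ y => cos (2 * π * y)) x y) := by
    ext x y
    simp only
    rw [show 2 * π * y = 2 * (π * y) by ring, Real.cos_two_mul]
    ring
  rw [e, JQ_lin w1 w2 _ _ (by fun_prop) (by fun_prop), JQ_one, JQ_cos2]
  norm_num

theorem JQ_sinsq_y (w1 w2 : ℝ) : JQ w1 w2 (fun _ y => sin (π * y) * sin (π * y)) = 1 / 2 := by
  have e : (fun _ y : ℝ => sin (π * y) * sin (π * y)) =
      (fun x y : ℝ => 1 / 2 * ((fun _ _ => (1:ℝ)) x y) + (-(1 / 2)) * (fun _ y => cos (2 * π * y)) x y) := by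
    ext x y
    simp only
    rw [show 2 * π * y = 2 * (π * y) by ring, Real.cos_two_mul]
    have := Real.sin_sq_add_cos_sq (π * y)
    linear_combination this
  rw [e, JQ_lin w1 w2 _ _ (by fun_prop) (by fun_prop), JQ_one, JQ_cos2]
  norm_num

theorem JQ_cossq_x (w1 w2 : ℝ) : JQ w1 w2 (fun x _ => cos (π * x) * cos (π * x)) = 1 / 2 := by
  rw [JQ_swap _ _ _ (by fun_prop)]; exact JQ_cossq_y w2 w1

theorem JQ_sinsq_x (w1 w2 : ℝ) : JQ w1 w2 (fun x _ => sin (π * x) * sin (π * x)) = 1 / 2 := by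
  rw [JQ_swap _ _ _ (by fun_prop)]; exact JQ_sinsq_y w2 w1

/-- (Y2) -/
theorem JQ_xcosy (w1 w2 : ℝ) :
    |JQ w1 w2 (fun x y => x * cos (π * y))| ≤ 4 * π / 1536 * (w1 ^ 2 * |w2|) := by
  have h := JQ_close w1 w2 (fun x y => x * cos (π * y)) (by fun_prop)
    (fun u v => 2 * u * ((1 + w2 * u) * cos (π * (v * (1 + w2 * u)))
      - (1 - w2 * u) * cos (π * (v * (1 - w2 * u)))))
    (fun u v => 4 * π * (w1 ^ 2 * |w2|) * (u ^ 2 * v ^ 3))
    (by unfold Function.uncurry; simp only; fun_prop) (by unfold Function.uncurry; simp only; fun_prop)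
    0 (4 * π / 1536 * (w1 ^ 2 * |w2|)) ?_ ?_ ?_
  · rw [sub_zero] at h; exact h
  · have key : ∀ u : ℝ, ∫ v in (0 : ℝ)..(1/2), (2 * u * ((1 + w2 * u) * cos (π * (v * (1 + w2 * u)))
      - (1 - w2 * u) * cos (π * (v * (1 - w2 * u))))) = 0 := by
      intro u
      have hd : ∀ v ∈ uIcc (0:ℝ) (1/2), HasDerivAt (fun v : ℝ => (2 * u / π) *
          (sin (π * (v * (1 + w2 * u))) - sin (π * (v * (1 - w2 * u)))))
          (2 * u * ((1 + w2 * u) * cos (π * (v * (1 + w2 * u)))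
      - (1 - w2 * u) * cos (π * (v * (1 - w2 * u))))) v := by
        intro v _
        have e1 : HasDerivAt (fun v : ℝ => π * (v * (1 + w2 * u))) (π * (1 * (1 + w2 * u))) v :=
          ((hasDerivAt_id v).mul_const _).const_mul _
        have e2 : HasDerivAt (fun v : ℝ => π * (v * (1 - w2 * u))) (π * (1 * (1 - w2 * u))) v :=
          ((hasDerivAt_id v).mul_const _).const_mul _
        have := (e1.sin.sub e2.sin).const_mul (2 * u / π)
        refine this.congr_deriv ?_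
        have := Real.pi_ne_zero
        field_simp
      rw [intervalIntegral.integral_eq_sub_of_hasDerivAt hd
        ((by fun_prop : Continuous fun v : ℝ => (2 * u * ((1 + w2 * u) * cos (π * (v * (1 + w2 * u)))
      - (1 - w2 * u) * cos (π * (v * (1 - w2 * u)))))).intervalIntegrable _ _)]
      have e3 : π * (1 / 2 * (1 + w2 * u)) = π * (w2 * u) / 2 + π / 2 := by ring
      have e4 : π * (1 / 2 * (1 - w2 * u)) = π / 2 - (π * (w2 * u) / 2) := by ring
      rw [e3, e4, Real.sin_add_pi_div_two, Real.sin_pi_div_two_sub]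
      simp
    simp_rw [key]
    simp
  · refine dint_eq [[], [], [0, 0, 0, 4 * π * (w1 ^ 2 * |w2|)]] _ ?_ ?_
    · intro u v
      simp only [pv2, pv]; ring
    · simp only [pint2, pint]; norm_num; ring
  · intro u hu v hv
    skip
    rw [show π * -(v * (1 + w2 * u)) = -(π * (v * (1 + w2 * u))) by ring,
      show π * -(v * (1 - w2 * u)) = -(π * (v * (1 - w2 * u))) by ring, Real.cos_neg,
      Real.cos_neg]
    have e : (1 + w1 * v + w2 * u) * (u * (1 + w1 * v) * cos (π * (v * (1 + w2 * u)))) +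
            (1 + w1 * v - w2 * u) * (-(u * (1 + w1 * v)) * cos (π * (v * (1 - w2 * u)))) +
          (1 - w1 * v + w2 * u) * (u * (1 - w1 * v) * cos (π * (v * (1 + w2 * u)))) +
        (1 - w1 * v - w2 * u) * (-(u * (1 - w1 * v)) * cos (π * (v * (1 - w2 * u)))) -
      2 * u * ((1 + w2 * u) * cos (π * (v * (1 + w2 * u))) - (1 - w2 * u) * cos (π * (v * (1 - w2 * u))))
      = (2 * u * (w1 ^ 2 * v ^ 2)) * (cos (π * (v * (1 + w2 * u))) - cos (π * (v * (1 - w2 * u)))) := by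
      ring
    rw [e, abs_mul]
    have h1 := Real.abs_cos_sub_cos_le (π * (v * (1 + w2 * u))) (π * (v * (1 - w2 * u)))
    have h2 : |π * (v * (1 + w2 * u)) - π * (v * (1 - w2 * u))| = 2 * π * v * u * |w2| := by
      rw [show π * (v * (1 + w2 * u)) - π * (v * (1 - w2 * u)) = (2 * π * v * u) * w2 by ring, abs_mul,
        abs_of_nonneg]
      have := Real.pi_pos; have := hu.1; have := hv.1
      positivity
    rw [h2] at h1
    have h3 : |2 * u * (w1 ^ 2 * v ^ 2)| = 2 * u * (w1 ^ 2 * v ^ 2) := by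
      apply abs_of_nonneg
      have := hu.1
      positivity
    rw [h3]
    calc 2 * u * (w1 ^ 2 * v ^ 2) * |cos (π * (v * (1 + w2 * u))) - cos (π * (v * (1 - w2 * u)))|
        ≤ 2 * u * (w1 ^ 2 * v ^ 2) * (2 * π * v * u * |w2|) :=
          mul_le_mul_of_nonneg_left h1 (by have := hu.1; positivity)
      _ = 4 * π * (w1 ^ 2 * |w2|) * (u ^ 2 * v ^ 3) := by ring

theorem JQ_ycosx (w1 w2 : ℝ) :
    |JQ w1 w2 (fun x y => y * cos (π * x))| ≤ 4 * π / 1536 * (w2 ^ 2 * |w1|) := by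
  rw [JQ_swap _ _ _ (by fun_prop)]; exact JQ_xcosy w2 w1

/-- (Y3) -/
theorem JQ_ycosy (w1 w2 : ℝ) (h2 : |w2| ≤ 2) :
    |JQ w1 w2 (fun _ y => y * cos (π * y))| ≤ 1 / 12 * |w1| := by
  have h := JQ_close w1 w2 (fun _ y => y * cos (π * y)) (by fun_prop)
    (fun _ _ => 0)
    (fun _ v => 4 * |w1| * v ^ 2)
    (by unfold Function.uncurry; simp only; fun_prop) (by unfold Function.uncurry; simp only; fun_prop)
    0 (1 / 12 * |w1|) (by simp) ?_ ?_
  · rw [sub_zero] at h; exact h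
  · refine dint_eq [[0, 0, 4 * |w1|]] _ ?_ ?_
    · intro u v
      simp only [pv2, pv]; ring
    · simp only [pint2, pint]; norm_num; ring
  · intro u hu v hv
    skip
    rw [show π * -(v * (1 + w2 * u)) = -(π * (v * (1 + w2 * u))) by ring,
      show π * -(v * (1 - w2 * u)) = -(π * (v * (1 - w2 * u))) by ring, Real.cos_neg,
      Real.cos_neg]
    set A := cos (π * (v * (1 + w2 * u)))
    set B := cos (π * (v * (1 - w2 * u)))
    have e : (1 + w1 * v + w2 * u) * (v * (1 + w2 * u) * A) +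
            (1 + w1 * v - w2 * u) * (v * (1 - w2 * u) * B) +
          (1 - w1 * v + w2 * u) * (-(v * (1 + w2 * u)) * A) +
        (1 - w1 * v - w2 * u) * (-(v * (1 - w2 * u)) * B) - 0
      = (2 * v ^ 2 * w1) * ((1 + w2 * u) * A + (1 - w2 * u) * B) := by
      ring
    rw [e, abs_mul, abs_mul, abs_of_nonneg (by positivity : 0 ≤ 2 * v ^ 2)]
    have hA := abs_le.1 (Real.abs_cos_le_one (π * (v * (1 + w2 * u))))
    have hB := abs_le.1 (Real.abs_cos_le_one (π * (v * (1 - w2 * u))))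
    have hq : |w2 * u| ≤ 1 := by
      rw [abs_mul, abs_of_nonneg hu.1]
      have := hu.1; have := hu.2
      nlinarith [abs_nonneg w2]
    obtain ⟨q1, q2⟩ := abs_le.1 hq
    have h3 : |(1 + w2 * u) * A + (1 - w2 * u) * B| ≤ 2 := by
      rw [abs_le]
      constructor
      · nlinarith [mul_nonneg (by linarith : 0 ≤ 1 + w2 * u) (by linarith [hA.1] : 0 ≤ A + 1),
          mul_nonneg (by linarith : 0 ≤ 1 - w2 * u) (by linarith [hB.1] : 0 ≤ B + 1)]
      · nlinarith [mul_nonneg (by linarith : 0 ≤ 1 + w2 * u) (by linarith [hA.2] : 0 ≤ 1 - A),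
          mul_nonneg (by linarith : 0 ≤ 1 - w2 * u) (by linarith [hB.2] : 0 ≤ 1 - B)]
    calc 2 * v ^ 2 * |w1| * |(1 + w2 * u) * A + (1 - w2 * u) * B|
        ≤ 2 * v ^ 2 * |w1| * 2 := mul_le_mul_of_nonneg_left h3 (by positivity)
      _ = 4 * |w1| * v ^ 2 := by ring

theorem JQ_xcosx (w1 w2 : ℝ) (h1 : |w1| ≤ 2) :
    |JQ w1 w2 (fun x _ => x * cos (π * x))| ≤ 1 / 12 * |w2| := by
  rw [JQ_swap _ _ _ (by fun_prop)]; exact JQ_ycosy w2 w1 h1

/-- (Y4) -/
theorem JQ_siny (w1 w2 : ℝ) :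
    |JQ w1 w2 (fun _ y => sin (π * y))| ≤ 1 / 4 * |w1| := by
  have h := JQ_close w1 w2 (fun _ y => sin (π * y)) (by fun_prop)
    (fun _ _ => 0)
    (fun _ v => 4 * |w1| * v)
    (by unfold Function.uncurry; simp only; fun_prop) (by unfold Function.uncurry; simp only; fun_prop)
    0 (1 / 4 * |w1|) (by simp) ?_ ?_
  · rw [sub_zero] at h; exact h
  · refine dint_eq [[0, 4 * |w1|]] _ ?_ ?_
    · intro u v
      simp only [pv2, pv]; ring
    · simp only [pint2, pint]; norm_num; ring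
  · intro u hu v hv
    skip
    rw [show π * -(v * (1 + w2 * u)) = -(π * (v * (1 + w2 * u))) by ring,
      show π * -(v * (1 - w2 * u)) = -(π * (v * (1 - w2 * u))) by ring, Real.sin_neg,
      Real.sin_neg]
    set A := sin (π * (v * (1 + w2 * u)))
    set B := sin (π * (v * (1 - w2 * u)))
    have e : (1 + w1 * v + w2 * u) * A +
            (1 + w1 * v - w2 * u) * B +
          (1 - w1 * v + w2 * u) * (-A) +
        (1 - w1 * v - w2 * u) * (-B) - 0
      = (2 * v * w1) * (A + B) := by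
      ring
    have hv0 := hv.1
    rw [e, abs_mul, abs_mul, abs_of_nonneg (by positivity : 0 ≤ 2 * v)]
    have hA := abs_le.1 (Real.abs_sin_le_one (π * (v * (1 + w2 * u))))
    have hB := abs_le.1 (Real.abs_sin_le_one (π * (v * (1 - w2 * u))))
    have h3 : |A + B| ≤ 2 := by
      rw [abs_le]
      constructor
      · linarith [hA.1, hB.1]
      · linarith [hA.2, hB.2]
    calc 2 * v * |w1| * |A + B|
        ≤ 2 * v * |w1| * 2 := mul_le_mul_of_nonneg_left h3 (by positivity)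
      _ = 4 * |w1| * v := by ring

theorem JQ_sinx (w1 w2 : ℝ) :
    |JQ w1 w2 (fun x _ => sin (π * x))| ≤ 1 / 4 * |w2| := by
  rw [JQ_swap _ _ _ (by fun_prop)]; exact JQ_siny w2 w1

end Pool.Agent.Helper238
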