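import Pool.Agent.Helper238.R0b

set_option autoImplicit false

open MeasureTheory Set

namespace Pool.Agent.Helper238

open Real

/-- (Y5) -/
theorem JQ_xysiny (w1 w2 : ℝ) :
    |JQ w1 w2 (fun x y => x * y * sin (π * y)) - 1 / 24 * w2|
      ≤ |w2| * (π ^ 2 / 3840 * w2 ^ 2 + (1 / 384 + π / 960) * w1 ^ 2) := by
  have h := JQ_close w1 w2 (fun x y => x * y * sin (π * y)) (by fun_prop)
    (fun u v => 2 * u * v * ((1 + w2 * u) ^ 2 * sin (π * (v * (1 + w2 * u)))
      - (1 - w2 * u) ^ 2 * sin (π * (v * (1 - w2 * u)))))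
    (fun u v => 4 * w1 ^ 2 * |w2| * (u ^ 2 * v ^ 3 * (1 + π * v)))
    (by unfold Function.uncurry; simp only; fun_prop) (by unfold Function.uncurry; simp only; fun_prop)
    (∫ u in (0:ℝ)..(1/2), 2 * u * (sin (π * (w2 * u) / 2) / π))
    (|w2| * ((1 / 384 + π / 960) * w1 ^ 2)) ?_ ?_ ?_
  · have hV : |(∫ u in (0:ℝ)..(1/2), 2 * u * (sin (π * (w2 * u) / 2) / π)) - 1 / 24 * w2|
        ≤ |w2| * (π ^ 2 / 3840 * w2 ^ 2) := by
      have e1 : ∫ u in (0:ℝ)..(1/2), w2 * u ^ 2 = 1 / 24 * w2 := by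
        rw [intervalIntegral.integral_const_mul, integral_pow]; norm_num; ring
      have e2 : ∫ u in (0:ℝ)..(1/2), π ^ 2 * |w2| ^ 3 / 24 * u ^ 4 = |w2| * (π ^ 2 / 3840 * w2 ^ 2) := by
        rw [intervalIntegral.integral_const_mul, integral_pow]
        have : |w2| ^ 3 = |w2| * w2 ^ 2 := by rw [← sq_abs w2]; ring
        rw [this]; norm_num; ring
      rw [← e1, ← ii_sub (by fun_prop) (by fun_prop), ← e2]
      refine (intervalIntegral.abs_integral_le_integral_abs (by norm_num)).trans ?_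
      refine intervalIntegral.integral_mono_on (by norm_num)
        ((by fun_prop : Continuous fun u : ℝ => |2 * u * (sin (π * (w2 * u) / 2) / π) - w2 * u ^ 2|).intervalIntegrable _ _)
        ((by fun_prop : Continuous fun u : ℝ => π ^ 2 * |w2| ^ 3 / 24 * u ^ 4).intervalIntegrable _ _) ?_
      intro u hu
      have hu0 := hu.1
      have hpi := Real.pi_pos
      have h1 := abs_sub_sin_le (π * (w2 * u) / 2)
      have e3 : 2 * u * (sin (π * (w2 * u) / 2) / π) - w2 * u ^ 2
          = -(2 * u / π) * (π * (w2 * u) / 2 - sin (π * (w2 * u) / 2)) := by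
        field_simp; ring
      rw [e3, abs_mul, abs_neg, abs_of_nonneg (by positivity : 0 ≤ 2 * u / π)]
      have e4 : |π * (w2 * u) / 2| = π * u / 2 * |w2| := by
        rw [show π * (w2 * u) / 2 = (π * u / 2) * w2 by ring, abs_mul, abs_of_nonneg (by positivity)]
      rw [e4] at h1
      calc 2 * u / π * |π * (w2 * u) / 2 - sin (π * (w2 * u) / 2)|
          ≤ 2 * u / π * ((π * u / 2 * |w2|) ^ 3 / 6) := mul_le_mul_of_nonneg_left h1 (by positivity)
        _ = π ^ 2 * |w2| ^ 3 / 24 * u ^ 4 := by field_simp; ring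
    have hfin := abs_add_le (JQ w1 w2 (fun x y => x * y * sin (π * y))
      - (∫ u in (0:ℝ)..(1/2), 2 * u * (sin (π * (w2 * u) / 2) / π)))
      ((∫ u in (0:ℝ)..(1/2), 2 * u * (sin (π * (w2 * u) / 2) / π)) - 1 / 24 * w2)
    rw [sub_add_sub_cancel] at hfin
    linarith
  · congr 1; ext u
    have hd : ∀ v ∈ uIcc (0:ℝ) (1/2), HasDerivAt (fun v : ℝ => 2 * u *
        ((-(v * (1 + w2 * u)) * cos (π * (v * (1 + w2 * u))) / π + sin (π * (v * (1 + w2 * u))) / π ^ 2)
        - (-(v * (1 - w2 * u)) * cos (π * (v * (1 - w2 * u))) / π + sin (π * (v * (1 - w2 * u))) / π ^ 2)))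
        (2 * u * v * ((1 + w2 * u) ^ 2 * sin (π * (v * (1 + w2 * u)))
      - (1 - w2 * u) ^ 2 * sin (π * (v * (1 - w2 * u))))) v := by
      intro v _
      have f1 : HasDerivAt (fun v : ℝ => v * (1 + w2 * u)) (1 * (1 + w2 * u)) v :=
        (hasDerivAt_id v).mul_const _
      have f2 : HasDerivAt (fun v : ℝ => v * (1 - w2 * u)) (1 * (1 - w2 * u)) v :=
        (hasDerivAt_id v).mul_const _
      have e1 : HasDerivAt (fun v : ℝ => π * (v * (1 + w2 * u))) (π * (1 * (1 + w2 * u))) v :=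
        f1.const_mul _
      have e2 : HasDerivAt (fun v : ℝ => π * (v * (1 - w2 * u))) (π * (1 * (1 - w2 * u))) v :=
        f2.const_mul _
      have g1 := ((f1.neg.mul e1.cos).div_const π).add (e1.sin.div_const (π ^ 2))
      have g2 := ((f2.neg.mul e2.cos).div_const π).add (e2.sin.div_const (π ^ 2))
      have := (g1.sub g2).const_mul (2 * u)
      refine this.congr_deriv ?_
      have := Real.pi_ne_zero
      simp only [Pi.neg_apply]
      field_simp
      ring
    rw [intervalIntegral.integral_eq_sub_of_hasDerivAt hd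
      ((by fun_prop : Continuous fun v : ℝ => (2 * u * v * ((1 + w2 * u) ^ 2 * sin (π * (v * (1 + w2 * u)))
      - (1 - w2 * u) ^ 2 * sin (π * (v * (1 - w2 * u)))))).intervalIntegrable _ _)]
    have e3 : π * (1 / 2 * (1 + w2 * u)) = π * (w2 * u) / 2 + π / 2 := by ring
    have e4 : π * (1 / 2 * (1 - w2 * u)) = π / 2 - (π * (w2 * u) / 2) := by ring
    rw [e3, e4, Real.sin_add_pi_div_two, Real.sin_pi_div_two_sub, Real.cos_add_pi_div_two,
      Real.cos_pi_div_two_sub]
    simp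
    left
    ring
  · refine dint_eq [[], [], [0, 0, 0, 4 * w1 ^ 2 * |w2|, 4 * w1 ^ 2 * |w2| * π]] _ ?_ ?_
    · intro u v
      simp only [pv2, pv]; ring
    · simp only [pint2, pint]; norm_num; ring
  · intro u hu v hv
    rw [show π * -(v * (1 + w2 * u)) = -(π * (v * (1 + w2 * u))) by ring,
      show π * -(v * (1 - w2 * u)) = -(π * (v * (1 - w2 * u))) by ring, Real.sin_neg,
      Real.sin_neg]
    have e : (1 + w1 * v + w2 * u) * (u * (1 + w1 * v) * (v * (1 + w2 * u)) * sin (π * (v * (1 + w2 * u)))) +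
            (1 + w1 * v - w2 * u) * (-(u * (1 + w1 * v)) * (v * (1 - w2 * u)) * sin (π * (v * (1 - w2 * u)))) +
          (1 - w1 * v + w2 * u) * (u * (1 - w1 * v) * -(v * (1 + w2 * u)) * -sin (π * (v * (1 + w2 * u)))) +
        (1 - w1 * v - w2 * u) * (-(u * (1 - w1 * v)) * -(v * (1 - w2 * u)) * -sin (π * (v * (1 - w2 * u)))) -
      2 * u * v * ((1 + w2 * u) ^ 2 * sin (π * (v * (1 + w2 * u))) - (1 - w2 * u) ^ 2 * sin (π * (v * (1 - w2 * u))))
      = (2 * u * v * (w1 ^ 2 * v ^ 2)) * ((sin (π * (v * (1 + w2 * u))) - sin (π * (v * (1 - w2 * u))))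
        + (w2 * u) * (sin (π * (v * (1 + w2 * u))) + sin (π * (v * (1 - w2 * u))))) := by
      ring
    rw [e, abs_mul]
    have hu0 := hu.1
    have hv0 := hv.1
    have hpi := Real.pi_pos
    have h1 := Real.abs_sin_sub_sin_le (π * (v * (1 + w2 * u))) (π * (v * (1 - w2 * u)))
    have h2 : |π * (v * (1 + w2 * u)) - π * (v * (1 - w2 * u))| = 2 * π * v * u * |w2| := by
      rw [show π * (v * (1 + w2 * u)) - π * (v * (1 - w2 * u)) = (2 * π * v * u) * w2 by ring, abs_mul,
        abs_of_nonneg (by positivity)]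
    rw [h2] at h1
    have h4 : |(w2 * u) * (sin (π * (v * (1 + w2 * u))) + sin (π * (v * (1 - w2 * u))))| ≤ u * |w2| * 2 := by
      rw [abs_mul, abs_mul, abs_of_nonneg hu0, mul_comm (|w2|) u]
      refine mul_le_mul_of_nonneg_left ?_ (by positivity)
      refine (abs_add_le _ _).trans ?_
      have := Real.abs_sin_le_one (π * (v * (1 + w2 * u)))
      have := Real.abs_sin_le_one (π * (v * (1 - w2 * u)))
      linarith
    rw [abs_of_nonneg (by positivity : 0 ≤ 2 * u * v * (w1 ^ 2 * v ^ 2))]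
    have h5 : |(sin (π * (v * (1 + w2 * u))) - sin (π * (v * (1 - w2 * u))))
        + (w2 * u) * (sin (π * (v * (1 + w2 * u))) + sin (π * (v * (1 - w2 * u))))|
        ≤ 2 * π * v * u * |w2| + u * |w2| * 2 := (abs_add_le _ _).trans (by linarith)
    calc _ ≤ 2 * u * v * (w1 ^ 2 * v ^ 2) * (2 * π * v * u * |w2| + u * |w2| * 2) :=
          mul_le_mul_of_nonneg_left h5 (by positivity)
      _ = 4 * w1 ^ 2 * |w2| * (u ^ 2 * v ^ 3 * (1 + π * v)) := by ring

theorem JQ_xysinx (w1 w2 : ℝ) :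
    |JQ w1 w2 (fun x y => x * y * sin (π * x)) - 1 / 24 * w1|
      ≤ |w1| * (π ^ 2 / 3840 * w1 ^ 2 + (1 / 384 + π / 960) * w2 ^ 2) := by
  have := JQ_xysiny w2 w1
  rw [JQ_swap _ _ _ (by fun_prop)]
  rw [show (fun x y : ℝ => y * x * sin (π * y)) = (fun x y : ℝ => x * y * sin (π * y)) by
    ext x y; ring]
  exact this

theorem sc_diff (π' v q : ℝ) (hv : 0 ≤ v) (hp : 0 ≤ π') :
    |π' * (v * (1 + q)) - π' * (v * (1 - q))| = 2 * π' * v * |q| := by
  rw [show π' * (v * (1 + q)) - π' * (v * (1 - q)) = (2 * π' * v) * q by ring, abs_mul,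
    abs_of_nonneg (by positivity)]

/-- (6) -/
theorem JQ_sinsin (w1 w2 : ℝ) :
    |JQ w1 w2 (fun x y => sin (π * x) * sin (π * y))|
      ≤ (π ^ 2 / 144 + π / 24) * |w1 * w2| := by
  have h := JQ_close w1 w2 (fun x y => sin (π * x) * sin (π * y)) (by fun_prop)
    (fun _ _ => 0)
    (fun u v => |w1 * w2| * (4 * π ^ 2 * (u ^ 2 * v ^ 2) + 4 * π * (u ^ 2 * v + u * v ^ 2)))
    (by unfold Function.uncurry; simp only; fun_prop) (by unfold Function.uncurry; simp only; fun_prop)
    0 ((π ^ 2 / 144 + π / 24) * |w1 * w2|) (by simp) ?_ ?_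
  · rw [sub_zero] at h; exact h
  · refine dint_eq [[], [0, 0, 4 * π * |w1 * w2|], [0, 4 * π * |w1 * w2|, 4 * π ^ 2 * |w1 * w2|]] _ ?_ ?_
    · intro u v
      simp only [pv2, pv]; ring
    · simp only [pint2, pint]; norm_num; ring
  · intro u hu v hv
    have hu0 := hu.1
    have hv0 := hv.1
    have hpi := Real.pi_pos
    rw [show π * -(v * (1 + w2 * u)) = -(π * (v * (1 + w2 * u))) by ring,
      show π * -(v * (1 - w2 * u)) = -(π * (v * (1 - w2 * u))) by ring,
      show π * -(u * (1 + w1 * v)) = -(π * (u * (1 + w1 * v))) by ring,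
      show π * -(u * (1 - w1 * v)) = -(π * (u * (1 - w1 * v))) by ring,
      Real.sin_neg, Real.sin_neg, Real.sin_neg, Real.sin_neg]
    have hA := Real.abs_sin_le_one (π * (v * (1 + w2 * u)))
    have hB := Real.abs_sin_le_one (π * (v * (1 - w2 * u)))
    have hC := Real.abs_sin_le_one (π * (u * (1 + w1 * v)))
    have hD := Real.abs_sin_le_one (π * (u * (1 - w1 * v)))
    have hAB := (Real.abs_sin_sub_sin_le (π * (v * (1 + w2 * u))) (π * (v * (1 - w2 * u)))).trans_eq
      (sc_diff π v (w2 * u) hv0 hpi.le)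
    have hCD := (Real.abs_sin_sub_sin_le (π * (u * (1 + w1 * v))) (π * (u * (1 - w1 * v)))).trans_eq
      (sc_diff π u (w1 * v) hu0 hpi.le)
    generalize sin (π * (v * (1 + w2 * u))) = A at *
    generalize sin (π * (v * (1 - w2 * u))) = B at *
    generalize sin (π * (u * (1 + w1 * v))) = C at *
    generalize sin (π * (u * (1 - w1 * v))) = D at *
    have e : (1 + w1 * v + w2 * u) * (C * A) + (1 + w1 * v - w2 * u) * (-C * B) +
          (1 - w1 * v + w2 * u) * (D * -A) + (1 - w1 * v - w2 * u) * (-D * -B) - 0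
        = (C - D) * (A - B) + (w1 * v) * ((C + D) * (A - B)) + (w2 * u) * ((C - D) * (A + B)) := by
      ring
    rw [e]
    have hApB : |A + B| ≤ 2 := (abs_add_le _ _).trans (by linarith)
    have hCpD : |C + D| ≤ 2 := (abs_add_le _ _).trans (by linarith)
    have t1 : |(C - D) * (A - B)| ≤ (2 * π * u * |w1 * v|) * (2 * π * v * |w2 * u|) := by
      rw [abs_mul]; exact mul_le_mul hCD hAB (abs_nonneg _) (by positivity)
    have t2 : |(w1 * v) * ((C + D) * (A - B))| ≤ |w1 * v| * (2 * (2 * π * v * |w2 * u|)) := by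
      rw [abs_mul, abs_mul (C + D)]
      exact mul_le_mul_of_nonneg_left (mul_le_mul hCpD hAB (abs_nonneg _) (by positivity)) (abs_nonneg _)
    have t3 : |(w2 * u) * ((C - D) * (A + B))| ≤ |w2 * u| * ((2 * π * u * |w1 * v|) * 2) := by
      rw [abs_mul, abs_mul (C - D)]
      exact mul_le_mul_of_nonneg_left (mul_le_mul hCD hApB (abs_nonneg _) (by positivity)) (abs_nonneg _)
    have e2 : |w1 * v| = |w1| * v := by rw [abs_mul, abs_of_nonneg hv0]
    have e3 : |w2 * u| = |w2| * u := by rw [abs_mul, abs_of_nonneg hu0]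
    have e4 : |w1 * w2| = |w1| * |w2| := abs_mul _ _
    rw [e2, e3] at t1 t2 t3
    rw [e4]
    refine (abs_add_three _ _ _).trans ?_
    refine (add_le_add (add_le_add t1 t2) t3).trans_eq ?_
    ring

/-- (7) -/
theorem JQ_coscos (w1 w2 : ℝ) :
    |JQ w1 w2 (fun x y => cos (π * x) * cos (π * y)) - 4 / π ^ 2|
      ≤ (π ^ 2 / 288 + π / 48) * (w1 ^ 2 + w2 ^ 2) := by
  have h := JQ_close w1 w2 (fun x y => cos (π * x) * cos (π * y)) (by fun_prop)
    (fun u v => 4 * cos (π * u) * cos (π * v))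
    (fun u v => 2 * π ^ 2 * (w1 ^ 2 + w2 ^ 2) * (u ^ 2 * v ^ 2) + 4 * π * (w1 ^ 2 * (u * v ^ 2) + w2 ^ 2 * (u ^ 2 * v)))
    (by unfold Function.uncurry; simp only; fun_prop) (by unfold Function.uncurry; simp only; fun_prop)
    (4 / π ^ 2) ((π ^ 2 / 288 + π / 48) * (w1 ^ 2 + w2 ^ 2)) ?_ ?_ ?_
  · exact h
  · have k : ∫ v in (0:ℝ)..(1/2), cos (π * v) = 1 / π := by
      have hd : ∀ v ∈ uIcc (0:ℝ) (1/2), HasDerivAt (fun v : ℝ => sin (π * v) / π) (cos (π * v)) v := by
        intro v _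
        have e1 : HasDerivAt (fun v : ℝ => π * v) (π * 1) v := (hasDerivAt_id v).const_mul _
        refine (e1.sin.div_const π).congr_deriv ?_
        have := Real.pi_ne_zero
        field_simp
      rw [intervalIntegral.integral_eq_sub_of_hasDerivAt hd
        ((by fun_prop : Continuous fun v : ℝ => cos (π * v)).intervalIntegrable _ _)]
      rw [show π * (1 / 2) = π / 2 by ring, Real.sin_pi_div_two]
      simp
    simp_rw [intervalIntegral.integral_const_mul, k]
    rw [intervalIntegral.integral_mul_const, intervalIntegral.integral_const_mul, k]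
    have := Real.pi_ne_zero
    field_simp
  · refine dint_eq [[], [0, 0, 4 * π * w1 ^ 2], [0, 4 * π * w2 ^ 2, 2 * π ^ 2 * (w1 ^ 2 + w2 ^ 2)]] _ ?_ ?_
    · intro u v
      simp only [pv2, pv]; ring
    · simp only [pint2, pint]; norm_num; ring
  · intro u hu v hv
    have hu0 := hu.1
    have hv0 := hv.1
    have hpi := Real.pi_pos
    rw [show π * -(v * (1 + w2 * u)) = -(π * (v * (1 + w2 * u))) by ring,
      show π * -(v * (1 - w2 * u)) = -(π * (v * (1 - w2 * u))) by ring,
      show π * -(u * (1 + w1 * v)) = -(π * (u * (1 + w1 * v))) by ring,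
      show π * -(u * (1 - w1 * v)) = -(π * (u * (1 - w1 * v))) by ring,
      Real.cos_neg, Real.cos_neg, Real.cos_neg, Real.cos_neg]
    have hA := Real.abs_cos_le_one (π * (v * (1 + w2 * u)))
    have hB := Real.abs_cos_le_one (π * (v * (1 - w2 * u)))
    have hC := Real.abs_cos_le_one (π * (u * (1 + w1 * v)))
    have hD := Real.abs_cos_le_one (π * (u * (1 - w1 * v)))
    have hAB := (Real.abs_cos_sub_cos_le (π * (v * (1 + w2 * u))) (π * (v * (1 - w2 * u)))).trans_eq
      (sc_diff π v (w2 * u) hv0 hpi.le)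
    have hCD := (Real.abs_cos_sub_cos_le (π * (u * (1 + w1 * v))) (π * (u * (1 - w1 * v)))).trans_eq
      (sc_diff π u (w1 * v) hu0 hpi.le)
    have sAB : cos (π * (v * (1 + w2 * u))) + cos (π * (v * (1 - w2 * u)))
        = 2 * cos (π * v) * cos (π * (v * (w2 * u))) := by
      rw [show π * (v * (1 + w2 * u)) = π * v + π * (v * (w2 * u)) by ring,
        show π * (v * (1 - w2 * u)) = π * v - π * (v * (w2 * u)) by ring, Real.cos_add, Real.cos_sub]
      ring
    have sCD : cos (π * (u * (1 + w1 * v))) + cos (π * (u * (1 - w1 * v)))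
        = 2 * cos (π * u) * cos (π * (u * (w1 * v))) := by
      rw [show π * (u * (1 + w1 * v)) = π * u + π * (u * (w1 * v)) by ring,
        show π * (u * (1 - w1 * v)) = π * u - π * (u * (w1 * v)) by ring, Real.cos_add, Real.cos_sub]
      ring
    have k1 := Real.one_sub_sq_div_two_le_cos (x := π * (v * (w2 * u)))
    have k2 := Real.one_sub_sq_div_two_le_cos (x := π * (u * (w1 * v)))
    have k3 := Real.cos_le_one (π * (v * (w2 * u)))
    have k4 := Real.cos_le_one (π * (u * (w1 * v)))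
    have k8 := Real.abs_cos_le_one (π * (v * (w2 * u)))
    have k9 := Real.abs_cos_le_one (π * (u * (w1 * v)))
    have k5 := Real.abs_cos_le_one (π * u)
    have k6 := Real.abs_cos_le_one (π * v)
    generalize cos (π * (v * (1 + w2 * u))) = A at *
    generalize cos (π * (v * (1 - w2 * u))) = B at *
    generalize cos (π * (u * (1 + w1 * v))) = C at *
    generalize cos (π * (u * (1 - w1 * v))) = D at *
    generalize cos (π * (v * (w2 * u))) = P at *
    generalize cos (π * (u * (w1 * v))) = Q at *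
    generalize cos (π * u) = E at *
    generalize cos (π * v) = F at *
    have e : (1 + w1 * v + w2 * u) * (C * A) + (1 + w1 * v - w2 * u) * (C * B) +
          (1 - w1 * v + w2 * u) * (D * A) + (1 - w1 * v - w2 * u) * (D * B) - 4 * E * F
        = (4 * E * F) * (P * Q - 1) + (w1 * v) * ((C - D) * (A + B)) + (w2 * u) * ((C + D) * (A - B)) := by
      linear_combination (C + D) * sAB + 2 * F * P * sCD
    rw [e]
    have hApB : |A + B| ≤ 2 := (abs_add_le _ _).trans (by linarith)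
    have hCpD : |C + D| ≤ 2 := (abs_add_le _ _).trans (by linarith)
    have k7 : P * Q ≤ 1 ∧ 1 - P * Q ≤ (π * (v * (w2 * u))) ^ 2 / 2 + (π * (u * (w1 * v))) ^ 2 / 2 := by
      constructor
      · have := mul_le_mul k8 k9 (abs_nonneg _) (by norm_num)
        rw [← abs_mul] at this
        linarith [le_abs_self (P * Q)]
      · nlinarith [mul_nonneg (sub_nonneg.2 k3) (sub_nonneg.2 k4)]
    have t1 : |(4 * E * F) * (P * Q - 1)| ≤ 4 * ((π * (v * (w2 * u))) ^ 2 / 2 + (π * (u * (w1 * v))) ^ 2 / 2) := by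
      rw [abs_mul]
      refine mul_le_mul ?_ ?_ (abs_nonneg _) (by norm_num)
      · rw [abs_mul, abs_mul, abs_of_pos (by norm_num : (0:ℝ) < 4)]
        have := mul_le_mul k5 k6 (abs_nonneg _) (by norm_num)
        nlinarith [abs_nonneg E, abs_nonneg F]
      · rw [abs_sub_comm, abs_of_nonneg (by linarith [k7.1])]
        exact k7.2
    have t2 : |(w1 * v) * ((C - D) * (A + B))| ≤ |w1 * v| * ((2 * π * u * |w1 * v|) * 2) := by
      rw [abs_mul, abs_mul (C - D)]
      exact mul_le_mul_of_nonneg_left (mul_le_mul hCD hApB (abs_nonneg _) (by positivity)) (abs_nonneg _)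
    have t3 : |(w2 * u) * ((C + D) * (A - B))| ≤ |w2 * u| * (2 * (2 * π * v * |w2 * u|)) := by
      rw [abs_mul, abs_mul (C + D)]
      exact mul_le_mul_of_nonneg_left (mul_le_mul hCpD hAB (abs_nonneg _) (by positivity)) (abs_nonneg _)
    have e2 : |w1 * v| * |w1 * v| = w1 ^ 2 * v ^ 2 := by rw [abs_mul_abs_self]; ring
    have e3 : |w2 * u| * |w2 * u| = w2 ^ 2 * u ^ 2 := by rw [abs_mul_abs_self]; ring
    refine (abs_add_three _ _ _).trans ?_
    refine (add_le_add (add_le_add t1 t2) t3).trans_eq ?_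
    linear_combination (4 * π * u) * e2 + (4 * π * v) * e3

/-- polynomial moment -/
theorem JQ_xxyy (w1 w2 : ℝ) : JQ w1 w2 (fun x y => (x * y) * (x * y)) = 1 / 144 + 1 / 320 * w2 ^ 2 + 1 / 320 * w1 ^ 2 + 1 / 1280 * w1 ^ 2 * w2 ^ 2 := by
  unfold JQ
  refine dint_eq
    [[], [], [0, 0, 1, 3 * w1, 3 * w1 ^ 2, w1 ^ 3], [0, 0, 3 * w2, 8 * w1 * w2, 7 * w1 ^ 2 * w2, 2 *
    w1 ^ 3 * w2], [0, 0, 3 * w2 ^ 2, 7 * w1 * w2 ^ 2, 5 * w1 ^ 2 * w2 ^ 2, w1 ^ 3 * w2 ^ 2], [0,
    0, w2 ^ 3, 2 * w1 * w2 ^ 3, w1 ^ 2 * w2 ^ 3]] _ ?_ ?_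
  · intro u v
    simp only [pv2, pv]; ring
  · simp only [pint2, pint]; norm_num; try ring

end Pool.Agent.Helper238
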