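import Pool.Agent.Helper238.R0c

set_option autoImplicit false

open MeasureTheory Set

namespace Pool.Agent.Helper238

open Real

/-- first trigonometric trial function -/
noncomputable def TSa (w1 : ℝ) : TF where
  φ := fun x y => sin (π * x) + 3 * w1 * (x * y)
  φ1 := fun x y => π * cos (π * x) + 3 * w1 * y
  φ2 := fun x _ => 3 * w1 * x
  smooth := by fun_prop
  deriv := by
    intro z
    have h1 := (hasFDerivAt_fst (𝕜 := ℝ) (E := ℝ) (F := ℝ) (p := z))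
    have h2 := (hasFDerivAt_snd (𝕜 := ℝ) (E := ℝ) (F := ℝ) (p := z))
    have := ((h1.const_mul π).sin).add ((h1.mul h2).const_mul (3 * w1))
    refine this.congr_fderiv ?_
    ext <;> simp <;> ring
  cont1 := by fun_prop
  cont2 := by fun_prop

/-- second trigonometric trial function -/
noncomputable def TSb (w2 : ℝ) : TF where
  φ := fun x y => sin (π * y) + 3 * w2 * (x * y)
  φ1 := fun _ y => 3 * w2 * y
  φ2 := fun x y => π * cos (π * y) + 3 * w2 * x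
  smooth := by fun_prop
  deriv := by
    intro z
    have h1 := (hasFDerivAt_fst (𝕜 := ℝ) (E := ℝ) (F := ℝ) (p := z))
    have h2 := (hasFDerivAt_snd (𝕜 := ℝ) (E := ℝ) (F := ℝ) (p := z))
    have := ((h2.const_mul π).sin).add ((h1.mul h2).const_mul (3 * w2))
    refine this.congr_fderiv ?_
    ext <;> simp <;> ring
  cont1 := by fun_prop
  cont2 := by fun_prop

theorem JQ_smul (w1 w2 : ℝ) (φ : ℝ → ℝ → ℝ) (hφ : Continuous (fun z : ℝ × ℝ => φ z.1 z.2)) (α : ℝ) :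
    JQ w1 w2 (fun x y => α * φ x y) = α * JQ w1 w2 φ := by
  have := JQ_lin w1 w2 φ φ hφ hφ α 0
  simpa using this

theorem JQ_lin3 (w1 w2 : ℝ) (φ ψ χ : ℝ → ℝ → ℝ) (hφ : Continuous (fun z : ℝ × ℝ => φ z.1 z.2))
    (hψ : Continuous (fun z : ℝ × ℝ => ψ z.1 z.2)) (hχ : Continuous (fun z : ℝ × ℝ => χ z.1 z.2))
    (α β γ : ℝ) :
    JQ w1 w2 (fun x y => α * φ x y + β * ψ x y + γ * χ x y)
      = α * JQ w1 w2 φ + β * JQ w1 w2 ψ + γ * JQ w1 w2 χ := by
  have h1 := JQ_lin w1 w2 (fun x y => α * φ x y + β * ψ x y) χ (by fun_prop) hχ 1 γ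
  simp only [one_mul] at h1
  rw [h1, JQ_lin w1 w2 φ ψ hφ hψ]

theorem JQ_lin4 (w1 w2 : ℝ) (φ ψ χ ω : ℝ → ℝ → ℝ) (hφ : Continuous (fun z : ℝ × ℝ => φ z.1 z.2))
    (hψ : Continuous (fun z : ℝ × ℝ => ψ z.1 z.2)) (hχ : Continuous (fun z : ℝ × ℝ => χ z.1 z.2))
    (hω : Continuous (fun z : ℝ × ℝ => ω z.1 z.2)) (α β γ δ : ℝ) :
    JQ w1 w2 (fun x y => α * φ x y + β * ψ x y + γ * χ x y + δ * ω x y)
      = α * JQ w1 w2 φ + β * JQ w1 w2 ψ + γ * JQ w1 w2 χ + δ * JQ w1 w2 ω := by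
  have h1 := JQ_lin w1 w2 (fun x y => α * φ x y + β * ψ x y + γ * χ x y) ω (by fun_prop) hω 1 δ
  simp only [one_mul] at h1
  rw [h1, JQ_lin3 w1 w2 φ ψ χ hφ hψ hχ]

section
variable (w1 w2 : ℝ)

theorem q_fxx : (QDof (JQ w1 w2) 1 (TSa w1) (TSb w2)).fxx
    = π ^ 2 / 2 + 6 * π * (w1 * JQ w1 w2 (fun x y => y * cos (π * x)))
      + 9 * w1 ^ 2 * (1 / 12 + 1 / 48 * w2 ^ 2) := by
  simp only [QDof, TSa]
  have e : (fun x y : ℝ => (π * cos (π * x) + 3 * w1 * y) * (π * cos (π * x) + 3 * w1 * y))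
      = fun x y => π ^ 2 * (fun x _ => cos (π * x) * cos (π * x)) x y
        + (6 * π * w1) * (fun x y => y * cos (π * x)) x y + (9 * w1 ^ 2) * (fun _ y => y * y) x y := by
    ext x y; ring
  rw [e, JQ_lin3 _ _ _ _ _ (by fun_prop) (by fun_prop) (by fun_prop), JQ_cossq_x, JQ_yy]
  ring

theorem q_fyy : (QDof (JQ w1 w2) 1 (TSa w1) (TSb w2)).fyy
    = 9 * w1 ^ 2 * (1 / 12 + 1 / 48 * w1 ^ 2) := by
  simp only [QDof, TSa]
  have e : (fun x _ : ℝ => (3 * w1 * x) * (3 * w1 * x))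
      = fun x y => (9 * w1 ^ 2) * (fun x _ => x * x) x y := by
    ext x y; ring
  rw [e, JQ_smul _ _ _ (by fun_prop), JQ_xx]

theorem q_fxy : (QDof (JQ w1 w2) 1 (TSa w1) (TSb w2)).fxy
    = 3 * π * (w1 * JQ w1 w2 (fun x _ => x * cos (π * x))) + 9 * w1 ^ 2 * (1 / 48 * w1 * w2) := by
  simp only [QDof, TSa]
  have e : (fun x y : ℝ => (π * cos (π * x) + 3 * w1 * y) * (3 * w1 * x))
      = fun x y => (3 * π * w1) * (fun x _ => x * cos (π * x)) x y
        + (9 * w1 ^ 2) * (fun x y => x * y) x y := by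
    ext x y; ring
  rw [e, JQ_lin _ _ _ _ (by fun_prop) (by fun_prop), JQ_xy]
  ring

theorem q_gyy : (QDof (JQ w1 w2) 1 (TSa w1) (TSb w2)).gyy
    = π ^ 2 / 2 + 6 * π * (w2 * JQ w1 w2 (fun x y => x * cos (π * y)))
      + 9 * w2 ^ 2 * (1 / 12 + 1 / 48 * w1 ^ 2) := by
  simp only [QDof, TSb]
  have e : (fun x y : ℝ => (π * cos (π * y) + 3 * w2 * x) * (π * cos (π * y) + 3 * w2 * x))
      = fun x y => π ^ 2 * (fun _ y => cos (π * y) * cos (π * y)) x y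
        + (6 * π * w2) * (fun x y => x * cos (π * y)) x y + (9 * w2 ^ 2) * (fun x _ => x * x) x y := by
    ext x y; ring
  rw [e, JQ_lin3 _ _ _ _ _ (by fun_prop) (by fun_prop) (by fun_prop), JQ_cossq_y, JQ_xx]
  ring

theorem q_gxx : (QDof (JQ w1 w2) 1 (TSa w1) (TSb w2)).gxx
    = 9 * w2 ^ 2 * (1 / 12 + 1 / 48 * w2 ^ 2) := by
  simp only [QDof, TSb]
  have e : (fun _ y : ℝ => (3 * w2 * y) * (3 * w2 * y))
      = fun x y => (9 * w2 ^ 2) * (fun _ y => y * y) x y := by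
    ext x y; ring
  rw [e, JQ_smul _ _ _ (by fun_prop), JQ_yy]

theorem q_gxy : (QDof (JQ w1 w2) 1 (TSa w1) (TSb w2)).gxy
    = 3 * π * (w2 * JQ w1 w2 (fun _ y => y * cos (π * y))) + 9 * w2 ^ 2 * (1 / 48 * w1 * w2) := by
  simp only [QDof, TSb]
  have e : (fun x y : ℝ => (3 * w2 * y) * (π * cos (π * y) + 3 * w2 * x))
      = fun x y => (3 * π * w2) * (fun _ y => y * cos (π * y)) x y
        + (9 * w2 ^ 2) * (fun x y => x * y) x y := by
    ext x y; ring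
  rw [e, JQ_lin _ _ _ _ (by fun_prop) (by fun_prop), JQ_xy]
  ring

theorem q_cxx : (QDof (JQ w1 w2) 1 (TSa w1) (TSb w2)).cxx
    = 3 * π * (w2 * JQ w1 w2 (fun x y => y * cos (π * x))) + 9 * (w1 * w2) * (1 / 12 + 1 / 48 * w2 ^ 2) := by
  simp only [QDof, TSa, TSb]
  have e : (fun x y : ℝ => (π * cos (π * x) + 3 * w1 * y) * (3 * w2 * y))
      = fun x y => (3 * π * w2) * (fun x y => y * cos (π * x)) x y
        + (9 * (w1 * w2)) * (fun _ y => y * y) x y := by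
    ext x y; ring
  rw [e, JQ_lin _ _ _ _ (by fun_prop) (by fun_prop), JQ_yy]
  ring

theorem q_cyy : (QDof (JQ w1 w2) 1 (TSa w1) (TSb w2)).cyy
    = 3 * π * (w1 * JQ w1 w2 (fun x y => x * cos (π * y))) + 9 * (w1 * w2) * (1 / 12 + 1 / 48 * w1 ^ 2) := by
  simp only [QDof, TSa, TSb]
  have e : (fun x y : ℝ => (3 * w1 * x) * (π * cos (π * y) + 3 * w2 * x))
      = fun x y => (3 * π * w1) * (fun x y => x * cos (π * y)) x y
        + (9 * (w1 * w2)) * (fun x _ => x * x) x y := by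
    ext x y; ring
  rw [e, JQ_lin _ _ _ _ (by fun_prop) (by fun_prop), JQ_xx]
  ring

theorem q_cxy : (QDof (JQ w1 w2) 1 (TSa w1) (TSb w2)).cxy
    = π ^ 2 * JQ w1 w2 (fun x y => cos (π * x) * cos (π * y))
      + 3 * π * (w2 * JQ w1 w2 (fun x _ => x * cos (π * x)))
      + 3 * π * (w1 * JQ w1 w2 (fun _ y => y * cos (π * y)))
      + 18 * (w1 * w2) * (1 / 48 * w1 * w2) := by
  simp only [QDof, TSa, TSb]
  have e : (fun x y : ℝ => (π * cos (π * x) + 3 * w1 * y) * (π * cos (π * y) + 3 * w2 * x)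
        + (3 * w1 * x) * (3 * w2 * y))
      = fun x y => π ^ 2 * (fun x y => cos (π * x) * cos (π * y)) x y
        + (3 * π * w2) * (fun x _ => x * cos (π * x)) x y
        + (3 * π * w1) * (fun _ y => y * cos (π * y)) x y
        + (18 * (w1 * w2)) * (fun x y => x * y) x y := by
    ext x y; ring
  rw [e, JQ_lin4 _ _ _ _ _ _ (by fun_prop) (by fun_prop) (by fun_prop) (by fun_prop), JQ_xy]
  ring

theorem q_f : JQ w1 w2 (TSa w1).φ = JQ w1 w2 (fun x _ => sin (π * x)) + 3 * w1 * (1 / 48 * w1 * w2) := by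
  simp only [TSa]
  have e : (fun x y : ℝ => sin (π * x) + 3 * w1 * (x * y))
      = fun x y => 1 * (fun x _ => sin (π * x)) x y + (3 * w1) * (fun x y => x * y) x y := by
    ext x y; ring
  rw [e, JQ_lin _ _ _ _ (by fun_prop) (by fun_prop), JQ_xy]
  ring

theorem q_g : JQ w1 w2 (TSb w2).φ = JQ w1 w2 (fun _ y => sin (π * y)) + 3 * w2 * (1 / 48 * w1 * w2) := by
  simp only [TSb]
  have e : (fun x y : ℝ => sin (π * y) + 3 * w2 * (x * y))
      = fun x y => 1 * (fun _ y => sin (π * y)) x y + (3 * w2) * (fun x y => x * y) x y := by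
    ext x y; ring
  rw [e, JQ_lin _ _ _ _ (by fun_prop) (by fun_prop), JQ_xy]
  ring

theorem q_B11 : (QDof (JQ w1 w2) 1 (TSa w1) (TSb w2)).B11
    = 1 / 2 + 6 * (w1 * JQ w1 w2 (fun x y => x * y * sin (π * x)))
      + 9 * w1 ^ 2 * (1 / 144 + 1 / 320 * w2 ^ 2 + 1 / 320 * w1 ^ 2 + 1 / 1280 * w1 ^ 2 * w2 ^ 2)
      - (JQ w1 w2 (fun x _ => sin (π * x)) + 3 * w1 * (1 / 48 * w1 * w2)) ^ 2 := by
  have e : (fun x y : ℝ => (TSa w1).φ x y * (TSa w1).φ x y)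
      = fun x y => 1 * (fun x _ => sin (π * x) * sin (π * x)) x y
        + (6 * w1) * (fun x y => x * y * sin (π * x)) x y
        + (9 * w1 ^ 2) * (fun x y => (x * y) * (x * y)) x y := by
    ext x y; simp only [TSa]; ring
  simp only [QDof]
  rw [e, JQ_lin3 _ _ _ _ _ (by fun_prop) (by fun_prop) (by fun_prop), JQ_one, JQ_sinsq_x, JQ_xxyy, q_f]
  ring

theorem q_B22 : (QDof (JQ w1 w2) 1 (TSa w1) (TSb w2)).B22
    = 1 / 2 + 6 * (w2 * JQ w1 w2 (fun x y => x * y * sin (π * y)))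
      + 9 * w2 ^ 2 * (1 / 144 + 1 / 320 * w2 ^ 2 + 1 / 320 * w1 ^ 2 + 1 / 1280 * w1 ^ 2 * w2 ^ 2)
      - (JQ w1 w2 (fun _ y => sin (π * y)) + 3 * w2 * (1 / 48 * w1 * w2)) ^ 2 := by
  have e : (fun x y : ℝ => (TSb w2).φ x y * (TSb w2).φ x y)
      = fun x y => 1 * (fun _ y => sin (π * y) * sin (π * y)) x y
        + (6 * w2) * (fun x y => x * y * sin (π * y)) x y
        + (9 * w2 ^ 2) * (fun x y => (x * y) * (x * y)) x y := by
    ext x y; simp only [TSb]; ring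
  simp only [QDof]
  rw [e, JQ_lin3 _ _ _ _ _ (by fun_prop) (by fun_prop) (by fun_prop), JQ_one, JQ_sinsq_y, JQ_xxyy, q_g]
  ring

theorem q_B12 : (QDof (JQ w1 w2) 1 (TSa w1) (TSb w2)).B12
    = JQ w1 w2 (fun x y => sin (π * x) * sin (π * y))
      + 3 * (w2 * JQ w1 w2 (fun x y => x * y * sin (π * x)))
      + 3 * (w1 * JQ w1 w2 (fun x y => x * y * sin (π * y)))
      + 9 * (w1 * w2) * (1 / 144 + 1 / 320 * w2 ^ 2 + 1 / 320 * w1 ^ 2 + 1 / 1280 * w1 ^ 2 * w2 ^ 2)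
      - (JQ w1 w2 (fun x _ => sin (π * x)) + 3 * w1 * (1 / 48 * w1 * w2))
        * (JQ w1 w2 (fun _ y => sin (π * y)) + 3 * w2 * (1 / 48 * w1 * w2)) := by
  have e : (fun x y : ℝ => (TSa w1).φ x y * (TSb w2).φ x y)
      = fun x y => 1 * (fun x y => sin (π * x) * sin (π * y)) x y
        + (3 * w2) * (fun x y => x * y * sin (π * x)) x y
        + (3 * w1) * (fun x y => x * y * sin (π * y)) x y
        + (9 * (w1 * w2)) * (fun x y => (x * y) * (x * y)) x y := by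
    ext x y; simp only [TSa, TSb]; ring
  simp only [QDof]
  rw [e, JQ_lin4 _ _ _ _ _ _ (by fun_prop) (by fun_prop) (by fun_prop) (by fun_prop), JQ_one, JQ_xxyy, q_f, q_g]
  ring

end

end Pool.Agent.Helper238
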