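import Pool.Agent.Helper238.R0d

set_option autoImplicit false

open MeasureTheory Set

namespace Pool.Agent.Helper238

open Real

theorem pi_mul_abs_le {k x A : ℝ} (hk : 0 ≤ k) (h : |x| ≤ A) : |k * π * x| ≤ k * (315 / 100) * A := by
  have h1 : π < 315 / 100 := by have := Real.pi_lt_d2; linarith
  have h0 := Real.pi_pos
  rw [abs_mul, abs_of_nonneg (by positivity)]
  exact mul_le_mul (mul_le_mul_of_nonneg_left h1.le hk) h (abs_nonneg _) (by positivity)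

section
variable {w1 w2 : ℝ} (hs : w1 ^ (2:ℕ) + w2 ^ (2:ℕ) ≤ 1 / 100)
include hs

theorem w_small : |w1| ≤ 2 ∧ |w2| ≤ 2 := by
  constructor
  · rw [abs_le]; constructor <;> nlinarith [sq_nonneg w1, sq_nonneg w2]
  · rw [abs_le]; constructor <;> nlinarith [sq_nonneg w1, sq_nonneg w2]

omit hs in
theorem y2num (w1 w2 : ℝ) : |JQ w1 w2 (fun x y => x * cos (π * y))| ≤ 83 / 10000 * (w1 ^ (2:ℕ) * |w2|) := by
  refine (JQ_xcosy w1 w2).trans ?_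
  have h1 := Real.pi_lt_d2
  exact mul_le_mul_of_nonneg_right (by linarith) (by positivity)

omit hs in
theorem y2num' (w1 w2 : ℝ) : |JQ w1 w2 (fun x y => y * cos (π * x))| ≤ 83 / 10000 * (w2 ^ (2:ℕ) * |w1|) := by
  refine (JQ_ycosx w1 w2).trans ?_
  have h1 := Real.pi_lt_d2
  exact mul_le_mul_of_nonneg_right (by linarith) (by positivity)

omit hs in
theorem ab_le (w1 w2 : ℝ) : w1 ^ (2:ℕ) * w2 ^ (2:ℕ) ≤ (w1 ^ (2:ℕ) + w2 ^ (2:ℕ)) ^ (2:ℕ) / 4 := by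
  nlinarith [sq_nonneg (w1 ^ (2:ℕ) - w2 ^ (2:ℕ))]

omit hs in
theorem m_le (w1 w2 : ℝ) : |w1 * w2| ≤ (w1 ^ (2:ℕ) + w2 ^ (2:ℕ)) / 2 := by
  rw [abs_le]; constructor <;> nlinarith [sq_nonneg (w1 - w2), sq_nonneg (w1 + w2)]

omit hs in
theorem b_fxx : |(QDof (JQ w1 w2) 1 (TSa w1) (TSb w2)).fxx - π ^ (2:ℕ) / 2 - 3 / 4 * w1 ^ (2:ℕ)|
    ≤ 1 / 10 * (w1 ^ (2:ℕ) + w2 ^ (2:ℕ)) ^ (2:ℕ) := by
  rw [q_fxx]
  have h1 : |w1 * JQ w1 w2 (fun x y => y * cos (π * x))| ≤ 83 / 10000 * (w1 ^ (2:ℕ) * w2 ^ (2:ℕ)) := by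
    rw [abs_mul]
    refine (mul_le_mul_of_nonneg_left (y2num' w1 w2) (abs_nonneg _)).trans_eq ?_
    rw [← sq_abs w1]; ring
  have h2 := pi_mul_abs_le (by norm_num : (0:ℝ) ≤ 6) h1
  have h3 := ab_le w1 w2
  have h4 : 0 ≤ w1 ^ (2:ℕ) * w2 ^ (2:ℕ) := by positivity
  have h5 : 0 ≤ (w1 ^ (2:ℕ) + w2 ^ (2:ℕ)) ^ (2:ℕ) := by positivity
  obtain ⟨h6, h7⟩ := abs_le.1 h2
  rw [abs_le]
  constructor <;> nlinarith

omit hs in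
theorem b_gyy : |(QDof (JQ w1 w2) 1 (TSa w1) (TSb w2)).gyy - π ^ (2:ℕ) / 2 - 3 / 4 * w2 ^ (2:ℕ)|
    ≤ 1 / 10 * (w1 ^ (2:ℕ) + w2 ^ (2:ℕ)) ^ (2:ℕ) := by
  rw [q_gyy]
  have h1 : |w2 * JQ w1 w2 (fun x y => x * cos (π * y))| ≤ 83 / 10000 * (w1 ^ (2:ℕ) * w2 ^ (2:ℕ)) := by
    rw [abs_mul]
    refine (mul_le_mul_of_nonneg_left (y2num w1 w2) (abs_nonneg _)).trans_eq ?_
    rw [← sq_abs w2]; ring
  have h2 := pi_mul_abs_le (by norm_num : (0:ℝ) ≤ 6) h1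
  have h3 := ab_le w1 w2
  have h4 : 0 ≤ w1 ^ (2:ℕ) * w2 ^ (2:ℕ) := by positivity
  have h5 : 0 ≤ (w1 ^ (2:ℕ) + w2 ^ (2:ℕ)) ^ (2:ℕ) := by positivity
  obtain ⟨h6, h7⟩ := abs_le.1 h2
  rw [abs_le]
  constructor <;> nlinarith

omit hs in
theorem b_fyy : |(QDof (JQ w1 w2) 1 (TSa w1) (TSb w2)).fyy - 3 / 4 * w1 ^ (2:ℕ)|
    ≤ 1 / 5 * (w1 ^ (2:ℕ) + w2 ^ (2:ℕ)) ^ (2:ℕ) := by
  rw [q_fyy, abs_le]
  constructor <;> nlinarith [sq_nonneg w1, sq_nonneg w2, mul_nonneg (sq_nonneg w1) (sq_nonneg w2),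
    sq_nonneg (w1 ^ (2:ℕ)), sq_nonneg (w2 ^ (2:ℕ))]

omit hs in
theorem b_gxx : |(QDof (JQ w1 w2) 1 (TSa w1) (TSb w2)).gxx - 3 / 4 * w2 ^ (2:ℕ)|
    ≤ 1 / 5 * (w1 ^ (2:ℕ) + w2 ^ (2:ℕ)) ^ (2:ℕ) := by
  rw [q_gxx, abs_le]
  constructor <;> nlinarith [sq_nonneg w1, sq_nonneg w2, mul_nonneg (sq_nonneg w1) (sq_nonneg w2),
    sq_nonneg (w1 ^ (2:ℕ)), sq_nonneg (w2 ^ (2:ℕ))]

theorem b_fxy : |(QDof (JQ w1 w2) 1 (TSa w1) (TSb w2)).fxy| ≤ 2 / 5 * (w1 ^ (2:ℕ) + w2 ^ (2:ℕ)) := by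
  rw [q_fxy]
  have h0 := w_small hs
  have h1 : |w1 * JQ w1 w2 (fun x _ => x * cos (π * x))| ≤ 1 / 12 * |w1 * w2| := by
    rw [abs_mul, abs_mul]
    refine (mul_le_mul_of_nonneg_left (JQ_xcosx w1 w2 h0.1) (abs_nonneg _)).trans_eq ?_
    ring
  have h2 := pi_mul_abs_le (by norm_num : (0:ℝ) ≤ 3) h1
  have h3 := m_le w1 w2
  have h4 : |9 * w1 ^ (2:ℕ) * (1 / 48 * w1 * w2)| ≤ 9 / 4800 * |w1 * w2| := by
    rw [show 9 * w1 ^ (2:ℕ) * (1 / 48 * w1 * w2) = (9 * w1 ^ (2:ℕ) / 48) * (w1 * w2) by ring, abs_mul,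
      abs_of_nonneg (by positivity)]
    refine mul_le_mul_of_nonneg_right ?_ (abs_nonneg _)
    nlinarith [sq_nonneg w2]
  refine (abs_add_le _ _).trans ?_
  linarith [sq_nonneg w1, sq_nonneg w2]

theorem b_gxy : |(QDof (JQ w1 w2) 1 (TSa w1) (TSb w2)).gxy| ≤ 2 / 5 * (w1 ^ (2:ℕ) + w2 ^ (2:ℕ)) := by
  rw [q_gxy]
  have h0 := w_small hs
  have h1 : |w2 * JQ w1 w2 (fun _ y => y * cos (π * y))| ≤ 1 / 12 * |w1 * w2| := by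
    rw [abs_mul, abs_mul]
    refine (mul_le_mul_of_nonneg_left (JQ_ycosy w1 w2 h0.2) (abs_nonneg _)).trans_eq ?_
    ring
  have h2 := pi_mul_abs_le (by norm_num : (0:ℝ) ≤ 3) h1
  have h3 := m_le w1 w2
  have h4 : |9 * w2 ^ (2:ℕ) * (1 / 48 * w1 * w2)| ≤ 9 / 4800 * |w1 * w2| := by
    rw [show 9 * w2 ^ (2:ℕ) * (1 / 48 * w1 * w2) = (9 * w2 ^ (2:ℕ) / 48) * (w1 * w2) by ring, abs_mul,
      abs_of_nonneg (by positivity)]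
    refine mul_le_mul_of_nonneg_right ?_ (abs_nonneg _)
    nlinarith [sq_nonneg w1]
  refine (abs_add_le _ _).trans ?_
  linarith [sq_nonneg w1, sq_nonneg w2]

omit hs in
theorem b_cxx : |(QDof (JQ w1 w2) 1 (TSa w1) (TSb w2)).cxx - 3 / 4 * (w1 * w2)|
    ≤ 3 / 20 * (w1 ^ (2:ℕ) + w2 ^ (2:ℕ)) ^ (2:ℕ) := by
  rw [q_cxx]
  have h1 : |w2 * JQ w1 w2 (fun x y => y * cos (π * x))| ≤ 83 / 10000 * (w2 ^ (2:ℕ) * |w1 * w2|) := by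
    rw [abs_mul, abs_mul]
    refine (mul_le_mul_of_nonneg_left (y2num' w1 w2) (abs_nonneg _)).trans_eq ?_
    ring
  have h2 := pi_mul_abs_le (by norm_num : (0:ℝ) ≤ 3) h1
  have h3 := m_le w1 w2
  have h4 : |9 / 48 * w2 ^ (2:ℕ) * (w1 * w2)| ≤ 9 / 48 * w2 ^ (2:ℕ) * |w1 * w2| := by
    rw [abs_mul, abs_of_nonneg (by positivity)]
  have h5 : w2 ^ (2:ℕ) * |w1 * w2| ≤ (w1 ^ (2:ℕ) + w2 ^ (2:ℕ)) * ((w1 ^ (2:ℕ) + w2 ^ (2:ℕ)) / 2) :=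
    mul_le_mul (by nlinarith [sq_nonneg w1]) h3 (abs_nonneg _) (by positivity)
  have e : 3 * π * (w2 * JQ w1 w2 (fun x y => y * cos (π * x))) + 9 * (w1 * w2) * (1 / 12 + 1 / 48 * w2 ^ (2:ℕ))
      - 3 / 4 * (w1 * w2) = 3 * π * (w2 * JQ w1 w2 (fun x y => y * cos (π * x)))
        + 9 / 48 * w2 ^ (2:ℕ) * (w1 * w2) := by ring
  rw [e]
  refine (abs_add_le _ _).trans ?_
  nlinarith

omit hs in
theorem b_cyy : |(QDof (JQ w1 w2) 1 (TSa w1) (TSb w2)).cyy - 3 / 4 * (w1 * w2)|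
    ≤ 3 / 20 * (w1 ^ (2:ℕ) + w2 ^ (2:ℕ)) ^ (2:ℕ) := by
  rw [q_cyy]
  have h1 : |w1 * JQ w1 w2 (fun x y => x * cos (π * y))| ≤ 83 / 10000 * (w1 ^ (2:ℕ) * |w1 * w2|) := by
    rw [abs_mul, abs_mul]
    refine (mul_le_mul_of_nonneg_left (y2num w1 w2) (abs_nonneg _)).trans_eq ?_
    ring
  have h2 := pi_mul_abs_le (by norm_num : (0:ℝ) ≤ 3) h1
  have h3 := m_le w1 w2
  have h4 : |9 / 48 * w1 ^ (2:ℕ) * (w1 * w2)| ≤ 9 / 48 * w1 ^ (2:ℕ) * |w1 * w2| := by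
    rw [abs_mul, abs_of_nonneg (by positivity)]
  have h5 : w1 ^ (2:ℕ) * |w1 * w2| ≤ (w1 ^ (2:ℕ) + w2 ^ (2:ℕ)) * ((w1 ^ (2:ℕ) + w2 ^ (2:ℕ)) / 2) :=
    mul_le_mul (by nlinarith [sq_nonneg w2]) h3 (abs_nonneg _) (by positivity)
  have e : 3 * π * (w1 * JQ w1 w2 (fun x y => x * cos (π * y))) + 9 * (w1 * w2) * (1 / 12 + 1 / 48 * w1 ^ (2:ℕ))
      - 3 / 4 * (w1 * w2) = 3 * π * (w1 * JQ w1 w2 (fun x y => x * cos (π * y)))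
        + 9 / 48 * w1 ^ (2:ℕ) * (w1 * w2) := by ring
  rw [e]
  refine (abs_add_le _ _).trans ?_
  nlinarith

theorem b_cxy : |(QDof (JQ w1 w2) 1 (TSa w1) (TSb w2)).cxy - 4| ≤ 2 * (w1 ^ (2:ℕ) + w2 ^ (2:ℕ)) := by
  rw [q_cxy]
  have h0 := w_small hs
  have hp1 := Real.pi_lt_d2
  have hp2 := Real.pi_gt_d2
  have hp0 := Real.pi_pos
  have hp3 : π ^ (2:ℕ) ≤ 9.93 := by nlinarith
  have h1 := JQ_coscos w1 w2
  have h2 : |π ^ (2:ℕ) * JQ w1 w2 (fun x y => cos (π * x) * cos (π * y)) - 4|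
      ≤ 102 / 100 * (w1 ^ (2:ℕ) + w2 ^ (2:ℕ)) := by
    rw [show π ^ (2:ℕ) * JQ w1 w2 (fun x y => cos (π * x) * cos (π * y)) - 4
      = π ^ (2:ℕ) * (JQ w1 w2 (fun x y => cos (π * x) * cos (π * y)) - 4 / π ^ (2:ℕ)) by field_simp, abs_mul,
      abs_of_nonneg (by positivity)]
    refine (mul_le_mul_of_nonneg_left h1 (by positivity)).trans ?_
    rw [← mul_assoc]
    refine mul_le_mul_of_nonneg_right ?_ (by positivity)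
    have h3 : π ^ (2:ℕ) / 288 + π / 48 ≤ 101 / 1000 := by linarith
    calc π ^ (2:ℕ) * (π ^ (2:ℕ) / 288 + π / 48) ≤ 9.93 * (101 / 1000) :=
          mul_le_mul hp3 h3 (by positivity) (by norm_num)
      _ ≤ 102 / 100 := by norm_num
  have h3 : |w2 * JQ w1 w2 (fun x _ => x * cos (π * x))| ≤ 1 / 12 * w2 ^ (2:ℕ) := by
    rw [abs_mul]
    refine (mul_le_mul_of_nonneg_left (JQ_xcosx w1 w2 h0.1) (abs_nonneg _)).trans_eq ?_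
    rw [← sq_abs w2]; ring
  have h4 : |w1 * JQ w1 w2 (fun _ y => y * cos (π * y))| ≤ 1 / 12 * w1 ^ (2:ℕ) := by
    rw [abs_mul]
    refine (mul_le_mul_of_nonneg_left (JQ_ycosy w1 w2 h0.2) (abs_nonneg _)).trans_eq ?_
    rw [← sq_abs w1]; ring
  have h5 := pi_mul_abs_le (by norm_num : (0:ℝ) ≤ 3) h3
  have h6 := pi_mul_abs_le (by norm_num : (0:ℝ) ≤ 3) h4
  have h7 := ab_le w1 w2
  have h8 : |18 * (w1 * w2) * (1 / 48 * w1 * w2)| ≤ 1 / 1000 * (w1 ^ (2:ℕ) + w2 ^ (2:ℕ)) := by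
    rw [show 18 * (w1 * w2) * (1 / 48 * w1 * w2) = 18 / 48 * (w1 ^ (2:ℕ) * w2 ^ (2:ℕ)) by ring,
      abs_of_nonneg (by positivity)]
    nlinarith [sq_nonneg w1, sq_nonneg w2]
  have h9 := abs_add_three (π ^ (2:ℕ) * JQ w1 w2 (fun x y => cos (π * x) * cos (π * y)) - 4)
    (3 * π * (w2 * JQ w1 w2 (fun x _ => x * cos (π * x)))) (3 * π * (w1 * JQ w1 w2 (fun _ y => y * cos (π * y))))
  have h10 := abs_add_le (π ^ (2:ℕ) * JQ w1 w2 (fun x y => cos (π * x) * cos (π * y)) - 4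
    + 3 * π * (w2 * JQ w1 w2 (fun x _ => x * cos (π * x))) + 3 * π * (w1 * JQ w1 w2 (fun _ y => y * cos (π * y))))
    (18 * (w1 * w2) * (1 / 48 * w1 * w2))
  rw [show π ^ (2:ℕ) * JQ w1 w2 (fun x y => cos (π * x) * cos (π * y))
      + 3 * π * (w2 * JQ w1 w2 (fun x _ => x * cos (π * x)))
      + 3 * π * (w1 * JQ w1 w2 (fun _ y => y * cos (π * y)))
      + 18 * (w1 * w2) * (1 / 48 * w1 * w2) - 4 = π ^ (2:ℕ) * JQ w1 w2 (fun x y => cos (π * x) * cos (π * y)) - 4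
    + 3 * π * (w2 * JQ w1 w2 (fun x _ => x * cos (π * x))) + 3 * π * (w1 * JQ w1 w2 (fun _ y => y * cos (π * y)))
    + 18 * (w1 * w2) * (1 / 48 * w1 * w2) by ring]
  nlinarith [sq_nonneg w1, sq_nonneg w2]

theorem num_sinf : |JQ w1 w2 (fun x _ => sin (π * x)) + 3 * w1 * (1 / 48 * w1 * w2)| ≤ 251 / 1000 * |w2| := by
  have h1 := JQ_sinx w1 w2
  have h4 : |3 * w1 * (1 / 48 * w1 * w2)| ≤ 1 / 1000 * |w2| := by
    rw [show 3 * w1 * (1 / 48 * w1 * w2) = (3 / 48 * w1 ^ (2:ℕ)) * w2 by ring, abs_mul,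
      abs_of_nonneg (by positivity)]
    refine mul_le_mul_of_nonneg_right ?_ (abs_nonneg _)
    nlinarith [sq_nonneg w2]
  refine (abs_add_le _ _).trans ?_
  linarith

theorem num_sing : |JQ w1 w2 (fun _ y => sin (π * y)) + 3 * w2 * (1 / 48 * w1 * w2)| ≤ 251 / 1000 * |w1| := by
  have h1 := JQ_siny w1 w2
  have h4 : |3 * w2 * (1 / 48 * w1 * w2)| ≤ 1 / 1000 * |w1| := by
    rw [show 3 * w2 * (1 / 48 * w1 * w2) = (3 / 48 * w2 ^ (2:ℕ)) * w1 by ring, abs_mul,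
      abs_of_nonneg (by positivity)]
    refine mul_le_mul_of_nonneg_right ?_ (abs_nonneg _)
    nlinarith [sq_nonneg w1]
  refine (abs_add_le _ _).trans ?_
  linarith

omit hs in
theorem y5num (w1 w2 : ℝ) : |JQ w1 w2 (fun x y => x * y * sin (π * y)) - 1 / 24 * w2|
    ≤ 6 / 1000 * ((w1 ^ (2:ℕ) + w2 ^ (2:ℕ)) * |w2|) := by
  refine (JQ_xysiny w1 w2).trans ?_
  have hp1 := Real.pi_lt_d2
  have hp0 := Real.pi_pos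
  have hp3 : π ^ (2:ℕ) ≤ 9.93 := by nlinarith
  rw [mul_comm (|w2|), ← mul_assoc]
  refine mul_le_mul_of_nonneg_right ?_ (abs_nonneg _)
  nlinarith [sq_nonneg w1, sq_nonneg w2]

omit hs in
theorem y5num' (w1 w2 : ℝ) : |JQ w1 w2 (fun x y => x * y * sin (π * x)) - 1 / 24 * w1|
    ≤ 6 / 1000 * ((w1 ^ (2:ℕ) + w2 ^ (2:ℕ)) * |w1|) := by
  refine (JQ_xysinx w1 w2).trans ?_
  have hp1 := Real.pi_lt_d2
  have hp0 := Real.pi_pos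
  have hp3 : π ^ (2:ℕ) ≤ 9.93 := by nlinarith
  rw [mul_comm (|w1|), ← mul_assoc]
  refine mul_le_mul_of_nonneg_right ?_ (abs_nonneg _)
  nlinarith [sq_nonneg w1, sq_nonneg w2]

theorem b_B11 : 1 / 2 + 5 / 16 * w1 ^ (2:ℕ) - 64 / 1000 * w2 ^ (2:ℕ) - 1 / 20 * (w1 ^ (2:ℕ) + w2 ^ (2:ℕ)) ^ (2:ℕ)
    ≤ (QDof (JQ w1 w2) 1 (TSa w1) (TSb w2)).B11 := by
  rw [q_B11]
  have h1 := y5num' w1 w2
  have h2 : |w1 * (JQ w1 w2 (fun x y => x * y * sin (π * x)) - 1 / 24 * w1)|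
      ≤ 6 / 1000 * ((w1 ^ (2:ℕ) + w2 ^ (2:ℕ)) * w1 ^ (2:ℕ)) := by
    rw [abs_mul]
    refine (mul_le_mul_of_nonneg_left h1 (abs_nonneg _)).trans_eq ?_
    rw [show |w1| * (6 / 1000 * ((w1 ^ (2:ℕ) + w2 ^ (2:ℕ)) * |w1|)) = 6 / 1000 * ((w1 ^ (2:ℕ) + w2 ^ (2:ℕ)) * |w1| ^ (2:ℕ)) by ring,
      sq_abs]
  have h3 := num_sinf hs
  have h4 := pow_le_pow_left₀ (abs_nonneg _) h3 2
  rw [sq_abs, mul_pow, sq_abs] at h4
  have h5 := (abs_le.1 h2).1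
  have h6 : 0 ≤ w1 ^ (2:ℕ) * w2 ^ (2:ℕ) := by positivity
  have h7 : 0 ≤ w1 ^ (2:ℕ) * (w1 ^ (2:ℕ) * w2 ^ (2:ℕ)) := by positivity
  have h8 : 0 ≤ w1 ^ (2:ℕ) * w1 ^ (2:ℕ) := by positivity
  have h9 : 0 ≤ w2 ^ (2:ℕ) * w2 ^ (2:ℕ) := by positivity
  have h10 := sq_nonneg w2
  linarith

theorem b_B22 : 1 / 2 + 5 / 16 * w2 ^ (2:ℕ) - 64 / 1000 * w1 ^ (2:ℕ) - 1 / 20 * (w1 ^ (2:ℕ) + w2 ^ (2:ℕ)) ^ (2:ℕ)
    ≤ (QDof (JQ w1 w2) 1 (TSa w1) (TSb w2)).B22 := by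
  rw [q_B22]
  have h1 := y5num w1 w2
  have h2 : |w2 * (JQ w1 w2 (fun x y => x * y * sin (π * y)) - 1 / 24 * w2)|
      ≤ 6 / 1000 * ((w1 ^ (2:ℕ) + w2 ^ (2:ℕ)) * w2 ^ (2:ℕ)) := by
    rw [abs_mul]
    refine (mul_le_mul_of_nonneg_left h1 (abs_nonneg _)).trans_eq ?_
    rw [show |w2| * (6 / 1000 * ((w1 ^ (2:ℕ) + w2 ^ (2:ℕ)) * |w2|)) = 6 / 1000 * ((w1 ^ (2:ℕ) + w2 ^ (2:ℕ)) * |w2| ^ (2:ℕ)) by ring,
      sq_abs]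
  have h3 := num_sing hs
  have h4 := pow_le_pow_left₀ (abs_nonneg _) h3 2
  rw [sq_abs, mul_pow, sq_abs] at h4
  have h5 := (abs_le.1 h2).1
  have h6 : 0 ≤ w1 ^ (2:ℕ) * w2 ^ (2:ℕ) := by positivity
  have h7 : 0 ≤ w2 ^ (2:ℕ) * (w1 ^ (2:ℕ) * w2 ^ (2:ℕ)) := by positivity
  have h8 : 0 ≤ w1 ^ (2:ℕ) * w1 ^ (2:ℕ) := by positivity
  have h9 : 0 ≤ w2 ^ (2:ℕ) * w2 ^ (2:ℕ) := by positivity
  have h10 := sq_nonneg w1
  linarith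

theorem b_B12 : |(QDof (JQ w1 w2) 1 (TSa w1) (TSb w2)).B12| ≤ 3 / 10 * (w1 ^ (2:ℕ) + w2 ^ (2:ℕ)) := by
  rw [q_B12]
  have hp1 := Real.pi_lt_d2
  have hp0 := Real.pi_pos
  have hp3 : π ^ (2:ℕ) ≤ 9.93 := by nlinarith
  have hM : 0 ≤ |w1 * w2| := abs_nonneg _
  have hMe : |w1 * w2| = |w1| * |w2| := abs_mul _ _
  have h1 : |JQ w1 w2 (fun x y => sin (π * x) * sin (π * y))| ≤ 201 / 1000 * |w1 * w2| := by
    refine (JQ_sinsin w1 w2).trans (mul_le_mul_of_nonneg_right ?_ hM)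
    linarith
  have h2 : |3 * (w2 * JQ w1 w2 (fun x y => x * y * sin (π * x)))| ≤ 126 / 1000 * |w1 * w2| := by
    rw [abs_mul, abs_mul, abs_of_pos (by norm_num : (0:ℝ) < 3)]
    have h := y5num' w1 w2
    have h' : |JQ w1 w2 (fun x y => x * y * sin (π * x))| ≤ 42 / 1000 * |w1| := by
      have t := abs_add_le (JQ w1 w2 (fun x y => x * y * sin (π * x)) - 1 / 24 * w1) (1 / 24 * w1)
      rw [sub_add_cancel, abs_mul (1/24 : ℝ), abs_of_pos (by norm_num : (0:ℝ) < 1 / 24)] at t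
      have : (w1 ^ (2:ℕ) + w2 ^ (2:ℕ)) * |w1| ≤ 1 / 100 * |w1| := mul_le_mul_of_nonneg_right hs (abs_nonneg _)
      linarith [abs_nonneg w1]
    calc 3 * (|w2| * |JQ w1 w2 (fun x y => x * y * sin (π * x))|) ≤ 3 * (|w2| * (42 / 1000 * |w1|)) := by
          gcongr
      _ = 126 / 1000 * |w1 * w2| := by rw [hMe]; ring
  have h3 : |3 * (w1 * JQ w1 w2 (fun x y => x * y * sin (π * y)))| ≤ 126 / 1000 * |w1 * w2| := by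
    rw [abs_mul, abs_mul, abs_of_pos (by norm_num : (0:ℝ) < 3)]
    have h := y5num w1 w2
    have h' : |JQ w1 w2 (fun x y => x * y * sin (π * y))| ≤ 42 / 1000 * |w2| := by
      have t := abs_add_le (JQ w1 w2 (fun x y => x * y * sin (π * y)) - 1 / 24 * w2) (1 / 24 * w2)
      rw [sub_add_cancel, abs_mul (1/24 : ℝ), abs_of_pos (by norm_num : (0:ℝ) < 1 / 24)] at t
      have : (w1 ^ (2:ℕ) + w2 ^ (2:ℕ)) * |w2| ≤ 1 / 100 * |w2| := mul_le_mul_of_nonneg_right hs (abs_nonneg _)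
      linarith [abs_nonneg w2]
    calc 3 * (|w1| * |JQ w1 w2 (fun x y => x * y * sin (π * y))|) ≤ 3 * (|w1| * (42 / 1000 * |w2|)) := by
          gcongr
      _ = 126 / 1000 * |w1 * w2| := by rw [hMe]; ring
  have h4 : |9 * (w1 * w2) * (1 / 144 + 1 / 320 * w2 ^ (2:ℕ) + 1 / 320 * w1 ^ (2:ℕ) + 1 / 1280 * w1 ^ (2:ℕ) * w2 ^ (2:ℕ))|
      ≤ 63 / 1000 * |w1 * w2| := by
    rw [show 9 * (w1 * w2) * (1 / 144 + 1 / 320 * w2 ^ (2:ℕ) + 1 / 320 * w1 ^ (2:ℕ) + 1 / 1280 * w1 ^ (2:ℕ) * w2 ^ (2:ℕ))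
      = (9 * (1 / 144 + 1 / 320 * w2 ^ (2:ℕ) + 1 / 320 * w1 ^ (2:ℕ) + 1 / 1280 * w1 ^ (2:ℕ) * w2 ^ (2:ℕ))) * (w1 * w2) by ring,
      abs_mul, abs_of_nonneg (by positivity)]
    refine mul_le_mul_of_nonneg_right ?_ hM
    nlinarith [ab_le w1 w2, sq_nonneg w1, sq_nonneg w2]
  have h5 : |(JQ w1 w2 (fun x _ => sin (π * x)) + 3 * w1 * (1 / 48 * w1 * w2))
        * (JQ w1 w2 (fun _ y => sin (π * y)) + 3 * w2 * (1 / 48 * w1 * w2))| ≤ 64 / 1000 * |w1 * w2| := by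
    rw [abs_mul]
    calc _ ≤ (251 / 1000 * |w2|) * (251 / 1000 * |w1|) :=
          mul_le_mul (num_sinf hs) (num_sing hs) (abs_nonneg _) (by positivity)
      _ ≤ 64 / 1000 * |w1 * w2| := by rw [hMe]; nlinarith [mul_nonneg (abs_nonneg w1) (abs_nonneg w2)]
  have h6 := m_le w1 w2
  generalize JQ w1 w2 (fun x y => sin (π * x) * sin (π * y)) = A1 at *
  generalize 3 * (w2 * JQ w1 w2 (fun x y => x * y * sin (π * x))) = A2 at *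
  generalize 3 * (w1 * JQ w1 w2 (fun x y => x * y * sin (π * y))) = A3 at *
  generalize 9 * (w1 * w2) * (1 / 144 + 1 / 320 * w2 ^ (2:ℕ) + 1 / 320 * w1 ^ (2:ℕ) + 1 / 1280 * w1 ^ (2:ℕ) * w2 ^ (2:ℕ)) = A4 at *
  generalize (JQ w1 w2 (fun x _ => sin (π * x)) + 3 * w1 * (1 / 48 * w1 * w2))
        * (JQ w1 w2 (fun _ y => sin (π * y)) + 3 * w2 * (1 / 48 * w1 * w2)) = A5 at *
  obtain ⟨l1, u1⟩ := abs_le.1 h1
  obtain ⟨l2, u2⟩ := abs_le.1 h2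
  obtain ⟨l3, u3⟩ := abs_le.1 h3
  obtain ⟨l4, u4⟩ := abs_le.1 h4
  obtain ⟨l5, u5⟩ := abs_le.1 h5
  rw [abs_le]
  constructor <;> linarith

end

end Pool.Agent.Helper238
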