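import Pool.Agent.Helper238.R0e

set_option autoImplicit false

namespace Pool.Agent.Helper238

theorem mul_abs_le {x y X Y : ℝ} (hx : |x| ≤ X) (hy : |y| ≤ Y) : |x * y| ≤ X * Y := by
  rw [abs_mul]
  exact mul_le_mul hx hy (abs_nonneg _) ((abs_nonneg _).trans hx)

/-- the final polynomial inequality -/
theorem r0_fin {z U T s : ℝ} (hs0 : 0 ≤ s) (hs : s ≤ 1 / 100) (hU : 0 ≤ U) (hT : 0 ≤ T)
    (hz0 : 0 ≤ z) (hz : 4 / 9 * (U ^ (2:ℕ) + T ^ (2:ℕ)) ≤ z) (hz1 : z ≤ 1 / 4) (_hT1 : T ≤ 3 / 4) :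
    0 ≤ (243 / 10 * z - 2441 / 100 * T ^ (2:ℕ)) + 6014 / 1000 * s - 9191 / 1000 * (s * U)
      - 494 / 100 * (1 / 2 + z) * (3 / 2 * s * (1 + z) + 2 * (5 / 1000 * s + 8 / 10 * (s * T)))
      - 494 / 100 * (U * (s * (1885 / 1000 + 16 / 10 * T)))
      - 4771 / 1000 * s ^ (2:ℕ) - 238 / 100 * s ^ (2:ℕ)
      + (16 * T ^ (2:ℕ) - 8 * (T * (94125 / 100000 * s + 2 * (s * T))))
      - 2964 / 1000 * (s * (4 * T + (94125 / 100000 * s + 2 * (s * T)))) := by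
  have a1 : 0 ≤ s * T := mul_nonneg hs0 hT
  have a2 : 0 ≤ s * U := mul_nonneg hs0 hU
  have a3 : 0 ≤ U * T := mul_nonneg hU hT
  have b1 : s * z ≤ 1 / 100 * z := mul_le_mul_of_nonneg_right hs hz0
  have b2 : s * z ^ (2:ℕ) ≤ 1 / 4 * (s * z) := by
    nlinarith [mul_nonneg hs0 hz0, mul_nonneg (mul_nonneg hs0 hz0) (sub_nonneg.2 hz1)]
  have b3 : z * (s * T) ≤ 1 / 4 * (s * T) := mul_le_mul_of_nonneg_right hz1 a1
  have b4 : s * (U * T) ≤ 1 / 200 * (U ^ (2:ℕ) + T ^ (2:ℕ)) := by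
    have h1 : s * (U * T) ≤ 1 / 100 * (U * T) := mul_le_mul_of_nonneg_right hs a3
    nlinarith [sq_nonneg (U - T)]
  have b5 : s * T ^ (2:ℕ) ≤ 1 / 100 * T ^ (2:ℕ) := mul_le_mul_of_nonneg_right hs (sq_nonneg T)
  have b6 : s * (s * T) ≤ 1 / 100 * (s * T) := mul_le_mul_of_nonneg_right hs a1
  have b7 : s ^ (2:ℕ) ≤ 1 / 100 * s := by nlinarith
  have c1 : 0 ≤ 107 / 10 * U ^ (2:ℕ) - 18511 / 1000 * (s * U) + 802 / 100 * s ^ (2:ℕ) := by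
    nlinarith [sq_nonneg (U - 865 / 1000 * s)]
  have c2 : 0 ≤ 213 / 100 * T ^ (2:ℕ) - 25400 / 1000 * (s * T) + 758 / 10 * s ^ (2:ℕ) := by
    nlinarith [sq_nonneg (T - 5962 / 1000 * s)]
  nlinarith

theorem r0_E1 {c z u t a s T fxx fyy fxy : ℝ} (hs0 : 0 ≤ s) (hs2 : s ^ (2:ℕ) ≤ 1 / 100 * s)
    (hT : |t| ≤ T) (hp0 : 0 ≤ 1 + z + u) (hr0 : 0 ≤ 1 + z - u) (hz1 : z ≤ 1 / 4)
    (h1 : |fxx - c - 3 / 4 * a| ≤ 1 / 10 * s ^ (2:ℕ)) (h2 : |fyy - 3 / 4 * a| ≤ 1 / 5 * s ^ (2:ℕ))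
    (h3 : |fxy| ≤ 2 / 5 * s) :
    |((1 + z + u) * fxx + (1 + z - u) * fyy + 2 * t * fxy)
      - c * (1 + z + u) - 3 / 2 * a * (1 + z)| ≤ 5 / 1000 * s + 8 / 10 * (s * T) := by
  have e : ((1 + z + u) * fxx + (1 + z - u) * fyy + 2 * t * fxy)
      - c * (1 + z + u) - 3 / 2 * a * (1 + z)
      = (1 + z + u) * (fxx - c - 3 / 4 * a) + (1 + z - u) * (fyy - 3 / 4 * a) + t * (2 * fxy) := by
    ring
  rw [e]
  have t1 := mul_abs_le (abs_of_nonneg hp0).le h1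
  have t2 := mul_abs_le (abs_of_nonneg hr0).le h2
  have t3 : |2 * fxy| ≤ 4 / 5 * s := by rw [abs_mul, abs_of_pos (by norm_num : (0:ℝ) < 2)]; linarith
  have t4 := mul_abs_le hT t3
  refine (abs_add_three _ _ _).trans ?_
  have t5 : 0 ≤ s ^ (2:ℕ) := sq_nonneg s
  have t6 := mul_nonneg hp0 t5
  have t7 := mul_nonneg hr0 t5
  have t8 := mul_nonneg (sub_nonneg.2 hz1) t5
  linarith

theorem r0_E2 {c z u t b s T gxx gyy gxy : ℝ} (hs0 : 0 ≤ s) (hs2 : s ^ (2:ℕ) ≤ 1 / 100 * s)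
    (hT : |t| ≤ T) (hp0 : 0 ≤ 1 + z + u) (hr0 : 0 ≤ 1 + z - u) (hz1 : z ≤ 1 / 4)
    (g1 : |gyy - c - 3 / 4 * b| ≤ 1 / 10 * s ^ (2:ℕ)) (g2 : |gxx - 3 / 4 * b| ≤ 1 / 5 * s ^ (2:ℕ))
    (g3 : |gxy| ≤ 2 / 5 * s) :
    |((1 + z + u) * gxx + (1 + z - u) * gyy + 2 * t * gxy)
      - c * (1 + z - u) - 3 / 2 * b * (1 + z)| ≤ 5 / 1000 * s + 8 / 10 * (s * T) := by
  have := r0_E1 (c := c) (z := z) (u := -u) (t := t) (a := b) (s := s) (T := T) (fxx := gyy) (fyy := gxx)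
    (fxy := gxy) hs0 hs2 hT (by linarith) (by linarith) hz1 g1 g2 g3
  convert this using 2
  ring

theorem r0_E3 {z u t m s T cxx cyy cxy : ℝ} (hs0 : 0 ≤ s) (hs2 : s ^ (2:ℕ) ≤ 1 / 100 * s)
    (hT : |t| ≤ T) (hp0 : 0 ≤ 1 + z + u) (hr0 : 0 ≤ 1 + z - u) (hz1 : z ≤ 1 / 4)
    (k1 : |cxx - 3 / 4 * m| ≤ 3 / 20 * s ^ (2:ℕ)) (k2 : |cyy - 3 / 4 * m| ≤ 3 / 20 * s ^ (2:ℕ))
    (k3 : |cxy - 4| ≤ 2 * s) :
    |((1 + z + u) * cxx + (1 + z - u) * cyy + t * cxy)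
      - 4 * t - 3 / 2 * m * (1 + z)| ≤ 375 / 100000 * s + 2 * (s * T) := by
  have e : ((1 + z + u) * cxx + (1 + z - u) * cyy + t * cxy)
      - 4 * t - 3 / 2 * m * (1 + z)
      = (1 + z + u) * (cxx - 3 / 4 * m) + (1 + z - u) * (cyy - 3 / 4 * m) + t * (cxy - 4) := by
    ring
  rw [e]
  have t1 := mul_abs_le (abs_of_nonneg hp0).le k1
  have t2 := mul_abs_le (abs_of_nonneg hr0).le k2
  have t4 := mul_abs_le hT k3
  refine (abs_add_three _ _ _).trans ?_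
  have t5 : 0 ≤ s ^ (2:ℕ) := sq_nonneg s
  have t8 := mul_nonneg (sub_nonneg.2 hz1) t5
  linarith

/-- the main estimate after normalisation -/
theorem r0_core {c z u t a b s U T α β γ ε L1 L2 B11 B22 B12 : ℝ}
    (hc1 : 493 / 100 ≤ c) (hc2 : c ≤ 494 / 100) (ha : 0 ≤ a) (hb : 0 ≤ b) (hsdef : s = a + b)
    (hs : s ≤ 1 / 100) (hU : |u| ≤ U) (hT : |t| ≤ T) (hU2 : U ^ (2:ℕ) = u ^ (2:ℕ)) (hT2 : T ^ (2:ℕ) = t ^ (2:ℕ))
    (hz0 : 0 ≤ z) (hz1 : z ≤ 1 / 4) (hdet : 2 * z + z ^ (2:ℕ) = u ^ (2:ℕ) + t ^ (2:ℕ))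
    (hU1 : U ≤ 3 / 4) (hT1 : T ≤ 3 / 4) (hz : 4 / 9 * (U ^ (2:ℕ) + T ^ (2:ℕ)) ≤ z)
    (hε : ε = 5 / 1000 * s + 8 / 10 * (s * T))
    (hαβs : α + β ≤ 3 / 2 * s * (1 + z) + 2 * ε)
    (habα : |α| ≤ 15 / 8 * a + ε) (habβ : |β| ≤ 15 / 8 * b + ε)
    (habγ : |γ| ≤ 94125 / 100000 * s + 2 * (s * T))
    (hL1 : L1 = 5 / 16 * a - 64 / 1000 * b - 1 / 20 * s ^ (2:ℕ))
    (hL2 : L2 = 5 / 16 * b - 64 / 1000 * a - 1 / 20 * s ^ (2:ℕ))
    (l1 : 1 / 2 + L1 ≤ B11) (l2 : 1 / 2 + L2 ≤ B22) (l3 : |B12| ≤ 3 / 10 * s) :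
    (c * (1 + z + u) + α) * (c * (1 + z - u) + β) - (4 * t + γ) ^ (2:ℕ)
      ≤ c * ((c * (1 + z - u) + β) * B11 + (c * (1 + z + u) + α) * B22 - 2 * (4 * t + γ) * B12) := by
  have hU0 : 0 ≤ U := (abs_nonneg _).trans hU
  have hT0 : 0 ≤ T := (abs_nonneg _).trans hT
  have hs0 : 0 ≤ s := by rw [hsdef]; positivity
  have hs2 : s ^ (2:ℕ) ≤ 1 / 100 * s := by nlinarith only [hs0, hs]
  have hsT : 0 ≤ s * T := mul_nonneg hs0 hT0
  have hsT1 : s * T ≤ 3 / 4 * s := by nlinarith only [hs0, hT1]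
  have hε0 : 0 ≤ ε := by rw [hε]; positivity
  have hε1 : ε ≤ 605 / 1000 * s := by rw [hε]; linarith only [hsT1]
  have hu := abs_le.1 hU
  have ht := abs_le.1 hT
  have hα := abs_le.1 habα
  have hβ := abs_le.1 habβ
  have hA11p : 0 ≤ c * (1 + z + u) + α := by
    have : 493 / 100 * (1 / 4) ≤ c * (1 + z + u) :=
      mul_le_mul hc1 (by linarith only [hu.1, hz0, hU1]) (by norm_num) (by linarith only [hc1])
    linarith only [this, hα.1, hε1, hs, hsdef, ha, hb]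
  have hA22p : 0 ≤ c * (1 + z - u) + β := by
    have : 493 / 100 * (1 / 4) ≤ c * (1 + z - u) :=
      mul_le_mul hc1 (by linarith only [hu.2, hz0, hU1]) (by norm_num) (by linarith only [hc1])
    linarith only [this, hβ.1, hε1, hs, hsdef, ha, hb]
  have m1 : (c * (1 + z - u) + β) * (1 / 2 + L1) ≤ (c * (1 + z - u) + β) * B11 :=
    mul_le_mul_of_nonneg_left l1 hA22p
  have m2 : (c * (1 + z + u) + α) * (1 / 2 + L2) ≤ (c * (1 + z + u) + α) * B22 :=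
    mul_le_mul_of_nonneg_left l2 hA11p
  have hc0 : 0 ≤ c := by linarith only [hc1]
  have m3 := mul_le_mul_of_nonneg_left (add_le_add m1 m2) hc0
  -- term bounds
  have hcc1 : 243 / 10 ≤ c ^ (2:ℕ) := by nlinarith only [hc1]
  have hcc2 : c ^ (2:ℕ) ≤ 2441 / 100 := by nlinarith only [hc1, hc2]
  have T1 : 243 / 10 * z - 2441 / 100 * T ^ (2:ℕ) ≤ c ^ (2:ℕ) * (z - t ^ (2:ℕ)) := by
    rw [hT2]
    have i1 := mul_nonneg (sub_nonneg.2 hcc1) hz0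
    have i2 := mul_nonneg (sub_nonneg.2 hcc2) (sq_nonneg t)
    linarith only [i1, i2]
  have hLs : 2475 / 10000 * s ≤ L1 + L2 := by rw [hL1, hL2, hsdef] at *; linarith only [hs2]
  have T2 : 6014 / 1000 * s ≤ c ^ (2:ℕ) * ((1 + z) * (L1 + L2)) := by
    have i1 := mul_nonneg hz0 (by linarith only [hLs, hs0] : 0 ≤ L1 + L2)
    have : 2475 / 10000 * s ≤ (1 + z) * (L1 + L2) := by linarith only [i1, hLs]
    calc 6014 / 1000 * s ≤ 243 / 10 * (2475 / 10000 * s) := by linarith only [hs0]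
      _ ≤ c ^ (2:ℕ) * ((1 + z) * (L1 + L2)) := mul_le_mul hcc1 this (by positivity) (by positivity)
  have hLd : |L2 - L1| ≤ 3765 / 10000 * s := by
    rw [hL1, hL2, hsdef, abs_le]; constructor <;> linarith only [ha, hb]
  have T3 : -(9191 / 1000 * (s * U)) ≤ c ^ (2:ℕ) * (u * (L2 - L1)) := by
    have h := mul_abs_le (abs_of_nonneg (sq_nonneg c)).le (mul_abs_le hU hLd)
    have h' := (abs_le.1 h).1
    have : c ^ (2:ℕ) * (U * (3765 / 10000 * s)) ≤ 2441 / 100 * (U * (3765 / 10000 * s)) :=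
      mul_le_mul_of_nonneg_right hcc2 (by positivity)
    have h0 : 0 ≤ s * U := by positivity
    linarith only [h', this, h0]
  have T4 : -(494 / 100 * (1 / 2 + z) * (3 / 2 * s * (1 + z) + 2 * ε)) ≤ -(c * (1 / 2 + z) * (α + β)) := by
    have h' : 0 ≤ 3 / 2 * s * (1 + z) + 2 * ε := by positivity
    have h'' : c * (1 / 2 + z) * (α + β) ≤ c * (1 / 2 + z) * (3 / 2 * s * (1 + z) + 2 * ε) :=
      mul_le_mul_of_nonneg_left hαβs (by positivity)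
    have h3 : c * (1 / 2 + z) * (3 / 2 * s * (1 + z) + 2 * ε) ≤ 494 / 100 * (1 / 2 + z) * (3 / 2 * s * (1 + z) + 2 * ε) :=
      mul_le_mul_of_nonneg_right (mul_le_mul_of_nonneg_right hc2 (by positivity)) h'
    linarith only [h'', h3]
  have hαβ : |α - β| ≤ s * (1885 / 1000 + 16 / 10 * T) := by
    refine (abs_sub _ _).trans ?_
    rw [hsdef] at hε ⊢
    linarith only [habα, habβ, hε]
  have T5 : -(494 / 100 * (U * (s * (1885 / 1000 + 16 / 10 * T)))) ≤ c * (u * (α - β)) := by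
    have h := mul_abs_le (abs_of_nonneg hc0).le (mul_abs_le hU hαβ)
    have h' := (abs_le.1 h).1
    have : c * (U * (s * (1885 / 1000 + 16 / 10 * T))) ≤ 494 / 100 * (U * (s * (1885 / 1000 + 16 / 10 * T))) :=
      mul_le_mul_of_nonneg_right hc2 (by positivity)
    linarith only [h', this]
  have hL1a : |L1| ≤ 313 / 1000 * s := by
    rw [hL1, abs_le]; constructor <;> linarith only [ha, hb, hsdef, hs2, sq_nonneg s]
  have hL2a : |L2| ≤ 313 / 1000 * s := by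
    rw [hL2, abs_le]; constructor <;> linarith only [ha, hb, hsdef, hs2, sq_nonneg s]
  have hab1 : |α| + |β| ≤ 3085 / 1000 * s := by linarith only [habα, habβ, hε1, hsdef]
  have T6 : -(4771 / 1000 * s ^ (2:ℕ)) ≤ c * (β * L1 + α * L2) := by
    have h4 := mul_abs_le (le_refl |β|) hL1a
    have h5 := mul_abs_le (le_refl |α|) hL2a
    have h6 : |β * L1 + α * L2| ≤ (|α| + |β|) * (313 / 1000 * s) := by
      refine (abs_add_le _ _).trans ?_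
      linarith only [h4, h5]
    have h7 : (|α| + |β|) * (313 / 1000 * s) ≤ 3085 / 1000 * s * (313 / 1000 * s) :=
      mul_le_mul_of_nonneg_right hab1 (by positivity)
    have h8 := mul_abs_le (abs_of_nonneg hc0).le (h6.trans h7)
    have h9 : c * (3085 / 1000 * s * (313 / 1000 * s)) ≤ 494 / 100 * (3085 / 1000 * s * (313 / 1000 * s)) :=
      mul_le_mul_of_nonneg_right hc2 (by positivity)
    have h10 := (abs_le.1 h8).1
    linarith only [h10, h9, sq_nonneg s]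
  have T7 : -(238 / 100 * s ^ (2:ℕ)) ≤ -(α * β) := by
    have h4 : α * β ≤ |α| * |β| := by rw [← abs_mul]; exact le_abs_self _
    have h5 : |α| * |β| ≤ (|α| + |β|) ^ (2:ℕ) / 4 := by linarith only [sq_nonneg (|α| - |β|)]
    have h6 := pow_le_pow_left₀ (by positivity : 0 ≤ |α| + |β|) hab1 2
    linarith only [h4, h5, h6, sq_nonneg s]
  have T8 : 16 * T ^ (2:ℕ) - 8 * (T * (94125 / 100000 * s + 2 * (s * T))) ≤ (4 * t + γ) ^ (2:ℕ) := by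
    have h4 := (abs_le.1 (mul_abs_le hT habγ)).1
    rw [hT2]
    linarith only [h4, sq_nonneg γ]
  have T9 : -(2964 / 1000 * (s * (4 * T + (94125 / 100000 * s + 2 * (s * T))))) ≤ -(2 * c * (4 * t + γ) * B12) := by
    have h4 : |4 * t + γ| ≤ 4 * T + (94125 / 100000 * s + 2 * (s * T)) := by
      refine (abs_add_le _ _).trans ?_
      rw [abs_mul, abs_of_pos (by norm_num : (0:ℝ) < 4)]
      linarith only [hT, habγ]
    have h5 := mul_abs_le h4 l3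
    have h6 := mul_abs_le (abs_of_nonneg (by positivity : 0 ≤ 2 * c)).le h5
    have h7 := (abs_le.1 h6).2
    have h8 : 2 * c * ((4 * T + (94125 / 100000 * s + 2 * (s * T))) * (3 / 10 * s))
        ≤ 988 / 100 * ((4 * T + (94125 / 100000 * s + 2 * (s * T))) * (3 / 10 * s)) :=
      mul_le_mul_of_nonneg_right (by linarith only [hc2]) (by positivity)
    linarith only [h7, h8]
  have hfin := r0_fin hs0 hs hU0 hT0 hz0 hz hz1 hT1
  rw [← hε] at hfin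
  have key : c * ((c * (1 + z - u) + β) * (1 / 2 + L1) + (c * (1 + z + u) + α) * (1 / 2 + L2))
      - (c * (1 + z + u) + α) * (c * (1 + z - u) + β)
      = c ^ (2:ℕ) * (z - t ^ (2:ℕ)) + c ^ (2:ℕ) * ((1 + z) * (L1 + L2)) + c ^ (2:ℕ) * (u * (L2 - L1))
        + (-(c * (1 / 2 + z) * (α + β))) + c * (u * (α - β)) + c * (β * L1 + α * L2) + -(α * β) := by
    linear_combination (-c ^ (2:ℕ)) * hdet
  linarith only [m3, key, hfin, T1, T2, T3, T4, T5, T6, T7, T8, T9]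

theorem r0_alg {c z u t a b m fxx fyy fxy gxx gyy gxy cxx cyy cxy B11 B22 B12 : ℝ}
    (hc1 : 493 / 100 ≤ c) (hc2 : c ≤ 494 / 100) (ha : 0 ≤ a) (hb : 0 ≤ b) (hs : a + b ≤ 1 / 100)
    (hm : |m| ≤ (a + b) / 2)
    (h1 : |fxx - c - 3 / 4 * a| ≤ 1 / 10 * (a + b) ^ (2:ℕ)) (h2 : |fyy - 3 / 4 * a| ≤ 1 / 5 * (a + b) ^ (2:ℕ))
    (h3 : |fxy| ≤ 2 / 5 * (a + b))
    (g1 : |gyy - c - 3 / 4 * b| ≤ 1 / 10 * (a + b) ^ (2:ℕ)) (g2 : |gxx - 3 / 4 * b| ≤ 1 / 5 * (a + b) ^ (2:ℕ))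
    (g3 : |gxy| ≤ 2 / 5 * (a + b))
    (k1 : |cxx - 3 / 4 * m| ≤ 3 / 20 * (a + b) ^ (2:ℕ)) (k2 : |cyy - 3 / 4 * m| ≤ 3 / 20 * (a + b) ^ (2:ℕ))
    (k3 : |cxy - 4| ≤ 2 * (a + b))
    (l1 : 1 / 2 + 5 / 16 * a - 64 / 1000 * b - 1 / 20 * (a + b) ^ (2:ℕ) ≤ B11)
    (l2 : 1 / 2 + 5 / 16 * b - 64 / 1000 * a - 1 / 20 * (a + b) ^ (2:ℕ) ≤ B22)
    (l3 : |B12| ≤ 3 / 10 * (a + b))
    (hz0 : 0 ≤ z) (hz1 : z ≤ 1 / 4) (hdet : 2 * z + z ^ (2:ℕ) = u ^ (2:ℕ) + t ^ (2:ℕ)) :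
    ((1 + z + u) * fxx + (1 + z - u) * fyy + 2 * t * fxy) * ((1 + z + u) * gxx + (1 + z - u) * gyy + 2 * t * gxy)
      - ((1 + z + u) * cxx + (1 + z - u) * cyy + t * cxy) ^ (2:ℕ)
    ≤ c * (((1 + z + u) * gxx + (1 + z - u) * gyy + 2 * t * gxy) * B11
      + ((1 + z + u) * fxx + (1 + z - u) * fyy + 2 * t * fxy) * B22
      - 2 * ((1 + z + u) * cxx + (1 + z - u) * cyy + t * cxy) * B12) := by
  obtain ⟨s, hsdef⟩ : ∃ s, s = a + b := ⟨_, rfl⟩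
  rw [← hsdef] at hs hm h1 h2 h3 g1 g2 g3 k1 k2 k3 l1 l2 l3
  have hs0 : 0 ≤ s := by rw [hsdef]; positivity
  have hU2 : |u| ^ (2:ℕ) = u ^ (2:ℕ) := sq_abs u
  have hT2 : |t| ^ (2:ℕ) = t ^ (2:ℕ) := sq_abs t
  have hz2 : z ^ (2:ℕ) ≤ 1 / 4 * z := by nlinarith only [hz0, hz1]
  have hz : 4 / 9 * (|u| ^ (2:ℕ) + |t| ^ (2:ℕ)) ≤ z := by
    rw [hU2, hT2, ← hdet]; linarith only [hz2]
  have hU1 : |u| ≤ 3 / 4 := by
    apply abs_le_of_sq_le_sq _ (by norm_num)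
    nlinarith only [hdet, hz2, hz1, sq_nonneg t]
  have hT1 : |t| ≤ 3 / 4 := by
    apply abs_le_of_sq_le_sq _ (by norm_num)
    nlinarith only [hdet, hz2, hz1, sq_nonneg u]
  have hu := abs_le.1 hU1
  have hs2 : s ^ (2:ℕ) ≤ 1 / 100 * s := by nlinarith only [hs0, hs]
  have hp0 : 0 ≤ 1 + z + u := by linarith only [hu.1, hz0]
  have hr0 : 0 ≤ 1 + z - u := by linarith only [hu.2, hz0]
  have hE1 := r0_E1 hs0 hs2 (le_refl |t|) hp0 hr0 hz1 h1 h2 h3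
  have hE2 := r0_E2 hs0 hs2 (le_refl |t|) hp0 hr0 hz1 g1 g2 g3
  have hE3 := r0_E3 hs0 hs2 (le_refl |t|) hp0 hr0 hz1 k1 k2 k3
  obtain ⟨A11, hA11⟩ : ∃ A, A = (1 + z + u) * fxx + (1 + z - u) * fyy + 2 * t * fxy := ⟨_, rfl⟩
  obtain ⟨A22, hA22⟩ : ∃ A, A = (1 + z + u) * gxx + (1 + z - u) * gyy + 2 * t * gxy := ⟨_, rfl⟩
  obtain ⟨A12, hA12⟩ : ∃ A, A = (1 + z + u) * cxx + (1 + z - u) * cyy + t * cxy := ⟨_, rfl⟩
  rw [← hA11] at hE1 ⊢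
  rw [← hA22] at hE2 ⊢
  rw [← hA12] at hE3 ⊢
  have e1 := abs_le.1 hE1
  have e2 := abs_le.1 hE2
  have e3 := abs_le.1 hE3
  have haz : 0 ≤ a * z := mul_nonneg ha hz0
  have hbz : 0 ≤ b * z := mul_nonneg hb hz0
  have haz1 : a * z ≤ 1 / 4 * a := by nlinarith only [ha, hz1]
  have hbz1 : b * z ≤ 1 / 4 * b := by nlinarith only [hb, hz1]
  have hst : 0 ≤ s * |t| := by positivity
  have key := r0_core (c := c) (z := z) (u := u) (t := t) (a := a) (b := b) (s := s) (U := |u|) (T := |t|)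
    (α := A11 - c * (1 + z + u)) (β := A22 - c * (1 + z - u)) (γ := A12 - 4 * t)
    (B11 := B11) (B22 := B22) (B12 := B12)
    hc1 hc2 ha hb hsdef hs le_rfl le_rfl hU2 hT2 hz0 hz1 hdet hU1 hT1 hz rfl
    (by rw [hsdef] at e1 e2 ⊢; linarith only [e1.2, e2.2])
    (by rw [abs_le]; constructor <;> linarith only [e1.1, e1.2, ha, haz, haz1, hst, hs0])
    (by rw [abs_le]; constructor <;> linarith only [e2.1, e2.2, hb, hbz, hbz1, hst, hs0])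
    (by
      have h5 : |3 / 2 * m * (1 + z)| ≤ 15 / 16 * s := by
        rw [show 3 / 2 * m * (1 + z) = (3 / 2 * (1 + z)) * m by ring]
        refine (mul_abs_le (abs_of_nonneg (by positivity)).le hm).trans ?_
        nlinarith only [hz1, hs0]
      have h6 := abs_add_le (A12 - 4 * t - 3 / 2 * m * (1 + z)) (3 / 2 * m * (1 + z))
      rw [sub_add_cancel] at h6
      linarith only [h5, h6, hE3])
    rfl rfl (by linarith only [l1]) (by linarith only [l2]) l3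
  linarith only [key]

end Pool.Agent.Helper238
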