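import Pool.Agent.Helper238.QuadR1

set_option autoImplicit false

namespace Pool.Agent.Helper238

/-- subdivision certificate -/
def treeR1A1 : Tree :=
  .sx (.sx (.sy (.sx (.skip) (.sy (.skip) (.sx (.skip) (.sy (.skip) (.sx (.skip) (.sy (.skip) (.sx
  (.skip) (.leaf 0 (-56) 3)))))))) (.skip)) (.sy (.sx (.sy (.sx (.skip) (.sy (.sx (.sy (.skip)
  (.sx (.skip) (.leaf 0 (-56) 3))) (.sy (.leaf 0 (-56) 3) (.leaf 0 (-56) 3))) (.sx (.sy (.sx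
  (.skip) (.leaf 0 (-56) 3)) (.sx (.leaf 0 (-56) 3) (.leaf 0 (-56) 3))) (.sy (.leaf 0 (-56) 3)
  (.leaf 0 (-56) 3))))) (.sx (.sy (.sx (.skip) (.sy (.sx (.skip) (.leaf 0 (-56) 3)) (.sx (.leaf
  0 (-56) 3) (.leaf 0 (-56) 3)))) (.sx (.sy (.sx (.skip) (.leaf 0 (-56) 3)) (.sx (.leaf 0 (-56)
  3) (.leaf 0 (-56) 3))) (.sy (.sx (.leaf 0 (-56) 3) (.leaf 0 (-56) 3)) (.leaf 0 (-56) 3))))
  (.sy (.sx (.sy (.sx (.leaf 0 (-56) 3) (.leaf 0 (-56) 3)) (.leaf 0 (-56) 3)) (.sy (.leaf 0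
  (-56) 3) (.leaf 0 (-56) 3))) (.sx (.sy (.leaf 0 (-56) 3) (.leaf 0 (-56) 3)) (.sy (.leaf 0
  (-56) 3) (.leaf 0 (-56) 3)))))) (.sy (.sx (.sy (.sx (.sy (.leaf 0 (-56) 3) (.leaf 0 (-56) 3))
  (.leaf 0 (-56) 3)) (.sx (.sy (.leaf 0 (-56) 3) (.leaf 0 (-56) 3)) (.sy (.leaf 0 (-56) 3)
  (.leaf 0 (-56) 3)))) (.sy (.sx (.leaf 0 (-56) 3) (.leaf 0 (-56) 3)) (.sx (.leaf 0 (-56) 3)
  (.leaf 0 (-56) 3)))) (.sx (.sy (.sx (.sy (.leaf 0 (-56) 3) (.leaf 0 (-56) 3)) (.leaf 0 (-56)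
  3)) (.sx (.sy (.leaf 0 (-56) 3) (.leaf 0 (-56) 3)) (.leaf 0 (-56) 3))) (.sy (.sx (.leaf 0
  (-56) 3) (.leaf 0 (-56) 3)) (.sx (.leaf 0 (-56) 3) (.leaf 0 (-56) 3)))))) (.sx (.sy (.sx (.sy
  (.sx (.sy (.leaf 0 (-56) 3) (.skip)) (.sy (.leaf 0 (-56) 3) (.leaf 0 (-56) 3))) (.skip)) (.sy
  (.sx (.sy (.leaf 0 (-56) 3) (.leaf 0 (-56) 3)) (.sy (.leaf 0 (-56) 3) (.leaf 0 (-56) 3))) (.sx
  (.leaf 0 (-56) 3) (.leaf 0 (-56) 3)))) (.skip)) (.sy (.sx (.sy (.sx (.leaf 0 (-56) 3) (.leaf 0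
  (-56) 3)) (.sx (.leaf 0 (-56) 3) (.leaf 0 (-56) 3))) (.sy (.sx (.leaf 0 (-56) 3) (.leaf 0
  (-56) 3)) (.sx (.leaf 0 (-56) 3) (.leaf 0 (-56) 3)))) (.sx (.sy (.sx (.leaf 0 (-56) 3) (.leaf
  0 (-56) 3)) (.skip)) (.sy (.leaf 0 (-56) 3) (.leaf 0 (-56) 3))))))) (.sx (.sy (.sx (.sy (.sx
  (.sy (.sx (.leaf 0 (-56) 3) (.leaf 0 (-56) 3)) (.sx (.leaf 0 (-56) 3) (.leaf 0 (-56) 3))) (.sy
  (.leaf 0 (-56) 3) (.leaf 0 (-56) 3))) (.sx (.sy (.sx (.leaf 0 (-56) 3) (.leaf 0 (-56) 3)) (.sx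
  (.leaf 0 (-56) 3) (.leaf 0 (-56) 3))) (.sy (.leaf 0 (-56) 3) (.leaf 0 (-56) 3)))) (.sy (.sx
  (.sy (.leaf 0 (-56) 3) (.leaf 0 (-56) 3)) (.sy (.leaf 0 (-56) 3) (.leaf 0 (-56) 3))) (.sx (.sy
  (.leaf 0 (-56) 3) (.leaf 0 (-56) 3)) (.sy (.leaf 0 (-56) 3) (.leaf 0 (-56) 3))))) (.sx (.sy
  (.sx (.sy (.leaf 0 (-56) 3) (.leaf 0 (-56) 3)) (.sy (.leaf 0 (-56) 3) (.leaf 0 (-56) 3))) (.sx
  (.sy (.leaf 0 (-56) 3) (.leaf 0 (-56) 3)) (.sy (.leaf 0 (-56) 3) (.leaf 0 (-56) 3)))) (.sy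
  (.sx (.sy (.leaf 0 (-56) 3) (.leaf 0 (-56) 3)) (.sy (.leaf 0 (-56) 3) (.leaf 0 (-55) 3))) (.sx
  (.sy (.leaf 0 (-56) 3) (.leaf 0 (-55) 3)) (.sy (.leaf 0 (-55) 3) (.leaf 0 (-55) 3)))))) (.sy
  (.sx (.sy (.sx (.leaf 0 (-56) 3) (.leaf 0 (-55) 3)) (.sx (.sy (.leaf 0 (-55) 3) (.leaf 0 (-55)
  3)) (.leaf 0 (-55) 3))) (.sy (.sx (.leaf 0 (-55) 3) (.leaf 0 (-55) 3)) (.sx (.leaf 0 (-55) 3)
  (.leaf 0 (-55) 3)))) (.sx (.sy (.sx (.sy (.leaf 0 (-55) 3) (.leaf 0 (-55) 3)) (.leaf 0 (-55)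
  3)) (.sx (.leaf 0 (-55) 3) (.leaf 0 (-55) 3))) (.sy (.sx (.leaf 0 (-55) 3) (.leaf 0 (-55) 3))
  (.sx (.leaf 0 (-55) 3) (.leaf 0 (-55) 3))))))

theorem chkR1A1 : chk testR1 skipR1 treeR1A1 1873497444986126336 1873497444986126336 936748722493063168 936748722493063168 = true := by
  decide +kernel

end Pool.Agent.Helper238
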