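import Pool.Agent.Helper238.Simple

set_option autoImplicit false

open MeasureTheory Set

namespace Pool.Agent.Helper238

noncomputable def cB (A B C x : E2) : ℝ := cr (x - A) (C - A) / cr (B - A) (C - A)
noncomputable def cC (A B C x : E2) : ℝ := cr (B - A) (x - A) / cr (B - A) (C - A)

/-- the open triangle -/
abbrev otri (A B C : E2) : Set E2 := bil A (B - A) 0 (C - B) '' O01

theorem bary' {A B C x : E2} (hD : cr (B - A) (C - A) ≠ 0) :
    x = (1 - cB A B C x - cC A B C x) • A + (cB A B C x) • B + (cC A B C x) • C := bary hD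

theorem coords_of_comb {A B C : E2} (hD : cr (B - A) (C - A) ≠ 0) {x y z : ℝ} (h : x + y + z = 1) :
    cB A B C (x • A + y • B + z • C) = y ∧ cC A B C (x • A + y • B + z • C) = z := by
  have hx : x = 1 - y - z := by linarith
  subst hx
  unfold cB cC
  constructor
  · rw [div_eq_iff hD]; simp [cr]; ring
  · rw [div_eq_iff hD]; simp [cr]; ring

theorem bil_comb (A B C : E2) (u v : ℝ) :
    bil A (B - A) 0 (C - B) (u, v) = (1 - u) • A + (u * (1 - v)) • B + (u * v) • C := by
  ext i
  simp [bil]; ring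

theorem mem_tri_iff {A B C x : E2} (hD : cr (B - A) (C - A) ≠ 0) :
    x ∈ tri A B C ↔ 0 ≤ cB A B C x ∧ 0 ≤ cC A B C x ∧ cB A B C x + cC A B C x ≤ 1 := by
  constructor
  · intro hx
    obtain ⟨u, v, hu, hv, rfl⟩ := tri_side A B C x hx
    rw [bil_comb]
    obtain ⟨e1, e2⟩ := coords_of_comb hD (x := 1 - u) (y := u * (1 - v)) (z := u * v) (by ring)
    rw [e1, e2]
    refine ⟨mul_nonneg hu.1 (by linarith [hv.2]), mul_nonneg hu.1 hv.1, ?_⟩
    have : u * (1 - v) + u * v = u := by ring
    rw [this]; exact hu.2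
  · rintro ⟨h1, h2, h3⟩
    rw [bary' hD (x := x)]
    exact tri_mem A B C _ _ _ (by linarith) h1 h2 (by ring)

theorem mem_otri_iff {A B C x : E2} (hD : cr (B - A) (C - A) ≠ 0) :
    x ∈ otri A B C ↔ 0 < cB A B C x ∧ 0 < cC A B C x ∧ cB A B C x + cC A B C x < 1 := by
  constructor
  · rintro ⟨⟨u, v⟩, ⟨hu, hv⟩, rfl⟩
    simp only at hu hv
    rw [bil_comb]
    obtain ⟨e1, e2⟩ := coords_of_comb hD (x := 1 - u) (y := u * (1 - v)) (z := u * v) (by ring)
    rw [e1, e2]
    refine ⟨mul_pos hu.1 (by linarith [hv.2]), mul_pos hu.1 hv.1, ?_⟩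
    have : u * (1 - v) + u * v = u := by ring
    rw [this]; exact hu.2
  · rintro ⟨h1, h2, h3⟩
    have hs : 0 < cB A B C x + cC A B C x := by linarith
    refine ⟨(cB A B C x + cC A B C x, cC A B C x / (cB A B C x + cC A B C x)), ⟨⟨hs, h3⟩, ?_, ?_⟩, ?_⟩
    · exact div_pos h2 hs
    · rw [div_lt_one hs]; linarith
    · rw [bil_comb]
      conv_rhs => rw [bary' hD (x := x)]
      have e1 : (cB A B C x + cC A B C x) * (1 - cC A B C x / (cB A B C x + cC A B C x)) = cB A B C x := by
        field_simp; ring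
      have e2 : (cB A B C x + cC A B C x) * (cC A B C x / (cB A B C x + cC A B C x)) = cC A B C x := by
        field_simp
      rw [e1, e2]
      congr 2; ring_nf

theorem cB_add (A B C x v : E2) (s : ℝ) :
    cB A B C (x + s • v) = cB A B C x + s * (cr v (C - A) / cr (B - A) (C - A)) := by
  unfold cB
  rw [show cr (x + s • v - A) (C - A) = cr (x - A) (C - A) + s * cr v (C - A) by simp [cr]; ring]
  ring

theorem cC_add (A B C x v : E2) (s : ℝ) :
    cC A B C (x + s • v) = cC A B C x + s * (cr (B - A) v / cr (B - A) (C - A)) := by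
  unfold cC
  rw [show cr (B - A) (x + s • v - A) = cr (B - A) (x - A) + s * cr (B - A) v by simp [cr]; ring]
  ring

theorem not_mem_other {a b c d x : E2} (h : cr (b - a) (c - a) * cr (d - a) (c - a) < 0)
    (hx : 0 < cB a b c x) : x ∉ tri a c d := by
  have hX : cr (b - a) (c - a) ≠ 0 := by intro h0; rw [h0] at h; simp at h
  have hY : cr (d - a) (c - a) ≠ 0 := by intro h0; rw [h0] at h; simp at h
  have hY' : cr (c - a) (d - a) ≠ 0 := by rw [cr_swap]; exact neg_ne_zero.2 hY
  rw [mem_tri_iff hY']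
  rintro ⟨-, h2, -⟩
  have e : cC a c d x * (cr (d - a) (c - a) ^ 2)
      = cB a b c x * (cr (b - a) (c - a) * cr (d - a) (c - a)) := by
    unfold cC cB
    rw [cr_swap (c - a) (x - a), cr_swap (c - a) (d - a)]
    field_simp
  have h3 : 0 < cr (d - a) (c - a) ^ 2 := by positivity
  have h4 : 0 ≤ cC a c d x * (cr (d - a) (c - a) ^ 2) := by positivity
  have h5 : cB a b c x * (cr (b - a) (c - a) * cr (d - a) (c - a)) < 0 := mul_neg_of_pos_of_neg hx h
  linarith

theorem ray1 {a b c d x : E2} (h : cr (b - a) (c - a) * cr (d - a) (c - a) < 0)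
    (hx : x ∉ quadc a b c d) (hβ : 0 ≤ cB a b c x) :
    ∃ v : E2, v ≠ 0 ∧ ∀ s : ℝ, 0 ≤ s → x + s • v ∉ quadc a b c d := by
  have hX : cr (b - a) (c - a) ≠ 0 := by intro h0; rw [h0] at h; simp at h
  have hx1 : x ∉ tri a b c := fun h' => hx (Or.inl h')
  rw [mem_tri_iff hX] at hx1
  push Not at hx1
  by_cases hγ : 0 ≤ cC a b c x
  · have hα := hx1 hβ hγ
    refine ⟨b - a, ?_, ?_⟩
    · intro h0; rw [h0] at hX; exact hX (cr_zero_left _)
    · intro s hs
      rcases hs.eq_or_lt with rfl | hs
      · simpa using hx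
      rintro (h1 | h1)
      · rw [mem_tri_iff hX, cB_add, cC_add, div_self hX, cr_self] at h1
        obtain ⟨-, -, h2⟩ := h1
        simp at h2
        linarith
      · refine not_mem_other h ?_ h1
        rw [cB_add, div_self hX]; linarith
  · push Not at hγ
    refine ⟨b - c, ?_, ?_⟩
    · intro h0
      apply hX
      rw [sub_eq_zero.1 h0, cr_self]
    · intro s hs
      rcases hs.eq_or_lt with rfl | hs
      · simpa using hx
      have e1 : cr (b - c) (c - a) = cr (b - a) (c - a) := by simp [cr]; ring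
      have e2 : cr (b - a) (b - c) = - cr (b - a) (c - a) := by simp [cr]; ring
      rintro (h1 | h1)
      · rw [mem_tri_iff hX, cB_add, cC_add, e1, e2, neg_div, div_self hX] at h1
        obtain ⟨-, h2, -⟩ := h1
        linarith
      · refine not_mem_other h ?_ h1
        rw [cB_add, e1, div_self hX]; linarith

theorem quadc_swap_bd (a b c d : E2) : quadc a b c d = quadc a d c b := by
  have e1 : tri a c d = tri a d c := by
    unfold tri; congr 1; ext x; simp only [mem_insert_iff, mem_singleton_iff]; tauto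
  have e2 : tri a b c = tri a c b := by
    unfold tri; congr 1; ext x; simp only [mem_insert_iff, mem_singleton_iff]; tauto
  unfold quadc
  rw [union_comm, e1, e2]

theorem ray {a b c d x : E2} (h : cr (b - a) (c - a) * cr (d - a) (c - a) < 0)
    (hx : x ∉ quadc a b c d) :
    ∃ v : E2, v ≠ 0 ∧ ∀ s : ℝ, 0 ≤ s → x + s • v ∉ quadc a b c d := by
  have hX : cr (b - a) (c - a) ≠ 0 := by intro h0; rw [h0] at h; simp at h
  have hY : cr (d - a) (c - a) ≠ 0 := by intro h0; rw [h0] at h; simp at h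
  by_cases hβ : 0 ≤ cB a b c x
  · exact ray1 h hx hβ
  · push Not at hβ
    have h' : cr (d - a) (c - a) * cr (b - a) (c - a) < 0 := by linarith
    have hx' : x ∉ quadc a d c b := by rwa [← quadc_swap_bd]
    have hβ' : 0 ≤ cB a d c x := by
      have e : cB a d c x * (cr (d - a) (c - a) ^ 2)
          = cB a b c x * (cr (b - a) (c - a) * cr (d - a) (c - a)) := by
        unfold cB; field_simp
      have h3 : 0 < cr (d - a) (c - a) ^ 2 := by positivity
      have h5 : 0 < cB a b c x * (cr (b - a) (c - a) * cr (d - a) (c - a)) := mul_pos_of_neg_of_neg hβ h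
      rw [← e] at h5
      exact ((mul_pos_iff_of_pos_right h3).1 h5).le
    obtain ⟨v, hv, hs⟩ := ray1 h' hx' hβ'
    refine ⟨v, hv, ?_⟩
    intro s hs0
    rw [quadc_swap_bd]
    exact hs s hs0

/-- the boundary curve -/
def bdry (a b c d : E2) : Set E2 := segment ℝ a b ∪ segment ℝ b c ∪ segment ℝ c d ∪ segment ℝ d a

theorem bdry_subset (a b c d : E2) : bdry a b c d ⊆ quadc a b c d := by
  have s1 : ∀ {A B C p q : E2}, p ∈ ({A, B, C} : Set E2) → q ∈ ({A, B, C} : Set E2) →
      segment ℝ p q ⊆ tri A B C := fun hp hq =>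
    (convex_tri _ _ _).segment_subset (subset_convexHull ℝ _ hp) (subset_convexHull ℝ _ hq)
  rintro x (((hx | hx) | hx) | hx)
  · exact Or.inl (s1 (by simp) (by simp) hx)
  · exact Or.inl (s1 (by simp) (by simp) hx)
  · exact Or.inr (s1 (by simp) (by simp) hx)
  · exact Or.inr (s1 (by simp) (by simp) hx)

theorem seg_coord {A B C p q x : E2} (hx : x ∈ segment ℝ p q) :
    ∃ s t : ℝ, 0 ≤ s ∧ 0 ≤ t ∧ s + t = 1 ∧ cB A B C x = s * cB A B C p + t * cB A B C q ∧
      cC A B C x = s * cC A B C p + t * cC A B C q := by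
  obtain ⟨s, t, hs, ht, hst, rfl⟩ := hx
  refine ⟨s, t, hs, ht, hst, ?_, ?_⟩
  · unfold cB
    have hs' : s = 1 - t := by linarith
    subst hs'
    rw [show cr ((1 - t) • p + t • q - A) (C - A) = (1 - t) * cr (p - A) (C - A) + t * cr (q - A) (C - A) by
      simp [cr]; ring]
    ring
  · unfold cC
    have hs' : s = 1 - t := by linarith
    subst hs'
    rw [show cr (B - A) ((1 - t) • p + t • q - A) = (1 - t) * cr (B - A) (p - A) + t * cr (B - A) (q - A) by
      simp [cr]; ring]
    ring

theorem cB_A (A B C : E2) : cB A B C A = 0 := by simp [cB, cr]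
theorem cC_A (A B C : E2) : cC A B C A = 0 := by simp [cC, cr]
theorem cB_B {A B C : E2} (hD : cr (B - A) (C - A) ≠ 0) : cB A B C B = 1 := by unfold cB; exact div_self hD
theorem cC_B (A B C : E2) : cC A B C B = 0 := by unfold cC; rw [cr_self]; simp
theorem cB_C (A B C : E2) : cB A B C C = 0 := by unfold cB; rw [cr_self]; simp
theorem cC_C {A B C : E2} (hD : cr (B - A) (C - A) ≠ 0) : cC A B C C = 1 := by unfold cC; exact div_self hD

theorem cB_d_neg {a b c d : E2} (h : cr (b - a) (c - a) * cr (d - a) (c - a) < 0) : cB a b c d < 0 := by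
  have hX : cr (b - a) (c - a) ≠ 0 := by intro h0; rw [h0] at h; simp at h
  have e : cB a b c d * (cr (b - a) (c - a) ^ 2) = cr (b - a) (c - a) * cr (d - a) (c - a) := by
    unfold cB; field_simp
  rw [← e] at h
  have h3 : 0 < cr (b - a) (c - a) ^ 2 := by positivity
  by_contra hn
  push Not at hn
  have : 0 ≤ cB a b c d * (cr (b - a) (c - a) ^ 2) := by positivity
  linarith

theorem otri_disj {a b c d : E2} (h : cr (b - a) (c - a) * cr (d - a) (c - a) < 0) :
    Disjoint (otri a b c) (bdry a b c d) := by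
  have hX : cr (b - a) (c - a) ≠ 0 := by intro h0; rw [h0] at h; simp at h
  have hd := cB_d_neg h
  rw [Set.disjoint_left]
  intro x hx
  rw [mem_otri_iff hX] at hx
  obtain ⟨h1, h2, h3⟩ := hx
  rintro (((hx | hx) | hx) | hx)
  · obtain ⟨s, t, hs, ht, hst, e1, e2⟩ := seg_coord (A := a) (B := b) (C := c) hx
    rw [cC_A, cC_B] at e2
    linarith
  · obtain ⟨s, t, hs, ht, hst, e1, e2⟩ := seg_coord (A := a) (B := b) (C := c) hx
    rw [cB_B hX, cB_C] at e1
    rw [cC_B, cC_C hX] at e2
    linarith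
  · obtain ⟨s, t, hs, ht, hst, e1, e2⟩ := seg_coord (A := a) (B := b) (C := c) hx
    rw [cB_C] at e1
    nlinarith
  · obtain ⟨s, t, hs, ht, hst, e1, e2⟩ := seg_coord (A := a) (B := b) (C := c) hx
    rw [cB_A] at e1
    nlinarith

theorem mid_not_bdry {a b c d : E2} (h : cr (b - a) (c - a) * cr (d - a) (c - a) < 0) :
    (1/2 : ℝ) • (a + c) ∉ bdry a b c d := by
  have hX : cr (b - a) (c - a) ≠ 0 := by intro h0; rw [h0] at h; simp at h
  have hd := cB_d_neg h
  obtain ⟨m1, m2⟩ := coords_of_comb hX (x := 1/2) (y := 0) (z := 1/2) (by norm_num)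
  have e : (1/2 : ℝ) • a + (0:ℝ) • b + (1/2 : ℝ) • c = (1/2 : ℝ) • (a + c) := by
    rw [zero_smul, add_zero, smul_add]
  rw [e] at m1 m2
  rintro (((hx | hx) | hx) | hx)
  · obtain ⟨s, t, hs, ht, hst, e1, e2⟩ := seg_coord (A := a) (B := b) (C := c) hx
    rw [cC_A, cC_B, m2] at e2
    norm_num at e2
  · obtain ⟨s, t, hs, ht, hst, e1, e2⟩ := seg_coord (A := a) (B := b) (C := c) hx
    rw [cB_B hX, cB_C, m1] at e1
    rw [cC_B, cC_C hX, m2] at e2
    linarith
  · obtain ⟨s, t, hs, ht, hst, e1, e2⟩ := seg_coord (A := a) (B := b) (C := c) hx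
    rw [cB_C, m1] at e1
    rw [cC_C hX, m2] at e2
    have ht0 : t = 0 := by
      have : t * cB a b c d = 0 := by linarith
      exact (mul_eq_zero.1 this).resolve_right hd.ne
    subst ht0
    linarith
  · obtain ⟨s, t, hs, ht, hst, e1, e2⟩ := seg_coord (A := a) (B := b) (C := c) hx
    rw [cB_A, m1] at e1
    rw [cC_A, m2] at e2
    have hs0 : s = 0 := by
      have : s * cB a b c d = 0 := by linarith
      exact (mul_eq_zero.1 this).resolve_right hd.ne
    subst hs0
    linarith

/-- every neighbourhood of the midpoint of the diagonal meets the open triangle -/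
theorem mid_closure {a b c : E2} (hX : cr (b - a) (c - a) ≠ 0) {U : Set E2} (hU : IsOpen U)
    (hm : (1/2 : ℝ) • (a + c) ∈ U) : (otri a b c ∩ U).Nonempty := by
  have hcont : Continuous fun ε : ℝ => (1 - ε) • ((1/2 : ℝ) • (a + c)) + ε • b := by fun_prop
  have h0 : (fun ε : ℝ => (1 - ε) • ((1/2 : ℝ) • (a + c)) + ε • b) 0 ∈ U := by
    simpa using hm
  have hnh := hcont.continuousAt.preimage_mem_nhds (hU.mem_nhds h0)
  rw [Metric.mem_nhds_iff] at hnh
  obtain ⟨r, hr, hball⟩ := hnh
  set ε := min (r / 2) (1 / 2) with hε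
  have he0 : 0 < ε := by rw [hε]; positivity
  have he1 : ε ≤ 1 / 2 := min_le_right _ _
  have he2 : ε < r := (min_le_left _ _).trans_lt (by linarith)
  refine ⟨(1 - ε) • ((1/2 : ℝ) • (a + c)) + ε • b, ?_, ?_⟩
  · have e : (1 - ε) • ((1/2 : ℝ) • (a + c)) + ε • b
        = ((1 - ε) / 2) • a + ε • b + ((1 - ε) / 2) • c := by
      ext i; simp; ring
    rw [mem_otri_iff hX, e]
    obtain ⟨e1, e2⟩ := coords_of_comb hX (x := (1 - ε) / 2) (y := ε) (z := (1 - ε) / 2) (by ring)
    rw [e1, e2]
    refine ⟨he0, by linarith, by linarith⟩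
  · apply hball
    rw [Metric.mem_ball, Real.dist_eq, sub_zero, abs_of_pos he0]
    exact he2

theorem subset_of_preconnected {t Ω : Set E2} (ht : IsPreconnected t) (hΩ : IsOpen Ω)
    (hd : Disjoint t (frontier Ω)) (hne : (t ∩ Ω).Nonempty) : t ⊆ Ω := by
  refine IsPreconnected.subset_left_of_subset_union (u := Ω) (v := (closure Ω)ᶜ) hΩ
    isClosed_closure.isOpen_compl ?_ ?_ hne ht
  · exact Set.disjoint_compl_right_iff_subset.2 subset_closure
  · intro x hx
    by_cases h : x ∈ closure Ω
    · left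
      by_contra hn
      exact Set.disjoint_left.1 hd hx ⟨h, fun hi => hn (interior_subset hi)⟩
    · right; exact h

theorem preconn_otri (A B C : E2) : IsPreconnected (otri A B C) := by
  refine IsPreconnected.image ?_ _ (continuous_bil _ _ _ _).continuousOn
  exact ((convex_Ioo (0:ℝ) 1).prod (convex_Ioo (0:ℝ) 1)).isPreconnected

theorem bdry_swap_bd (a b c d : E2) : bdry a b c d = bdry a d c b := by
  unfold bdry
  rw [segment_symm ℝ d a, segment_symm ℝ c d, segment_symm ℝ b c, segment_symm ℝ a b]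
  ext x; simp only [mem_union]; tauto

/-- Identification of a region whose boundary is the quadrilateral curve. -/
theorem region_ae {a b c d : E2} {Ω : Set E2} (h : cr (b - a) (c - a) * cr (d - a) (c - a) < 0)
    (hΩ : IsOpen Ω) (hb : Bornology.IsBounded Ω) (hfr : frontier Ω = bdry a b c d)
    (hvol : volume Ω ≠ 0) : (Ω : Set E2) =ᵐ[volume] quado a b c d := by
  have hX : cr (b - a) (c - a) ≠ 0 := by intro h0; rw [h0] at h; simp at h
  have hY : cr (d - a) (c - a) ≠ 0 := by intro h0; rw [h0] at h; simp at h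
  have h' : cr (d - a) (c - a) * cr (b - a) (c - a) < 0 := by linarith
  -- `Ω ⊆ quadc`
  have hsub : Ω ⊆ quadc a b c d := by
    intro x hx
    by_contra hn
    obtain ⟨v, hv, hray⟩ := ray h hn
    have hpre : IsPreconnected ((fun s : ℝ => x + s • v) '' Ici 0) :=
      IsPreconnected.image (convex_Ici 0).isPreconnected _ (by fun_prop)
    have hdis : Disjoint ((fun s : ℝ => x + s • v) '' Ici 0) (frontier Ω) := by
      rw [Set.disjoint_left]
      rintro y ⟨s, hs, rfl⟩ hy
      rw [hfr] at hy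
      exact hray s hs (bdry_subset a b c d hy)
    have hss := subset_of_preconnected hpre hΩ hdis ⟨x, ⟨0, by simp, by simp⟩, hx⟩
    obtain ⟨R, hR⟩ := hb.subset_ball x
    have hvn : 0 < ‖v‖ := norm_pos_iff.2 hv
    have hR0 : 0 < R := by
      have := hR hx
      simpa using this
    have h1 := hR (hss ⟨R / ‖v‖, by simp; positivity, rfl⟩)
    rw [Metric.mem_ball, dist_eq_norm, add_sub_cancel_left, norm_smul, Real.norm_eq_abs,
      abs_of_pos (by positivity), div_mul_cancel₀ _ hvn.ne'] at h1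
    exact lt_irrefl _ h1
  -- dichotomies
  have d1 : Disjoint (otri a b c) (frontier Ω) := by rw [hfr]; exact otri_disj h
  have d2 : Disjoint (otri a d c) (frontier Ω) := by
    rw [hfr, bdry_swap_bd]; exact otri_disj h'
  have hY2 : cr (d - a) (c - a) ≠ 0 := hY
  have null1 : volume (tri a b c \ otri a b c) = 0 := ae_le_set.1 (tri_ae a b c).symm.le
  have e13 : tri a c d = tri a d c := by
    unfold tri; congr 1; ext x; simp only [mem_insert_iff, mem_singleton_iff]; tauto
  have null2 : volume (tri a c d \ otri a d c) = 0 := by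
    rw [e13]; exact ae_le_set.1 (tri_ae a d c).symm.le
  have hm : (1/2 : ℝ) • (a + c) ∉ frontier Ω := by rw [hfr]; exact mid_not_bdry h
  -- if one open triangle is inside then so is the other
  have step : ∀ b' d' : E2, cr (b' - a) (c - a) ≠ 0 → cr (d' - a) (c - a) ≠ 0 →
      otri a b' c ⊆ Ω → Disjoint (otri a d' c) Ω → False := by
    intro b' d' hb' hd' hin hout
    have hcl : (1/2 : ℝ) • (a + c) ∈ closure Ω := by
      rw [mem_closure_iff]
      intro U hU hmU
      obtain ⟨y, hy1, hy2⟩ := mid_closure hb' hU hmU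
      exact ⟨y, hy2, hin hy1⟩
    have hmΩ : (1/2 : ℝ) • (a + c) ∈ Ω := by
      by_contra hn
      exact hm ⟨hcl, fun hi => hn (interior_subset hi)⟩
    obtain ⟨y, hy1, hy2⟩ := mid_closure hd' hΩ hmΩ
    exact Set.disjoint_left.1 hout hy1 hy2
  have dich : ∀ t : Set E2, IsPreconnected t → Disjoint t (frontier Ω) → t ⊆ Ω ∨ Disjoint t Ω := by
    intro t ht hd
    by_cases hne : (t ∩ Ω).Nonempty
    · exact Or.inl (subset_of_preconnected ht hΩ hd hne)
    · right
      rw [Set.disjoint_iff_inter_eq_empty]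
      exact Set.not_nonempty_iff_eq_empty.1 hne
  have both : otri a b c ⊆ Ω ∧ otri a d c ⊆ Ω := by
    rcases dich _ (preconn_otri a b c) d1 with h1 | h1
    · rcases dich _ (preconn_otri a d c) d2 with h2 | h2
      · exact ⟨h1, h2⟩
      · exact (step b d hX hY h1 h2).elim
    · rcases dich _ (preconn_otri a d c) d2 with h2 | h2
      · exact (step d b hY hX h2 h1).elim
      · exfalso
        apply hvol
        refine measure_mono_null ?_ (measure_union_null null1 null2)
        intro x hx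
        rcases hsub hx with h3 | h3
        · exact Or.inl ⟨h3, fun h4 => Set.disjoint_left.1 h1 h4 hx⟩
        · exact Or.inr ⟨h3, fun h4 => Set.disjoint_left.1 h2 h4 hx⟩
  refine Filter.EventuallyEq.trans ?_ (quado_ae a b c d).symm
  rw [ae_eq_set]
  constructor
  · rw [sdiff_eq_empty.2 hsub]; simp
  · refine measure_mono_null ?_ (measure_union_null null1 null2)
    rintro x ⟨hx1, hx2⟩
    rcases hx1 with h3 | h3
    · exact Or.inl ⟨h3, fun h4 => hx2 (both.1 h4)⟩
    · exact Or.inr ⟨h3, fun h4 => hx2 (both.2 h4)⟩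

end Pool.Agent.Helper238
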