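import Pool.Agent.Helper238.Geo2

set_option autoImplicit false

open MeasureTheory Set

namespace Pool.Agent.Helper238

theorem par_of_cr {u w : E2} (hu : u ≠ 0) (h : cr u w = 0) : ∃ r : ℝ, w = r • u := by
  unfold cr at h
  by_cases h0 : u 0 = 0
  · have h1 : u 1 ≠ 0 := by
      intro h1
      apply hu
      ext i; fin_cases i
      · exact h0
      · exact h1
    refine ⟨w 1 / u 1, ?_⟩
    rw [h0] at h
    have hw : w 0 = 0 := by
      have : u 1 * w 0 = 0 := by linarith
      exact (mul_eq_zero.1 this).resolve_left h1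
    ext i; fin_cases i
    · simp [h0, hw]
    · simp; field_simp
  · refine ⟨w 0 / u 0, ?_⟩
    ext i; fin_cases i
    · simp; field_simp
    · simp; field_simp; linarith

theorem cr_ne_of_not_collinear {a b c : E2} (h : ¬ Collinear ℝ {a, b, c}) :
    cr (b - a) (c - a) ≠ 0 := by
  intro h0
  apply h
  rw [collinear_iff_of_mem (p₀ := a) (by simp)]
  by_cases hab : b - a = 0
  · refine ⟨c - a, ?_⟩
    intro p hp
    simp only [mem_insert_iff, mem_singleton_iff] at hp
    rcases hp with rfl | rfl | rfl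
    · exact ⟨0, by simp⟩
    · exact ⟨0, by simp [sub_eq_zero.1 hab]⟩
    · exact ⟨1, by simp⟩
  · obtain ⟨r, hr⟩ := par_of_cr hab h0
    refine ⟨b - a, ?_⟩
    intro p hp
    simp only [mem_insert_iff, mem_singleton_iff] at hp
    rcases hp with rfl | rfl | rfl
    · exact ⟨0, by simp⟩
    · exact ⟨1, by simp⟩
    · exact ⟨r, by rw [← hr]; simp⟩

/-- barycentric representation -/
theorem bary {a b c x : E2} (hD : cr (b - a) (c - a) ≠ 0) :
    x = (1 - cr (x - a) (c - a) / cr (b - a) (c - a) - cr (b - a) (x - a) / cr (b - a) (c - a)) • a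
      + (cr (x - a) (c - a) / cr (b - a) (c - a)) • b
      + (cr (b - a) (x - a) / cr (b - a) (c - a)) • c := by
  have h0 : cr (b - a) (c - a) = (b 0 - a 0) * (c 1 - a 1) - (b 1 - a 1) * (c 0 - a 0) := by simp [cr]
  have h1 : cr (x - a) (c - a) = (x 0 - a 0) * (c 1 - a 1) - (x 1 - a 1) * (c 0 - a 0) := by simp [cr]
  have h2 : cr (b - a) (x - a) = (b 0 - a 0) * (x 1 - a 1) - (b 1 - a 1) * (x 0 - a 0) := by simp [cr]
  ext i
  fin_cases i
  · simp only [PiLp.add_apply, PiLp.smul_apply, smul_eq_mul]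
    field_simp
    rw [h0, h1, h2]
    simp
    ring
  · simp only [PiLp.add_apply, PiLp.smul_apply, smul_eq_mul]
    field_simp
    rw [h0, h1, h2]
    simp
    ring

theorem exists_diag {a b c d : E2} (h1 : ¬ Collinear ℝ {a, b, c}) (h2 : ¬ Collinear ℝ {b, c, d})
    (h3 : ¬ Collinear ℝ {c, d, a}) (h4 : ¬ Collinear ℝ {d, a, b})
    (h5 : Disjoint (segment ℝ a b) (segment ℝ c d)) (h6 : Disjoint (segment ℝ b c) (segment ℝ d a)) :
    cr (b - a) (c - a) * cr (d - a) (c - a) < 0 ∨ cr (c - b) (d - b) * cr (a - b) (d - b) < 0 := by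
  by_contra hcon
  push Not at hcon
  obtain ⟨n1, n2⟩ := hcon
  have hX := cr_ne_of_not_collinear h1
  have hZ := cr_ne_of_not_collinear h2
  have hY : cr (d - a) (c - a) ≠ 0 := by
    have h := cr_ne_of_not_collinear h3
    have e : cr (d - c) (a - c) = - cr (d - a) (c - a) := by simp [cr]; ring
    rw [e] at h
    exact fun h0 => h (by rw [h0]; ring)
  have hW : cr (a - b) (d - b) ≠ 0 := by
    have h := cr_ne_of_not_collinear h4
    have e : cr (a - d) (b - d) = cr (a - b) (d - b) * (-1) := by simp [cr]; ring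
    rw [e] at h
    exact fun h0 => h (by rw [h0]; ring)
  have p1 : 0 < cr (b - a) (c - a) * cr (d - a) (c - a) :=
    lt_of_le_of_ne n1 (mul_ne_zero hX hY).symm
  have p2 : 0 < cr (c - b) (d - b) * cr (a - b) (d - b) :=
    lt_of_le_of_ne n2 (mul_ne_zero hZ hW).symm
  obtain ⟨D, hD⟩ : ∃ D, D = cr (b - a) (c - a) := ⟨_, rfl⟩
  obtain ⟨β, hβ⟩ : ∃ β, β = cr (d - a) (c - a) / D := ⟨_, rfl⟩
  obtain ⟨γ, hγ⟩ : ∃ γ, γ = cr (b - a) (d - a) / D := ⟨_, rfl⟩
  have hD0 : D ≠ 0 := by rw [hD]; exact hX
  have hd : d = (1 - β - γ) • a + β • b + γ • c := by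
    rw [hβ, hγ, hD]; exact bary hX
  have hD2 : 0 < D ^ 2 := by positivity
  have hβ0 : 0 < β := by
    have e : β * D ^ 2 = cr (b - a) (c - a) * cr (d - a) (c - a) := by
      rw [hβ, ← hD]; field_simp
    rw [← e] at p1
    exact (mul_pos_iff_of_pos_right hD2).1 p1
  have hαγ : (1 - β - γ) * γ < 0 := by
    have e : -((1 - β - γ) * γ) * D ^ 2 = cr (c - b) (d - b) * cr (a - b) (d - b) := by
      have e1 : cr (c - b) (d - b) = (1 - β - γ) * D := by
        have e2 : cr (c - b) (d - b) = D - cr (d - a) (c - a) - cr (b - a) (d - a) := by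
          rw [hD]; simp [cr]; ring
        rw [e2, hβ, hγ]; field_simp
      have e3 : cr (a - b) (d - b) = -γ * D := by
        rw [hγ]; field_simp; simp [cr]; ring
      rw [e1, e3]; ring
    rw [← e] at p2
    have := (mul_pos_iff_of_pos_right hD2).1 p2
    linarith
  rcases lt_or_ge γ 0 with hg | hg
  · have hα : 0 < 1 - β - γ := by nlinarith
    -- segments ab and cd meet
    have m1 : ((1 - β - γ) / (1 - γ)) • a + (β / (1 - γ)) • b ∈ segment ℝ a b := by
      refine ⟨(1 - β - γ) / (1 - γ), β / (1 - γ), by apply div_nonneg <;> linarith,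
        by apply div_nonneg <;> linarith, ?_, rfl⟩
      have : 1 - γ ≠ 0 := by linarith
      field_simp; ring
    have m2 : ((1 - β - γ) / (1 - γ)) • a + (β / (1 - γ)) • b ∈ segment ℝ c d := by
      refine ⟨-γ / (1 - γ), 1 / (1 - γ), by apply div_nonneg <;> linarith,
        by apply div_nonneg <;> linarith, ?_, ?_⟩
      · have : 1 - γ ≠ 0 := by linarith
        field_simp; ring
      · have hne : 1 - γ ≠ 0 := by linarith
        have : (1 / (1 - γ)) • d = (1 / (1 - γ)) • ((1 - β - γ) • a + β • b + γ • c) := by rw [← hd]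
        rw [this]
        ext i
        simp only [PiLp.add_apply, PiLp.smul_apply, smul_eq_mul]
        field_simp; ring
    exact Set.disjoint_left.1 h5 m1 m2
  · have hg' : 0 < γ := lt_of_le_of_ne hg (by rintro rfl; simp at hαγ)
    have hα : 1 - β - γ < 0 := by nlinarith
    have hs : 0 < β + γ := by linarith
    have m1 : (β / (β + γ)) • b + (γ / (β + γ)) • c ∈ segment ℝ b c := by
      refine ⟨β / (β + γ), γ / (β + γ), by positivity, by positivity, ?_, rfl⟩
      field_simp
    have m2 : (β / (β + γ)) • b + (γ / (β + γ)) • c ∈ segment ℝ d a := by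
      refine ⟨1 / (β + γ), (β + γ - 1) / (β + γ), by positivity,
        by apply div_nonneg <;> linarith, ?_, ?_⟩
      · field_simp; ring
      · have : (1 / (β + γ)) • d = (1 / (β + γ)) • ((1 - β - γ) • a + β • b + γ • c) := by rw [← hd]
        rw [this]
        ext i
        simp only [PiLp.add_apply, PiLp.smul_apply, smul_eq_mul]
        field_simp; ring
    exact Set.disjoint_left.1 h6 m1 m2

end Pool.Agent.Helper238
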