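import Pool.Agent.Helper238.Lin
import Pool.Agent.Helper238.FinR1

set_option autoImplicit false

open MeasureTheory Set

namespace Pool.Agent.Helper238

/-- simultaneous analysis of two positive definite binary forms -/
theorem two_forms {a11 a12 a22 b11 b12 b22 : ℝ} (hA1 : 0 < a11) (hA2 : 0 < a11 * a22 - a12 ^ 2)
    (hB1 : 0 < b11) (hB2 : 0 < b11 * b22 - b12 ^ 2) :
    ∃ θ1 θ2 : ℝ, 0 < θ1 ∧ 0 < θ2 ∧
      (θ1 + θ2) * (a11 * a22 - a12 ^ 2) = a22 * b11 + a11 * b22 - 2 * a12 * b12 ∧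
      (∀ s t : ℝ, θ2 * (s ^ 2 * a11 + 2 * s * t * a12 + t ^ 2 * a22)
        ≤ s ^ 2 * b11 + 2 * s * t * b12 + t ^ 2 * b22) ∧
      ∃ s t : ℝ, (s ≠ 0 ∨ t ≠ 0) ∧ θ1 * (s ^ 2 * a11 + 2 * s * t * a12 + t ^ 2 * a22)
        = s ^ 2 * b11 + 2 * s * t * b12 + t ^ 2 * b22 := by
  have hmix := pos_mixed a11 a12 a22 b11 b12 b22 hA1 hA2 hB1 hB2
  obtain ⟨α, hα⟩ : ∃ α, α = a11 * a22 - a12 ^ 2 := ⟨_, rfl⟩
  obtain ⟨β, hβ⟩ : ∃ β, β = a22 * b11 + a11 * b22 - 2 * a12 * b12 := ⟨_, rfl⟩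
  obtain ⟨γ, hγ⟩ : ∃ γ, γ = b11 * b22 - b12 ^ 2 := ⟨_, rfl⟩
  rw [← hα] at hA2 ⊢
  rw [← hβ] at hmix ⊢
  rw [← hγ] at hB2
  have ha22 : 0 < a22 := by
    have h : 0 < a11 * a22 := by nlinarith [sq_nonneg a12]
    exact (mul_pos_iff_of_pos_left hA1).1 h
  have hb22 : 0 < b22 := by
    have h : 0 < b11 * b22 := by nlinarith [sq_nonneg b12]
    exact (mul_pos_iff_of_pos_left hB1).1 h
  -- discriminant
  have key1 : (2 * α * (b11 / a11) - β) ^ 2 ≤ β ^ 2 - 4 * α * γ := by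
    have e : (2 * α * (b11 / a11) - β) ^ 2 = β ^ 2 - 4 * α * γ - 4 * α * (b12 - b11 / a11 * a12) ^ 2 := by
      rw [hα, hβ, hγ]; field_simp; ring
    rw [e]
    have : 0 ≤ 4 * α * (b12 - b11 / a11 * a12) ^ 2 := by positivity
    linarith
  have key2 : (2 * α * (b22 / a22) - β) ^ 2 ≤ β ^ 2 - 4 * α * γ := by
    have e : (2 * α * (b22 / a22) - β) ^ 2 = β ^ 2 - 4 * α * γ - 4 * α * (b12 - b22 / a22 * a12) ^ 2 := by
      rw [hα, hβ, hγ]; field_simp; ring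
    rw [e]
    have : 0 ≤ 4 * α * (b12 - b22 / a22 * a12) ^ 2 := by positivity
    linarith
  obtain ⟨r, hr⟩ : ∃ r, r = Real.sqrt (β ^ 2 - 4 * α * γ) := ⟨_, rfl⟩
  have hr0 : 0 ≤ r := by rw [hr]; exact Real.sqrt_nonneg _
  have hdisc : 0 ≤ β ^ 2 - 4 * α * γ := (sq_nonneg _).trans key1
  have hr2 : r ^ 2 = β ^ 2 - 4 * α * γ := by rw [hr]; exact Real.sq_sqrt hdisc
  rw [← hr2] at key1 key2
  have hrβ : r < β := by
    apply lt_of_pow_lt_pow_left₀ 2 hmix.le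
    rw [hr2]; nlinarith [mul_pos hA2 hB2]
  have k1 := (abs_le.1 (abs_le_of_sq_le_sq key1 hr0)).1
  have k2 := (abs_le.1 (abs_le_of_sq_le_sq key2 hr0)).1
  obtain ⟨θ1, hθ1⟩ : ∃ θ, θ = (β + r) / (2 * α) := ⟨_, rfl⟩
  obtain ⟨θ2, hθ2⟩ : ∃ θ, θ = (β - r) / (2 * α) := ⟨_, rfl⟩
  have h1 : 0 < θ1 := by rw [hθ1]; positivity
  have h2 : 0 < θ2 := by rw [hθ2]; exact div_pos (by linarith) (by linarith)
  have p1 : (b11 - θ1 * a11) * (b22 - θ1 * a22) = (b12 - θ1 * a12) ^ 2 := by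
    have e : (b11 - θ1 * a11) * (b22 - θ1 * a22) - (b12 - θ1 * a12) ^ 2 = α * θ1 ^ 2 - β * θ1 + γ := by
      rw [hα, hβ, hγ]; ring
    have e2 : α * θ1 ^ 2 - β * θ1 + γ = (r ^ 2 - (β ^ 2 - 4 * α * γ)) / (4 * α) := by
      rw [hθ1]; field_simp; ring
    rw [e2, hr2] at e
    simp at e
    linarith
  have p2 : (b11 - θ2 * a11) * (b22 - θ2 * a22) = (b12 - θ2 * a12) ^ 2 := by
    have e : (b11 - θ2 * a11) * (b22 - θ2 * a22) - (b12 - θ2 * a12) ^ 2 = α * θ2 ^ 2 - β * θ2 + γ := by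
      rw [hα, hβ, hγ]; ring
    have e2 : α * θ2 ^ 2 - β * θ2 + γ = (r ^ 2 - (β ^ 2 - 4 * α * γ)) / (4 * α) := by
      rw [hθ2]; field_simp; ring
    rw [e2, hr2] at e
    simp at e
    linarith
  have q11 : 0 ≤ b11 - θ2 * a11 := by
    have : θ2 ≤ b11 / a11 := by
      rw [hθ2, div_le_iff₀ (by positivity)]; linarith
    rw [le_div_iff₀ hA1] at this
    linarith
  have q22 : 0 ≤ b22 - θ2 * a22 := by
    have : θ2 ≤ b22 / a22 := by
      rw [hθ2, div_le_iff₀ (by positivity)]; linarith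
    rw [le_div_iff₀ ha22] at this
    linarith
  refine ⟨θ1, θ2, h1, h2, ?_, ?_, ?_⟩
  · rw [hθ1, hθ2]; field_simp; ring
  · intro s t
    rcases q11.eq_or_lt with h0 | h0
    · rw [← h0, zero_mul] at p2
      have h3 : b12 - θ2 * a12 = 0 := by
        have := p2.symm; exact pow_eq_zero_iff (by norm_num) |>.1 this
      have h4 : 0 ≤ t ^ 2 * (b22 - θ2 * a22) := by positivity
      have h5 : s ^ 2 * (b11 - θ2 * a11) = 0 := by rw [← h0]; ring
      have h6 : 2 * s * t * (b12 - θ2 * a12) = 0 := by rw [h3]; ring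
      linarith
    · have h3 : 0 ≤ (b11 - θ2 * a11) * (s ^ 2 * (b11 - θ2 * a11) + 2 * s * t * (b12 - θ2 * a12)
          + t ^ 2 * (b22 - θ2 * a22)) := by
        have : (b11 - θ2 * a11) * (s ^ 2 * (b11 - θ2 * a11) + 2 * s * t * (b12 - θ2 * a12)
          + t ^ 2 * (b22 - θ2 * a22)) = ((b11 - θ2 * a11) * s + (b12 - θ2 * a12) * t) ^ 2 := by
          linear_combination t ^ 2 * p2
        rw [this]; positivity
      have h4 := nonneg_of_mul_nonneg_right h3 h0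
      linarith
  · by_cases h0 : b11 - θ1 * a11 = 0
    · refine ⟨1, 0, Or.inl one_ne_zero, ?_⟩
      linarith
    · refine ⟨-(b12 - θ1 * a12), b11 - θ1 * a11, Or.inr h0, ?_⟩
      linear_combination (-(b11 - θ1 * a11)) * p1

/-- the set of Rayleigh quotients of a family -/
def RS (Ω : Set E2) (k : ℕ) (f : Fin (k + 1) → E2 → ℝ) : Set ℝ :=
  {q : ℝ | ∃ t : Fin (k + 1) → ℝ, t ≠ 0 ∧
    q = (∫ x in Ω, ‖fderiv ℝ (fun y => ∑ i, t i * f i y) x‖ ^ 2) /
        (∫ x in Ω, (∑ i, t i * f i x) ^ 2)}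

theorem fderiv_sum' {k : ℕ} {f : Fin (k + 1) → E2 → ℝ} (hf : ∀ i, ContDiff ℝ 1 (f i))
    (t : Fin (k + 1) → ℝ) (x : E2) :
    fderiv ℝ (fun y => ∑ i, t i * f i y) x = ∑ i, t i • fderiv ℝ (f i) x := by
  rw [fderiv_fun_sum (fun i _ => (((hf i).differentiable (by simp)) x).const_mul _)]
  refine Finset.sum_congr rfl fun i _ => ?_
  rw [fderiv_const_mul (((hf i).differentiable (by simp)) x)]

section
variable {Ω K : Set E2} (hK : IsCompact K) (hae : (Ω : Set E2) =ᵐ[volume] K)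
include hK hae

theorem RS_bdd {k : ℕ} {f : Fin (k + 1) → E2 → ℝ} (hf : ∀ i, ContDiff ℝ 1 (f i))
    (hpos : ∀ t : Fin (k + 1) → ℝ, t ≠ 0 → 0 < ∫ x in Ω, (∑ i, t i * f i x) ^ 2) :
    BddAbove (RS Ω k f) := by
  have hfc : ∀ i, Continuous (f i) := fun i => (hf i).continuous
  have hfd : ∀ i, Continuous (fderiv ℝ (f i)) := fun i => (hf i).continuous_fderiv (by simp)
  obtain ⟨N, hN⟩ : ∃ N : (Fin (k + 1) → ℝ) → ℝ,
    N = fun t => ∫ x in K, ‖∑ i, t i • fderiv ℝ (f i) x‖ ^ 2 := ⟨_, rfl⟩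
  obtain ⟨D, hD⟩ : ∃ D : (Fin (k + 1) → ℝ) → ℝ,
    D = fun t => ∫ x in K, (∑ i, t i * f i x) ^ 2 := ⟨_, rfl⟩
  have cN : Continuous N := by
    rw [hN]
    refine continuous_parametric_integral_of_continuous ?_ hK
    unfold Function.uncurry
    simp only
    fun_prop
  have cD : Continuous D := by
    rw [hD]
    refine continuous_parametric_integral_of_continuous ?_ hK
    unfold Function.uncurry
    simp only
    fun_prop
  have hNe : ∀ t, ∫ x in Ω, ‖fderiv ℝ (fun y => ∑ i, t i * f i y) x‖ ^ 2 = N t := by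
    intro t
    rw [setIntegral_congr_set hae, hN]
    simp_rw [fderiv_sum' hf]
  have hDe : ∀ t : Fin (k + 1) → ℝ, ∫ x in Ω, (∑ i, t i * f i x) ^ 2 = D t := by
    intro t
    rw [setIntegral_congr_set hae, hD]
  have hDpos : ∀ t, t ≠ 0 → 0 < D t := fun t ht => by rw [← hDe]; exact hpos t ht
  obtain ⟨M, hM⟩ := (isCompact_sphere (0 : Fin (k + 1) → ℝ) 1).bddAbove_image
    (f := fun t => N t / D t) (ContinuousOn.div cN.continuousOn cD.continuousOn (fun t ht => by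
      refine (hDpos t ?_).ne'
      rintro rfl
      simp at ht))
  refine ⟨M, ?_⟩
  rintro q ⟨t, ht, rfl⟩
  rw [hNe, hDe]
  have hnt : 0 < ‖t‖ := norm_pos_iff.2 ht
  have h1 : N (‖t‖⁻¹ • t) / D (‖t‖⁻¹ • t) ≤ M := by
    apply hM
    refine ⟨‖t‖⁻¹ • t, ?_, rfl⟩
    rw [mem_sphere_zero_iff_norm, norm_smul, norm_inv, norm_norm, inv_mul_cancel₀ hnt.ne']
  have h2 : N (‖t‖⁻¹ • t) = (‖t‖⁻¹) ^ 2 * N t := by
    rw [hN]
    simp only
    rw [← integral_const_mul]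
    refine integral_congr_ae (Filter.Eventually.of_forall fun x => ?_)
    simp only [Pi.smul_apply, smul_eq_mul]
    have : ∑ i, (‖t‖⁻¹ * t i) • fderiv ℝ (f i) x = ‖t‖⁻¹ • ∑ i, t i • fderiv ℝ (f i) x := by
      rw [Finset.smul_sum]
      refine Finset.sum_congr rfl fun i _ => ?_
      rw [smul_smul]
    rw [this, norm_smul, norm_inv, norm_norm]
    ring
  have h3 : D (‖t‖⁻¹ • t) = (‖t‖⁻¹) ^ 2 * D t := by
    rw [hD]
    simp only
    rw [← integral_const_mul]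
    refine integral_congr_ae (Filter.Eventually.of_forall fun x => ?_)
    simp only [Pi.smul_apply, smul_eq_mul]
    have : ∑ i, (‖t‖⁻¹ * t i) * f i x = ‖t‖⁻¹ * ∑ i, t i * f i x := by
      rw [Finset.mul_sum]
      refine Finset.sum_congr rfl fun i _ => ?_
      ring
    rw [this]
    ring
  have h4 : N (‖t‖⁻¹ • t) / D (‖t‖⁻¹ • t) = N t / D t := by
    rw [h2, h3, mul_div_mul_left]
    positivity
  rw [← h4]
  exact h1

/-- lower bound for the max Rayleigh quotient from the Poincare inequality -/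
theorem RS_lower {κ : ℝ} (hκ : ∀ g : E2 → ℝ, ContDiff ℝ 1 g → ∫ x in Ω, g x = 0 →
      κ * ∫ x in Ω, g x ^ 2 ≤ ∫ x in Ω, ‖fderiv ℝ g x‖ ^ 2)
    {k : ℕ} (hk : 1 ≤ k) {f : Fin (k + 1) → E2 → ℝ} (hf : ∀ i, ContDiff ℝ 1 (f i))
    (hpos : ∀ t : Fin (k + 1) → ℝ, t ≠ 0 → 0 < ∫ x in Ω, (∑ i, t i * f i x) ^ 2) :
    κ ≤ sSup (RS Ω k f) := by
  have hfc : ∀ i, Continuous (f i) := fun i => (hf i).continuous
  obtain ⟨m, hm⟩ : ∃ m : Fin (k + 1) → ℝ, m = fun i => ∫ x in K, f i x := ⟨_, rfl⟩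
  have hint : ∀ t : Fin (k + 1) → ℝ, ∫ x in Ω, ∑ i, t i * f i x = ∑ i, t i * m i := by
    intro t
    rw [setIntegral_congr_set hae, integral_finsetSum]
    · refine Finset.sum_congr rfl fun i _ => ?_
      rw [integral_const_mul, hm]
    · intro i _
      exact ((hfc i).continuousOn.integrableOn_compact hK).const_mul _
  obtain ⟨t, ht0, ht⟩ : ∃ t : Fin (k + 1) → ℝ, t ≠ 0 ∧ ∑ i, t i * m i = 0 := by
    have h01 : (0 : Fin (k + 1)) ≠ Fin.last k := by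
      intro h
      have := congrArg Fin.val h
      simp at this
      omega
    by_cases h0 : m 0 = 0
    · refine ⟨Pi.single 0 1, ?_, ?_⟩
      · intro h
        have := congrFun h 0
        simp at this
      · rw [Finset.sum_eq_single 0]
        · simp [h0]
        · intro i _ hi; simp [hi]
        · simp
    · refine ⟨Pi.single 0 (m (Fin.last k)) - Pi.single (Fin.last k) (m 0), ?_, ?_⟩
      · intro h
        have := congrFun h (Fin.last k)
        simp [h01] at this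
        exact h0 this
      · simp only [Pi.sub_apply, sub_mul, Finset.sum_sub_distrib]
        rw [Finset.sum_eq_single 0, Finset.sum_eq_single (Fin.last k)]
        · simp; ring
        · intro i _ hi; simp [hi]
        · simp
        · intro i _ hi; simp [hi]
        · simp
  have hp := hpos t ht0
  have h1 := hκ (fun x => ∑ i, t i * f i x)
    (ContDiff.sum fun i _ => contDiff_const.mul (hf i)) (by rw [hint]; exact ht)
  have h2 : κ ≤ (∫ x in Ω, ‖fderiv ℝ (fun y => ∑ i, t i * f i y) x‖ ^ 2) /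
        (∫ x in Ω, (∑ i, t i * f i x) ^ 2) := by
    rw [le_div_iff₀ hp]; exact h1
  exact h2.trans (le_csSup (RS_bdd hK hae hf hpos) ⟨t, ht0, rfl⟩)

end

end Pool.Agent.Helper238
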