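import Pool.Agent.Helper238.Spec

set_option autoImplicit false

open MeasureTheory Set

namespace Pool.Agent.Helper238

section
variable {Ω K : Set E2} (hK : IsCompact K) (hΩK : Ω ⊆ K) {u v : E2 → ℝ}
include hK hΩK

/-- mass of `t0 + t1 u + t2 v` -/
theorem mass_full (hu : ContDiff ℝ 1 u) (hv : ContDiff ℝ 1 v) (hvol : volume.real Ω ≠ 0)
    (t0 t1 t2 : ℝ) :
    ∫ x in Ω, (t0 + t1 * u x + t2 * v x) ^ 2
      = (t1 ^ 2 * cmass Ω u u + 2 * t1 * t2 * cmass Ω u v + t2 ^ 2 * cmass Ω v v)
        + (t0 + (t1 * (∫ x in Ω, u x) + t2 * ∫ x in Ω, v x) / volume.real Ω) ^ 2 * volume.real Ω := by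
  obtain ⟨c, hc⟩ : ∃ c, c = t0 + (t1 * (∫ x in Ω, u x) + t2 * ∫ x in Ω, v x) / volume.real Ω := ⟨_, rfl⟩
  have hcu := hu.continuous
  have hcv := hv.continuous
  have hcc : Continuous (comb Ω u v t1 t2) := by unfold comb; fun_prop
  have e : ∀ x, (t0 + t1 * u x + t2 * v x) ^ 2
      = (comb Ω u v t1 t2 x ^ 2 + (2 * c) * comb Ω u v t1 t2 x) + c ^ 2 := by
    intro x
    have : t0 + t1 * u x + t2 * v x = comb Ω u v t1 t2 x + c := by
      rw [hc]; unfold comb; ring
    rw [this]; ring
  simp_rw [e]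
  rw [iadd hK hΩK (by fun_prop) (by fun_prop), iadd hK hΩK (by fun_prop) (by fun_prop),
    integral_const_mul, int_comb hK hΩK hu hv hvol, mass_comb hK hΩK hu hv hvol, setIntegral_const, ← hc]
  simp; ring

/-- stiffness of `t0 + t1 u + t2 v` -/
theorem stiff_full (hu : ContDiff ℝ 1 u) (hv : ContDiff ℝ 1 v) (t0 t1 t2 : ℝ) :
    ∫ x in Ω, ‖fderiv ℝ (fun x => t0 + t1 * u x + t2 * v x) x‖ ^ 2
      = t1 ^ 2 * stiff Ω u u + 2 * t1 * t2 * stiff Ω u v + t2 ^ 2 * stiff Ω v v := by
  rw [← stiff_comb hK hΩK hu hv]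
  refine integral_congr_ae (Filter.Eventually.of_forall fun x => ?_)
  simp only
  have h1 := (hu.differentiable (by simp)) x
  have h2 := (hv.differentiable (by simp)) x
  rw [fderiv_comb Ω hu hv]
  have : fderiv ℝ (fun x => t0 + t1 * u x + t2 * v x) x = t1 • fderiv ℝ u x + t2 • fderiv ℝ v x := by
    rw [fderiv_fun_add ((h1.const_mul _).const_add _) (h2.const_mul _), fderiv_const_add,
      fderiv_const_mul h1, fderiv_const_mul h2]
  rw [this]

end

/-- What the trace inequality gives for the two spectral quantities. -/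
theorem spectral_upper {Ω K : Set E2} (hK : IsCompact K) (hΩK : Ω ⊆ K) (hΩ : IsOpen Ω)
    (hp : HasPair Ω) :
    ∃ θ1 θ2 : ℝ, 0 < θ1 ∧ 0 < θ2 ∧ 2 * volume.real Ω / Real.pi ^ 2 ≤ θ1 + θ2 ∧
      (∃ f : Fin 2 → E2 → ℝ, (∀ i, ContDiff ℝ 1 (f i)) ∧
        (∀ t : Fin 2 → ℝ, t ≠ 0 → 0 < ∫ x in Ω, (∑ i, t i * f i x) ^ 2) ∧ sSup (RS Ω 1 f) ≤ 1 / θ1) ∧
      (∃ f : Fin 3 → E2 → ℝ, (∀ i, ContDiff ℝ 1 (f i)) ∧
        (∀ t : Fin 3 → ℝ, t ≠ 0 → 0 < ∫ x in Ω, (∑ i, t i * f i x) ^ 2) ∧ sSup (RS Ω 2 f) ≤ 1 / θ2) := by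
  obtain ⟨u, v, hu', hv', ⟨x0, hx0, hind⟩, hW⟩ := hp
  have hu : ContDiff ℝ 1 u := hu'.of_le (by simp)
  have hv : ContDiff ℝ 1 v := hv'.of_le (by simp)
  have hV : 0 < volume.real Ω := by
    have h1 : 0 < volume Ω := hΩ.measure_pos volume ⟨x0, hx0⟩
    have h2 : volume Ω ≠ ⊤ := ((measure_mono hΩK).trans_lt hK.measure_lt_top).ne
    exact ENNReal.toReal_pos h1.ne' h2
  have hcc : ∀ c1 c2, Continuous (comb Ω u v c1 c2) := by
    intro c1 c2
    have := hu.continuous
    have := hv.continuous
    unfold comb; fun_prop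
  have hB : ∀ s t : ℝ, (s ≠ 0 ∨ t ≠ 0) →
      0 < s ^ 2 * cmass Ω u u + 2 * s * t * cmass Ω u v + t ^ 2 * cmass Ω v v := by
    intro c1 c2 hc
    rw [← mass_comb hK hΩK hu hv hV.ne']
    by_contra hneg
    push Not at hneg
    have hz := eq_zero_of_int_sq hΩ hK hΩK (hcc c1 c2) hneg
    have hev : comb Ω u v c1 c2 =ᶠ[nhds x0] fun _ => 0 := by
      filter_upwards [hΩ.mem_nhds hx0] with x hx using hz x hx
    have hf := hev.fderiv_eq (𝕜 := ℝ)
    rw [fderiv_comb Ω hu hv] at hf
    simp only [fderiv_fun_const, Pi.zero_apply] at hf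
    obtain ⟨h1, h2⟩ := hind c1 c2 hf
    rcases hc with hc | hc
    · exact hc h1
    · exact hc h2
  have hA : ∀ s t : ℝ, (s ≠ 0 ∨ t ≠ 0) →
      0 < s ^ 2 * stiff Ω u u + 2 * s * t * stiff Ω u v + t ^ 2 * stiff Ω v v := by
    intro c1 c2 hc
    rw [← stiff_comb hK hΩK hu hv]
    by_contra hneg
    push Not at hneg
    have hcf : Continuous fun x => ‖fderiv ℝ (comb Ω u v c1 c2) x‖ := by
      have h1 := hu.continuous_fderiv (by simp)
      have h2 := hv.continuous_fderiv (by simp)
      have e : (fun x => ‖fderiv ℝ (comb Ω u v c1 c2) x‖) = fun x => ‖c1 • fderiv ℝ u x + c2 • fderiv ℝ v x‖ :=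
        funext fun x => by rw [fderiv_comb Ω hu hv]
      rw [e]; fun_prop
    have hz := eq_zero_of_int_sq hΩ hK hΩK hcf hneg x0 hx0
    rw [norm_eq_zero, fderiv_comb Ω hu hv] at hz
    obtain ⟨h1, h2⟩ := hind c1 c2 hz
    rcases hc with hc | hc
    · exact hc h1
    · exact hc h2
  obtain ⟨hA1, hA2⟩ := pd_of_forall _ _ _ hA
  obtain ⟨hB1, hB2⟩ := pd_of_forall _ _ _ hB
  obtain ⟨θ1, θ2, h1, h2, hsum, hle, s, t, hst, heq⟩ := two_forms hA1 hA2 hB1 hB2
  refine ⟨θ1, θ2, h1, h2, ?_, ?_, ?_⟩
  · unfold Works at hW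
    rw [← hsum] at hW
    exact le_of_mul_le_mul_right hW hA2
  · -- the space spanned by 1 and s u + t v
    refine ⟨![fun _ => 1, fun x => s * u x + t * v x], ?_, ?_, ?_⟩
    · intro i
      fin_cases i
      · exact contDiff_const
      · show ContDiff ℝ 1 fun x => s * u x + t * v x
        fun_prop
    · intro c hc
      have e : ∀ x, (∑ i, c i * (![fun _ => 1, fun x => s * u x + t * v x] : Fin 2 → E2 → ℝ) i x) ^ 2
          = (c 0 + (c 1 * s) * u x + (c 1 * t) * v x) ^ 2 := by
        intro x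
        rw [Fin.sum_univ_two]
        simp; ring
      simp_rw [e]
      rw [mass_full hK hΩK hu hv hV.ne']
      by_cases hc1 : c 1 = 0
      · have hc0 : c 0 ≠ 0 := by
          intro h0
          apply hc
          ext i
          fin_cases i
          · exact h0
          · exact hc1
        rw [hc1]
        simp
        positivity
      · have h3 := hB (c 1 * s) (c 1 * t) (by
          rcases hst with h | h
          · exact Or.inl (mul_ne_zero hc1 h)
          · exact Or.inr (mul_ne_zero hc1 h))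
        positivity
    · refine csSup_le ?_ ?_
      · exact ⟨_, Pi.single 0 1, by
          intro h
          have := congrFun h 0
          simp at this, rfl⟩
      · rintro q ⟨c, hc, rfl⟩
        have e : ∀ x, (∑ i, c i * (![fun _ => 1, fun x => s * u x + t * v x] : Fin 2 → E2 → ℝ) i x)
            = (c 0 + (c 1 * s) * u x + (c 1 * t) * v x) := by
          intro x
          rw [Fin.sum_univ_two]
          simp; ring
        simp_rw [e]
        rw [mass_full hK hΩK hu hv hV.ne', stiff_full hK hΩK hu hv]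
        have e2 : θ1 * ((c 1 * s) ^ 2 * stiff Ω u u + 2 * (c 1 * s) * (c 1 * t) * stiff Ω u v
            + (c 1 * t) ^ 2 * stiff Ω v v)
            = (c 1 * s) ^ 2 * cmass Ω u u + 2 * (c 1 * s) * (c 1 * t) * cmass Ω u v
            + (c 1 * t) ^ 2 * cmass Ω v v := by
          linear_combination (c 1) ^ 2 * heq
        rw [← e2]
        generalize ((c 1 * s) ^ 2 * stiff Ω u u + 2 * (c 1 * s) * (c 1 * t) * stiff Ω u v
            + (c 1 * t) ^ 2 * stiff Ω v v) = N at *
        have hM : 0 ≤ (c 0 + (c 1 * s * (∫ x in Ω, u x) + c 1 * t * ∫ x in Ω, v x) / volume.real Ω) ^ 2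
          * volume.real Ω := by positivity
        generalize (c 0 + (c 1 * s * (∫ x in Ω, u x) + c 1 * t * ∫ x in Ω, v x) / volume.real Ω) ^ 2
          * volume.real Ω = M at *
        rcases le_or_gt (θ1 * N + M) 0 with h0 | h0
        · have hN : 0 ≤ N ∨ N < 0 := le_or_gt 0 N
          rcases hN with hN | hN
          · have : 0 ≤ θ1 * N := by positivity
            have : θ1 * N + M = 0 := by linarith
            rw [this]; simp; positivity
          · exfalso
            have hnn : 0 ≤ N := by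
              by_cases hcc : c 1 * s ≠ 0 ∨ c 1 * t ≠ 0
              · have := hB _ _ hcc
                rw [← e2] at this
                exact ((mul_pos_iff_of_pos_left h1).1 this).le
              · push Not at hcc
                rw [hcc.1, hcc.2] at e2
                simp at e2
                rcases e2 with e2 | e2
                · exact absurd e2 h1.ne'
                · exact e2.ge
            linarith
        · rw [div_le_div_iff₀ h0 h1]
          linarith
  · refine ⟨![fun _ => 1, u, v], ?_, ?_, ?_⟩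
    · intro i
      fin_cases i
      · exact contDiff_const
      · exact hu
      · exact hv
    · intro c hc
      have e : ∀ x, (∑ i, c i * (![fun _ => 1, u, v] : Fin 3 → E2 → ℝ) i x) ^ 2
          = (c 0 + c 1 * u x + c 2 * v x) ^ 2 := by
        intro x
        rw [Fin.sum_univ_three]
        simp
      simp_rw [e]
      rw [mass_full hK hΩK hu hv hV.ne']
      by_cases hc1 : c 1 ≠ 0 ∨ c 2 ≠ 0
      · have h3 := hB _ _ hc1
        positivity
      · push Not at hc1
        have hc0 : c 0 ≠ 0 := by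
          intro h0
          apply hc
          ext i
          fin_cases i
          · exact h0
          · exact hc1.1
          · exact hc1.2
        rw [hc1.1, hc1.2]
        simp
        positivity
    · refine csSup_le ?_ ?_
      · exact ⟨_, Pi.single 0 1, by
          intro h
          have := congrFun h 0
          simp at this, rfl⟩
      · rintro q ⟨c, hc, rfl⟩
        have e : ∀ x, (∑ i, c i * (![fun _ => 1, u, v] : Fin 3 → E2 → ℝ) i x)
            = (c 0 + c 1 * u x + c 2 * v x) := by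
          intro x
          rw [Fin.sum_univ_three]
          simp
        simp_rw [e]
        rw [mass_full hK hΩK hu hv hV.ne', stiff_full hK hΩK hu hv]
        have h3 := hle (c 1) (c 2)
        have hM : 0 ≤ (c 0 + (c 1 * (∫ x in Ω, u x) + c 2 * ∫ x in Ω, v x) / volume.real Ω) ^ 2
          * volume.real Ω := by positivity
        have hD : 0 < (c 1 ^ 2 * cmass Ω u u + 2 * c 1 * c 2 * cmass Ω u v + c 2 ^ 2 * cmass Ω v v)
            + (c 0 + (c 1 * (∫ x in Ω, u x) + c 2 * ∫ x in Ω, v x) / volume.real Ω) ^ 2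
          * volume.real Ω := by
          by_cases hc1 : c 1 ≠ 0 ∨ c 2 ≠ 0
          · have h3 := hB _ _ hc1
            positivity
          · push Not at hc1
            have hc0 : c 0 ≠ 0 := by
              intro h0
              apply hc
              ext i
              fin_cases i
              · exact h0
              · exact hc1.1
              · exact hc1.2
            rw [hc1.1, hc1.2]
            simp
            positivity
        rw [div_le_div_iff₀ hD h2]
        linarith

end Pool.Agent.Helper238
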